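import Pool.Agent.Work.MP_49847a_an.Rat.DgL
import Pool.Agent.Work.MP_49847a_an.Rat.Ban
import Pool.Agent.Work.MP_49847a_an.Rat.HullT

/-!
# Hypersurfaces `‖P‖ = ‖Q‖`, every signature: definitions

`P = (P_1, …, P_k)` and `Q = (Q_1, …, Q_l)` are families of holomorphic polynomials on `ℂⁿ`.

* `r2 P Q z = ‖P(z)‖² - ‖Q(z)‖²`, `X2 P Q = {z : ‖P(z)‖ = ‖Q(z)‖}`;
* `R2 P Q z w`: the polarisation `∑ P_j(z) conj(P_j(w)) - ∑ Q_j(z) conj(Q_j(w))`;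
* `Lead2 d P Q`: all degrees are at most `d` and `r2 P Q z ≥ δ ‖z‖^{2d}` near infinity
  (some `δ > 0`), that is, the leading part of bidegree `(d,d)` is positive;
* `dr2 P Q a v = ∂r(a) v`, `lev2 P Q a v`: the Levi form;
* `Sep2 P Q`: `R2 P Q a b ≠ 0` for all `a ≠ b` in the polynomial hull of `X2 P Q`
  (and, since `R2 P Q a a = r2 P Q a`, for all `a = b` in the hull outside `X2 P Q`, see below);
* `Levi2 P Q`: the Levi form is positive on the complex tangent vectors at the points of `X2 P Q`;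
* `Inn2 P Q`: `r2 P Q ≤ 0` on the part of the hull which is near `X2 P Q`;
* `Quillen2 P Q`: every real polynomial which is positive on `X2 P Q` is a sum of squared moduli of
  holomorphic polynomials modulo `r2 P Q`;
* `Generates2 P Q`: every real polynomial vanishing on `X2 P Q` is divisible by `r2 P Q`.
-/

namespace Pool.Agent.Work.MP_49847a_an

open MvPolynomial

/-- the real function `‖P(z)‖² - ‖Q(z)‖²` -/
noncomputable def r2 {n k l : ℕ} (P : Fin k → MvPolynomial (Fin n) ℂ)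
    (Q : Fin l → MvPolynomial (Fin n) ℂ) (z : Fin n → ℂ) : ℝ := nrm P z - nrm Q z

/-- the polarisation of `‖P‖² - ‖Q‖²` -/
noncomputable def R2 {n k l : ℕ} (P : Fin k → MvPolynomial (Fin n) ℂ)
    (Q : Fin l → MvPolynomial (Fin n) ℂ) (z w : Fin n → ℂ) : ℂ :=
  ∑ j, eval z (P j) * (starRingEnd ℂ) (eval w (P j)) -
    ∑ j, eval z (Q j) * (starRingEnd ℂ) (eval w (Q j))

/-- the set `‖P(z)‖ = ‖Q(z)‖` -/
def X2 {n k l : ℕ} (P : Fin k → MvPolynomial (Fin n) ℂ) (Q : Fin l → MvPolynomial (Fin n) ℂ) :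
    Set (Fin n → ℂ) := {z | r2 P Q z = 0}

/-- degrees at most `d`, and `‖P‖² - ‖Q‖² ≥ δ ‖z‖^{2d}` near infinity -/
def Lead2 {n k l : ℕ} (d : ℕ) (P : Fin k → MvPolynomial (Fin n) ℂ)
    (Q : Fin l → MvPolynomial (Fin n) ℂ) : Prop :=
  (∀ j, (P j).totalDegree ≤ d) ∧ (∀ j, (Q j).totalDegree ≤ d) ∧
    ∃ δ : ℝ, 0 < δ ∧ ∃ R₀ : ℝ, ∀ z, R₀ ≤ nn z → δ * nn z ^ d ≤ r2 P Q z

/-- `∂r(a) v` for `r = ‖P‖² - ‖Q‖²` -/
noncomputable def dr2 {n k l : ℕ} (P : Fin k → MvPolynomial (Fin n) ℂ)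
    (Q : Fin l → MvPolynomial (Fin n) ℂ) (a v : Fin n → ℂ) : ℂ :=
  ∑ j, dd P a v j * (starRingEnd ℂ) (eval a (P j)) -
    ∑ j, dd Q a v j * (starRingEnd ℂ) (eval a (Q j))

/-- the Levi form of `‖P‖² - ‖Q‖²` -/
noncomputable def lev2 {n k l : ℕ} (P : Fin k → MvPolynomial (Fin n) ℂ)
    (Q : Fin l → MvPolynomial (Fin n) ℂ) (a v : Fin n → ℂ) : ℝ :=
  ∑ j, ‖dd P a v j‖ ^ 2 - ∑ j, ‖dd Q a v j‖ ^ 2

/-- the polarised function has no zeros on pairs of different points of the hull -/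
def Sep2 {n k l : ℕ} (P : Fin k → MvPolynomial (Fin n) ℂ) (Q : Fin l → MvPolynomial (Fin n) ℂ) :
    Prop :=
  ∀ a ∈ hull (X2 P Q), ∀ b ∈ hull (X2 P Q), R2 P Q a b = 0 → a = b

/-- the Levi form is positive on complex tangent vectors -/
def Levi2 {n k l : ℕ} (P : Fin k → MvPolynomial (Fin n) ℂ) (Q : Fin l → MvPolynomial (Fin n) ℂ) :
    Prop :=
  ∀ a ∈ X2 P Q, ∀ v : Fin n → ℂ, v ≠ 0 → dr2 P Q a v = 0 → 0 < lev2 P Q a v

/-- `‖P‖² - ‖Q‖² ≤ 0` on the hull near `X2 P Q` -/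
def Inn2 {n k l : ℕ} (P : Fin k → MvPolynomial (Fin n) ℂ) (Q : Fin l → MvPolynomial (Fin n) ℂ) :
    Prop :=
  ∀ a ∈ X2 P Q, ∃ ε : ℝ, 0 < ε ∧ ∀ b ∈ hull (X2 P Q), nn (b - a) < ε → r2 P Q b ≤ 0

/-- the differential of `‖P‖² - ‖Q‖²` does not vanish on `X2 P Q` -/
def Smooth2 {n k l : ℕ} (P : Fin k → MvPolynomial (Fin n) ℂ)
    (Q : Fin l → MvPolynomial (Fin n) ℂ) : Prop :=
  ∀ a ∈ X2 P Q, ∃ v : Fin n → ℂ, dr2 P Q a v ≠ 0

/-- every real polynomial positive on `X2 P Q` is a Hermitian sum of squares modulo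
`‖P‖² - ‖Q‖²` -/
def Quillen2 {n k l : ℕ} (P : Fin k → MvPolynomial (Fin n) ℂ)
    (Q : Fin l → MvPolynomial (Fin n) ℂ) : Prop :=
  ∀ R : MvPolynomial (Fin n ⊕ Fin n) ℝ, (∀ z ∈ X2 P Q, 0 < ev R z) →
    ∃ (m : ℕ) (p : Fin m → MvPolynomial (Fin n) ℂ) (H : MvPolynomial (Fin n ⊕ Fin n) ℝ),
      ∀ z, ev R z = nrm p z + r2 P Q z * ev H z

/-- every real polynomial which vanishes on `X2 P Q` is a multiple of `‖P‖² - ‖Q‖²` -/
def Generates2 {n k l : ℕ} (P : Fin k → MvPolynomial (Fin n) ℂ)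
    (Q : Fin l → MvPolynomial (Fin n) ℂ) : Prop :=
  ∀ F : MvPolynomial (Fin n ⊕ Fin n) ℝ, (∀ z ∈ X2 P Q, ev F z = 0) →
    ∃ H : MvPolynomial (Fin n ⊕ Fin n) ℝ, ∀ z, ev F z = r2 P Q z * ev H z

/-! Auxiliary notions for the proof. -/

/-- `⟨z, w⟩ = ∑ z_i conj(w_i)` -/
noncomputable def ip {n : ℕ} (z w : Fin n → ℂ) : ℂ := ∑ i, z i * (starRingEnd ℂ) (w i)

/-- the second difference of a real polynomial, `F(z,z) + F(w,w) - 2 Re F(z,w)` -/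
noncomputable def Df {n : ℕ} (F : MvPolynomial (Fin n ⊕ Fin n) ℝ) (z w : Fin n → ℂ) : ℝ :=
  ev F z + ev F w - 2 * (pol F z w).re

/-- the determinant `F(z,z) F(w,w) - |F(z,w)|²` -/
noncomputable def Ff {n : ℕ} (F : MvPolynomial (Fin n ⊕ Fin n) ℝ) (z w : Fin n → ℂ) : ℝ :=
  ev F z * ev F w - ‖pol F z w‖ ^ 2

/-- the `2 × 2` matrix of the values of `F` at `z`, `w` is positive semidefinite -/
def Ps {n : ℕ} (F : MvPolynomial (Fin n ⊕ Fin n) ℝ) (z w : Fin n → ℂ) : Prop :=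
  0 ≤ ev F z ∧ 0 ≤ ev F w ∧ ‖pol F z w‖ ^ 2 ≤ ev F z * ev F w

/-- the same determinant for `1 + ‖z‖²` -/
noncomputable def fu {n : ℕ} (z w : Fin n → ℂ) : ℝ :=
  (1 + nn z) * (1 + nn w) - ‖1 + ip z w‖ ^ 2

/-- the second difference of a kernel -/
noncomputable def Dk {n : ℕ} (K : (Fin n → ℂ) → (Fin n → ℂ) → ℂ) (z w : Fin n → ℂ) : ℝ :=
  (K z z).re + (K w w).re - 2 * (K z w).re

/-- the kernel `(A - ⟨z, w⟩) R(z,w) / (η - R(z,w))` -/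
noncomputable def krn {n k l : ℕ} (P : Fin k → MvPolynomial (Fin n) ℂ)
    (Q : Fin l → MvPolynomial (Fin n) ℂ) (A η : ℝ) (z w : Fin n → ℂ) : ℂ :=
  ((A : ℂ) - ip z w) * R2 P Q z w / ((η : ℂ) - R2 P Q z w)

/-- `W = ‖h‖² + ε (1 + ‖z‖²)^e` with `deg h ≤ e` -/
def Big {n m : ℕ} (e : ℕ) (ε : ℝ) (h : Fin m → MvPolynomial (Fin n) ℂ)
    (W : MvPolynomial (Fin n ⊕ Fin n) ℝ) : Prop :=
  0 < e ∧ 0 < ε ∧ (∀ j, (h j).totalDegree ≤ e) ∧ ∀ z, ev W z = nrm h z + ε * (1 + nn z) ^ e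

end Pool.Agent.Work.MP_49847a_an
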