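import Pool.Agent.Work.MP_49847a_an.Sg.SDefs

/-!
# Module Kc: calculus of the `2 × 2` matrices of the values of Hermitian polynomials
-/

namespace Pool.Agent.Work.MP_49847a_an

open MvPolynomial

variable {n k l : ℕ}

theorem pol_conj (F : MvPolynomial (Fin n ⊕ Fin n) ℝ) (z w : Fin n → ℂ) :
    (starRingEnd ℂ) (pol F z w) = pol F w z := by
  unfold pol
  rw [← eval_map_conj]
  have h1 : map (starRingEnd ℂ) (map (algebraMap ℝ ℂ) F) = map (algebraMap ℝ ℂ) F := by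
    rw [MvPolynomial.map_map]
    have h2 : (starRingEnd ℂ).comp (algebraMap ℝ ℂ) = algebraMap ℝ ℂ := by
      ext x
      exact Complex.conj_ofReal x
    rw [h2]
  rw [h1]
  congr 2
  funext i
  have h2 : (starRingEnd ℂ) (2 : ℂ) = 2 := Complex.conj_ofNat 2
  rcases i with i | i
  · simp only [Sum.elim_inl, map_div₀, map_add, Complex.conj_conj]
    rw [add_comm, h2]
  · simp only [Sum.elim_inr, map_div₀, map_sub, Complex.conj_conj, map_mul, Complex.conj_I]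
    rw [h2]
    have hI : (2 * Complex.I) ≠ 0 := mul_ne_zero two_ne_zero Complex.I_ne_zero
    field_simp
    ring

theorem pol_pow (F : MvPolynomial (Fin n ⊕ Fin n) ℝ) (m : ℕ) (z w : Fin n → ℂ) :
    pol (F ^ m) z w = pol F z w ^ m := by
  simp [pol]

theorem pol_one (z w : Fin n → ℂ) : pol (1 : MvPolynomial (Fin n ⊕ Fin n) ℝ) z w = 1 := by
  simp [pol]

theorem pol_neg (F : MvPolynomial (Fin n ⊕ Fin n) ℝ) (z w : Fin n → ℂ) :
    pol (-F) z w = -pol F z w := by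
  simp [pol]

theorem pol_WW (c : ℝ) (z w : Fin n → ℂ) : pol (WW n c) z w = (c : ℂ) + ip z w := by
  unfold WW ip
  rw [pol_add, pol_C]
  congr 1
  unfold pol
  rw [map_sum, map_sum]
  refine Finset.sum_congr rfl fun i _ => ?_
  simp only [map_add, map_pow, eval_X, map_X, Sum.elim_inl, Sum.elim_inr]
  have hI : (Complex.I) ^ 2 = -1 := Complex.I_sq
  have hI0 : (2 * Complex.I) ≠ 0 := mul_ne_zero two_ne_zero Complex.I_ne_zero
  rw [div_pow, div_pow, mul_pow, hI]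
  ring

theorem pol_r2 {P : Fin k → MvPolynomial (Fin n) ℂ} {Q : Fin l → MvPolynomial (Fin n) ℂ}
    {F : MvPolynomial (Fin n ⊕ Fin n) ℝ} (h : ∀ z, ev F z = r2 P Q z) (z w : Fin n → ℂ) :
    pol F z w = R2 P Q z w := by
  obtain ⟨A, hA⟩ := exists_nrm P
  obtain ⟨B, hB⟩ := exists_nrm Q
  have hF : F = A - B := by
    apply ev_ext
    intro z
    rw [ev_sub, hA, hB, h z, r2]
  rw [hF, pol_sub, pol_nrm hA, pol_nrm hB, R2]

theorem exists_r2 (P : Fin k → MvPolynomial (Fin n) ℂ) (Q : Fin l → MvPolynomial (Fin n) ℂ) :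
    ∃ F : MvPolynomial (Fin n ⊕ Fin n) ℝ, ∀ z, ev F z = r2 P Q z := by
  obtain ⟨A, hA⟩ := exists_nrm P
  obtain ⟨B, hB⟩ := exists_nrm Q
  exact ⟨A - B, fun z => by rw [ev_sub, hA, hB, r2]⟩

theorem R2_conj (P : Fin k → MvPolynomial (Fin n) ℂ) (Q : Fin l → MvPolynomial (Fin n) ℂ)
    (z w : Fin n → ℂ) : (starRingEnd ℂ) (R2 P Q z w) = R2 P Q w z := by
  obtain ⟨F, hF⟩ := exists_r2 P Q
  rw [← pol_r2 hF, ← pol_r2 hF, pol_conj]

theorem R2_self (P : Fin k → MvPolynomial (Fin n) ℂ) (Q : Fin l → MvPolynomial (Fin n) ℂ)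
    (z : Fin n → ℂ) : R2 P Q z z = ((r2 P Q z : ℝ) : ℂ) := by
  obtain ⟨F, hF⟩ := exists_r2 P Q
  rw [← pol_r2 hF, pol_self, hF]

theorem R2_continuous (P : Fin k → MvPolynomial (Fin n) ℂ) (Q : Fin l → MvPolynomial (Fin n) ℂ) :
    Continuous (fun q : (Fin n → ℂ) × (Fin n → ℂ) => R2 P Q q.1 q.2) := by
  obtain ⟨F, hF⟩ := exists_r2 P Q
  have := pol_continuous F
  simpa only [pol_r2 hF] using this

theorem r2_continuous (P : Fin k → MvPolynomial (Fin n) ℂ) (Q : Fin l → MvPolynomial (Fin n) ℂ) :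
    Continuous (r2 P Q) := by
  obtain ⟨F, hF⟩ := exists_r2 P Q
  have : r2 P Q = ev F := funext fun z => (hF z).symm
  rw [this]
  exact ev_continuous F

theorem nn_continuous : Continuous (nn : (Fin n → ℂ) → ℝ) := by
  unfold nn
  fun_prop

theorem nn_sub_comm (z w : Fin n → ℂ) : nn (z - w) = nn (w - z) := by
  unfold nn
  refine Finset.sum_congr rfl fun i _ => ?_
  rw [Pi.sub_apply, Pi.sub_apply, norm_sub_rev]

theorem nn_smul (c : ℂ) (z : Fin n → ℂ) : nn (c • z) = ‖c‖ ^ 2 * nn z := by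
  unfold nn
  rw [Finset.mul_sum]
  refine Finset.sum_congr rfl fun i _ => ?_
  rw [Pi.smul_apply, smul_eq_mul, norm_mul, mul_pow]

theorem nn_eq_zero {z : Fin n → ℂ} : nn z = 0 ↔ z = 0 := by
  unfold nn
  rw [Finset.sum_eq_zero_iff_of_nonneg fun _ _ => by positivity]
  constructor
  · intro h
    funext i
    have := h i (Finset.mem_univ i)
    simpa using this
  · intro h i _
    rw [h]
    simp

theorem nn_add_le (z w : Fin n → ℂ) : nn (z + w) ≤ 2 * nn z + 2 * nn w := by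
  unfold nn
  rw [Finset.mul_sum, Finset.mul_sum, ← Finset.sum_add_distrib]
  refine Finset.sum_le_sum fun i _ => ?_
  rw [Pi.add_apply]
  have h1 := norm_add_le (z i) (w i)
  have h2 := norm_nonneg (z i + w i)
  nlinarith [sq_nonneg (‖z i‖ - ‖w i‖), norm_nonneg (z i), norm_nonneg (w i)]

theorem ip_self (z : Fin n → ℂ) : ip z z = ((nn z : ℝ) : ℂ) := by
  unfold ip nn
  push_cast
  refine Finset.sum_congr rfl fun i _ => ?_
  rw [Complex.mul_conj, Complex.normSq_eq_norm_sq]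
  push_cast
  rfl

theorem ip_conj (z w : Fin n → ℂ) : (starRingEnd ℂ) (ip z w) = ip w z := by
  unfold ip
  rw [map_sum]
  refine Finset.sum_congr rfl fun i _ => ?_
  rw [map_mul, Complex.conj_conj, mul_comm]

theorem ip_cs (z w : Fin n → ℂ) : ‖ip z w‖ ^ 2 ≤ nn z * nn w := by
  have h1 := cs_sum z (fun i => (starRingEnd ℂ) (w i))
  have h2 : ∑ i, ‖(starRingEnd ℂ) (w i)‖ ^ 2 = nn w :=
    Finset.sum_congr rfl fun i _ => by rw [RCLike.norm_conj]
  rw [h2] at h1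
  have h3 : ‖ip z w‖ ≤ Real.sqrt (nn z) * Real.sqrt (nn w) := h1
  calc ‖ip z w‖ ^ 2 ≤ (Real.sqrt (nn z) * Real.sqrt (nn w)) ^ 2 :=
        pow_le_pow_left₀ (norm_nonneg _) h3 2
    _ = nn z * nn w := by
        rw [mul_pow, Real.sq_sqrt (nn_nonneg z), Real.sq_sqrt (nn_nonneg w)]

theorem nn_sub (z w : Fin n → ℂ) : nn (z - w) = nn z + nn w - 2 * (ip z w).re := by
  unfold nn ip
  rw [Complex.re_sum, Finset.mul_sum, ← Finset.sum_add_distrib, ← Finset.sum_sub_distrib]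
  refine Finset.sum_congr rfl fun i _ => ?_
  rw [Pi.sub_apply, ← Complex.normSq_eq_norm_sq, ← Complex.normSq_eq_norm_sq,
    ← Complex.normSq_eq_norm_sq, Complex.normSq_sub]

theorem Ps_symm {F : MvPolynomial (Fin n ⊕ Fin n) ℝ} {z w : Fin n → ℂ} (h : Ps F z w) :
    Ps F w z := by
  refine ⟨h.2.1, h.1, ?_⟩
  rw [← pol_conj, RCLike.norm_conj, mul_comm]
  exact h.2.2

theorem Ps_C {c : ℝ} (hc : 0 ≤ c) (z w : Fin n → ℂ) :
    Ps (C c : MvPolynomial (Fin n ⊕ Fin n) ℝ) z w := by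
  refine ⟨by rwa [ev_C], by rwa [ev_C], ?_⟩
  rw [ev_C, ev_C, pol_C, Complex.norm_real, Real.norm_of_nonneg hc, sq]

theorem Ps_mul {F G : MvPolynomial (Fin n ⊕ Fin n) ℝ} {z w : Fin n → ℂ} (hF : Ps F z w)
    (hG : Ps G z w) : Ps (F * G) z w := by
  obtain ⟨h1, h2, h3⟩ := hF
  obtain ⟨g1, g2, g3⟩ := hG
  refine ⟨by rw [ev_mul]; positivity, by rw [ev_mul]; positivity, ?_⟩
  rw [ev_mul, ev_mul, pol_mul, norm_mul, mul_pow]
  calc ‖pol F z w‖ ^ 2 * ‖pol G z w‖ ^ 2 ≤ (ev F z * ev F w) * (ev G z * ev G w) :=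
        mul_le_mul h3 g3 (by positivity) (by positivity)
    _ = _ := by ring

theorem Ps_pow {F : MvPolynomial (Fin n ⊕ Fin n) ℝ} {z w : Fin n → ℂ} (hF : Ps F z w)
    (m : ℕ) : Ps (F ^ m) z w := by
  induction m with
  | zero =>
    rw [pow_zero, ← C_1]
    exact Ps_C zero_le_one z w
  | succ m ih =>
    rw [pow_succ]
    exact Ps_mul ih hF

theorem Ps_norm {F : MvPolynomial (Fin n ⊕ Fin n) ℝ} {z w : Fin n → ℂ} (hF : Ps F z w) :
    ‖pol F z w‖ ≤ Real.sqrt (ev F z) * Real.sqrt (ev F w) := by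
  rw [← Real.sqrt_mul hF.1]
  exact Real.le_sqrt_of_sq_le hF.2.2

theorem Ps_add {F G : MvPolynomial (Fin n ⊕ Fin n) ℝ} {z w : Fin n → ℂ} (hF : Ps F z w)
    (hG : Ps G z w) : Ps (F + G) z w := by
  have hF' := Ps_norm hF
  have hG' := Ps_norm hG
  obtain ⟨h1, h2, h3⟩ := hF
  obtain ⟨g1, g2, g3⟩ := hG
  refine ⟨by rw [ev_add]; positivity, by rw [ev_add]; positivity, ?_⟩
  rw [ev_add, ev_add, pol_add]
  have h4 : ‖pol F z w + pol G z w‖ ≤ Real.sqrt (ev F z) * Real.sqrt (ev F w) +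
      Real.sqrt (ev G z) * Real.sqrt (ev G w) := (norm_add_le _ _).trans (add_le_add hF' hG')
  have h5 := pow_le_pow_left₀ (norm_nonneg _) h4 2
  have s1 := Real.sq_sqrt h1
  have s2 := Real.sq_sqrt h2
  have s3 := Real.sq_sqrt g1
  have s4 := Real.sq_sqrt g2
  set a := Real.sqrt (ev F z)
  set b := Real.sqrt (ev F w)
  set c := Real.sqrt (ev G z)
  set d := Real.sqrt (ev G w)
  rw [← s1, ← s2, ← s3, ← s4]
  nlinarith [sq_nonneg (a * d - b * c)]

theorem Ps_sum {ι : Type*} (s : Finset ι) {F : ι → MvPolynomial (Fin n ⊕ Fin n) ℝ}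
    {z w : Fin n → ℂ} (h : ∀ i ∈ s, Ps (F i) z w) : Ps (∑ i ∈ s, F i) z w := by
  classical
  induction s using Finset.induction_on with
  | empty =>
    rw [Finset.sum_empty, ← C_0]
    exact Ps_C le_rfl z w
  | insert a s ha ih =>
    rw [Finset.sum_insert ha]
    exact Ps_add (h a (Finset.mem_insert_self a s))
      (ih fun i hi => h i (Finset.mem_insert_of_mem hi))

theorem Ps_nrm {m : ℕ} {p : Fin m → MvPolynomial (Fin n) ℂ}
    {F : MvPolynomial (Fin n ⊕ Fin n) ℝ} (h : ∀ z, ev F z = nrm p z) (z w : Fin n → ℂ) :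
    Ps F z w := by
  refine ⟨by rw [h]; exact nrm_nonneg p z, by rw [h]; exact nrm_nonneg p w, ?_⟩
  rw [h, h, pol_nrm h]
  have h1 := cs_sum (fun j => eval z (p j)) (fun j => (starRingEnd ℂ) (eval w (p j)))
  have h2 : ∑ j, ‖(starRingEnd ℂ) (eval w (p j))‖ ^ 2 = nrm p w :=
    Finset.sum_congr rfl fun i _ => by rw [RCLike.norm_conj]
  rw [h2] at h1
  calc ‖∑ j, eval z (p j) * (starRingEnd ℂ) (eval w (p j))‖ ^ 2 ≤
        (Real.sqrt (nrm p z) * Real.sqrt (nrm p w)) ^ 2 :=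
        pow_le_pow_left₀ (norm_nonneg _) h1 2
    _ = nrm p z * nrm p w := by
        rw [mul_pow, Real.sq_sqrt (nrm_nonneg p z), Real.sq_sqrt (nrm_nonneg p w)]

theorem Ps_WW {c : ℝ} (hc : 0 ≤ c) (z w : Fin n → ℂ) : Ps (WW n c) z w := by
  obtain ⟨m, p, _, hp⟩ := exists_nrm_WW (n := n) hc
  exact Ps_nrm (fun z => by rw [ev_WW, hp]) z w

theorem Df_add (F G : MvPolynomial (Fin n ⊕ Fin n) ℝ) (z w : Fin n → ℂ) :
    Df (F + G) z w = Df F z w + Df G z w := by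
  unfold Df
  rw [ev_add, ev_add, pol_add, Complex.add_re]
  ring

theorem Df_sub (F G : MvPolynomial (Fin n ⊕ Fin n) ℝ) (z w : Fin n → ℂ) :
    Df (F - G) z w = Df F z w - Df G z w := by
  unfold Df
  rw [ev_sub, ev_sub, pol_sub, Complex.sub_re]
  ring

theorem Df_C (c : ℝ) (z w : Fin n → ℂ) :
    Df (C c : MvPolynomial (Fin n ⊕ Fin n) ℝ) z w = 0 := by
  unfold Df
  rw [ev_C, ev_C, pol_C, Complex.ofReal_re]
  ring

theorem Df_C_mul (c : ℝ) (F : MvPolynomial (Fin n ⊕ Fin n) ℝ) (z w : Fin n → ℂ) :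
    Df (C c * F) z w = c * Df F z w := by
  unfold Df
  rw [ev_mul, ev_mul, ev_C, ev_C, pol_mul, pol_C, Complex.re_ofReal_mul]
  ring

theorem Df_symm (F : MvPolynomial (Fin n ⊕ Fin n) ℝ) (z w : Fin n → ℂ) :
    Df F z w = Df F w z := by
  unfold Df
  rw [← pol_conj F w z, Complex.conj_re]
  ring

theorem Df_WW (c : ℝ) (z w : Fin n → ℂ) : Df (WW n c) z w = nn (z - w) := by
  unfold Df
  rw [ev_WW, ev_WW, pol_WW, nn_sub, Complex.add_re, Complex.ofReal_re]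
  ring

theorem Df_sqrt {F : MvPolynomial (Fin n ⊕ Fin n) ℝ} {z w : Fin n → ℂ} (hF : Ps F z w) :
    (Real.sqrt (ev F w) - Real.sqrt (ev F z)) ^ 2 ≤ Df F z w := by
  have h := Ps_norm hF
  have h1 := (Complex.re_le_norm (pol F z w)).trans h
  have s1 := Real.sq_sqrt hF.1
  have s2 := Real.sq_sqrt hF.2.1
  unfold Df
  nlinarith

theorem Df_nonneg {F : MvPolynomial (Fin n ⊕ Fin n) ℝ} {z w : Fin n → ℂ} (hF : Ps F z w) :
    0 ≤ Df F z w := (sq_nonneg _).trans (Df_sqrt hF)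

theorem Df_mono {F G : MvPolynomial (Fin n ⊕ Fin n) ℝ} {z w : Fin n → ℂ}
    (h : Ps (F - G) z w) : Df G z w ≤ Df F z w := by
  have := Df_nonneg h
  rw [Df_sub] at this
  linarith

theorem Ff_nonneg {F : MvPolynomial (Fin n ⊕ Fin n) ℝ} {z w : Fin n → ℂ} (hF : Ps F z w) :
    0 ≤ Ff F z w := by
  unfold Ff
  linarith [hF.2.2]

theorem Ff_symm (F : MvPolynomial (Fin n ⊕ Fin n) ℝ) (z w : Fin n → ℂ) :
    Ff F z w = Ff F w z := by
  unfold Ff
  rw [← pol_conj F w z, RCLike.norm_conj]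
  ring

theorem Ff_add_le {F G : MvPolynomial (Fin n ⊕ Fin n) ℝ} {z w : Fin n → ℂ} (hF : Ps F z w)
    (hG : Ps G z w) : Ff F z w + Ff G z w ≤ Ff (F + G) z w := by
  have hF' := Ps_norm hF
  have hG' := Ps_norm hG
  obtain ⟨h1, h2, h3⟩ := hF
  obtain ⟨g1, g2, g3⟩ := hG
  unfold Ff
  rw [ev_add, ev_add, pol_add]
  have h4 : ‖pol F z w + pol G z w‖ ^ 2 ≤ ‖pol F z w‖ ^ 2 + ‖pol G z w‖ ^ 2 +
      2 * (‖pol F z w‖ * ‖pol G z w‖) := by
    have := norm_add_le (pol F z w) (pol G z w)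
    have := pow_le_pow_left₀ (norm_nonneg _) this 2
    nlinarith
  have s1 := Real.sq_sqrt h1
  have s2 := Real.sq_sqrt h2
  have s3 := Real.sq_sqrt g1
  have s4 := Real.sq_sqrt g2
  have h5 : ‖pol F z w‖ * ‖pol G z w‖ ≤ (Real.sqrt (ev F z) * Real.sqrt (ev F w)) *
      (Real.sqrt (ev G z) * Real.sqrt (ev G w)) :=
    mul_le_mul hF' hG' (norm_nonneg _) (by positivity)
  set a := Real.sqrt (ev F z)
  set b := Real.sqrt (ev F w)
  set c := Real.sqrt (ev G z)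
  set d := Real.sqrt (ev G w)
  rw [← s1, ← s2, ← s3, ← s4] at *
  nlinarith [sq_nonneg (a * d - b * c)]

theorem Ff_mono {F G : MvPolynomial (Fin n ⊕ Fin n) ℝ} {z w : Fin n → ℂ}
    (h : Ps (F - G) z w) (hG : Ps G z w) : Ff G z w ≤ Ff F z w := by
  have h1 := Ff_add_le h hG
  have h2 := Ff_nonneg h
  rw [sub_add_cancel] at h1
  linarith

theorem Df_r2 {P : Fin k → MvPolynomial (Fin n) ℂ} {Q : Fin l → MvPolynomial (Fin n) ℂ}
    {F : MvPolynomial (Fin n ⊕ Fin n) ℝ} (h : ∀ z, ev F z = r2 P Q z) (z w : Fin n → ℂ) :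
    Df F z w = ∑ j, ‖eval z (P j) - eval w (P j)‖ ^ 2 -
      ∑ j, ‖eval z (Q j) - eval w (Q j)‖ ^ 2 := by
  have key : ∀ {m : ℕ} (p : Fin m → MvPolynomial (Fin n) ℂ),
      ∑ j, ‖eval z (p j) - eval w (p j)‖ ^ 2 = nrm p z + nrm p w -
        2 * (∑ j, eval z (p j) * (starRingEnd ℂ) (eval w (p j))).re := by
    intro m p
    unfold nrm
    rw [Complex.re_sum, Finset.mul_sum, ← Finset.sum_add_distrib, ← Finset.sum_sub_distrib]
    refine Finset.sum_congr rfl fun i _ => ?_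
    rw [← Complex.normSq_eq_norm_sq, ← Complex.normSq_eq_norm_sq,
      ← Complex.normSq_eq_norm_sq, Complex.normSq_sub]
  unfold Df
  rw [h, h, pol_r2 h, key P, key Q, r2, r2, R2, Complex.sub_re]
  ring

end Pool.Agent.Work.MP_49847a_an
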