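import Pool.Agent.Work.MP_49847a_an.Sg.BigL

/-!
# Module HullA: polynomial hulls

Proof.
(hull_compact) `hull X` is an intersection of closed sets `{a : ‖eval a p‖ ≤ c}`.  If `X` is empty, `hull X` is
empty (`p = 1`, `c = 0`: `‖1‖ ≤ 0` is false).  Otherwise it is bounded: `|a_i| ≤ sup_X |z_i|`.
(hull_hull) a bound on `X` is a bound on `hull X` by definition.
(X2_compact) closed (`r2_continuous`); bounded: `r2 ≥ δ nn^d > 0` for `nn z ≥ max R₀ 1`.
(r2_le_compact) the same for `{r2 ≤ b}`, `0 < d`: `δ nn z ≤ δ nn z ^ d ≤ b` for `nn z ≥ max R₀ 1`.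
-/

namespace Pool.Agent.Work.MP_49847a_an

open MvPolynomial

variable {n k l d : ℕ} {P : Fin k → MvPolynomial (Fin n) ℂ} {Q : Fin l → MvPolynomial (Fin n) ℂ}

theorem hull_compact {X : Set (Fin n → ℂ)} (hX : IsCompact X) : IsCompact (hull X) := by
  have hcl : IsClosed (hull X) := by
    have h1 : hull X = ⋂ (p : MvPolynomial (Fin n) ℂ) (c : ℝ) (_ : ∀ z ∈ X, ‖eval z p‖ ≤ c),
        {a : Fin n → ℂ | ‖eval a p‖ ≤ c} := by
      ext a
      simp only [hull, Set.mem_ofPred_eq, Set.mem_iInter]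
    rw [h1]
    refine isClosed_iInter fun p => isClosed_iInter fun c => isClosed_iInter fun _ => ?_
    exact isClosed_le (p.continuous_eval.norm) continuous_const
  obtain ⟨C, hC⟩ := hX.isBounded.exists_norm_le
  refine Metric.isCompact_of_isClosed_isBounded hcl ?_
  refine Metric.isBounded_closedBall.subset (s := hull X)
    (t := Metric.closedBall (0 : Fin n → ℂ) |C|) ?_
  intro a ha
  rw [Metric.mem_closedBall, dist_zero_right, pi_norm_le_iff_of_nonneg (abs_nonneg C)]
  intro i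
  have h1 := ha (MvPolynomial.X i) |C| (by
    intro z hz
    rw [eval_X]
    exact (norm_le_pi_norm z i).trans ((hC z hz).trans (le_abs_self C)))
  rwa [eval_X] at h1

theorem hull_hull (X : Set (Fin n → ℂ)) : hull (hull X) ⊆ hull X := by
  intro a ha p c hc
  exact ha p c (fun z hz => hz p c hc)

theorem r2_le_compact (hd : 0 < d) (hL : Lead2 d P Q) (b : ℝ) : IsCompact {z | r2 P Q z ≤ b} := by
  obtain ⟨_, _, δ, hδ, R₀, hR⟩ := hL
  refine (nn_cpt (max (max R₀ 1) (b / δ))).of_isClosed_subset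
    (isClosed_le (r2_continuous P Q) continuous_const) ?_
  intro z hz
  rw [Set.mem_ofPred_eq] at hz ⊢
  by_contra hcon
  rw [not_le, max_lt_iff, max_lt_iff] at hcon
  obtain ⟨⟨h1, h2⟩, h3⟩ := hcon
  have h4 := hR z h1.le
  have h5 : nn z ≤ nn z ^ d := le_self_pow₀ h2.le hd.ne'
  have h6 : δ * nn z ≤ δ * nn z ^ d := mul_le_mul_of_nonneg_left h5 hδ.le
  rw [div_lt_iff₀ hδ] at h3
  have h7 : nn z * δ = δ * nn z := mul_comm _ _
  linarith

theorem X2_compact (hd : 0 < d) (hL : Lead2 d P Q) : IsCompact (X2 P Q) := by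
  refine (r2_le_compact hd hL 0).of_isClosed_subset
    (isClosed_eq (r2_continuous P Q) continuous_const) ?_
  intro z hz
  have h1 : r2 P Q z = 0 := hz
  exact h1.le

end Pool.Agent.Work.MP_49847a_an
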