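import Pool.Agent.Work.MP_49847a_an.Sg.Tay

/-!
# Module LevN: the Levi form near `X2 P Q`

Proof.  `S = {v : nn v = 1}` is compact, `Y = X2 P Q` is compact (hypothesis).
(1) There are `c > 0`, `M ≥ 0` with `lev2 a v + M ‖dr2 a v‖² ≥ 2 c` for `a ∈ Y`, `v ∈ S`: otherwise for every
`j` there are `(a_j, v_j) ∈ Y × S` with `lev2 a_j v_j + j ‖dr2 a_j v_j‖² < 1/(j+1)`; a limit point
`(a, v)` of the sequence has `dr2 a v = 0` (`lev2` is bounded on the compact set) and `lev2 a v ≤ 0`,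
contradiction to `Levi2` (`v ≠ 0` since `nn v = 1`).  (Or: the compact set `{(a,v) ∈ Y × S : lev2 a v ≤ c}` with
`c` the minimum of ... ; any compactness argument.)
(2) `(z, v) ↦ lev2 z v + M ‖dr2 z v‖²` is continuous; the compact set `Y × S` is contained in the open set
where it is `> c`; by the tube lemma (`generalized_tube_lemma`) there is an open `V ⊃ Y` with `V × S` in this
open set, and `V` contains a neighbourhood `{z : ∃ a ∈ Y, nn (z - a) < δ}` (as in `Big_nbhd`).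
(3) scaling in `v`: `v = √(nn v) v'` (`nn_smul`, `dd` linear in `v`), `v = 0` trivial.
-/

namespace Pool.Agent.Work.MP_49847a_an

open MvPolynomial

variable {n k l : ℕ} {P : Fin k → MvPolynomial (Fin n) ℂ} {Q : Fin l → MvPolynomial (Fin n) ℂ}

private theorem ddN_smul (P : Fin k → MvPolynomial (Fin n) ℂ) (a v : Fin n → ℂ) (c : ℂ)
    (j : Fin k) : dd P a (c • v) j = c * dd P a v j := by
  unfold dd
  rw [Finset.mul_sum]
  refine Finset.sum_congr rfl fun i _ => ?_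
  rw [Pi.smul_apply, smul_eq_mul]
  ring

private theorem levN_smul (z v : Fin n → ℂ) (c : ℂ) :
    lev2 P Q z (c • v) = ‖c‖ ^ 2 * lev2 P Q z v := by
  unfold lev2
  rw [mul_sub, Finset.mul_sum, Finset.mul_sum]
  congr 1
  · refine Finset.sum_congr rfl fun j _ => ?_
    rw [ddN_smul, norm_mul, mul_pow]
  · refine Finset.sum_congr rfl fun j _ => ?_
    rw [ddN_smul, norm_mul, mul_pow]

private theorem drN_smul (z v : Fin n → ℂ) (c : ℂ) :
    dr2 P Q z (c • v) = c * dr2 P Q z v := by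
  unfold dr2
  rw [mul_sub, Finset.mul_sum, Finset.mul_sum]
  congr 1
  · refine Finset.sum_congr rfl fun j _ => ?_
    rw [ddN_smul]
    ring
  · refine Finset.sum_congr rfl fun j _ => ?_
    rw [ddN_smul]
    ring

private theorem evN_cont (p : MvPolynomial (Fin n) ℂ) :
    Continuous (fun x : (Fin n → ℂ) × (Fin n → ℂ) => eval x.1 p) :=
  (MvPolynomial.continuous_eval p).comp continuous_fst

private theorem ddN_cont (P : Fin k → MvPolynomial (Fin n) ℂ) (j : Fin k) :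
    Continuous (fun x : (Fin n → ℂ) × (Fin n → ℂ) => dd P x.1 x.2 j) := by
  unfold dd
  refine continuous_finsetSum _ fun i _ => ?_
  exact (evN_cont _).mul ((continuous_apply i).comp continuous_snd)

private theorem levN_cont (P : Fin k → MvPolynomial (Fin n) ℂ) (Q : Fin l → MvPolynomial (Fin n) ℂ) :
    Continuous (fun x : (Fin n → ℂ) × (Fin n → ℂ) => lev2 P Q x.1 x.2) := by
  unfold lev2
  refine Continuous.sub ?_ ?_
  · exact continuous_finsetSum _ fun j _ => (ddN_cont P j).norm.pow 2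
  · exact continuous_finsetSum _ fun j _ => (ddN_cont Q j).norm.pow 2

private theorem drN_cont (P : Fin k → MvPolynomial (Fin n) ℂ) (Q : Fin l → MvPolynomial (Fin n) ℂ) :
    Continuous (fun x : (Fin n → ℂ) × (Fin n → ℂ) => dr2 P Q x.1 x.2) := by
  unfold dr2
  refine Continuous.sub ?_ ?_
  · exact continuous_finsetSum _ fun j _ => (ddN_cont P j).mul
      (Complex.continuous_conj.comp (evN_cont (P j)))
  · exact continuous_finsetSum _ fun j _ => (ddN_cont Q j).mul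
      (Complex.continuous_conj.comp (evN_cont (Q j)))

private theorem normN_le (x : Fin n → ℂ) {δ : ℝ} (hδ : 0 < δ) (h : nn x < δ ^ 2) : ‖x‖ < δ := by
  rw [pi_norm_lt_iff hδ]
  intro i
  have h1 : ‖x i‖ ^ 2 ≤ nn x := by
    unfold nn
    exact Finset.single_le_sum (f := fun i => ‖x i‖ ^ 2) (fun i _ => by positivity)
      (Finset.mem_univ i)
  have h2 : ‖x i‖ ^ 2 < δ ^ 2 := lt_of_le_of_lt h1 h
  exact lt_of_pow_lt_pow_left₀ 2 hδ.le h2

theorem levN (hX : IsCompact (X2 P Q)) (hl : Levi2 P Q) : ∃ δ c M : ℝ, 0 < δ ∧ 0 < c ∧ 0 ≤ M ∧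
    ∀ a ∈ X2 P Q, ∀ z, nn (z - a) < δ → ∀ v,
      c * nn v ≤ lev2 P Q z v + M * ‖dr2 P Q z v‖ ^ 2 := by
  have hS : IsCompact {v : Fin n → ℂ | nn v = 1} := by
    refine (nn_cpt (n := n) 1).of_isClosed_subset (isClosed_eq nn_continuous continuous_const) ?_
    intro v hv
    exact le_of_eq hv
  have hK := hX.prod hS
  let U : ℕ → Set ((Fin n → ℂ) × (Fin n → ℂ)) := fun m =>
    {x | 1 / ((m : ℝ) + 1) < lev2 P Q x.1 x.2 + (m : ℝ) * ‖dr2 P Q x.1 x.2‖ ^ 2}
  have hUo : ∀ m, IsOpen (U m) := fun m =>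
    isOpen_lt continuous_const ((levN_cont P Q).add (continuous_const.mul
      ((drN_cont P Q).norm.pow 2)))
  have hUm : Monotone U := by
    intro m m' hmm x hx
    have h1 : (m : ℝ) ≤ m' := by exact_mod_cast hmm
    have h2 : 1 / ((m' : ℝ) + 1) ≤ 1 / ((m : ℝ) + 1) :=
      one_div_le_one_div_of_le (by positivity) (by linarith)
    have h3 : (m : ℝ) * ‖dr2 P Q x.1 x.2‖ ^ 2 ≤ (m' : ℝ) * ‖dr2 P Q x.1 x.2‖ ^ 2 :=
      mul_le_mul_of_nonneg_right h1 (by positivity)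
    have h4 : 1 / ((m : ℝ) + 1) < lev2 P Q x.1 x.2 + (m : ℝ) * ‖dr2 P Q x.1 x.2‖ ^ 2 := hx
    show 1 / ((m' : ℝ) + 1) < lev2 P Q x.1 x.2 + (m' : ℝ) * ‖dr2 P Q x.1 x.2‖ ^ 2
    linarith
  have hcov : X2 P Q ×ˢ {v : Fin n → ℂ | nn v = 1} ⊆ ⋃ m, U m := by
    rintro ⟨a, v⟩ ⟨ha, hv⟩
    rw [Set.mem_iUnion]
    have hv' : nn v = 1 := hv
    have ha' : a ∈ X2 P Q := ha
    by_cases h0 : dr2 P Q a v = 0
    · have h1 : 0 < lev2 P Q a v := by
        refine hl a ha' v ?_ h0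
        intro h2
        rw [nn_eq_zero.2 h2] at hv'
        exact zero_ne_one hv'
      obtain ⟨m, hm⟩ := exists_nat_one_div_lt h1
      refine ⟨m, ?_⟩
      show 1 / ((m : ℝ) + 1) < lev2 P Q a v + (m : ℝ) * ‖dr2 P Q a v‖ ^ 2
      rw [h0, norm_zero]
      simpa using hm
    · have h1 : 0 < ‖dr2 P Q a v‖ ^ 2 := by positivity
      obtain ⟨m, hm⟩ := exists_nat_gt ((1 - lev2 P Q a v) / ‖dr2 P Q a v‖ ^ 2)
      refine ⟨m, ?_⟩
      show 1 / ((m : ℝ) + 1) < lev2 P Q a v + (m : ℝ) * ‖dr2 P Q a v‖ ^ 2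
      rw [div_lt_iff₀ h1] at hm
      have h2 : 1 / ((m : ℝ) + 1) ≤ 1 := by
        rw [div_le_one (by positivity)]
        have : (0 : ℝ) ≤ m := Nat.cast_nonneg m
        linarith
      linarith
  obtain ⟨m, hm⟩ := hK.elim_directed_cover U hUo hcov
    (directed_of_isDirected_le hUm)
  obtain ⟨u, w, hu, hw, hYu, hSw, huw⟩ := generalized_tube_lemma hX hS (hUo m) hm
  obtain ⟨δ, hδ, hδu⟩ := hX.exists_thickening_subset_open hu hYu
  refine ⟨δ ^ 2, 1 / ((m : ℝ) + 1), m, by positivity, by positivity, Nat.cast_nonneg m, ?_⟩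
  intro a ha z hz v
  have hzu : z ∈ u := by
    apply hδu
    rw [Metric.mem_thickening_iff]
    refine ⟨a, ha, ?_⟩
    rw [dist_eq_norm]
    exact normN_le _ hδ hz
  by_cases hv : v = 0
  · subst hv
    have h1 : nn (0 : Fin n → ℂ) = 0 := nn_eq_zero.2 rfl
    have h2 : lev2 P Q z 0 = 0 := by
      have := levN_smul (P := P) (Q := Q) z 0 0
      rw [zero_smul] at this
      rw [this]
      simp
    rw [h1, h2, mul_zero, zero_add]
    positivity
  · have h1 : 0 < nn v := lt_of_le_of_ne (nn_nonneg v) (fun h => hv (nn_eq_zero.1 h.symm))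
    set s : ℝ := Real.sqrt (nn v) with hs
    have hs0 : 0 < s := Real.sqrt_pos.2 h1
    have hs2 : s ^ 2 = nn v := Real.sq_sqrt h1.le
    have hn : ‖((s⁻¹ : ℝ) : ℂ)‖ = s⁻¹ := by
      rw [Complex.norm_real, Real.norm_eq_abs, abs_of_pos (inv_pos.2 hs0)]
    have h2 : nn (((s⁻¹ : ℝ) : ℂ) • v) = 1 := by
      rw [nn_smul, hn, ← hs2]
      field_simp
    have h3 : (z, ((s⁻¹ : ℝ) : ℂ) • v) ∈ U m := huw ⟨hzu, hSw h2⟩
    have h4 : 1 / ((m : ℝ) + 1) < lev2 P Q z (((s⁻¹ : ℝ) : ℂ) • v) +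
      (m : ℝ) * ‖dr2 P Q z (((s⁻¹ : ℝ) : ℂ) • v)‖ ^ 2 := h3
    rw [levN_smul, drN_smul, norm_mul, hn] at h4
    have h5 : s ^ 2 * (1 / ((m : ℝ) + 1)) ≤ s ^ 2 * ((s⁻¹) ^ 2 * lev2 P Q z v +
        (m : ℝ) * (s⁻¹ * ‖dr2 P Q z v‖) ^ 2) :=
      mul_le_mul_of_nonneg_left h4.le (by positivity)
    have h6 : s ^ 2 * ((s⁻¹) ^ 2 * lev2 P Q z v + (m : ℝ) * (s⁻¹ * ‖dr2 P Q z v‖) ^ 2) =
        lev2 P Q z v + (m : ℝ) * ‖dr2 P Q z v‖ ^ 2 := by
      field_simp
    rw [h6, hs2] at h5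
    rw [mul_comm]
    exact h5

end Pool.Agent.Work.MP_49847a_an
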