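import Pool.Agent.Work.MP_49847a_an.Sg.BigL

/-!
# Module Tay: Taylor estimates for `‖P‖² - ‖Q‖²` on bounded sets

Proof.
(tay_one) for one polynomial `p` (write `D p z v = ∑ i, eval z (pderiv i p) * v i`): for every `R` there is `M`
with, for `nn z ≤ R`, `nn w ≤ R` and all `v`:
`|p(w) - p(z) - D p z (w - z)| ≤ M nn (w - z)`, `|p(w) - p(z)|² ≤ M nn (w - z)`, `|p(z)| ≤ M`,
`|D p z v|² ≤ M nn v`.  Induction on `p` (`MvPolynomial.induction_on`): constants, sums; products `p * X i`: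
`p(w) w_i - p(z) z_i = (p(w) - p(z)) z_i + p(w) (w_i - z_i)`, `D (p X_i) z v = z_i D p z v + p(z) v_i`, so the
first difference is `(p(w) - p(z) - D p z (w - z)) z_i + (p(w) - p(z)) (w_i - z_i)`.
(tay) maximum over the finite family.
(tay2) `D2 = ∑ |P_j(w) - P_j(z)|² - ∑ |Q_j(w) - Q_j(z)|²` (`Df_r2` for a polynomial `F` from `exists_r2`, or
expand), `R2 P Q w z - r2 P Q z = ∑ (P_j(w) - P_j(z)) conj P_j(z) - …`, `R2 - r2 - dr2 (w - z) =
∑ (P_j(w) - P_j(z) - dP_j(z)(w-z)) conj P_j(z) - …`; `||A|² - |B|²| ≤ |A - B| (|A| + |B|)`;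
`r2(w) - r2(z) = 2 Re (R2 w z - r2 z) + D2`.
-/

namespace Pool.Agent.Work.MP_49847a_an

open MvPolynomial

variable {n k l : ℕ}

/-- the second difference of `‖P‖² - ‖Q‖²` -/
noncomputable def D2 (P : Fin k → MvPolynomial (Fin n) ℂ) (Q : Fin l → MvPolynomial (Fin n) ℂ)
    (z w : Fin n → ℂ) : ℝ := r2 P Q z + r2 P Q w - 2 * (R2 P Q z w).re

private noncomputable def tayD (p : MvPolynomial (Fin n) ℂ) (z v : Fin n → ℂ) : ℂ :=
  ∑ i, eval z (pderiv i p) * v i

private def TayP (p : MvPolynomial (Fin n) ℂ) (R M : ℝ) : Prop :=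
  ∀ z w : Fin n → ℂ, nn z ≤ R → nn w ≤ R →
    ‖eval w p - eval z p - tayD p z (w - z)‖ ≤ M * nn (w - z) ∧
    ‖eval w p - eval z p‖ ^ 2 ≤ M * nn (w - z) ∧ ‖eval z p‖ ≤ M ∧
    ∀ v, ‖tayD p z v‖ ^ 2 ≤ M * nn v

private theorem tay_sq (z : Fin n → ℂ) (i : Fin n) : ‖z i‖ ^ 2 ≤ nn z :=
  Finset.single_le_sum (f := fun i => ‖z i‖ ^ 2) (fun i _ => by positivity) (Finset.mem_univ i)

private theorem tay_add_sq (x y : ℂ) : ‖x + y‖ ^ 2 ≤ 2 * ‖x‖ ^ 2 + 2 * ‖y‖ ^ 2 := by
  have h := norm_add_le x y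
  have h1 : ‖x + y‖ ^ 2 ≤ (‖x‖ + ‖y‖) ^ 2 := pow_le_pow_left₀ (norm_nonneg _) h 2
  nlinarith [sq_nonneg (‖x‖ - ‖y‖)]

private theorem tay_one (p : MvPolynomial (Fin n) ℂ) {R : ℝ} (hR : 0 ≤ R) :
    ∃ M : ℝ, 0 ≤ M ∧ TayP p R M := by
  induction p using MvPolynomial.induction_on with
  | C a =>
    refine ⟨‖a‖, norm_nonneg _, fun z w _ _ => ?_⟩
    have hD : ∀ v, tayD (C a) z v = 0 := by
      intro v
      simp [tayD]
    have h1 := nn_nonneg (w - z)
    refine ⟨?_, ?_, ?_, ?_⟩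
    · rw [hD]; simp only [eval_C, sub_self, norm_zero]; positivity
    · simp only [eval_C, sub_self, norm_zero]
      rw [zero_pow two_ne_zero]; positivity
    · simp
    · intro v
      have := nn_nonneg v
      rw [hD, norm_zero, zero_pow two_ne_zero]; positivity
  | add p q hp hq =>
    obtain ⟨M1, hM1, h1⟩ := hp
    obtain ⟨M2, hM2, h2⟩ := hq
    refine ⟨2 * (M1 + M2), by positivity, fun z w hz hw => ?_⟩
    obtain ⟨a1, b1, c1, d1⟩ := h1 z w hz hw
    obtain ⟨a2, b2, c2, d2⟩ := h2 z w hz hw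
    have hnn := nn_nonneg (w - z)
    have hD : ∀ v, tayD (p + q) z v = tayD p z v + tayD q z v := by
      intro v
      simp only [tayD, map_add, add_mul, Finset.sum_add_distrib]
    refine ⟨?_, ?_, ?_, ?_⟩
    · rw [hD, map_add, map_add, show eval w p + eval w q - (eval z p + eval z q) -
          (tayD p z (w - z) + tayD q z (w - z)) = (eval w p - eval z p - tayD p z (w - z)) +
          (eval w q - eval z q - tayD q z (w - z)) by ring]
      refine (norm_add_le _ _).trans ?_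
      nlinarith
    · rw [map_add, map_add, show eval w p + eval w q - (eval z p + eval z q) =
          (eval w p - eval z p) + (eval w q - eval z q) by ring]
      refine (tay_add_sq _ _).trans ?_
      nlinarith
    · rw [map_add]
      refine (norm_add_le _ _).trans ?_
      linarith
    · intro v
      rw [hD]
      refine (tay_add_sq _ _).trans ?_
      nlinarith [d1 v, d2 v]
  | mul_X p i hp =>
    obtain ⟨M, hM, h⟩ := hp
    refine ⟨M * (1 + R) + (M + 1) + 2 * M * R + 2 * M ^ 2, by positivity, fun z w hz hw => ?_⟩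
    obtain ⟨a, b, c, d⟩ := h z w hz hw
    obtain ⟨-, -, cw, -⟩ := h w w hw hw
    have hnn := nn_nonneg (w - z)
    have hzi : ‖z i‖ ^ 2 ≤ R := (tay_sq z i).trans hz
    have hzi1 : ‖z i‖ ≤ 1 + R := by nlinarith [sq_nonneg (‖z i‖ - 1)]
    have hwz : ‖w i - z i‖ ^ 2 ≤ nn (w - z) := tay_sq (w - z) i
    have hD : ∀ v, tayD (p * X i) z v = z i * tayD p z v + eval z p * v i := by
      intro v
      simp only [tayD, Derivation.leibniz, pderiv_X, smul_eq_mul, map_add, map_mul, eval_X]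
      rw [Finset.mul_sum]
      have e1 : eval z p * v i = ∑ j, eval z p * eval z (Pi.single (M := fun _ => MvPolynomial (Fin n) ℂ) j 1 i) * v j := by
        rw [Finset.sum_eq_single i]
        · simp
        · intro j _ hj
          rw [Pi.single_eq_of_ne hj.symm]
          simp
        · intro hi
          exact absurd (Finset.mem_univ i) hi
      rw [e1, ← Finset.sum_add_distrib]
      refine Finset.sum_congr rfl fun j _ => ?_
      ring
    refine ⟨?_, ?_, ?_, ?_⟩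
    · rw [hD, map_mul, map_mul, eval_X, eval_X, Pi.sub_apply,
        show eval w p * w i - eval z p * z i - (z i * tayD p z (w - z) + eval z p * (w i - z i)) =
          (eval w p - eval z p - tayD p z (w - z)) * z i +
          (eval w p - eval z p) * (w i - z i) by ring]
      refine (norm_add_le _ _).trans ?_
      rw [norm_mul, norm_mul]
      have e1 : ‖eval w p - eval z p - tayD p z (w - z)‖ * ‖z i‖ ≤
          (M * nn (w - z)) * (1 + R) :=
        mul_le_mul a hzi1 (norm_nonneg _) (by positivity)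
      have e2 : ‖eval w p - eval z p‖ * ‖w i - z i‖ ≤ (M + 1) * nn (w - z) := by
        nlinarith [sq_nonneg (‖eval w p - eval z p‖ - ‖w i - z i‖),
          mul_nonneg hM hnn]
      nlinarith [mul_nonneg (mul_nonneg hM hR) hnn, mul_nonneg (sq_nonneg M) hnn]
    · rw [map_mul, map_mul, eval_X, eval_X,
        show eval w p * w i - eval z p * z i =
          (eval w p - eval z p) * z i + eval w p * (w i - z i) by ring]
      refine (tay_add_sq _ _).trans ?_
      rw [norm_mul, norm_mul, mul_pow, mul_pow]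
      have e1 : ‖eval w p - eval z p‖ ^ 2 * ‖z i‖ ^ 2 ≤ (M * nn (w - z)) * R :=
        mul_le_mul b hzi (by positivity) (by positivity)
      have e2 : ‖eval w p‖ ^ 2 * ‖w i - z i‖ ^ 2 ≤ M ^ 2 * nn (w - z) :=
        mul_le_mul (pow_le_pow_left₀ (norm_nonneg _) cw 2) hwz (by positivity) (by positivity)
      nlinarith [mul_nonneg (mul_nonneg hM hR) hnn, mul_nonneg hM hnn]
    · rw [map_mul, eval_X, norm_mul]
      have e1 : ‖eval z p‖ * ‖z i‖ ≤ M * (1 + R) :=
        mul_le_mul c hzi1 (norm_nonneg _) hM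
      nlinarith [mul_nonneg hM hR, sq_nonneg M]
    · intro v
      have hnv := nn_nonneg v
      rw [hD]
      refine (tay_add_sq _ _).trans ?_
      rw [norm_mul, norm_mul, mul_pow, mul_pow]
      have e1 : ‖z i‖ ^ 2 * ‖tayD p z v‖ ^ 2 ≤ R * (M * nn v) :=
        mul_le_mul hzi (d v) (by positivity) hR
      have e2 : ‖eval z p‖ ^ 2 * ‖v i‖ ^ 2 ≤ M ^ 2 * nn v :=
        mul_le_mul (pow_le_pow_left₀ (norm_nonneg _) c 2) (tay_sq v i) (by positivity)
          (by positivity)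
      nlinarith [mul_nonneg (mul_nonneg hM hR) hnv, mul_nonneg hM hnv]

theorem tay (P : Fin k → MvPolynomial (Fin n) ℂ) (R : ℝ) : ∃ M : ℝ, 0 ≤ M ∧
    ∀ z w : Fin n → ℂ, nn z ≤ R → nn w ≤ R → ∀ j,
      ‖eval w (P j) - eval z (P j) - dd P z (w - z) j‖ ≤ M * nn (w - z) ∧
      ‖eval w (P j) - eval z (P j)‖ ^ 2 ≤ M * nn (w - z) ∧ ‖eval z (P j)‖ ≤ M ∧
      ∀ v, ‖dd P z v j‖ ^ 2 ≤ M * nn v := by
  choose M hM h using fun j => tay_one (P j) (R := |R|) (abs_nonneg R)
  refine ⟨∑ j, M j, Finset.sum_nonneg fun j _ => hM j, ?_⟩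
  intro z w hz hw j
  obtain ⟨a, b, c, d⟩ := h j z w (hz.trans (le_abs_self R)) (hw.trans (le_abs_self R))
  have hle : M j ≤ ∑ j, M j :=
    Finset.single_le_sum (f := M) (fun j _ => hM j) (Finset.mem_univ j)
  have hnn := nn_nonneg (w - z)
  refine ⟨?_, ?_, c.trans hle, fun v => ?_⟩
  · exact a.trans (mul_le_mul_of_nonneg_right hle hnn)
  · exact b.trans (mul_le_mul_of_nonneg_right hle hnn)
  · exact (d v).trans (mul_le_mul_of_nonneg_right hle (nn_nonneg v))

private theorem tay_fam {m : ℕ} (x y : Fin m → ℂ) {A B : ℝ} (hA : 0 ≤ A)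
    (hx : ∀ j, ‖x j‖ ≤ A) (hy : ∀ j, ‖y j‖ ≤ B) :
    ‖∑ j, x j * (starRingEnd ℂ) (y j)‖ ≤ m * (A * B) := by
  refine (norm_sum_le _ _).trans ?_
  have h : ∀ j ∈ Finset.univ, ‖x j * (starRingEnd ℂ) (y j)‖ ≤ A * B := by
    intro j _
    rw [norm_mul, RCLike.norm_conj]
    exact mul_le_mul (hx j) (hy j) (norm_nonneg _) hA
  refine (Finset.sum_le_sum h).trans ?_
  simp

private theorem tay_famr {m : ℕ} (x : Fin m → ℝ) {A : ℝ}
    (hx : ∀ j, |x j| ≤ A) : |∑ j, x j| ≤ m * A := by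
  refine (Finset.abs_sum_le_sum_abs _ _).trans ?_
  refine (Finset.sum_le_sum fun j _ => hx j).trans ?_
  simp

private theorem tay_sqdiff (x y : ℂ) : |‖x‖ ^ 2 - ‖y‖ ^ 2| ≤ ‖x - y‖ * (‖x‖ + ‖y‖) := by
  rw [show ‖x‖ ^ 2 - ‖y‖ ^ 2 = (‖x‖ - ‖y‖) * (‖x‖ + ‖y‖) by ring, abs_mul,
    abs_of_nonneg (add_nonneg (norm_nonneg x) (norm_nonneg y))]
  exact mul_le_mul_of_nonneg_right (abs_norm_sub_norm_le x y) (by positivity)

private theorem tay_R2 (P : Fin k → MvPolynomial (Fin n) ℂ) (Q : Fin l → MvPolynomial (Fin n) ℂ)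
    (z w : Fin n → ℂ) : R2 P Q w z - r2 P Q z =
      ∑ j, (eval w (P j) - eval z (P j)) * (starRingEnd ℂ) (eval z (P j)) -
      ∑ j, (eval w (Q j) - eval z (Q j)) * (starRingEnd ℂ) (eval z (Q j)) := by
  have h : ∀ (m : ℕ) (T : Fin m → MvPolynomial (Fin n) ℂ), ((nrm T z : ℝ) : ℂ) =
      ∑ j, eval z (T j) * (starRingEnd ℂ) (eval z (T j)) := by
    intro m T
    unfold nrm
    push_cast
    refine Finset.sum_congr rfl fun j _ => ?_
    rw [Complex.mul_conj, Complex.normSq_eq_norm_sq]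
    push_cast
    rfl
  unfold R2 r2
  push_cast
  rw [h, h]
  simp only [sub_mul, Finset.sum_sub_distrib]
  ring

private theorem tay_D2 (P : Fin k → MvPolynomial (Fin n) ℂ) (Q : Fin l → MvPolynomial (Fin n) ℂ)
    (z w : Fin n → ℂ) : D2 P Q z w =
      ∑ j, ‖eval w (P j) - eval z (P j)‖ ^ 2 - ∑ j, ‖eval w (Q j) - eval z (Q j)‖ ^ 2 := by
  have h : ∀ x y : ℂ, ‖x - y‖ ^ 2 = ‖x‖ ^ 2 + ‖y‖ ^ 2 - 2 * (y * (starRingEnd ℂ) x).re := by
    intro x y
    rw [← Complex.normSq_eq_norm_sq, ← Complex.normSq_eq_norm_sq, ← Complex.normSq_eq_norm_sq,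
      Complex.normSq_apply, Complex.normSq_apply, Complex.normSq_apply]
    simp only [Complex.sub_re, Complex.sub_im, Complex.mul_re, Complex.conj_re, Complex.conj_im]
    ring
  unfold D2 r2 nrm R2
  rw [Complex.sub_re, Complex.re_sum, Complex.re_sum]
  simp only [h, Finset.sum_sub_distrib, Finset.sum_add_distrib, ← Finset.mul_sum]
  ring

theorem tay2 (P : Fin k → MvPolynomial (Fin n) ℂ) (Q : Fin l → MvPolynomial (Fin n) ℂ) (R : ℝ) :
    ∃ M : ℝ, 0 < M ∧ ∀ z w : Fin n → ℂ, nn z ≤ R → nn w ≤ R →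
      ‖R2 P Q w z - r2 P Q z - dr2 P Q z (w - z)‖ ≤ M * nn (w - z) ∧
      ‖R2 P Q w z - r2 P Q z‖ ^ 2 ≤ M * nn (w - z) ∧
      |D2 P Q z w - lev2 P Q z (w - z)| ≤ M * (nn (w - z) * Real.sqrt (nn (w - z))) ∧
      |D2 P Q z w| ≤ M * nn (w - z) ∧
      |r2 P Q w - r2 P Q z| ^ 2 ≤ M * nn (w - z) ∧
      (∀ v, ‖dr2 P Q z v‖ ^ 2 ≤ M * nn v) ∧ |r2 P Q z| ≤ M := by
  obtain ⟨M1, hM1, h1⟩ := tay P R
  obtain ⟨M2, hM2, h2⟩ := tay Q R
  set L : ℝ := max M1 M2 with hL
  have hL0 : 0 ≤ L := hM1.trans (le_max_left _ _)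
  have hL1 : M1 ≤ L := le_max_left _ _
  have hL2 : M2 ≤ L := le_max_right _ _
  set K : ℝ := (k : ℝ) + l with hK
  have hk0 : (0 : ℝ) ≤ k := Nat.cast_nonneg k
  have hl0 : (0 : ℝ) ≤ l := Nat.cast_nonneg l
  have hK0 : 0 ≤ K := by positivity
  set q : ℝ := Real.sqrt L with hq
  have hq0 : 0 ≤ q := Real.sqrt_nonneg _
  have hqq : q * q = L := Real.mul_self_sqrt hL0
  refine ⟨1 + K * (L * L) + 4 * (K * (q * L)) ^ 2 + 2 * K * (L * q) + K * L, by positivity, ?_⟩
  set M : ℝ := 1 + K * (L * L) + 4 * (K * (q * L)) ^ 2 + 2 * K * (L * q) + K * L with hM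
  intro z w hz hw
  set N : ℝ := nn (w - z) with hN
  have hN0 : 0 ≤ N := nn_nonneg _
  set s : ℝ := Real.sqrt N with hs
  have hs0 : 0 ≤ s := Real.sqrt_nonneg _
  have hss : s * s = N := Real.mul_self_sqrt hN0
  -- the bounds for both families
  have fam : ∀ (m : ℕ) (T : Fin m → MvPolynomial (Fin n) ℂ) (M' : ℝ), 0 ≤ M' → M' ≤ L →
      (∀ z w : Fin n → ℂ, nn z ≤ R → nn w ≤ R → ∀ j,
        ‖eval w (T j) - eval z (T j) - dd T z (w - z) j‖ ≤ M' * nn (w - z) ∧
        ‖eval w (T j) - eval z (T j)‖ ^ 2 ≤ M' * nn (w - z) ∧ ‖eval z (T j)‖ ≤ M' ∧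
        ∀ v, ‖dd T z v j‖ ^ 2 ≤ M' * nn v) →
      ‖∑ j, (eval w (T j) - eval z (T j) - dd T z (w - z) j) *
        (starRingEnd ℂ) (eval z (T j))‖ ≤ m * (L * N * L) ∧
      ‖∑ j, (eval w (T j) - eval z (T j)) * (starRingEnd ℂ) (eval z (T j))‖ ≤
        m * (q * s * L) ∧
      |∑ j, (‖eval w (T j) - eval z (T j)‖ ^ 2 - ‖dd T z (w - z) j‖ ^ 2)| ≤
        m * (2 * (L * N * (q * s))) ∧
      |∑ j, ‖eval w (T j) - eval z (T j)‖ ^ 2| ≤ m * (L * N) ∧
      |∑ j, (‖eval w (T j)‖ ^ 2 - ‖eval z (T j)‖ ^ 2)| ≤ m * (q * s * (2 * L)) ∧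
      (∀ v, ‖∑ j, dd T z v j * (starRingEnd ℂ) (eval z (T j))‖ ≤
        m * (q * Real.sqrt (nn v) * L)) ∧
      |∑ j, ‖eval z (T j)‖ ^ 2| ≤ m * (L * L) := by
    intro m T M' hM' hM'L h
    have hc : ∀ j, ‖eval z (T j)‖ ≤ L := fun j => ((h z w hz hw j).2.2.1).trans hM'L
    have hcw : ∀ j, ‖eval w (T j)‖ ≤ L := fun j => ((h w z hw hz j).2.2.1).trans hM'L
    have ha : ∀ j, ‖eval w (T j) - eval z (T j) - dd T z (w - z) j‖ ≤ L * N := fun j =>
      ((h z w hz hw j).1).trans (mul_le_mul_of_nonneg_right hM'L hN0)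
    have hb' : ∀ j, ‖eval w (T j) - eval z (T j)‖ ^ 2 ≤ L * N := fun j =>
      ((h z w hz hw j).2.1).trans (mul_le_mul_of_nonneg_right hM'L hN0)
    have hb : ∀ j, ‖eval w (T j) - eval z (T j)‖ ≤ q * s := by
      intro j
      apply abs_le_of_sq_le_sq' _ (by positivity) |>.2
      calc ‖eval w (T j) - eval z (T j)‖ ^ 2 ≤ L * N := hb' j
        _ = (q * s) ^ 2 := by rw [← hqq, ← hss]; ring
    have hd : ∀ v j, ‖dd T z v j‖ ≤ q * Real.sqrt (nn v) := by
      intro v j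
      apply abs_le_of_sq_le_sq' _ (by positivity) |>.2
      calc ‖dd T z v j‖ ^ 2 ≤ L * nn v :=
            ((h z w hz hw j).2.2.2 v).trans (mul_le_mul_of_nonneg_right hM'L (nn_nonneg v))
        _ = (q * Real.sqrt (nn v)) ^ 2 := by
            rw [mul_pow, Real.sq_sqrt (nn_nonneg v), sq, hqq]
    refine ⟨tay_fam _ _ (by positivity) ha hc, tay_fam _ _ (by positivity) hb hc, ?_, ?_, ?_,
      fun v => tay_fam _ _ (by positivity) (hd v) hc, ?_⟩
    · refine tay_famr _ fun j => (tay_sqdiff _ _).trans ?_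
      calc _ ≤ L * N * (q * s + q * s) :=
            mul_le_mul (ha j) (add_le_add (hb j) (hd (w - z) j)) (by positivity) (by positivity)
        _ = _ := by ring
    · refine tay_famr _ fun j => ?_
      rw [abs_of_nonneg (by positivity)]
      exact hb' j
    · refine tay_famr _ fun j => (tay_sqdiff _ _).trans ?_
      exact mul_le_mul (hb j) (by linarith [hc j, hcw j]) (by positivity) (by positivity)
    · refine tay_famr _ fun j => ?_
      rw [abs_of_nonneg (by positivity), sq]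
      exact mul_le_mul (hc j) (hc j) (norm_nonneg _) hL0
  obtain ⟨a1, b1, c1, d1, e1, f1, g1⟩ := fam k P M1 hM1 hL1 h1
  obtain ⟨a2, b2, c2, d2, e2, f2, g2⟩ := fam l Q M2 hM2 hL2 h2
  have sqb : ∀ x t : ℝ, 0 ≤ x → 0 ≤ t → x ≤ K * (q * t * (2 * L)) →
      x ^ 2 ≤ M * (t * t) := by
    intro x t hx ht hxt
    have h3 : x ^ 2 ≤ (K * (q * t * (2 * L))) ^ 2 := pow_le_pow_left₀ hx hxt 2
    have h4 : (K * (q * t * (2 * L))) ^ 2 = 4 * (K * (q * L)) ^ 2 * (t * t) := by ring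
    rw [h4] at h3
    refine h3.trans (mul_le_mul_of_nonneg_right ?_ (by positivity))
    rw [hM]
    have : 0 ≤ 1 + K * (L * L) + 2 * K * (L * q) + K * L := by positivity
    linarith
  refine ⟨?_, ?_, ?_, ?_, ?_, ?_, ?_⟩
  · rw [tay_R2]
    unfold dr2
    rw [show ∀ x y u v : ℂ, x - y - (u - v) = (x - u) - (y - v) from fun x y u v => by ring,
      ← Finset.sum_sub_distrib, ← Finset.sum_sub_distrib]
    simp only [← sub_mul]
    refine (norm_sub_le _ _).trans ((add_le_add a1 a2).trans ?_)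
    have : M * N ≥ K * (L * L) * N := by
      apply mul_le_mul_of_nonneg_right _ hN0
      rw [hM]
      have : 0 ≤ 1 + 4 * (K * (q * L)) ^ 2 + 2 * K * (L * q) + K * L := by positivity
      linarith
    calc _ = K * (L * L) * N := by rw [hK]; ring
      _ ≤ _ := this
  · rw [tay_R2, ← hss]
    refine sqb _ s (norm_nonneg _) hs0 ((norm_sub_le _ _).trans ((add_le_add b1 b2).trans ?_))
    have : 0 ≤ K * (q * s * L) := by positivity
    calc _ = K * (q * s * L) := by rw [hK]; ring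
      _ ≤ _ := by nlinarith
  · rw [tay_D2]
    unfold lev2
    rw [show ∀ x y u v : ℝ, x - y - (u - v) = (x - u) - (y - v) from fun x y u v => by ring,
      ← Finset.sum_sub_distrib, ← Finset.sum_sub_distrib]
    refine (abs_sub _ _).trans ((add_le_add c1 c2).trans ?_)
    have : M * (N * s) ≥ 2 * K * (L * q) * (N * s) := by
      apply mul_le_mul_of_nonneg_right _ (by positivity)
      rw [hM]
      have : 0 ≤ 1 + K * (L * L) + 4 * (K * (q * L)) ^ 2 + K * L := by positivity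
      linarith
    calc _ = 2 * K * (L * q) * (N * s) := by rw [hK]; ring
      _ ≤ _ := this
  · rw [tay_D2]
    refine (abs_sub _ _).trans ((add_le_add d1 d2).trans ?_)
    have : M * N ≥ K * L * N := by
      apply mul_le_mul_of_nonneg_right _ hN0
      rw [hM]
      have : 0 ≤ 1 + K * (L * L) + 4 * (K * (q * L)) ^ 2 + 2 * K * (L * q) := by positivity
      linarith
    calc _ = K * L * N := by rw [hK]; ring
      _ ≤ _ := this
  · rw [← hss]
    refine sqb _ s (abs_nonneg _) hs0 ?_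
    unfold r2 nrm
    rw [show ∀ x y u v : ℝ, x - y - (u - v) = (x - u) - (y - v) from fun x y u v => by ring,
      ← Finset.sum_sub_distrib, ← Finset.sum_sub_distrib]
    refine (abs_sub _ _).trans ((add_le_add e1 e2).trans ?_)
    rw [hK]
    exact le_of_eq (by ring)
  · intro v
    have h3 := sqb ‖dr2 P Q z v‖ (Real.sqrt (nn v)) (norm_nonneg _) (Real.sqrt_nonneg _) (by
      unfold dr2
      refine (norm_sub_le _ _).trans ((add_le_add (f1 v) (f2 v)).trans ?_)
      have : 0 ≤ K * (q * Real.sqrt (nn v) * L) := by positivity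
      calc _ = K * (q * Real.sqrt (nn v) * L) := by rw [hK]; ring
        _ ≤ _ := by nlinarith)
    rwa [Real.mul_self_sqrt (nn_nonneg v)] at h3
  · unfold r2 nrm
    refine (abs_sub _ _).trans ((add_le_add g1 g2).trans ?_)
    rw [hM]
    have : 0 ≤ 1 + 4 * (K * (q * L)) ^ 2 + 2 * K * (L * q) + K * L := by positivity
    calc _ = K * (L * L) := by rw [hK]; ring
      _ ≤ _ := by linarith

end Pool.Agent.Work.MP_49847a_an
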