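import Pool.Agent.Work.MP_49847a_an.Sg.Kc

/-!
# Module Hp: Hermitian polynomials as real polynomials

Proof.  For a polynomial `S` in the variables `inl i`, `inr i` put `s z w = eval (Sum.elim z (conj w)) S`.
By induction on `S` (`MvPolynomial.induction_on'` or `as_sum` over monomials) `s z w` is a finite sum
`∑_j a_j(z) conj (b_j(w))` with holomorphic polynomials `a_j, b_j`: a monomial is `c z^α (conj w)^β`,
`a = c z^α`, `b = z^β`.  There is a real polynomial `F` with `ev F z = Re (∑_j a_j(z) conj (b_j(z)))`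
(`exists_re_im` for `a_j`, `b_j`; real part of a product of polynomials), that is
`(ev F z : ℂ) = 1/2 ∑ a_j(z) conj b_j(z) + 1/2 ∑ b_j(z) conj a_j(z)`.  `pol_sum` (families `a_j/2, b_j/2` and
`b_j, a_j`, of length `m + m`) gives `pol F z w = (s z w + conj (s w z))/2`.
-/

namespace Pool.Agent.Work.MP_49847a_an

open MvPolynomial

variable {n : ℕ}

private theorem hp_sum (S : MvPolynomial (Fin n ⊕ Fin n) ℂ) :
    ∃ (m : ℕ) (a b : Fin m → MvPolynomial (Fin n) ℂ), ∀ z w : Fin n → ℂ,
      eval (Sum.elim z (fun i => (starRingEnd ℂ) (w i))) S =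
        ∑ j, eval z (a j) * (starRingEnd ℂ) (eval w (b j)) := by
  induction S using MvPolynomial.induction_on with
  | C c => exact ⟨1, fun _ => C c, fun _ => 1, fun z w => by simp⟩
  | add p q hp hq =>
    obtain ⟨m, a, b, h⟩ := hp
    obtain ⟨m', a', b', h'⟩ := hq
    refine ⟨m + m', Fin.append a a', Fin.append b b', fun z w => ?_⟩
    rw [map_add, h, h', Fin.sum_univ_add]
    simp only [Fin.append_left, Fin.append_right]
  | mul_X p i hp =>
    obtain ⟨m, a, b, h⟩ := hp
    rcases i with i | i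
    · refine ⟨m, fun j => a j * X i, b, fun z w => ?_⟩
      rw [map_mul, h, eval_X, Sum.elim_inl, Finset.sum_mul]
      refine Finset.sum_congr rfl fun j _ => ?_
      rw [map_mul, eval_X]
      ring
    · refine ⟨m, a, fun j => b j * X i, fun z w => ?_⟩
      rw [map_mul, h, eval_X, Sum.elim_inr, Finset.sum_mul]
      refine Finset.sum_congr rfl fun j _ => ?_
      rw [map_mul, eval_X, map_mul]
      ring

private theorem hp_ev_sum {ι : Type*} (s : Finset ι)
    (F : ι → MvPolynomial (Fin n ⊕ Fin n) ℝ) (z : Fin n → ℂ) :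
    ev (∑ i ∈ s, F i) z = ∑ i ∈ s, ev (F i) z := by
  simp only [ev, map_sum]

theorem exists_herm (S : MvPolynomial (Fin n ⊕ Fin n) ℂ) :
    ∃ F : MvPolynomial (Fin n ⊕ Fin n) ℝ, ∀ z w : Fin n → ℂ,
      pol F z w = (eval (Sum.elim z (fun i => (starRingEnd ℂ) (w i))) S +
        (starRingEnd ℂ) (eval (Sum.elim w (fun i => (starRingEnd ℂ) (z i))) S)) / 2 := by
  obtain ⟨m, a, b, h⟩ := hp_sum S
  choose Ua Va ha using fun j => exists_re_im (a j)
  choose Ub Vb hb using fun j => exists_re_im (b j)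
  have hpr : ∀ (x : ℝ) (y : ℝ), (starRingEnd ℂ) ((x : ℂ) + (y : ℂ) * Complex.I) =
      (x : ℂ) - (y : ℂ) * Complex.I := by
    intro x y
    rw [map_add, map_mul, Complex.conj_ofReal, Complex.conj_ofReal, Complex.conj_I]
    ring
  have hF : ∀ z, ((ev (∑ j, (Ua j * Ub j + Va j * Vb j)) z : ℝ) : ℂ) =
      ∑ j, eval z (Fin.append (fun j => C (1 / 2) * a j) (fun j => C (1 / 2) * b j) j) *
        (starRingEnd ℂ) (eval z (Fin.append b a j)) := by
    intro z
    rw [hp_ev_sum, Fin.sum_univ_add, ← Finset.sum_add_distrib]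
    push_cast
    refine Finset.sum_congr rfl fun j _ => ?_
    simp only [Fin.append_left, Fin.append_right, map_mul, eval_C]
    rw [ha, hb, hpr, hpr, ev_add, ev_mul, ev_mul]
    push_cast
    linear_combination (((ev (Va j) z : ℝ) : ℂ) * ((ev (Vb j) z : ℝ) : ℂ)) * Complex.I_mul_I
  refine ⟨∑ j, (Ua j * Ub j + Va j * Vb j), fun z w => ?_⟩
  rw [pol_sum _ _ _ hF, Fin.sum_univ_add, h, h, map_sum, add_div, Finset.sum_div, Finset.sum_div]
  congr 1
  · refine Finset.sum_congr rfl fun j _ => ?_
    simp only [Fin.append_left, map_mul, eval_C]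
    ring
  · refine Finset.sum_congr rfl fun j _ => ?_
    simp only [Fin.append_right, map_mul, eval_C, Complex.conj_conj]
    ring

/-- `pol F` is a polynomial in `z` and `conj w` -/
theorem exists_zb (F : MvPolynomial (Fin n ⊕ Fin n) ℝ) :
    ∃ S : MvPolynomial (Fin n ⊕ Fin n) ℂ, ∀ z w : Fin n → ℂ,
      eval (Sum.elim z (fun i => (starRingEnd ℂ) (w i))) S = pol F z w := by
  refine ⟨aeval (Sum.elim (fun i => C (1 / 2) * (X (Sum.inl i) + X (Sum.inr i)))
    (fun i => C (1 / (2 * Complex.I)) * (X (Sum.inl i) - X (Sum.inr i))))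
    (map (algebraMap ℝ ℂ) F), fun z w => ?_⟩
  unfold pol
  generalize map (algebraMap ℝ ℂ) F = A
  induction A using MvPolynomial.induction_on with
  | C a => simp
  | add p q hp hq => simp only [map_add, hp, hq]
  | mul_X p i hp =>
    rw [map_mul, map_mul, hp, aeval_X, map_mul]
    congr 1
    rcases i with i | i
    · simp only [Sum.elim_inl, map_mul, map_add, eval_C, eval_X, Sum.elim_inr]
      ring
    · simp only [Sum.elim_inl, map_mul, map_sub, eval_C, eval_X, Sum.elim_inr]
      ring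

end Pool.Agent.Work.MP_49847a_an
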