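import Pool.Agent.Work.MP_49847a_an.Sg.CSos

/-!
# Module CAff: the theorem of Catlin and D'Angelo on `ℂⁿ`

Proof.  `ev F = nrm a - nrm b`, degrees `≤ k`.  Let `P_j`, `Q_j` be the homogenisations of `a_j`, `b_j` on
`ℂ^(n+1) ∋ Z = (τ, z)` (`exists_hom` with `c = 1`; `IsHomogeneous k` follows from its definition, or repeat the
construction: a polynomial with `eval (t Z) p = t^k eval Z p` for all `t, Z` is homogeneous of degree `k`).
`R2 P Q (τ, z) (σ, w) = τ^k conj(σ)^k pol F (z/τ) (w/σ)` for `τ, σ ≠ 0` (`pol_sum`, or `R2` of the families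
`a, b` is `pol F` by `pol_r2`), `nn (τ, z) = |τ|² (1 + nn (z/τ))`,
`nn Z nn W - |ip Z W|² = |τ|² |σ|² fu (z/τ) (w/σ)`.  So the two inequalities of `CS k c` hold for `τ, σ ≠ 0`, and for all
`Z`, `W` by continuity (the points with `τ ≠ 0` are dense; both sides are continuous): `CS k c P Q`.
`cdh` gives `N, ε, g`; at `Z = (1, z)`: `r2 P Q (1, z) = ev F z`, `nn (1, z) = 1 + nn z`, and the polynomials
`g_j(1, z)` (`exists_dehom`).
-/

namespace Pool.Agent.Work.MP_49847a_an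

open MvPolynomial

variable {n : ℕ}

private theorem caff_hom {k : ℕ} (p : MvPolynomial (Fin n) ℂ) (hp : p.totalDegree ≤ k) :
    ∃ p' : MvPolynomial (Fin (n + 1)) ℂ, p'.IsHomogeneous k ∧
      ∀ z : Fin n → ℂ, eval (Fin.cons 1 z : Fin (n + 1) → ℂ) p' = eval z p := by
  refine ⟨∑ i ∈ Finset.range (k + 1), (X 0) ^ (k - i) *
    rename Fin.succ (homogeneousComponent i p), ?_, fun z => ?_⟩
  · refine IsHomogeneous.sum _ _ _ fun i hi => ?_
    have hi' : i ≤ k := Nat.lt_succ_iff.1 (Finset.mem_range.1 hi)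
    have h1 : (rename Fin.succ (homogeneousComponent i p) :
        MvPolynomial (Fin (n + 1)) ℂ).IsHomogeneous i :=
      (homogeneousComponent_isHomogeneous i p).rename_isHomogeneous
    have h2 := (isHomogeneous_X_pow (R := ℂ) (0 : Fin (n + 1)) (k - i)).mul h1
    rwa [Nat.sub_add_cancel hi'] at h2
  · rw [map_sum]
    have h1 : ∀ i, eval (Fin.cons 1 z : Fin (n + 1) → ℂ)
        ((X 0) ^ (k - i) * rename Fin.succ (homogeneousComponent i p)) =
          eval z (homogeneousComponent i p) := by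
      intro i
      simp only [map_mul, map_pow, eval_X, eval_rename, Fin.cons_zero, one_pow, one_mul]
      congr 1
    rw [Finset.sum_congr rfl fun i _ => h1 i, ← map_sum]
    congr 1
    have h2 : ∑ i ∈ Finset.range (k + 1), homogeneousComponent i p =
        ∑ i ∈ Finset.range (p.totalDegree + 1), homogeneousComponent i p := by
      symm
      refine Finset.sum_subset (fun x hx => ?_) fun x _ hx => ?_
      · rw [Finset.mem_range] at hx ⊢
        omega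
      · rw [Finset.mem_range, not_lt] at hx
        exact homogeneousComponent_eq_zero _ _ (by omega)
    rw [h2, sum_homogeneousComponent]

private theorem caff_cons (τ : ℂ) (hτ : τ ≠ 0) (z : Fin n → ℂ) :
    (Fin.cons τ z : Fin (n + 1) → ℂ) = τ • (Fin.cons 1 (τ⁻¹ • z) : Fin (n + 1) → ℂ) := by
  funext i
  refine Fin.cases ?_ (fun j => ?_) i
  · simp
  · simp only [Fin.cons_succ, Pi.smul_apply, smul_eq_mul]
    rw [mul_inv_cancel_left₀ hτ]

private theorem caff_nn (z : Fin n → ℂ) :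
    nn (Fin.cons 1 z : Fin (n + 1) → ℂ) = 1 + nn z := by
  unfold nn
  rw [Fin.sum_univ_succ]
  simp

private theorem caff_ip (z w : Fin n → ℂ) :
    ip (Fin.cons 1 z : Fin (n + 1) → ℂ) (Fin.cons 1 w) = 1 + ip z w := by
  unfold ip
  rw [Fin.sum_univ_succ]
  simp

private theorem caff_ip_smul {m : ℕ} (t s : ℂ) (z w : Fin m → ℂ) :
    ip (t • z) (s • w) = t * (starRingEnd ℂ) s * ip z w := by
  unfold ip
  rw [Finset.mul_sum]
  refine Finset.sum_congr rfl fun i _ => ?_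
  simp only [Pi.smul_apply, smul_eq_mul, map_mul]
  ring

private theorem caff_ip_cont {m : ℕ} :
    Continuous (fun q : (Fin m → ℂ) × (Fin m → ℂ) => ip q.1 q.2) := by
  unfold ip
  fun_prop

private theorem caff_dense {m : ℕ} : Dense {Z : Fin (m + 1) → ℂ | Z 0 ≠ 0} :=
  (dense_compl_singleton (0 : ℂ)).preimage (isOpenMap_eval (0 : Fin (m + 1)))

theorem cd {k : ℕ} (hk : 0 < k) {F : MvPolynomial (Fin n ⊕ Fin n) ℝ} (hF : Dg k F) {c : ℝ}
    (hc : 0 < c) (h1 : ∀ z, c * (1 + nn z) ^ k ≤ ev F z)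
    (h2 : ∀ z w, c * ((1 + nn z) ^ (k - 1) * (1 + nn w) ^ (k - 1) * fu z w) ≤ Ff F z w) :
    ∃ (N : ℕ) (ε : ℝ) (m : ℕ) (g : Fin m → MvPolynomial (Fin n) ℂ), 0 < N ∧ 0 < ε ∧
      ∀ z, ev F z ^ N = nrm g z + ε * (1 + nn z) ^ (k * N) := by
  obtain ⟨m, a, m', b, ha, hb, hFab⟩ := hF
  choose P hP1 hP2 using fun j => caff_hom (a j) (ha j)
  choose Q hQ1 hQ2 using fun j => caff_hom (b j) (hb j)
  have hFr : ∀ z, ev F z = r2 a b z := fun z => by rw [hFab, r2]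
  -- values on the first chart
  have hR1 : ∀ z w : Fin n → ℂ, R2 P Q (Fin.cons 1 z) (Fin.cons 1 w) = pol F z w := by
    intro z w
    rw [pol_r2 hFr, R2, R2]
    congr 1
    · exact Finset.sum_congr rfl fun j _ => by rw [hP2, hP2]
    · exact Finset.sum_congr rfl fun j _ => by rw [hQ2, hQ2]
  have hRs : ∀ (t s : ℂ) (Z W : Fin (n + 1) → ℂ), R2 P Q (t • Z) (s • W) =
      t ^ k * (starRingEnd ℂ) s ^ k * R2 P Q Z W := by
    intro t s Z W
    unfold R2
    rw [mul_sub, Finset.mul_sum, Finset.mul_sum]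
    congr 1
    · refine Finset.sum_congr rfl fun j _ => ?_
      rw [hom_smul (hP1 j), hom_smul (hP1 j), map_mul, map_pow]
      ring
    · refine Finset.sum_congr rfl fun j _ => ?_
      rw [hom_smul (hQ1 j), hom_smul (hQ1 j), map_mul, map_pow]
      ring
  have hR : ∀ (τ σ : ℂ) (z w : Fin n → ℂ), τ ≠ 0 → σ ≠ 0 →
      R2 P Q (Fin.cons τ z) (Fin.cons σ w) =
        τ ^ k * (starRingEnd ℂ) σ ^ k * pol F (τ⁻¹ • z) (σ⁻¹ • w) := by
    intro τ σ z w hτ hσ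
    rw [caff_cons τ hτ, caff_cons σ hσ, hRs, hR1]
  have hr1 : ∀ z : Fin n → ℂ, r2 P Q (Fin.cons 1 z) = ev F z := by
    intro z
    have h3 := R2_self P Q (Fin.cons 1 z)
    rw [hR1, pol_self] at h3
    exact_mod_cast h3.symm
  have hr : ∀ (τ : ℂ) (z : Fin n → ℂ), τ ≠ 0 →
      r2 P Q (Fin.cons τ z) = (‖τ‖ ^ 2) ^ k * ev F (τ⁻¹ • z) := by
    intro τ z hτ
    have h3 := R2_self P Q (Fin.cons τ z)
    rw [hR τ τ z z hτ hτ, pol_self, ← mul_pow, Complex.mul_conj, Complex.normSq_eq_norm_sq] at h3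
    exact_mod_cast h3.symm
  have hnn : ∀ (τ : ℂ) (z : Fin n → ℂ), τ ≠ 0 →
      nn (Fin.cons τ z : Fin (n + 1) → ℂ) = ‖τ‖ ^ 2 * (1 + nn (τ⁻¹ • z)) := by
    intro τ z hτ
    rw [caff_cons τ hτ, nn_smul, caff_nn]
  have hip : ∀ (τ σ : ℂ) (z w : Fin n → ℂ), τ ≠ 0 → σ ≠ 0 →
      ‖ip (Fin.cons τ z : Fin (n + 1) → ℂ) (Fin.cons σ w)‖ ^ 2 =
        ‖τ‖ ^ 2 * ‖σ‖ ^ 2 * ‖1 + ip (τ⁻¹ • z) (σ⁻¹ • w)‖ ^ 2 := by
    intro τ σ z w hτ hσ
    rw [caff_cons τ hτ, caff_cons σ hσ, caff_ip_smul, caff_ip, norm_mul, norm_mul,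
      Complex.norm_conj]
    ring
  -- the two inequalities on the dense set
  have hpos : ∀ Z : Fin (n + 1) → ℂ, Z 0 ≠ 0 → c * nn Z ^ k ≤ r2 P Q Z := by
    intro Z hZ
    rw [← Fin.cons_self_tail Z, hr _ _ hZ, hnn _ _ hZ, mul_pow]
    have h3 := h1 ((Z 0)⁻¹ • Fin.tail Z)
    have h4 : 0 ≤ (‖Z 0‖ ^ 2) ^ k := by positivity
    calc c * ((‖Z 0‖ ^ 2) ^ k * (1 + nn ((Z 0)⁻¹ • Fin.tail Z)) ^ k)
        = (‖Z 0‖ ^ 2) ^ k * (c * (1 + nn ((Z 0)⁻¹ • Fin.tail Z)) ^ k) := by ring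
      _ ≤ _ := mul_le_mul_of_nonneg_left h3 h4
  have hcs : ∀ Z W : Fin (n + 1) → ℂ, Z 0 ≠ 0 → W 0 ≠ 0 →
      c * (nn Z ^ (k - 1) * nn W ^ (k - 1) * (nn Z * nn W - ‖ip Z W‖ ^ 2)) ≤
        r2 P Q Z * r2 P Q W - ‖R2 P Q Z W‖ ^ 2 := by
    intro Z W hZ hW
    rw [← Fin.cons_self_tail Z, ← Fin.cons_self_tail W, hr _ _ hZ, hr _ _ hW, hnn _ _ hZ,
      hnn _ _ hW, hip _ _ _ _ hZ hW, hR _ _ _ _ hZ hW]
    set z := (Z 0)⁻¹ • Fin.tail Z
    set w := (W 0)⁻¹ • Fin.tail W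
    set A := ‖Z 0‖ ^ 2 with hA
    set B := ‖W 0‖ ^ 2 with hB
    have hA0 : 0 ≤ A := by positivity
    have hB0 : 0 ≤ B := by positivity
    have h3 := h2 z w
    have h4 : ‖Z 0 ^ k * (starRingEnd ℂ) (W 0) ^ k * pol F z w‖ ^ 2 =
        A ^ k * B ^ k * ‖pol F z w‖ ^ 2 := by
      rw [norm_mul, norm_mul, norm_pow, norm_pow, Complex.norm_conj, hA, hB]
      ring
    rw [h4]
    have hAk : A ^ k = A ^ (k - 1) * A := by
      rw [← pow_succ, Nat.sub_add_cancel hk]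
    have hBk : B ^ k = B ^ (k - 1) * B := by
      rw [← pow_succ, Nat.sub_add_cancel hk]
    have h5 : 0 ≤ A ^ k * B ^ k := by positivity
    calc c * ((A * (1 + nn z)) ^ (k - 1) * (B * (1 + nn w)) ^ (k - 1) *
          (A * (1 + nn z) * (B * (1 + nn w)) - A * B * ‖1 + ip z w‖ ^ 2))
        = A ^ k * B ^ k * (c * ((1 + nn z) ^ (k - 1) * (1 + nn w) ^ (k - 1) * fu z w)) := by
          rw [hAk, hBk, mul_pow, mul_pow, fu]
          ring
      _ ≤ A ^ k * B ^ k * Ff F z w := mul_le_mul_of_nonneg_left h3 h5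
      _ = _ := by rw [Ff]; ring
  have hCS : CS k c P Q := by
    refine ⟨hk, hc, hP1, hQ1, ?_, ?_⟩
    · have hcl : IsClosed {Z : Fin (n + 1) → ℂ | c * nn Z ^ k ≤ r2 P Q Z} :=
        isClosed_le (continuous_const.mul (nn_continuous.pow k)) (r2_continuous P Q)
      have h3 : closure {Z : Fin (n + 1) → ℂ | Z 0 ≠ 0} ⊆ {Z | c * nn Z ^ k ≤ r2 P Q Z} :=
        hcl.closure_subset_iff.2 fun Z hZ => hpos Z hZ
      rw [caff_dense.closure_eq] at h3
      exact fun Z => h3 (Set.mem_univ Z)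
    · have hcl : IsClosed {q : (Fin (n + 1) → ℂ) × (Fin (n + 1) → ℂ) |
          c * (nn q.1 ^ (k - 1) * nn q.2 ^ (k - 1) * (nn q.1 * nn q.2 - ‖ip q.1 q.2‖ ^ 2)) ≤
            r2 P Q q.1 * r2 P Q q.2 - ‖R2 P Q q.1 q.2‖ ^ 2} := by
        refine isClosed_le ?_ ?_
        · exact continuous_const.mul ((((nn_continuous.comp continuous_fst).pow _).mul
            ((nn_continuous.comp continuous_snd).pow _)).mul
            (((nn_continuous.comp continuous_fst).mul (nn_continuous.comp continuous_snd)).sub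
              (caff_ip_cont.norm.pow 2)))
        · exact (((r2_continuous P Q).comp continuous_fst).mul
            ((r2_continuous P Q).comp continuous_snd)).sub ((R2_continuous P Q).norm.pow 2)
      have h3 := hcl.closure_subset_iff.2 (fun q hq => hcs q.1 q.2 hq.1 hq.2 :
        ({Z : Fin (n + 1) → ℂ | Z 0 ≠ 0} ×ˢ {Z : Fin (n + 1) → ℂ | Z 0 ≠ 0}) ⊆ _)
      rw [(caff_dense.prod caff_dense).closure_eq] at h3
      exact fun Z W => h3 (Set.mem_univ (Z, W))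
  obtain ⟨N, ε, l, g, hN, hε, hg⟩ := cdh hCS
  choose g' hg' using fun j => exists_dehom 1 (g j)
  refine ⟨N, ε, l, g', hN, hε, fun z => ?_⟩
  have h3 := hg (Fin.cons 1 z)
  rw [hr1, caff_nn] at h3
  rw [h3]
  congr 1
  unfold nrm
  exact Finset.sum_congr rfl fun j _ => by rw [hg']

end Pool.Agent.Work.MP_49847a_an
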