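import Pool.Agent.Work.MP_49847a_an.Sg.SDefs
import Pool.Agent.Work.MP_49847a_an.Rat.Arc

/-!
# Module SuA: boundedness modulo the ideal

Proof.  (bounded) `F = C C₀ + ρ G'` with `ev F ^ N = nrm g + ε (1 + nn)^K`, `K > 0`: `C (C₀^N) - C ε * WW n 1 ^ K =
nrm g - (F^N - C C₀^N)` (as real polynomials, `exists_nrm`, `ev_ext`), and `F^N - (C C₀)^N` is divisible by
`F - C C₀ = ρ G'` (`sub_dvd_pow_sub_pow`), so `SJ (span {ρ}) (C (C₀^N) - C ε * WW n 1 ^ K)` (`SJ_nrm`, `SJ_ideal`,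
`SJ_add`).  `SJ (WW n 1 ^ K - WW n 1)` for `K ≥ 1`: induction, `W^(K+1) - W = (W^K - W) W + W (W - 1)`,
`W - 1 = WW n 0` (`SJ_WW`).  Hence `SJ (C (C₀^N/ε) - WW n 1)` (multiply by the constant `1/ε`), and
`SJ (C N' - (X (inl i)^2 + X (inr i)^2))` for every `i` (add the other squares, see `suf_arch` in `Rat/Suf`).
(arc) `arc` with `w = 1` (`SJ_one`): every real polynomial is bounded.
-/

namespace Pool.Agent.Work.MP_49847a_an

open MvPolynomial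

variable {n : ℕ}

private theorem sj_pow_sub {J : Ideal (MvPolynomial (Fin n ⊕ Fin n) ℝ)} (k : ℕ) :
    SJ J (WW n 1 ^ (k + 1) - WW n 1) := by
  induction k with
  | zero =>
    refine SJ_congr (SJ_ideal J.zero_mem) fun z => ?_
    rw [zero_add, pow_one, sub_self]
  | succ k ih =>
    refine SJ_congr (SJ_add (SJ_mul ih (SJ_WW zero_le_one))
      (SJ_mul (SJ_WW (n := n) (c := 1) zero_le_one) (SJ_WW (n := n) (c := 0) le_rfl))) fun z => ?_
    simp only [ev_sub, ev_add, ev_mul, ev_pow, ev_WW]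
    ring

theorem sj_arch {ρ G : MvPolynomial (Fin n ⊕ Fin n) ℝ} {C₀ ε : ℝ} {N K m : ℕ}
    {g : Fin m → MvPolynomial (Fin n) ℂ} (hε : 0 < ε) (hK : 0 < K)
    (h : ∀ z, ev (C C₀ + ρ * G) z ^ N = nrm g z + ε * (1 + nn z) ^ K)
    (F : MvPolynomial (Fin n ⊕ Fin n) ℝ) : ∃ M : ℝ, SJ (Ideal.span {ρ}) (C M - F) := by
  obtain ⟨A, hA⟩ := exists_nrm g
  have hmem : (C C₀ : MvPolynomial (Fin n ⊕ Fin n) ℝ) ^ N - (C C₀ + ρ * G) ^ N ∈
      Ideal.span {ρ} := by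
    refine Ideal.mem_span_singleton.2 (dvd_trans ?_ (sub_dvd_pow_sub_pow (C C₀) (C C₀ + ρ * G) N))
    refine ⟨-G, ?_⟩
    ring
  have h1 : SJ (Ideal.span {ρ}) (C (C₀ ^ N) - C ε * WW n 1 ^ K) := by
    refine SJ_congr (SJ_add (SJ_nrm hA) (SJ_ideal hmem)) fun z => ?_
    have e1 := h z
    rw [ev_add, ev_sub, ev_sub, ev_mul, ev_pow, ev_pow, ev_pow, ev_C, ev_C, ev_C, ev_WW, hA, e1]
    ring
  have h2 : SJ (Ideal.span {ρ}) (WW n 1 ^ K - WW n 1) := by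
    obtain ⟨k, rfl⟩ : ∃ k, K = k + 1 := ⟨K - 1, by omega⟩
    exact sj_pow_sub k
  have h3 : SJ (Ideal.span {ρ}) (C (C₀ ^ N / ε) - WW n 0) := by
    refine SJ_congr (SJ_add (SJ_add (SJ_mul (SJ_C (inv_nonneg.2 hε.le)) h1) h2) SJ_one)
      fun z => ?_
    simp only [ev_sub, ev_add, ev_mul, ev_pow, ev_WW, ev_C, ev_one]
    have := hε.ne'
    field_simp
    ring
  have h4 : ∃ M : ℝ, SJ (Ideal.span {ρ}) ((C M - F) * 1) := by
    refine arc SJ_one (fun j => ⟨C₀ ^ N / ε, ?_⟩) F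
    have e2 : (C (C₀ ^ N / ε) - (X (Sum.inl j) ^ 2 + X (Sum.inr j) ^ 2) :
        MvPolynomial (Fin n ⊕ Fin n) ℝ) * 1 =
        (C (C₀ ^ N / ε) - WW n 0) +
          ∑ i ∈ Finset.univ.erase j, (X (Sum.inl i) ^ 2 + X (Sum.inr i) ^ 2) := by
      have : WW n 0 = (X (Sum.inl j) ^ 2 + X (Sum.inr j) ^ 2) +
          ∑ i ∈ Finset.univ.erase j, (X (Sum.inl i) ^ 2 + X (Sum.inr i) ^ 2) := by
        unfold WW
        rw [C_0, zero_add]
        exact (Finset.add_sum_erase Finset.univ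
          (fun i => (X (Sum.inl i) ^ 2 + X (Sum.inr i) ^ 2 : MvPolynomial (Fin n ⊕ Fin n) ℝ))
          (Finset.mem_univ j)).symm
      rw [this]
      ring
    rw [e2]
    refine SJ_add h3 (SJ_sum _ _ fun i _ => SJ_sq (p := X i) fun z => ?_)
    rw [eval_X, ← Complex.normSq_eq_norm_sq, Complex.normSq_apply]
    simp only [ev, map_add, map_pow, eval_X, Sum.elim_inl, Sum.elim_inr]
    ring
  obtain ⟨M, hM⟩ := h4
  exact ⟨M, by rwa [mul_one] at hM⟩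

end Pool.Agent.Work.MP_49847a_an
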