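import Pool.Agent.Work.MP_49847a_an.Sg.SDefs
import Pool.Agent.Work.MP_49847a_an.Rat.Arc
import Pool.Agent.Work.MP_49847a_an.KD

/-!
# Module SuK: the Kadison-Dubois theorem

Proof.  Apply `kd` to `S = {F | SJ (span {ρ}) F}` as in module `Pos` (`pos_TT`): a homomorphism `φ`, nonnegative on `S`,
is the evaluation at a point `z` (`hom_eq_ev` there; copy it if it is private), `φ ρ ≥ 0` and `φ (-ρ) ≥ 0`, so
`ev ρ z = 0` and `φ R = ev R z > 0`.
-/

namespace Pool.Agent.Work.MP_49847a_an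

open MvPolynomial

variable {n : ℕ}

private theorem hom_eq_ev_k {n : ℕ} (φ : MvPolynomial (Fin n ⊕ Fin n) ℝ →ₐ[ℝ] ℝ)
    (F : MvPolynomial (Fin n ⊕ Fin n) ℝ) :
    φ F = ev F (fun i => (⟨φ (X (Sum.inl i)), φ (X (Sum.inr i))⟩ : ℂ)) := by
  have h : φ = aeval (Sum.elim (fun i => φ (X (Sum.inl i))) (fun i => φ (X (Sum.inr i)))) := by
    apply MvPolynomial.algHom_ext
    rintro (i | i) <;> simp
  conv_lhs => rw [h]
  rw [ev, aeval_eq_eval]

theorem sj_kd {ρ : MvPolynomial (Fin n ⊕ Fin n) ℝ}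
    (h : ∀ F : MvPolynomial (Fin n ⊕ Fin n) ℝ, ∃ M : ℝ, SJ (Ideal.span {ρ}) (C M - F))
    {R : MvPolynomial (Fin n ⊕ Fin n) ℝ} (hR : ∀ z, ev ρ z = 0 → 0 < ev R z) :
    SJ (Ideal.span {ρ}) R := by
  have key : R ∈ {F : MvPolynomial (Fin n ⊕ Fin n) ℝ | SJ (Ideal.span {ρ}) F} := by
    refine kd _ ?_ ?_ ?_ ?_ ?_
    · intro a ha b hb
      exact SJ_add ha hb
    · intro a ha b hb
      exact SJ_mul ha hb
    · intro c hc
      exact SJ_C hc
    · intro a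
      obtain ⟨M, hM⟩ := h a
      exact ⟨M, hM⟩
    · intro φ hφ
      set z : Fin n → ℂ := fun i => ⟨φ (X (Sum.inl i)), φ (X (Sum.inr i))⟩ with hz
      have hev : ∀ F, φ F = ev F z := hom_eq_ev_k φ
      have hmem : ρ ∈ Ideal.span {ρ} := Ideal.mem_span_singleton_self ρ
      have h1 : 0 ≤ φ ρ := hφ _ (SJ_ideal hmem)
      have h2 : 0 ≤ φ (-ρ) := hφ _ (SJ_ideal ((Ideal.span {ρ}).neg_mem hmem))
      rw [map_neg] at h2
      have h3 : ev ρ z = 0 := by
        rw [← hev]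
        linarith
      rw [hev]
      exact hR z h3
  exact key

end Pool.Agent.Work.MP_49847a_an
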