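import Pool.Agent.Work.MP_49847a_an.Sg.Kc

/-!
# Module Phi: multiplication of a positive `2 × 2` kernel with `⟨z, w⟩`

Proof.
(phi) The difference of the two sides is
`∑_j (|z_j - 2 w_j|² K₁ + |w_j|² K₂ + 2 Re ((z_j - 2 w_j) conj(w_j) K))` (expand for each `j`; it is
`∑_j ‖(z_j - 2 w_j) k₁ + w_j k₂‖²` for vectors `k₁, k₂` with Gram matrix `K₁, K₂, K`), and every term is nonnegative:
`|a|² K₁ + |b|² K₂ + 2 Re (a conj(b) K) ≥ (|a| √K₁ - |b| √K₂)² ≥ 0` from `|K|² ≤ K₁ K₂`.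
(phi') the same with the roles of `z`, `w` exchanged (`K` replaced by its conjugate; `ip_conj`, `nn_sub_comm`).
(krn_Dk) `krn z w = (A - ip z w) (η/(η - R) - 1)` for `R = R2 P Q z w`, and `R2_self`, `ip_self`, `nn_sub`.
-/

namespace Pool.Agent.Work.MP_49847a_an

open MvPolynomial

variable {n k l : ℕ}

private theorem quad_nonneg {K₁ K₂ : ℝ} {K : ℂ} (h1 : 0 ≤ K₁) (h2 : 0 ≤ K₂)
    (h3 : ‖K‖ ^ 2 ≤ K₁ * K₂) (a b : ℂ) :
    0 ≤ ‖a‖ ^ 2 * K₁ + ‖b‖ ^ 2 * K₂ + 2 * (a * (starRingEnd ℂ) b * K).re := by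
  obtain ⟨s, hs0, hs⟩ : ∃ s : ℝ, 0 ≤ s ∧ s ^ 2 = K₁ := ⟨√K₁, Real.sqrt_nonneg _, Real.sq_sqrt h1⟩
  obtain ⟨t, ht0, ht⟩ : ∃ t : ℝ, 0 ≤ t ∧ t ^ 2 = K₂ := ⟨√K₂, Real.sqrt_nonneg _, Real.sq_sqrt h2⟩
  have hK : ‖K‖ ≤ s * t := by
    rw [← hs, ← ht, ← mul_pow] at h3
    exact (pow_le_pow_iff_left₀ (norm_nonneg _) (mul_nonneg hs0 ht0) two_ne_zero).1 h3
  have h4 : -(‖a‖ * ‖b‖ * ‖K‖) ≤ (a * (starRingEnd ℂ) b * K).re := by
    have h5 := Complex.abs_re_le_norm (a * (starRingEnd ℂ) b * K)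
    rw [norm_mul, norm_mul, RCLike.norm_conj] at h5
    linarith [neg_abs_le (a * (starRingEnd ℂ) b * K).re]
  have h6 := mul_le_mul_of_nonneg_left hK (mul_nonneg (norm_nonneg a) (norm_nonneg b))
  rw [← hs, ← ht]
  nlinarith [sq_nonneg (‖a‖ * s - ‖b‖ * t)]

private theorem nn_eq (x : Fin n → ℂ) : nn x = ∑ i, ((x i).re ^ 2 + (x i).im ^ 2) := by
  unfold nn
  refine Finset.sum_congr rfl fun i _ => ?_
  rw [← Complex.normSq_eq_norm_sq, Complex.normSq_apply]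
  ring

private theorem norm_sq_eq (x : ℂ) : ‖x‖ ^ 2 = x.re ^ 2 + x.im ^ 2 := by
  rw [← Complex.normSq_eq_norm_sq, Complex.normSq_apply]
  ring

theorem phi {K₁ K₂ : ℝ} {K : ℂ} (h1 : 0 ≤ K₁) (h2 : 0 ≤ K₂) (h3 : ‖K‖ ^ 2 ≤ K₁ * K₂)
    (z w : Fin n → ℂ) :
    nn z * K₁ + nn w * K₂ - 2 * (ip z w * K).re ≤
      2 * nn (z - w) * K₁ + 2 * nn w * (K₁ + K₂ - 2 * K.re) := by
  have key : 2 * nn (z - w) * K₁ + 2 * nn w * (K₁ + K₂ - 2 * K.re) -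
      (nn z * K₁ + nn w * K₂ - 2 * (ip z w * K).re) =
      ∑ i, (‖z i - 2 * w i‖ ^ 2 * K₁ + ‖w i‖ ^ 2 * K₂ +
        2 * ((z i - 2 * w i) * (starRingEnd ℂ) (w i) * K).re) := by
    have hip : (ip z w * K).re = ∑ i, (z i * (starRingEnd ℂ) (w i) * K).re := by
      unfold ip
      rw [Finset.sum_mul, Complex.re_sum]
    rw [nn_eq, nn_eq, nn_eq, hip]
    simp only [Finset.mul_sum, Finset.sum_mul]
    rw [← Finset.sum_add_distrib, ← Finset.sum_add_distrib, ← Finset.sum_sub_distrib,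
      ← Finset.sum_sub_distrib]
    refine Finset.sum_congr rfl fun i _ => ?_
    rw [norm_sq_eq, norm_sq_eq]
    simp only [Pi.sub_apply, Complex.sub_re, Complex.sub_im, Complex.mul_re, Complex.mul_im,
      Complex.conj_re, Complex.conj_im, Complex.re_ofNat, Complex.im_ofNat]
    ring
  have h0 : 0 ≤ ∑ i, (‖z i - 2 * w i‖ ^ 2 * K₁ + ‖w i‖ ^ 2 * K₂ +
      2 * ((z i - 2 * w i) * (starRingEnd ℂ) (w i) * K).re) :=
    Finset.sum_nonneg fun i _ => quad_nonneg h1 h2 h3 _ _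
  linarith

theorem phi' {K₁ K₂ : ℝ} {K : ℂ} (h1 : 0 ≤ K₁) (h2 : 0 ≤ K₂) (h3 : ‖K‖ ^ 2 ≤ K₁ * K₂)
    (z w : Fin n → ℂ) :
    nn z * K₁ + nn w * K₂ - 2 * (ip z w * K).re ≤
      2 * nn (z - w) * K₂ + 2 * nn z * (K₁ + K₂ - 2 * K.re) := by
  have h4 : ‖(starRingEnd ℂ) K‖ ^ 2 ≤ K₂ * K₁ := by
    rw [RCLike.norm_conj, mul_comm]
    exact h3
  have h5 := phi h2 h1 h4 w z
  have h6 : (ip w z * (starRingEnd ℂ) K).re = (ip z w * K).re := by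
    rw [← ip_conj z w, ← map_mul, Complex.conj_re]
  rw [h6, nn_sub_comm w z, Complex.conj_re] at h5
  linarith

private theorem real_term {A η r x : ℝ} (h : η - r ≠ 0) :
    (((A : ℂ) - (x : ℂ)) * (r : ℂ) / ((η : ℂ) - (r : ℂ))).re = (A - x) * (η / (η - r) - 1) := by
  have h1 : ((A : ℂ) - (x : ℂ)) * (r : ℂ) / ((η : ℂ) - (r : ℂ)) =
      (((A - x) * r / (η - r) : ℝ) : ℂ) := by
    push_cast
    rfl
  rw [h1, Complex.ofReal_re]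
  field_simp
  ring

theorem krn_Dk (P : Fin k → MvPolynomial (Fin n) ℂ) (Q : Fin l → MvPolynomial (Fin n) ℂ)
    {A η : ℝ} {z w : Fin n → ℂ} (hz : η - r2 P Q z ≠ 0) (hw : η - r2 P Q w ≠ 0)
    (hzw : (η : ℂ) - R2 P Q z w ≠ 0) :
    Dk (krn P Q A η) z w =
      A * (η / (η - r2 P Q z) + η / (η - r2 P Q w) - 2 * ((η : ℂ) / ((η : ℂ) - R2 P Q z w)).re) -
      (nn z * (η / (η - r2 P Q z)) + nn w * (η / (η - r2 P Q w)) -
        2 * (ip z w * ((η : ℂ) / ((η : ℂ) - R2 P Q z w))).re) + nn (z - w) := by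
  have h1 : krn P Q A η z w = (A : ℂ) * ((η : ℂ) / ((η : ℂ) - R2 P Q z w)) -
      ip z w * ((η : ℂ) / ((η : ℂ) - R2 P Q z w)) - (A : ℂ) + ip z w := by
    unfold krn
    field_simp
    ring
  unfold Dk
  rw [h1]
  unfold krn
  rw [R2_self, R2_self, ip_self, ip_self, real_term hz, real_term hw, nn_sub]
  simp only [Complex.add_re, Complex.sub_re, Complex.ofReal_re, Complex.re_ofReal_mul]
  ring

end Pool.Agent.Work.MP_49847a_an
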