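import Pool.Agent.Work.MP_49847a_an.Sg.Tay
import Pool.Agent.Work.MP_49847a_an.Sg.Phi

/-!
# Module Deep: close points where `|r2| > x₂`

Proof.  `M` from `tay2`; `Y = nn (z - w)`.  `δ₃` such that `nn (z - w) < δ₃` implies `|r2 w - r2 z| ≤ x₂/2`,
`‖R2 w z - r2 z‖ ≤ x₂/2` (`M δ₃ ≤ (x₂/2)²`), `δ₃ ≤ 1`.  Then for `η ≤ x₂/4` the numbers `x = η - r2 z`,
`t = η - r2 w`, `h = η - R2 z w` have absolute value at least `x₂/4`.
With `K₁ = η/x`, `K₂ = η/t`, `K = η/h`: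
(1) `|K₁ + K₂ - 2 Re K| ≤ η C Y`: `= η Num/(x t |h|²)`, `Num = (x+t) |h|² - 2 x t Re h`; with
`p = R2 w z`, `q = D2 z w`, `Re h = (x+t+q)/2`, `|h|² = x t + N + (x+t) q/2 + q²/4`,
`N = ((x-t)/2)² + (Im p)²`, `Num = (x+t) N + (x+t) q²/4 + q (x²+t²)/2`, and `N ≤ C Y`, `|q| ≤ M Y`,
`|x|, |t| ≤ 1 + M`.  (`η ≤ 1`.)
(2) `|nn z K₁ + nn w K₂ - 2 Re (ip z w K)| ≤ η C Y`: it is
`nn w (K₁ + K₂ - 2 Re K) + 2 Re (ip (z-w) w (K₁ - K)) + nn (z - w) K₁` (write `z = w + (z - w)`: for each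
coordinate `z_j = w_j + δ_j`, `|z_j|² K₁ + |w_j|² K₂ - 2 Re (z_j conj w_j K) = |w_j|² (K₁ + K₂ - 2 Re K) +
2 Re (δ_j conj w_j (K₁ - K)) + |δ_j|² K₁`), and `|K₁ - K| = η |h - x|/(|x| |h|)`,
`|h - x| = ‖R2 z w - r2 z‖ ≤ √(M Y)`, `|ip (z-w) w| ≤ √Y √R`.
(3) `krn_Dk`: `Dk ≥ Y - A η C Y - η C Y ≥ Y/2` for `η ≤ η₀ = 1/(2 C (A + 1))`.
-/

namespace Pool.Agent.Work.MP_49847a_an

open MvPolynomial

variable {n k l : ℕ}

private theorem deep_num {x t a b q M Y : ℝ} (hM : 0 ≤ M) (hY : 0 ≤ Y) (hY1 : Y ≤ 1)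
    (hx : |x| ≤ 1 + M) (ht : |t| ≤ 1 + M) (hxt : (x - t) ^ 2 ≤ M * Y) (hb : b ^ 2 ≤ M * Y)
    (hq : |q| ≤ M * Y) (hqa : q = 2 * a - x - t) :
    |(x + t) * (a ^ 2 + b ^ 2) - 2 * (x * t) * a| ≤
      (4 * M * (1 + M) + M * (1 + M) ^ 2 + M ^ 2 * (1 + M)) * Y := by
  have ha : a = (x + t + q) / 2 := by linarith
  set N : ℝ := ((x - t) / 2) ^ 2 + b ^ 2 with hN
  have e1 : (x + t) * (a ^ 2 + b ^ 2) - 2 * (x * t) * a =
      (x + t) * N + q * ((x ^ 2 + t ^ 2) / 2) + (x + t) * (q ^ 2 / 4) := by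
    rw [ha, hN]
    ring
  have hMY : 0 ≤ M * Y := mul_nonneg hM hY
  have hN0 : 0 ≤ N := by positivity
  have hN1 : N ≤ 2 * (M * Y) := by
    have : N = (x - t) ^ 2 / 4 + b ^ 2 := by rw [hN]; ring
    rw [this]
    linarith
  have h1M : 0 ≤ 1 + M := by linarith
  have hs : |x + t| ≤ 2 * (1 + M) := (abs_add_le x t).trans (by linarith)
  have hx2 : x ^ 2 ≤ (1 + M) ^ 2 := by
    rw [← sq_abs x]
    exact pow_le_pow_left₀ (abs_nonneg x) hx 2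
  have ht2 : t ^ 2 ≤ (1 + M) ^ 2 := by
    rw [← sq_abs t]
    exact pow_le_pow_left₀ (abs_nonneg t) ht 2
  have hq2 : q ^ 2 ≤ M ^ 2 * Y := by
    have h1 : q ^ 2 ≤ (M * Y) ^ 2 := by
      rw [← sq_abs q]
      exact pow_le_pow_left₀ (abs_nonneg q) hq 2
    have h2 : (M * Y) ^ 2 = M ^ 2 * Y * Y := by ring
    have h3 : M ^ 2 * Y * Y ≤ M ^ 2 * Y * 1 :=
      mul_le_mul_of_nonneg_left hY1 (by positivity)
    linarith
  have b1 : |(x + t) * N| ≤ 2 * (1 + M) * (2 * (M * Y)) := by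
    rw [abs_mul, abs_of_nonneg hN0]
    exact mul_le_mul hs hN1 hN0 (by positivity)
  have b2 : |q * ((x ^ 2 + t ^ 2) / 2)| ≤ M * Y * (1 + M) ^ 2 := by
    rw [abs_mul, abs_of_nonneg (by positivity : (0 : ℝ) ≤ (x ^ 2 + t ^ 2) / 2)]
    exact mul_le_mul hq (by linarith) (by positivity) hMY
  have b3 : |(x + t) * (q ^ 2 / 4)| ≤ 2 * (1 + M) * (M ^ 2 * Y / 4) := by
    rw [abs_mul, abs_of_nonneg (by positivity : (0 : ℝ) ≤ q ^ 2 / 4)]
    exact mul_le_mul hs (by linarith) (by positivity) (by positivity)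
  have b4 : 0 ≤ (1 + M) * (M ^ 2 * Y) := by positivity
  rw [e1]
  calc |(x + t) * N + q * ((x ^ 2 + t ^ 2) / 2) + (x + t) * (q ^ 2 / 4)|
      ≤ |(x + t) * N + q * ((x ^ 2 + t ^ 2) / 2)| + |(x + t) * (q ^ 2 / 4)| := abs_add_le _ _
    _ ≤ |(x + t) * N| + |q * ((x ^ 2 + t ^ 2) / 2)| + |(x + t) * (q ^ 2 / 4)| := by
        linarith [abs_add_le ((x + t) * N) (q * ((x ^ 2 + t ^ 2) / 2))]
    _ ≤ 2 * (1 + M) * (2 * (M * Y)) + M * Y * (1 + M) ^ 2 + 2 * (1 + M) * (M ^ 2 * Y / 4) := by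
        linarith
    _ ≤ (4 * M * (1 + M) + M * (1 + M) ^ 2 + M ^ 2 * (1 + M)) * Y := by
        nlinarith

private theorem deep_frac {x t a b q M Y u : ℝ} (hu : 0 < u) (hM : 0 ≤ M) (hY : 0 ≤ Y)
    (hY1 : Y ≤ 1) (hx : |x| ≤ 1 + M) (ht : |t| ≤ 1 + M) (hxt : (x - t) ^ 2 ≤ M * Y)
    (hb : b ^ 2 ≤ M * Y) (hq : |q| ≤ M * Y) (hqa : q = 2 * a - x - t) (hux : u ≤ |x|)
    (hut : u ≤ |t|) (huh : u ^ 2 ≤ a ^ 2 + b ^ 2) :
    |1 / x + 1 / t - 2 * (a / (a ^ 2 + b ^ 2))| ≤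
      (4 * M * (1 + M) + M * (1 + M) ^ 2 + M ^ 2 * (1 + M)) / u ^ 4 * Y := by
  have h1 := deep_num hM hY hY1 hx ht hxt hb hq hqa
  have hx0 : x ≠ 0 := by
    rw [← abs_pos]
    linarith
  have ht0 : t ≠ 0 := by
    rw [← abs_pos]
    linarith
  have hu2 : 0 < u ^ 2 := by positivity
  have hh0 : 0 < a ^ 2 + b ^ 2 := by linarith
  have e1 : 1 / x + 1 / t - 2 * (a / (a ^ 2 + b ^ 2)) =
      ((x + t) * (a ^ 2 + b ^ 2) - 2 * (x * t) * a) / (x * t * (a ^ 2 + b ^ 2)) := by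
    field_simp
    ring
  rw [e1, abs_div]
  have h2 : u ^ 4 ≤ |x * t * (a ^ 2 + b ^ 2)| := by
    rw [abs_mul, abs_mul, abs_of_pos hh0]
    have h3 : u * u ≤ |x| * |t| := mul_le_mul hux hut hu.le (abs_nonneg x)
    have h4 : u * u * u ^ 2 ≤ |x| * |t| * (a ^ 2 + b ^ 2) :=
      mul_le_mul h3 huh hu2.le (by positivity)
    calc u ^ 4 = u * u * u ^ 2 := by ring
      _ ≤ _ := h4
  have hu4 : 0 < u ^ 4 := by positivity
  set C : ℝ := 4 * M * (1 + M) + M * (1 + M) ^ 2 + M ^ 2 * (1 + M) with hC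
  have hC0 : 0 ≤ C := by
    have : 0 ≤ 1 + M := by linarith
    positivity
  calc |(x + t) * (a ^ 2 + b ^ 2) - 2 * (x * t) * a| / |x * t * (a ^ 2 + b ^ 2)|
      ≤ (C * Y) / u ^ 4 := div_le_div₀ (by positivity) h1 hu4 h2
    _ = C / u ^ 4 * Y := by ring

private theorem deep_E (z w : Fin n → ℂ) (K₁ K₂ : ℝ) (K : ℂ) :
    nn z * K₁ + nn w * K₂ - 2 * (ip z w * K).re =
      nn w * (K₁ + K₂ - 2 * K.re) + 2 * (ip (z - w) w * ((K₁ : ℂ) - K)).re + nn (z - w) * K₁ := by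
  have h1 : ip (z - w) w = ip z w - ((nn w : ℝ) : ℂ) := by
    rw [← ip_self]
    unfold ip
    rw [← Finset.sum_sub_distrib]
    refine Finset.sum_congr rfl fun i _ => ?_
    rw [Pi.sub_apply]
    ring
  rw [h1, nn_sub]
  simp only [Complex.mul_re, Complex.sub_re, Complex.sub_im, Complex.ofReal_re, Complex.ofReal_im]
  ring

theorem deep (P : Fin k → MvPolynomial (Fin n) ℂ) (Q : Fin l → MvPolynomial (Fin n) ℂ) (R : ℝ)
    {x₂ : ℝ} (hx : 0 < x₂) : ∃ δ₃ : ℝ, 0 < δ₃ ∧ ∀ A : ℝ, 0 ≤ A → ∃ η₀ : ℝ, 0 < η₀ ∧ ∀ η : ℝ,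
      0 < η → η ≤ η₀ → ∀ z w, nn z ≤ R → nn w ≤ R → nn (z - w) < δ₃ → x₂ < |r2 P Q z| →
        (η : ℂ) - R2 P Q z w ≠ 0 ∧ 1 / 2 * nn (z - w) ≤ Dk (krn P Q A η) z w := by
  obtain ⟨M, hM, hT⟩ := tay2 P Q R
  refine ⟨min 1 (x₂ ^ 2 / (4 * M)), by positivity, fun A hA => ?_⟩
  set u : ℝ := x₂ / 4 with hu
  have hu0 : 0 < u := by positivity
  set C : ℝ := 4 * M * (1 + M) + M * (1 + M) ^ 2 + M ^ 2 * (1 + M) with hC
  have hC0 : 0 ≤ C := by positivity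
  set C₁ : ℝ := C / u ^ 4 with hC₁
  have hC₁0 : 0 ≤ C₁ := by positivity
  set C₂ : ℝ := |R| * C₁ + (|R| + M) / u ^ 2 + 1 / u with hC₂
  have hC₂0 : 0 ≤ C₂ := by positivity
  refine ⟨min (min 1 u) (1 / (2 * (A * C₁ + C₂) + 1)), by positivity,
    fun η hη hη1 z w hz hw hzw hr => ?_⟩
  have hη2 : η ≤ 1 := hη1.trans ((min_le_left _ _).trans (min_le_left _ _))
  have hη3 : η ≤ u := hη1.trans ((min_le_left _ _).trans (min_le_right _ _))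
  have hη4 : η ≤ 1 / (2 * (A * C₁ + C₂) + 1) := hη1.trans (min_le_right _ _)
  have hR0 : 0 ≤ R := (nn_nonneg z).trans hz
  rw [abs_of_nonneg hR0] at hC₂
  set Y : ℝ := nn (z - w) with hYdef
  have hY0 : 0 ≤ Y := nn_nonneg _
  have hY1 : Y ≤ 1 := hzw.le.trans (min_le_left _ _)
  have hY2 : M * Y ≤ (2 * u) ^ 2 := by
    have h1 : Y ≤ x₂ ^ 2 / (4 * M) := hzw.le.trans (min_le_right _ _)
    have h2 : M * Y ≤ M * (x₂ ^ 2 / (4 * M)) := mul_le_mul_of_nonneg_left h1 hM.le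
    have h3 : M * (x₂ ^ 2 / (4 * M)) = (2 * u) ^ 2 := by
      rw [hu]
      field_simp
      ring
    linarith
  have hcomm : nn (w - z) = Y := by rw [hYdef, nn_sub_comm]
  obtain ⟨-, T2, -, T4, T5, -, T7⟩ := hT z w hz hw
  obtain ⟨-, -, -, -, -, -, T7'⟩ := hT w z hw hz
  rw [hcomm] at T2 T4 T5
  -- the three numbers
  set x : ℝ := η - r2 P Q z with hxdef
  set t : ℝ := η - r2 P Q w with htdef
  set h : ℂ := (η : ℂ) - R2 P Q z w with hhdef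
  have hhx : ‖h - (x : ℂ)‖ ^ 2 ≤ M * Y := by
    have h1 : h - (x : ℂ) = -(starRingEnd ℂ) (R2 P Q w z - r2 P Q z) := by
      rw [map_sub, R2_conj, Complex.conj_ofReal, hhdef, hxdef]
      push_cast
      ring
    rw [h1, norm_neg, RCLike.norm_conj]
    exact T2
  have hdr : |r2 P Q w - r2 P Q z| ≤ 2 * u :=
    (pow_le_pow_iff_left₀ (abs_nonneg _) (by positivity) two_ne_zero).1 (T5.trans hY2)
  have hhx2 : ‖h - (x : ℂ)‖ ≤ 2 * u :=
    (pow_le_pow_iff_left₀ (norm_nonneg _) (by positivity) two_ne_zero).1 (hhx.trans hY2)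
  have h4u : 4 * u < |r2 P Q z| := by
    have : 4 * u = x₂ := by rw [hu]; ring
    rw [this]
    exact hr
  have hux3 : 3 * u ≤ |x| := by
    have h1 := abs_sub_abs_le_abs_sub (r2 P Q z) η
    rw [abs_of_pos hη, abs_sub_comm] at h1
    linarith
  have hux : u ≤ |x| := by linarith
  have hut : u ≤ |t| := by
    have h1 := abs_sub_abs_le_abs_sub x (x - t)
    have h2 : x - t = r2 P Q w - r2 P Q z := by rw [hxdef, htdef]; ring
    have h3 : x - (x - t) = t := by ring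
    rw [h3, h2] at h1
    linarith
  have huh : u ≤ ‖h‖ := by
    have h1 := norm_sub_norm_le (x : ℂ) ((x : ℂ) - h)
    have h3 : (x : ℂ) - ((x : ℂ) - h) = h := by ring
    rw [h3, norm_sub_rev, Complex.norm_real, Real.norm_eq_abs] at h1
    linarith
  have hx0 : x ≠ 0 := by
    rw [← abs_pos]
    linarith
  have ht0 : t ≠ 0 := by
    rw [← abs_pos]
    linarith
  have hh0 : h ≠ 0 := by
    rw [← norm_pos_iff]
    linarith
  refine ⟨hh0, ?_⟩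
  have hsq : h.re ^ 2 + h.im ^ 2 = ‖h‖ ^ 2 := by
    rw [Complex.sq_norm, Complex.normSq_apply]
    ring
  have hxM : |x| ≤ 1 + M := by
    have h1 := abs_sub (η : ℝ) (r2 P Q z)
    rw [abs_of_pos hη] at h1
    linarith
  have htM : |t| ≤ 1 + M := by
    have h1 := abs_sub (η : ℝ) (r2 P Q w)
    rw [abs_of_pos hη] at h1
    linarith
  have hxt : (x - t) ^ 2 ≤ M * Y := by
    have h2 : x - t = r2 P Q w - r2 P Q z := by rw [hxdef, htdef]; ring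
    rw [h2, ← sq_abs]
    exact T5
  have hb : h.im ^ 2 ≤ M * Y := by
    have h1 : (h - (x : ℂ)).im = h.im := by simp
    have h2 := Complex.abs_im_le_norm (h - (x : ℂ))
    rw [h1] at h2
    calc h.im ^ 2 = |h.im| ^ 2 := (sq_abs _).symm
      _ ≤ ‖h - (x : ℂ)‖ ^ 2 := pow_le_pow_left₀ (abs_nonneg _) h2 2
      _ ≤ M * Y := hhx
  have hqa : D2 P Q z w = 2 * h.re - x - t := by
    rw [hhdef, hxdef, htdef]
    unfold D2
    simp only [Complex.sub_re, Complex.ofReal_re]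
    ring
  have huh2 : u ^ 2 ≤ h.re ^ 2 + h.im ^ 2 := by
    rw [hsq]
    exact pow_le_pow_left₀ hu0.le huh 2
  have hD := deep_frac hu0 hM.le hY0 hY1 hxM htM hxt hb T4 hqa hux hut huh2
  rw [← hC, ← hC₁] at hD
  set K₁ : ℝ := η / x with hK₁
  set K₂ : ℝ := η / t with hK₂
  set K : ℂ := (η : ℂ) / h with hK
  have hKre : K.re = η * (h.re / (h.re ^ 2 + h.im ^ 2)) := by
    rw [hK, div_eq_mul_inv, Complex.re_ofReal_mul, Complex.inv_re, Complex.normSq_apply]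
    congr 2
    ring
  set D : ℝ := K₁ + K₂ - 2 * K.re with hDdef
  have hDb : |D| ≤ η * (C₁ * Y) := by
    have h1 : D = η * (1 / x + 1 / t - 2 * (h.re / (h.re ^ 2 + h.im ^ 2))) := by
      rw [hDdef, hKre, hK₁, hK₂]
      ring
    rw [h1, abs_mul, abs_of_pos hη]
    exact mul_le_mul_of_nonneg_left hD hη.le
  have hKK : ‖(K₁ : ℂ) - K‖ ≤ η * ‖h - (x : ℂ)‖ / u ^ 2 := by
    have hxC : (x : ℂ) ≠ 0 := by exact_mod_cast hx0
    have h1 : (K₁ : ℂ) - K = (η : ℂ) * (h - (x : ℂ)) / ((x : ℂ) * h) := by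
      rw [hK₁, hK]
      push_cast
      field_simp
    rw [h1, norm_div, norm_mul, norm_mul, Complex.norm_real, Complex.norm_real,
      Real.norm_of_nonneg hη.le, Real.norm_eq_abs]
    have h2 : u ^ 2 ≤ |x| * ‖h‖ := by
      rw [sq]
      exact mul_le_mul hux huh hu0.le (abs_nonneg x)
    exact div_le_div_of_nonneg_left (by positivity) (by positivity) h2
  have hip : ‖ip (z - w) w‖ ^ 2 ≤ R * Y := by
    calc ‖ip (z - w) w‖ ^ 2 ≤ nn (z - w) * nn w := ip_cs _ _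
      _ ≤ Y * R := mul_le_mul_of_nonneg_left hw hY0
      _ = R * Y := mul_comm _ _
  have hE2 : |2 * (ip (z - w) w * ((K₁ : ℂ) - K)).re| ≤ η * ((R + M) / u ^ 2 * Y) := by
    have h1 : |(ip (z - w) w * ((K₁ : ℂ) - K)).re| ≤ ‖ip (z - w) w‖ * ‖(K₁ : ℂ) - K‖ := by
      rw [← norm_mul]
      exact Complex.abs_re_le_norm _
    have h2 : ‖ip (z - w) w‖ * ‖(K₁ : ℂ) - K‖ ≤
        ‖ip (z - w) w‖ * (η * ‖h - (x : ℂ)‖ / u ^ 2) :=
      mul_le_mul_of_nonneg_left hKK (norm_nonneg _)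
    have h3 : 2 * (‖ip (z - w) w‖ * (η * ‖h - (x : ℂ)‖ / u ^ 2)) =
        η / u ^ 2 * (2 * ‖ip (z - w) w‖ * ‖h - (x : ℂ)‖) := by ring
    have h4 : 2 * ‖ip (z - w) w‖ * ‖h - (x : ℂ)‖ ≤ R * Y + M * Y := by
      have := two_mul_le_add_sq ‖ip (z - w) w‖ ‖h - (x : ℂ)‖
      linarith
    have h5 : η / u ^ 2 * (2 * ‖ip (z - w) w‖ * ‖h - (x : ℂ)‖) ≤ η / u ^ 2 * (R * Y + M * Y) :=
      mul_le_mul_of_nonneg_left h4 (by positivity)
    rw [abs_mul, abs_of_pos (two_pos : (0 : ℝ) < 2)]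
    calc 2 * |(ip (z - w) w * ((K₁ : ℂ) - K)).re|
        ≤ 2 * (‖ip (z - w) w‖ * (η * ‖h - (x : ℂ)‖ / u ^ 2)) := by linarith
      _ ≤ η / u ^ 2 * (R * Y + M * Y) := by linarith
      _ = η * ((R + M) / u ^ 2 * Y) := by ring
  have hK₁b : |Y * K₁| ≤ η * (1 / u * Y) := by
    rw [abs_mul, abs_of_nonneg hY0, hK₁, abs_div, abs_of_pos hη]
    have h1 : η / |x| ≤ η / u := div_le_div_of_nonneg_left hη.le hu0 hux
    calc Y * (η / |x|) ≤ Y * (η / u) := mul_le_mul_of_nonneg_left h1 hY0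
      _ = η * (1 / u * Y) := by ring
  have hE1 : |nn w * D| ≤ η * (R * C₁ * Y) := by
    rw [abs_mul, abs_of_nonneg (nn_nonneg w)]
    calc nn w * |D| ≤ R * (η * (C₁ * Y)) :=
          mul_le_mul hw hDb (abs_nonneg _) hR0
      _ = η * (R * C₁ * Y) := by ring
  have hE : nn z * K₁ + nn w * K₂ - 2 * (ip z w * K).re ≤ η * (C₂ * Y) := by
    rw [deep_E, ← hDdef, ← hYdef]
    have h1 : η * (C₂ * Y) = η * (R * C₁ * Y) + η * ((R + M) / u ^ 2 * Y) + η * (1 / u * Y) := by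
      rw [hC₂]
      ring
    rw [h1]
    have a1 := le_abs_self (nn w * D)
    have a2 := le_abs_self (2 * (ip (z - w) w * ((K₁ : ℂ) - K)).re)
    have a3 := le_abs_self (Y * K₁)
    linarith
  have hfin := krn_Dk P Q (A := A) (η := η) (z := z) (w := w) hx0 ht0 hh0
  rw [← hxdef, ← htdef, ← hhdef, ← hK₁, ← hK₂, ← hK, ← hDdef, ← hYdef] at hfin
  rw [hfin]
  have hAD : -(A * (η * (C₁ * Y))) ≤ A * D := by
    have h1 : -(η * (C₁ * Y)) ≤ D := (abs_le.1 hDb).1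
    have h2 := mul_le_mul_of_nonneg_left h1 hA
    linarith
  have hηb : η * (2 * (A * C₁ + C₂) + 1) ≤ 1 := by
    have h1 : 0 < 2 * (A * C₁ + C₂) + 1 := by positivity
    calc η * (2 * (A * C₁ + C₂) + 1) ≤ 1 / (2 * (A * C₁ + C₂) + 1) * (2 * (A * C₁ + C₂) + 1) :=
          mul_le_mul_of_nonneg_right hη4 h1.le
      _ = 1 := by field_simp
  have h2 : η * (A * C₁ + C₂) ≤ 1 / 2 := by linarith
  have h3 : η * (A * C₁ + C₂) * Y ≤ 1 / 2 * Y := mul_le_mul_of_nonneg_right h2 hY0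
  have h4 : η * (A * C₁ + C₂) * Y = A * (η * (C₁ * Y)) + η * (C₂ * Y) := by ring
  linarith

end Pool.Agent.Work.MP_49847a_an
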