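import Pool.Agent.Work.MP_49847a_an.Sg.Phi

/-!
# Module FarR: distant points

Proof.  `K₁ = η/(η - r2 z)`, `K₂ = η/(η - r2 w)`, `K = η/(η - R2 z w)`; `η₀ ≤ min (x₁/2) (c₆/2)`.
`‖η - R2 z w‖ ≥ c₆ - η ≥ c₆/2`, so `|K| ≤ 2 η/c₆`.  If `r2 z < η/2`, `K₁ > 0` and `(A - nn z) K₁ ≥ 0`; if
`x₁ < |r2 z|`: either `r2 z < -x₁ < 0` (as before) or `r2 z > x₁` and `|K₁| ≤ η/(x₁ - η) ≤ 2 η/x₁`,
`(A - nn z) K₁ ≥ -2 A η/x₁`.  In all cases `η - r2 z ≠ 0`.  The same for `w`.  By `krn_Dk` (regroup)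
`Dk = (A - nn z) K₁ + (A - nn w) K₂ - 2 Re ((A - ip z w) K) + nn (z - w)
≥ -4 A η/x₁ - 4 (A + R) η/c₆ + nn (z - w) ≥ nn (z - w) - δ₅/2 ≥ nn (z - w)/2` for `η ≤ η₀` small
(`|ip z w| ≤ R` by `ip_cs`).
-/

namespace Pool.Agent.Work.MP_49847a_an

open MvPolynomial

variable {n k l : ℕ}

private theorem farR_one {A R a x x₁ η : ℝ} (hx : 0 < x₁) (hη : 0 < η) (hηx : η ≤ x₁ / 2)
    (hA : R ≤ A) (ha0 : 0 ≤ a) (ha : a ≤ R) (h : x < η / 2 ∨ x₁ < |x|) :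
    η - x ≠ 0 ∧ -(2 * A * η / x₁) ≤ (A - a) * (η / (η - x)) := by
  have hA0 : 0 ≤ A := by linarith
  have hAa : 0 ≤ A - a := by linarith
  have hpos : 0 < η - x → η - x ≠ 0 ∧ -(2 * A * η / x₁) ≤ (A - a) * (η / (η - x)) := by
    intro h1
    refine ⟨h1.ne', ?_⟩
    have h2 : 0 ≤ 2 * A * η / x₁ := by positivity
    have h3 : 0 ≤ (A - a) * (η / (η - x)) := by positivity
    linarith
  rcases h with h | h
  · exact hpos (by linarith)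
  · rcases lt_abs.1 h with h | h
    · have h1 : x₁ / 2 ≤ x - η := by linarith
      have h2 : 0 < x - η := by linarith
      refine ⟨by linarith, ?_⟩
      have h3 : η / (η - x) = -(η / (x - η)) := by
        rw [← neg_sub x η, div_neg]
      have h4 : η / (x - η) ≤ 2 * η / x₁ := by
        rw [div_le_div_iff₀ h2 hx]
        nlinarith
      have h5 : 0 ≤ η / (x - η) := by positivity
      rw [h3]
      have h6 : (A - a) * (η / (x - η)) ≤ A * (2 * η / x₁) :=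
        mul_le_mul (by linarith) h4 h5 hA0
      have h7 : A * (2 * η / x₁) = 2 * A * η / x₁ := by ring
      linarith
    · exact hpos (by linarith)

theorem farR (P : Fin k → MvPolynomial (Fin n) ℂ) (Q : Fin l → MvPolynomial (Fin n) ℂ)
    {R x₁ c₆ δ₅ A : ℝ} (hx : 0 < x₁) (hc : 0 < c₆) (hδ : 0 < δ₅) (hA : R ≤ A) (hA0 : 0 ≤ A) :
    ∃ η₀ : ℝ, 0 < η₀ ∧ ∀ η : ℝ, 0 < η → η ≤ η₀ → ∀ z w, nn z ≤ R → nn w ≤ R →
      δ₅ ≤ nn (z - w) → c₆ < ‖R2 P Q z w‖ →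
      (r2 P Q z < η / 2 ∨ x₁ < |r2 P Q z|) → (r2 P Q w < η / 2 ∨ x₁ < |r2 P Q w|) →
        (η : ℂ) - R2 P Q z w ≠ 0 ∧ 1 / 2 * nn (z - w) ≤ Dk (krn P Q A η) z w := by
  have hS : 0 < 4 * A / x₁ + 8 * A / c₆ + 1 := by positivity
  refine ⟨min (min (x₁ / 2) (c₆ / 2)) (δ₅ / (2 * (4 * A / x₁ + 8 * A / c₆ + 1))),
    by positivity, ?_⟩
  intro η hη hη0 z w hz hw hd hc6 h1 h2
  have e1 : η ≤ x₁ / 2 := hη0.trans ((min_le_left _ _).trans (min_le_left _ _))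
  have e2 : η ≤ c₆ / 2 := hη0.trans ((min_le_left _ _).trans (min_le_right _ _))
  have e3 : η ≤ δ₅ / (2 * (4 * A / x₁ + 8 * A / c₆ + 1)) := hη0.trans (min_le_right _ _)
  have e4 : η * (2 * (4 * A / x₁ + 8 * A / c₆ + 1)) ≤ δ₅ := (le_div_iff₀ (by positivity)).1 e3
  obtain ⟨hzne, hzb⟩ := farR_one hx hη e1 hA (nn_nonneg z) hz h1
  obtain ⟨hwne, hwb⟩ := farR_one hx hη e1 hA (nn_nonneg w) hw h2
  have hηn : ‖(η : ℂ)‖ = η := by rw [Complex.norm_real, Real.norm_of_nonneg hη.le]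
  have hden : c₆ / 2 ≤ ‖(η : ℂ) - R2 P Q z w‖ := by
    have := norm_sub_norm_le (R2 P Q z w) (η : ℂ)
    rw [hηn, norm_sub_rev] at this
    linarith
  have hne : (η : ℂ) - R2 P Q z w ≠ 0 := by
    intro h
    rw [h, norm_zero] at hden
    linarith
  refine ⟨hne, ?_⟩
  rw [krn_Dk P Q hzne hwne hne]
  have hK : ‖(η : ℂ) / ((η : ℂ) - R2 P Q z w)‖ ≤ 2 * η / c₆ := by
    rw [norm_div, hηn, div_le_div_iff₀ (by linarith) hc]
    nlinarith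
  have hR0 : 0 ≤ R := (nn_nonneg z).trans hz
  have hip : ‖ip z w‖ ≤ R := by
    have h3 := ip_cs z w
    have h4 : nn z * nn w ≤ R * R := mul_le_mul hz hw (nn_nonneg w) hR0
    exact abs_le_of_sq_le_sq' (by rw [sq R]; exact h3.trans h4) hR0 |>.2
  have hre : (((A : ℂ) - ip z w) * ((η : ℂ) / ((η : ℂ) - R2 P Q z w))).re ≤
      (2 * A) * (2 * η / c₆) := by
    refine (Complex.re_le_norm _).trans ?_
    rw [norm_mul]
    refine mul_le_mul ?_ hK (norm_nonneg _) (by linarith)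
    refine (norm_sub_le _ _).trans ?_
    rw [Complex.norm_real, Real.norm_of_nonneg hA0]
    linarith
  have hre2 : (((A : ℂ) - ip z w) * ((η : ℂ) / ((η : ℂ) - R2 P Q z w))).re =
      A * ((η : ℂ) / ((η : ℂ) - R2 P Q z w)).re -
        (ip z w * ((η : ℂ) / ((η : ℂ) - R2 P Q z w))).re := by
    rw [sub_mul, Complex.sub_re, Complex.re_ofReal_mul]
  rw [hre2] at hre
  have e5 : η * (2 * (4 * A / x₁ + 8 * A / c₆ + 1)) =
      2 * (2 * A * η / x₁) + 2 * (2 * A * η / x₁) + 4 * ((2 * A) * (2 * η / c₆)) + 2 * η := by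
    ring
  rw [e5] at e4
  set K₁ := η / (η - r2 P Q z)
  set K₂ := η / (η - r2 P Q w)
  set K := (η : ℂ) / ((η : ℂ) - R2 P Q z w)
  nlinarith

end Pool.Agent.Work.MP_49847a_an
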