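import Mathlib

/-!
# Module Col: the collar estimates (real algebra)

Notation: `S = x + t`, `E = ν + Y² + S Y`, `F = N + S q / 2 + q² / 4`,
`Num = S N + S q² / 4 + q (x² + t²) / 2`.

Proof of (col).  Let `κ = c/(4 M)`.  `M ≥ 1` may be assumed (enlarge `M`), `c ≤ M`.
Case 1: `ν ≥ κ Y`.  `N ≥ ν/2 - M Y² ≥ ν/2 - (M/κ) Y ν ≥ (3/8) ν` if `Y ≤ y₀ = κ/(8 M)`.  `q ≥ - M ν`.
`F ≥ (3/8) ν - (M/2) S ν ≥ ν/4` if `S ≤ s₀ = 1/(4 M)`.  `Num ≥ (3/8) S ν - M ν (x² + t²)/2 ≥ (3/8) S ν -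
M ν S²/2 ≥ S ν/4` (`x² + t² ≤ S²`).  `E ≤ ν (1 + (y₀ + s₀)/κ)`.
Case 2: `ν < κ Y`.  `q ≥ c Y - M κ Y = (3/4) c Y ≥ 0`.  With `τ = min 1 (c²/(16 M))`, `N ≥ τ (ν/2 - M Y²)`
(since `N ≥ 0` and `N ≥ ν/2 - M Y²`), so `F ≥ τ ν/2 - τ M Y² + (9/64)... `: precisely
`q²/4 ≥ (9/64) c² Y²`, `τ M ≤ c²/16`, so `F ≥ τ ν/2 + (5/64) c² Y² + (3/8) c S Y` and, with
`x² + t² ≥ S²/2`, `Num ≥ S (τ ν/2 + (5/64) c² Y²) + (3/16) c S² Y`.
Upper bound: `F ≤ M (ν + Y²) + S M Y/2 + M² Y²/4`.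

Proof of (colD).  `|h|² = x t + F`, `Re h = (S + q)/2`.  The left side is
`η ((1/x + 1/t) - (S + q)/(x t + F)) = η (S (x t + F) - x t (S + q))/(x t (x t + F)) = η (S F - x t q)/(x t (x t + F))`
and `S F - x t q = Num` (`S²/2 - x t = (x² + t²)/2`).  `Num ≥ c₂ S E ≥ 0`: nonnegativity.  If moreover
`η/2 ≤ x, t ≤ 4 η`, `η ≤ 1`, `Y ≤ 1`: `η ≤ S ≤ 8 η`, `x t ≤ S²/4`, `F ≤ M₃ E`, so the value is at least
`η c₂ S E /((S²/4)(S²/4 + M₃ E)) ≥ (c₂/2) E/(16 η² + M₃ E)` (`4 η/S ≥ 1/2`), and `E ≥ S Y ≥ η Y`.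
If `M₃ E ≤ 16 η²` this is `≥ (c₂/2) E/(32 η²) ≥ (c₂/64) Y/η ≥ (c₂/64) Y`; otherwise it is
`≥ (c₂/2) E/(2 M₃ E) = c₂/(4 M₃) ≥ (c₂/(4 M₃)) Y`.
-/

namespace Pool.Agent.Work.MP_49847a_an

private lemma col_aux {c M : ℝ} (hc : 0 < c) (hM : 1 ≤ M) (_hcM : c ≤ M) :
    ∃ s₀ y₀ c₂ M₃ : ℝ, 0 < s₀ ∧ 0 < y₀ ∧ 0 < c₂ ∧
    0 < M₃ ∧ ∀ x t q ν Y N : ℝ, 0 ≤ x → 0 ≤ t → x + t ≤ s₀ → 0 ≤ Y → Y ≤ y₀ → 0 ≤ ν → 0 ≤ N →
      ν / 2 - M * Y ^ 2 ≤ N → N ≤ M * (ν + Y ^ 2) → c * Y - M * ν ≤ q → |q| ≤ M * Y →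
      c₂ * (ν + Y ^ 2 + (x + t) * Y) ≤ N + (x + t) * q / 2 + q ^ 2 / 4 ∧
      N + (x + t) * q / 2 + q ^ 2 / 4 ≤ M₃ * (ν + Y ^ 2 + (x + t) * Y) ∧
      c₂ * ((x + t) * (ν + Y ^ 2 + (x + t) * Y)) ≤
        (x + t) * N + (x + t) * q ^ 2 / 4 + q * (x ^ 2 + t ^ 2) / 2 := by
  have hM0 : 0 < M := by linarith
  obtain ⟨τ, hτ⟩ : ∃ τ : ℝ, τ = min 1 (c ^ 2 / (16 * M)) := ⟨_, rfl⟩
  have hτ0 : 0 < τ := by rw [hτ]; exact lt_min one_pos (by positivity)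
  have hτ1 : τ ≤ 1 := by rw [hτ]; exact min_le_left _ _
  have hτM : τ * M ≤ c ^ 2 / 16 := by
    have h : τ ≤ c ^ 2 / (16 * M) := by rw [hτ]; exact min_le_right _ _
    rw [le_div_iff₀ (by positivity)] at h
    linarith
  obtain ⟨c₂, hc₂⟩ : ∃ c₂ : ℝ, c₂ = min (min (c / (4 * (2 * c + 1))) (τ / 2))
    (min (5 * c ^ 2 / 64) (3 * c / 16)) := ⟨_, rfl⟩
  have hc20 : 0 < c₂ := by
    rw [hc₂]
    exact lt_min (lt_min (by positivity) (by positivity)) (lt_min (by positivity) (by positivity))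
  have hc21 : c₂ * (4 * (2 * c + 1)) ≤ c := by
    have h : c₂ ≤ c / (4 * (2 * c + 1)) := by
      rw [hc₂]; exact (min_le_left _ _).trans (min_le_left _ _)
    rwa [le_div_iff₀ (by positivity)] at h
  have hc22 : c₂ ≤ τ / 2 := by rw [hc₂]; exact (min_le_left _ _).trans (min_le_right _ _)
  have hc23 : c₂ ≤ 5 * c ^ 2 / 64 := by rw [hc₂]; exact (min_le_right _ _).trans (min_le_left _ _)
  have hc24 : c₂ ≤ 3 * c / 16 := by rw [hc₂]; exact (min_le_right _ _).trans (min_le_right _ _)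
  refine ⟨1 / (4 * M), c / (32 * M ^ 2), c₂, M + M ^ 2, by positivity, by positivity, hc20,
    by positivity, ?_⟩
  intro x t q ν Y N hx ht hS hY hYy hν hN hN1 hN2 hq hqM
  obtain ⟨S, hSd⟩ : ∃ S : ℝ, S = x + t := ⟨_, rfl⟩
  rw [← hSd] at hS ⊢
  have hS0 : 0 ≤ S := by rw [hSd]; linarith
  have hSM : S * M ≤ 1 / 4 := by
    rw [le_div_iff₀ (by positivity)] at hS
    linarith
  have hYM : Y * (32 * M ^ 2) ≤ c := by
    rwa [le_div_iff₀ (by positivity)] at hYy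
  have hxt1 : x ^ 2 + t ^ 2 ≤ S ^ 2 := by
    rw [hSd]; nlinarith [mul_nonneg hx ht]
  have hxt2 : S ^ 2 / 2 ≤ x ^ 2 + t ^ 2 := by
    rw [hSd]; nlinarith [sq_nonneg (x - t)]
  have hxt0 : 0 ≤ x ^ 2 + t ^ 2 := by positivity
  have hqM1 : q ≤ M * Y := (le_abs_self q).trans hqM
  have hqM2 : -(M * Y) ≤ q := (abs_le.mp hqM).1
  have hSY : 0 ≤ S * Y := mul_nonneg hS0 hY
  have hE0 : 0 ≤ ν + Y ^ 2 + S * Y := by positivity
  have hq2 : q ^ 2 ≤ M ^ 2 * Y ^ 2 := by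
    have : q ^ 2 ≤ (M * Y) ^ 2 := sq_le_sq' hqM2 hqM1
    linarith [mul_pow M Y 2]
  have hup : N + S * q / 2 + q ^ 2 / 4 ≤ (M + M ^ 2) * (ν + Y ^ 2 + S * Y) := by
    have h1 : S * q ≤ S * (M * Y) := mul_le_mul_of_nonneg_left hqM1 hS0
    have h2 : 0 ≤ M ^ 2 * ν := by positivity
    have h3 : 0 ≤ M ^ 2 * Y ^ 2 := by positivity
    have h4 : 0 ≤ M * (S * Y) := by positivity
    have h5 : 0 ≤ M ^ 2 * (S * Y) := by positivity
    nlinarith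
  rcases le_or_gt (c * Y) (4 * M * ν) with hcase | hcase
  · -- first case
    have hMY2 : M * Y ^ 2 ≤ ν / 8 := by
      -- `32 M² Y ≤ c`, `c Y ≤ 4 M ν`
      have h1 : Y * (32 * M ^ 2) * Y ≤ c * Y := mul_le_mul_of_nonneg_right hYM hY
      have h2 : 32 * M ^ 2 * Y ^ 2 ≤ 4 * M * ν := by nlinarith
      have h3 : M * (8 * (M * Y ^ 2)) ≤ M * ν := by nlinarith
      have h4 := le_of_mul_le_mul_left h3 hM0
      linarith
    have hN3 : 3 / 8 * ν ≤ N := by linarith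
    have hqν : -(M * ν) ≤ q := by
      have : 0 ≤ c * Y := by positivity
      linarith
    have hSMν : S * M * ν ≤ 1 / 4 * ν := mul_le_mul_of_nonneg_right hSM hν
    have hF : ν / 4 ≤ N + S * q / 2 + q ^ 2 / 4 := by
      have h1 : S * -(M * ν) ≤ S * q := mul_le_mul_of_nonneg_left hqν hS0
      nlinarith [sq_nonneg q]
    have hNum : S * (ν / 4) ≤ S * N + S * q ^ 2 / 4 + q * (x ^ 2 + t ^ 2) / 2 := by
      have h1 : -(M * ν) * (x ^ 2 + t ^ 2) ≤ q * (x ^ 2 + t ^ 2) :=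
        mul_le_mul_of_nonneg_right hqν hxt0
      have h2 : M * ν * (x ^ 2 + t ^ 2) ≤ M * ν * S ^ 2 :=
        mul_le_mul_of_nonneg_left hxt1 (by positivity)
      have h3 : S * (S * M * ν) ≤ S * (1 / 4 * ν) := mul_le_mul_of_nonneg_left hSMν hS0
      have h4 : S * (3 / 8 * ν) ≤ S * N := mul_le_mul_of_nonneg_left hN3 hS0
      have h5 : 0 ≤ S * q ^ 2 := by positivity
      nlinarith
    have hEν : c * (ν + Y ^ 2 + S * Y) ≤ (2 * c + 1) * ν := by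
      have h1 : Y ^ 2 ≤ ν / 8 := by
        have : Y ^ 2 ≤ M * Y ^ 2 := by
          have := mul_le_mul_of_nonneg_right hM (sq_nonneg Y)
          linarith
        linarith
      have h2 : S * (c * Y) ≤ S * (4 * M * ν) := mul_le_mul_of_nonneg_left hcase hS0
      have h3 : c * Y ^ 2 ≤ c * (ν / 8) := mul_le_mul_of_nonneg_left h1 hc.le
      have h4 : 0 ≤ c * ν := by positivity
      nlinarith
    have hE4 : c₂ * (ν + Y ^ 2 + S * Y) ≤ ν / 4 := by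
      have h1 : c₂ * (c * (ν + Y ^ 2 + S * Y)) ≤ c₂ * ((2 * c + 1) * ν) :=
        mul_le_mul_of_nonneg_left hEν hc20.le
      have h2 : c₂ * (4 * (2 * c + 1)) * ν ≤ c * ν := mul_le_mul_of_nonneg_right hc21 hν
      have h3 : c * (c₂ * (ν + Y ^ 2 + S * Y)) ≤ c * (ν / 4) := by nlinarith
      exact le_of_mul_le_mul_left h3 hc
    refine ⟨hE4.trans hF, hup, ?_⟩
    calc c₂ * (S * (ν + Y ^ 2 + S * Y)) = S * (c₂ * (ν + Y ^ 2 + S * Y)) := by ring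
      _ ≤ S * (ν / 4) := mul_le_mul_of_nonneg_left hE4 hS0
      _ ≤ _ := hNum
  · -- second case
    have hq1 : 3 / 4 * (c * Y) ≤ q := by linarith
    have hcY : 0 ≤ c * Y := by positivity
    have hq0 : 0 ≤ q := by linarith
    have hNτ : τ * (ν / 2 - M * Y ^ 2) ≤ N := by
      rcases le_or_gt (ν / 2 - M * Y ^ 2) 0 with h | h
      · exact (mul_nonpos_of_nonneg_of_nonpos hτ0.le h).trans hN
      · calc τ * (ν / 2 - M * Y ^ 2) ≤ 1 * (ν / 2 - M * Y ^ 2) :=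
            mul_le_mul_of_nonneg_right hτ1 h.le
          _ ≤ N := by linarith
    have hτY : τ * M * Y ^ 2 ≤ c ^ 2 / 16 * Y ^ 2 := mul_le_mul_of_nonneg_right hτM (sq_nonneg Y)
    have hq3 : 9 / 16 * (c ^ 2 * Y ^ 2) ≤ q ^ 2 := by
      have : (3 / 4 * (c * Y)) ^ 2 ≤ q ^ 2 := pow_le_pow_left₀ (by positivity) hq1 2
      nlinarith
    have hA : τ / 2 * ν + 5 * c ^ 2 / 64 * Y ^ 2 ≤ N + q ^ 2 / 4 := by nlinarith
    have hSq : S * (3 / 4 * (c * Y)) ≤ S * q := mul_le_mul_of_nonneg_left hq1 hS0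
    have hB1 : c₂ * ν ≤ τ / 2 * ν := mul_le_mul_of_nonneg_right hc22 hν
    have hB2 : c₂ * Y ^ 2 ≤ 5 * c ^ 2 / 64 * Y ^ 2 := mul_le_mul_of_nonneg_right hc23 (sq_nonneg Y)
    have hB3 : c₂ * (S * Y) ≤ 3 * c / 16 * (S * Y) := mul_le_mul_of_nonneg_right hc24 hSY
    have hcSY : 0 ≤ c * (S * Y) := by positivity
    refine ⟨by nlinarith, hup, ?_⟩
    have h1 : 3 / 4 * (c * Y) * (S ^ 2 / 2) ≤ q * (x ^ 2 + t ^ 2) :=
      mul_le_mul hq1 hxt2 (by positivity) hq0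
    have h2 : S * (c₂ * ν + c₂ * Y ^ 2) ≤ S * (N + q ^ 2 / 4) :=
      mul_le_mul_of_nonneg_left (by linarith) hS0
    have h3 : S * (c₂ * (S * Y)) ≤ S * (3 * c / 16 * (S * Y)) := mul_le_mul_of_nonneg_left hB3 hS0
    nlinarith

theorem col {c M : ℝ} (hc : 0 < c) (hM : 0 < M) : ∃ s₀ y₀ c₂ M₃ : ℝ, 0 < s₀ ∧ 0 < y₀ ∧ 0 < c₂ ∧
    0 < M₃ ∧ ∀ x t q ν Y N : ℝ, 0 ≤ x → 0 ≤ t → x + t ≤ s₀ → 0 ≤ Y → Y ≤ y₀ → 0 ≤ ν → 0 ≤ N →
      ν / 2 - M * Y ^ 2 ≤ N → N ≤ M * (ν + Y ^ 2) → c * Y - M * ν ≤ q → |q| ≤ M * Y →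
      c₂ * (ν + Y ^ 2 + (x + t) * Y) ≤ N + (x + t) * q / 2 + q ^ 2 / 4 ∧
      N + (x + t) * q / 2 + q ^ 2 / 4 ≤ M₃ * (ν + Y ^ 2 + (x + t) * Y) ∧
      c₂ * ((x + t) * (ν + Y ^ 2 + (x + t) * Y)) ≤
        (x + t) * N + (x + t) * q ^ 2 / 4 + q * (x ^ 2 + t ^ 2) / 2 := by
  obtain ⟨s₀, y₀, c₂, M₃, h1, h2, h3, h4, h5⟩ :=
    col_aux (c := c) (M := M + 1 + c) hc (by linarith) (by linarith)
  refine ⟨s₀, y₀, c₂, M₃, h1, h2, h3, h4, ?_⟩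
  intro x t q ν Y N hx ht hS hY hYy hν hN hN1 hN2 hq hqM
  have hc1 : 0 ≤ 1 + c := by linarith
  have a1 : 0 ≤ (1 + c) * Y ^ 2 := by positivity
  have a2 : 0 ≤ (1 + c) * ν := by positivity
  have a3 : 0 ≤ (1 + c) * Y := by positivity
  refine h5 x t q ν Y N hx ht hS hY hYy hν hN ?_ ?_ ?_ ?_
  · nlinarith
  · nlinarith
  · nlinarith
  · refine hqM.trans ?_
    nlinarith

theorem colD {c₂ M₃ : ℝ} (hc : 0 < c₂) (hM : 0 < M₃) : ∃ c₄ : ℝ, 0 < c₄ ∧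
    ∀ x t q ν Y N η : ℝ, 0 < x → 0 < t → 0 < η → η ≤ 1 → 0 ≤ Y → Y ≤ 1 → 0 ≤ ν →
      c₂ * (ν + Y ^ 2 + (x + t) * Y) ≤ N + (x + t) * q / 2 + q ^ 2 / 4 →
      N + (x + t) * q / 2 + q ^ 2 / 4 ≤ M₃ * (ν + Y ^ 2 + (x + t) * Y) →
      c₂ * ((x + t) * (ν + Y ^ 2 + (x + t) * Y)) ≤
        (x + t) * N + (x + t) * q ^ 2 / 4 + q * (x ^ 2 + t ^ 2) / 2 →
      ∀ h : ℂ, h.re = (x + t + q) / 2 →
        Complex.normSq h = x * t + (N + (x + t) * q / 2 + q ^ 2 / 4) →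
        h ≠ 0 ∧ ‖(η : ℂ) / h‖ ^ 2 ≤ (η / x) * (η / t) ∧
        0 ≤ η / x + η / t - 2 * ((η : ℂ) / h).re ∧
        (η / 2 ≤ x → x ≤ 4 * η → η / 2 ≤ t → t ≤ 4 * η →
          c₄ * Y ≤ η / x + η / t - 2 * ((η : ℂ) / h).re) := by
  refine ⟨c₂ / (2 * (16 + M₃)), by positivity, ?_⟩
  intro x t q ν Y N η hx ht hη hη1 hY hY1 hν hF1 hF2 hNum h hre hnsq
  obtain ⟨F, hFd⟩ : ∃ F : ℝ, F = N + (x + t) * q / 2 + q ^ 2 / 4 := ⟨_, rfl⟩
  obtain ⟨E, hEd⟩ : ∃ E : ℝ, E = ν + Y ^ 2 + (x + t) * Y := ⟨_, rfl⟩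
  have hNumd : (x + t) * N + (x + t) * q ^ 2 / 4 + q * (x ^ 2 + t ^ 2) / 2
      = (x + t) * F - x * t * q := by
    rw [hFd]; ring
  rw [hNumd] at hNum
  rw [← hFd] at hF1 hF2 hnsq
  rw [← hEd] at hF1 hF2 hNum
  have hS : 0 < x + t := by linarith
  have hSY : 0 ≤ (x + t) * Y := by positivity
  have hE0 : 0 ≤ E := by rw [hEd]; positivity
  have hF0 : 0 ≤ F := le_trans (by positivity) hF1
  have hxt : 0 < x * t := by positivity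
  have hxtF : 0 < x * t + F := by linarith
  have hns : 0 < Complex.normSq h := by rw [hnsq]; exact hxtF
  have hh : h ≠ 0 := by
    intro h0
    rw [h0, map_zero] at hns
    exact lt_irrefl _ hns
  have hval : η / x + η / t - 2 * ((η : ℂ) / h).re
      = η * ((x + t) * F - x * t * q) / (x * t * (x * t + F)) := by
    have h1 : ((η : ℂ) / h).re = η * ((x + t + q) / 2) / (x * t + F) := by
      rw [Complex.div_re, hnsq, hre]
      simp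
    rw [h1]
    field_simp
    ring
  refine ⟨hh, ?_, ?_, ?_⟩
  · have h1 : ‖(η : ℂ) / h‖ ^ 2 = η ^ 2 / (x * t + F) := by
      rw [norm_div, div_pow, ← Complex.normSq_eq_norm_sq h, hnsq, Complex.norm_real,
        Real.norm_eq_abs, sq_abs]
    rw [h1]
    have h2 : η / x * (η / t) = η ^ 2 / (x * t) := by
      field_simp
    rw [h2]
    exact div_le_div_of_nonneg_left (by positivity) hxt (by linarith)
  · rw [hval]
    refine div_nonneg (mul_nonneg hη.le (le_trans ?_ hNum)) (by positivity)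
    positivity
  · intro hx1 hx2 ht1 ht2
    rw [hval, le_div_iff₀ (by positivity)]
    have hSη : η ≤ x + t := by linarith
    have hS8 : x + t ≤ 8 * η := by linarith
    have hηY : η * Y ≤ E := by
      have : η * Y ≤ (x + t) * Y := mul_le_mul_of_nonneg_right hSη hY
      have h2 : 0 ≤ Y ^ 2 := sq_nonneg Y
      rw [hEd]; linarith
    have hxt4 : x * t ≤ (x + t) ^ 2 / 4 := by nlinarith [sq_nonneg (x - t)]
    have hSS : (x + t) ^ 2 ≤ 8 * η * (x + t) := by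
      have := mul_le_mul_of_nonneg_right hS8 hS.le
      nlinarith
    have hxt5 : x * t ≤ 2 * ((x + t) * η) := by linarith
    have hxt6 : x * t ≤ 16 * η ^ 2 := by
      have : (x + t) * η ≤ 8 * η * η := mul_le_mul_of_nonneg_right hS8 hη.le
      nlinarith
    have hb : x * t * (x * t + F) ≤ 2 * ((x + t) * η) * (16 * η ^ 2 + M₃ * E) :=
      mul_le_mul hxt5 (by linarith) hxtF.le (by positivity)
    have hηη : η ^ 2 * Y ≤ E := by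
      have : η * (η * Y) ≤ 1 * (η * Y) := mul_le_mul_of_nonneg_right hη1 (by positivity)
      nlinarith
    have hYE : Y * (16 * η ^ 2 + M₃ * E) ≤ (16 + M₃) * E := by
      have h1 : Y * (M₃ * E) ≤ 1 * (M₃ * E) := mul_le_mul_of_nonneg_right hY1 (by positivity)
      nlinarith
    have hc4 : c₂ / (2 * (16 + M₃)) * (2 * (16 + M₃)) = c₂ := by
      have : (2 * (16 + M₃)) ≠ 0 := by positivity
      exact div_mul_cancel₀ _ this
    have hc40 : 0 ≤ c₂ / (2 * (16 + M₃)) := by positivity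
    calc c₂ / (2 * (16 + M₃)) * Y * (x * t * (x * t + F))
        ≤ c₂ / (2 * (16 + M₃)) * Y * (2 * ((x + t) * η) * (16 * η ^ 2 + M₃ * E)) :=
          mul_le_mul_of_nonneg_left hb (by positivity)
      _ = c₂ / (2 * (16 + M₃)) * (2 * ((x + t) * η)) * (Y * (16 * η ^ 2 + M₃ * E)) := by ring
      _ ≤ c₂ / (2 * (16 + M₃)) * (2 * ((x + t) * η)) * ((16 + M₃) * E) :=
          mul_le_mul_of_nonneg_left hYE (by positivity)
      _ = c₂ / (2 * (16 + M₃)) * (2 * (16 + M₃)) * (η * ((x + t) * E)) := by ring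
      _ = c₂ * (η * ((x + t) * E)) := by rw [hc4]
      _ = η * (c₂ * ((x + t) * E)) := by ring
      _ ≤ η * ((x + t) * F - x * t * q) := mul_le_mul_of_nonneg_left hNum hη.le

end Pool.Agent.Work.MP_49847a_an
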