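import Pool.Agent.Work.MP_49847a_an.Sg.LevN
import Pool.Agent.Work.MP_49847a_an.Sg.Col
import Pool.Agent.Work.MP_49847a_an.Sg.Phi

/-!
# Module Near1: close points near `X2 P Q`

Proof.  Let `δ, c, M` from `levN`, `M'` from `tay2` for `R`; `y = w - z`, `Y = nn y`, `n = dr2 P Q z y`, `ν = ‖n‖²`,
`q = D2 P Q z w`, `x = η - r2 z`, `t = η - r2 w`, `h = η - R2 P Q z w`, `p = R2 P Q w z = conj (R2 P Q z w)`.
`2 Re p = r2 z + r2 w - q`, so `Re h = (x + t + q)/2` and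
`|h|² = x t + (N + (x+t) q/2 + q²/4)` with `N = ((x - t)/2)² + (Im p)²`.
`(x - t)/2 = (r2 w - r2 z)/2 = Re p - r2 z + q/2`, so `((x-t)/2) + i Im p = (p - r2 z) + q/2 = n + err`,
`|err| ≤ M' Y + M' Y/2` (`tay2`), hence `ν/2 - err² ≤ N ≤ 2 ν + 2 err²`, `err² ≤ 4 M'² Y²`.
`q ≥ lev2 z y - M' Y √Y ≥ c Y - M ν - M' Y √Y ≥ (c/2) Y - M ν` if `√Y ≤ c/(2 M' + 2)`; `|q| ≤ M' Y`.
So `col` (with `c/2` and `M'' = max` of all constants) and `colD` apply for `Y < δ₃`, `x + t ≤ s₀`: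
`h ≠ 0`, `K = η/h`, `K₁ = η/x`, `K₂ = η/t` satisfy `|K|² ≤ K₁ K₂`, `D = K₁ + K₂ - 2 Re K ≥ 0`, and `D ≥ c₄ Y` if
`x, t ≤ 4 η`.  By `krn_Dk`, `phi`, `phi'` (`nn z, nn w ≤ R`):
`Dk (krn P Q A η) z w ≥ (A - 2 R) D - 2 Y min(K₁, K₂) + Y` (if `R ≥ 0`; `R ≥ nn z ≥ 0`).
If `K₁ ≤ 1/4` or `K₂ ≤ 1/4`: `≥ Y/2` (`A ≥ 2 R`).  Otherwise `x, t < 4 η`, `K₁ ≤ 2` (`x ≥ η/2`) and
`(A - 2 R) c₄ Y ≥ 4 Y` for `A ≥ A₀ = 2 R + 4/c₄`, so `≥ Y`.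
-/

namespace Pool.Agent.Work.MP_49847a_an

open MvPolynomial

variable {n k l : ℕ} {P : Fin k → MvPolynomial (Fin n) ℂ} {Q : Fin l → MvPolynomial (Fin n) ℂ}

private theorem near1_N {nu : ℂ} {e : ℂ} {Y m : ℝ} (he : ‖e‖ ≤ m * Y) :
    ‖nu‖ ^ 2 / 2 - m ^ 2 * Y ^ 2 ≤ ‖nu + e‖ ^ 2 ∧
      ‖nu + e‖ ^ 2 ≤ 2 * ‖nu‖ ^ 2 + 2 * (m ^ 2 * Y ^ 2) := by
  have h1 : ‖nu‖ ≤ ‖nu + e‖ + ‖e‖ := by
    have h := norm_sub_le (nu + e) e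
    rwa [add_sub_cancel_right] at h
  have h2 : ‖nu + e‖ ≤ ‖nu‖ + ‖e‖ := norm_add_le _ _
  have h3 : ‖e‖ ^ 2 ≤ m ^ 2 * Y ^ 2 := by
    have h := pow_le_pow_left₀ (norm_nonneg e) he 2
    rwa [mul_pow] at h
  have h4 : ‖nu‖ ^ 2 ≤ (‖nu + e‖ + ‖e‖) ^ 2 := pow_le_pow_left₀ (norm_nonneg _) h1 2
  have h5 : ‖nu + e‖ ^ 2 ≤ (‖nu‖ + ‖e‖) ^ 2 := pow_le_pow_left₀ (norm_nonneg _) h2 2
  constructor
  · nlinarith [sq_nonneg (‖nu + e‖ - ‖e‖)]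
  · nlinarith [sq_nonneg (‖nu‖ - ‖e‖)]

private theorem near1_fin {A Ab D Y K₁ K₂ c₄ φ DK zz ww η x t : ℝ} (hc₄ : 0 < c₄)
    (hA : 2 * Ab + 4 / c₄ ≤ A) (hD : 0 ≤ D) (hY : 0 ≤ Y) (hzz : zz ≤ Ab) (hww : ww ≤ Ab)
    (hφ : φ ≤ 2 * Y * K₁ + 2 * ww * D) (hφ' : φ ≤ 2 * Y * K₂ + 2 * zz * D)
    (hDK : DK = A * D - φ + Y) (hη : 0 < η) (hK₁ : K₁ = η / x) (hK₂ : K₂ = η / t)
    (hx : η / 2 ≤ x) (ht : η / 2 ≤ t)
    (hcol : η / 2 ≤ x → x ≤ 4 * η → η / 2 ≤ t → t ≤ 4 * η → c₄ * Y ≤ D) :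
    1 / 2 * Y ≤ DK := by
  have hx0 : 0 < x := by linarith
  have ht0 : 0 < t := by linarith
  have h4c : 0 < 4 / c₄ := by positivity
  have hAA : 0 ≤ (A - 2 * Ab) * D := mul_nonneg (by linarith) hD
  have hw2 : ww * D ≤ Ab * D := mul_le_mul_of_nonneg_right hww hD
  have hz2 : zz * D ≤ Ab * D := mul_le_mul_of_nonneg_right hzz hD
  by_cases h1 : K₁ ≤ 1 / 4
  · have h2 : Y * K₁ ≤ Y * (1 / 4) := mul_le_mul_of_nonneg_left h1 hY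
    rw [hDK]
    linarith
  · by_cases h1' : K₂ ≤ 1 / 4
    · have h2 : Y * K₂ ≤ Y * (1 / 4) := mul_le_mul_of_nonneg_left h1' hY
      rw [hDK]
      linarith
    · rw [not_le] at h1 h1'
      have hx4 : x ≤ 4 * η := by
        rw [hK₁, lt_div_iff₀ hx0] at h1
        linarith
      have ht4 : t ≤ 4 * η := by
        rw [hK₂, lt_div_iff₀ ht0] at h1'
        linarith
      have hD2 := hcol hx hx4 ht ht4
      have hK1 : K₁ ≤ 2 := by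
        rw [hK₁, div_le_iff₀ hx0]
        linarith
      have h2 : Y * K₁ ≤ Y * 2 := mul_le_mul_of_nonneg_left hK1 hY
      have h3 : 4 / c₄ * (c₄ * Y) ≤ (A - 2 * Ab) * D :=
        mul_le_mul (by linarith) hD2 (by positivity) (by linarith)
      have h5 : 4 / c₄ * (c₄ * Y) = 4 * Y := by field_simp
      rw [hDK]
      linarith

theorem near1 (hX : IsCompact (X2 P Q)) (hl : Levi2 P Q) (R : ℝ) :
    ∃ δ s₀ δ₃ A₀ : ℝ, 0 < δ ∧ 0 < s₀ ∧ 0 < δ₃ ∧ 0 ≤ A₀ ∧ ∀ A η : ℝ, A₀ ≤ A → 0 < η → η ≤ 1 →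
      ∀ a ∈ X2 P Q, ∀ z w, nn (z - a) < δ → nn z ≤ R → nn w ≤ R → nn (z - w) < δ₃ →
        η / 2 ≤ η - r2 P Q z → η / 2 ≤ η - r2 P Q w →
        (η - r2 P Q z) + (η - r2 P Q w) ≤ s₀ →
        (η : ℂ) - R2 P Q z w ≠ 0 ∧ 1 / 2 * nn (z - w) ≤ Dk (krn P Q A η) z w := by
  obtain ⟨δ, c, M, hδ, hc, hM, hlev⟩ := levN hX hl
  obtain ⟨M', hM', htay⟩ := tay2 P Q R
  obtain ⟨MM, hMM⟩ : ∃ MM : ℝ, MM = M + 5 * M' ^ 2 + M' + 2 := ⟨_, rfl⟩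
  have hMM0 : 0 < MM := by rw [hMM]; positivity
  have hM'2 : 0 ≤ M' ^ 2 := sq_nonneg _
  obtain ⟨s₀, y₀, c₂, M₃, hs₀, hy₀, hc₂, hM₃, hcol⟩ := col (half_pos hc) hMM0
  obtain ⟨c₄, hc₄, hcolD⟩ := colD hc₂ hM₃
  refine ⟨δ, s₀, min (min y₀ 1) ((c / (2 * M')) ^ 2), 2 * |R| + 4 / c₄, hδ, hs₀,
    lt_min (lt_min hy₀ one_pos) (by positivity), by positivity, ?_⟩
  intro A η hA hη hη1 a ha z w hza hz hw hzw hx ht hxt
  have hY0 : 0 ≤ nn (z - w) := nn_nonneg _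
  have hy1 : nn (z - w) ≤ y₀ := (hzw.le.trans (min_le_left _ _)).trans (min_le_left _ _)
  have hy2 : nn (z - w) ≤ 1 := (hzw.le.trans (min_le_left _ _)).trans (min_le_right _ _)
  have hy3 : nn (z - w) ≤ (c / (2 * M')) ^ 2 := hzw.le.trans (min_le_right _ _)
  have hsq : Real.sqrt (nn (z - w)) ≤ c / (2 * M') := by
    refine Real.sqrt_le_iff.2 ⟨by positivity, hy3⟩
  obtain ⟨ht1, -, ht3, ht4, -, -, -⟩ := htay z w hz hw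
  have hlev' := hlev a ha z hza (w - z)
  rw [nn_sub_comm w z] at ht1 ht3 ht4 hlev'
  obtain ⟨Y, hYdef⟩ : ∃ Y, Y = nn (z - w) := ⟨_, rfl⟩
  rw [← hYdef] at hY0 hy1 hy2 hy3 hsq ht1 ht3 ht4 hlev' ⊢
  obtain ⟨nu, hnu⟩ : ∃ nu, nu = dr2 P Q z (w - z) := ⟨_, rfl⟩
  rw [← hnu] at ht1 hlev'
  obtain ⟨q, hqdef⟩ : ∃ q, q = D2 P Q z w := ⟨_, rfl⟩
  rw [← hqdef] at ht3 ht4
  obtain ⟨x, hxdef⟩ : ∃ x, x = η - r2 P Q z := ⟨_, rfl⟩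
  obtain ⟨t, htdef⟩ : ∃ t, t = η - r2 P Q w := ⟨_, rfl⟩
  have hx' : η / 2 ≤ x := by rw [hxdef]; exact hx
  have ht' : η / 2 ≤ t := by rw [htdef]; exact ht
  have hxt' : x + t ≤ s₀ := by rw [hxdef, htdef]; exact hxt
  have hx0 : 0 < x := by linarith
  have ht0 : 0 < t := by linarith
  have hqre : q = r2 P Q z + r2 P Q w - 2 * (R2 P Q z w).re := hqdef
  have hp : R2 P Q w z = (starRingEnd ℂ) (R2 P Q z w) := (R2_conj P Q z w).symm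
  -- the number `N`
  obtain ⟨N, hN⟩ : ∃ N, N = ((x - t) / 2) ^ 2 + (R2 P Q z w).im ^ 2 := ⟨_, rfl⟩
  obtain ⟨e, he⟩ : ∃ e : ℂ, e = (R2 P Q w z - r2 P Q z - nu) + ((q / 2 : ℝ) : ℂ) := ⟨_, rfl⟩
  have hNe : N = ‖nu + e‖ ^ 2 := by
    have h1 : nu + e = R2 P Q w z - r2 P Q z + ((q / 2 : ℝ) : ℂ) := by rw [he]; ring
    rw [h1, ← Complex.normSq_eq_norm_sq, Complex.normSq_apply, hN, hp, Complex.add_re,
      Complex.sub_re, Complex.add_im, Complex.sub_im, Complex.ofReal_re, Complex.ofReal_im,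
      Complex.ofReal_re, Complex.ofReal_im, Complex.conj_re, Complex.conj_im, hqre, hxdef, htdef]
    ring
  have heb : ‖e‖ ≤ (3 / 2 * M') * Y := by
    rw [he]
    refine (norm_add_le _ _).trans ?_
    rw [Complex.norm_real, Real.norm_eq_abs, abs_div, abs_two]
    linarith
  obtain ⟨hN1, hN2⟩ := near1_N (nu := nu) heb
  rw [← hNe] at hN1 hN2
  have hY2 : 0 ≤ Y ^ 2 := sq_nonneg _
  have hν0 : 0 ≤ ‖nu‖ ^ 2 := sq_nonneg _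
  have hN0 : 0 ≤ N := by rw [hNe]; positivity
  have hMMsq : M' ^ 2 * Y ^ 2 ≤ MM * Y ^ 2 / 5 := by
    have h1 : M' ^ 2 ≤ MM / 5 := by rw [hMM]; linarith
    have h2 := mul_le_mul_of_nonneg_right h1 hY2
    linarith
  have hc1 : ‖nu‖ ^ 2 / 2 - MM * Y ^ 2 ≤ N := by
    have h0 : 0 ≤ MM * Y ^ 2 := by positivity
    linarith
  have hc2 : N ≤ MM * (‖nu‖ ^ 2 + Y ^ 2) := by
    have h1 : 2 ≤ MM := by rw [hMM]; linarith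
    have h2 := mul_le_mul_of_nonneg_right h1 hν0
    have h0 : 0 ≤ MM * Y ^ 2 := by positivity
    linarith
  have hc3 : c / 2 * Y - MM * ‖nu‖ ^ 2 ≤ q := by
    have h1 : lev2 P Q z (w - z) - M' * (Y * Real.sqrt Y) ≤ q := by
      have := (abs_le.1 ht3).1
      linarith
    have h2 : M' * Real.sqrt Y ≤ c / 2 := by
      have h := mul_le_mul_of_nonneg_left hsq hM'.le
      have h' : M' * (c / (2 * M')) = c / 2 := by field_simp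
      linarith
    have h3 : Y * (M' * Real.sqrt Y) ≤ Y * (c / 2) := mul_le_mul_of_nonneg_left h2 hY0
    have h4 : M * ‖nu‖ ^ 2 ≤ MM * ‖nu‖ ^ 2 := by
      refine mul_le_mul_of_nonneg_right ?_ hν0
      rw [hMM]
      linarith
    linarith
  have hc4 : |q| ≤ MM * Y := by
    have h1 : M' * Y ≤ MM * Y := by
      refine mul_le_mul_of_nonneg_right ?_ hY0
      rw [hMM]
      linarith
    linarith
  obtain ⟨hcA, hcB, hcC⟩ := hcol x t q (‖nu‖ ^ 2) Y N hx0.le ht0.le hxt' hY0 hy1 hν0 hN0 hc1 hc2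
    hc3 hc4
  have hre : ((η : ℂ) - R2 P Q z w).re = (x + t + q) / 2 := by
    rw [Complex.sub_re, Complex.ofReal_re, hqre, hxdef, htdef]
    ring
  have hns : Complex.normSq ((η : ℂ) - R2 P Q z w) = x * t + (N + (x + t) * q / 2 + q ^ 2 / 4) := by
    rw [Complex.normSq_apply, hre, Complex.sub_im, Complex.ofReal_im, hN]
    ring
  obtain ⟨hh0, hh1, hh2, hh3⟩ := hcolD x t q (‖nu‖ ^ 2) Y N η hx0 ht0 hη hη1 hY0 hy2 hν0 hcA hcB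
    hcC ((η : ℂ) - R2 P Q z w) hre hns
  refine ⟨hh0, ?_⟩
  have hxne : η - r2 P Q z ≠ 0 := by rw [← hxdef]; exact hx0.ne'
  have htne : η - r2 P Q w ≠ 0 := by rw [← htdef]; exact ht0.ne'
  have hDk := krn_Dk P Q (A := A) hxne htne hh0
  rw [← hxdef, ← htdef, ← hYdef] at hDk
  have hK1 : 0 ≤ η / x := by positivity
  have hK2 : 0 ≤ η / t := by positivity
  have hp1 := phi hK1 hK2 hh1 z w
  have hp2 := phi' hK1 hK2 hh1 z w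
  rw [← hYdef] at hp1 hp2
  exact near1_fin hc₄ hA hh2 hY0 (hz.trans (le_abs_self R)) (hw.trans (le_abs_self R)) hp1 hp2
    hDk hη rfl rfl hx' ht' hh3

end Pool.Agent.Work.MP_49847a_an
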