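import Pool.Agent.Work.MP_49847a_an.Sg.Geo
import Pool.Agent.Work.MP_49847a_an.Sg.Near1
import Pool.Agent.Work.MP_49847a_an.Sg.Deep
import Pool.Agent.Work.MP_49847a_an.Sg.FarR

/-!
# Module A1: the kernel `krn` has positive second differences near the hull

Proof.  `R` with `nn z < R` on the hull (`nn_bdd`, `hull_compact`); `near1` (with `R`): `δ, s₀, δ₃, A₀`; `geo` with
`δ`: `x₁`; `x₂ = min x₁ (s₀/8)`; `M` from `tay2`, `δ₄` with `M δ₄ ≤ (x₂/4)²`: `nn (w - z) < δ₄` implies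
`|r2 w - r2 z| ≤ x₂/4`; `deep` with `x₂`: `δ₃'`; `δ₅ = min δ₃ (min δ₄ δ₃')`; `c₆` from `geo`;
`A = max A₀ (max R 0)`; `η ≤ min(1, x₂/8, s₀/8, η₀ (deep, A), η₀ (farR))`; `U` from `geo` for this `η` and
`V = {nn z < R}` (open).
Let `z, w ∈ U`.  If `δ₅ ≤ nn (z - w)`: `farR`.  Otherwise, if `x₂ < |r2 z|`: `deep`.  Otherwise `|r2 z| ≤ x₂ ≤ x₁`, so
`z` is in the first case of `geo`: `nn (z - a) < δ`, `r2 z < η/2`, `η/2 ≤ η - r2 z`.  For `w`: `|r2 w| ≤ x₂ + x₂/4`; if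
`x₁ < |r2 w|` then `r2 w < η/2` as well: `r2 w > x₁` is impossible since
`r2 w ≤ r2 z + x₂/4 < η/2 + x₂/4 < x₂ ≤ x₁`; so `r2 w < η/2` in all cases.
`(η - r2 z) + (η - r2 w) ≤ 2 η + (9/4) x₂ ≤ s₀`.  `near1`.
-/

namespace Pool.Agent.Work.MP_49847a_an

open MvPolynomial

variable {n k l : ℕ} {P : Fin k → MvPolynomial (Fin n) ℂ} {Q : Fin l → MvPolynomial (Fin n) ℂ}

theorem a1 (hX : IsCompact (X2 P Q)) (hS : Sep2 P Q) (hl : Levi2 P Q) (hI : Inn2 P Q) :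
    ∃ A η : ℝ, 0 < η ∧ ∃ U : Set (Fin n → ℂ), IsOpen U ∧ hull (X2 P Q) ⊆ U ∧
      ∀ z ∈ U, ∀ w ∈ U, (η : ℂ) - R2 P Q z w ≠ 0 ∧ 1 / 2 * nn (z - w) ≤ Dk (krn P Q A η) z w := by
  obtain ⟨R, hR0, hR⟩ := nn_bdd (hull_compact hX)
  obtain ⟨δ, s₀, δ₃, A₀, hδ, hs₀, hδ₃, hA₀, hnear⟩ := near1 hX hl R
  obtain ⟨x₁, hx₁, hgeo⟩ := geo hX hS hI hδ
  obtain ⟨x₂, hx₂def⟩ : ∃ x₂ : ℝ, x₂ = min x₁ (s₀ / 8) := ⟨_, rfl⟩
  have hx₂ : 0 < x₂ := by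
    rw [hx₂def]
    exact lt_min hx₁ (by linarith)
  have hx₂₁ : x₂ ≤ x₁ := hx₂def ▸ min_le_left _ _
  have hx₂s : x₂ ≤ s₀ / 8 := hx₂def ▸ min_le_right _ _
  obtain ⟨δ₃', hδ₃', hdeep⟩ := deep P Q R hx₂
  obtain ⟨M, hM, htay⟩ := tay2 P Q R
  obtain ⟨δ₄, hδ₄def⟩ : ∃ δ₄ : ℝ, δ₄ = (x₂ / 4) ^ 2 / M := ⟨_, rfl⟩
  have hδ₄ : 0 < δ₄ := by
    rw [hδ₄def]
    positivity
  have hMδ₄ : M * δ₄ = (x₂ / 4) ^ 2 := by
    rw [hδ₄def]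
    field_simp
  obtain ⟨δ₅, hδ₅def⟩ : ∃ δ₅ : ℝ, δ₅ = min δ₃ (min δ₄ δ₃') := ⟨_, rfl⟩
  have hδ₅ : 0 < δ₅ := by
    rw [hδ₅def]
    exact lt_min hδ₃ (lt_min hδ₄ hδ₃')
  have h53 : δ₅ ≤ δ₃ := hδ₅def ▸ min_le_left _ _
  have h54 : δ₅ ≤ δ₄ := hδ₅def ▸ (min_le_right _ _).trans (min_le_left _ _)
  have h53' : δ₅ ≤ δ₃' := hδ₅def ▸ (min_le_right _ _).trans (min_le_right _ _)
  obtain ⟨c₆, hc₆, hgeo'⟩ := hgeo δ₅ hδ₅
  obtain ⟨A, hAdef⟩ : ∃ A : ℝ, A = max A₀ R := ⟨_, rfl⟩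
  have hA1 : A₀ ≤ A := hAdef ▸ le_max_left _ _
  have hA2 : R ≤ A := hAdef ▸ le_max_right _ _
  have hA3 : 0 ≤ A := hA₀.trans hA1
  obtain ⟨η₁, hη₁, hdeep'⟩ := hdeep A hA3
  obtain ⟨η₂, hη₂, hfar⟩ := farR P Q hx₁ hc₆ hδ₅ hA2 hA3
  obtain ⟨η, hηdef⟩ : ∃ η : ℝ, η = min (min 1 (x₂ / 8)) (min (s₀ / 8) (min η₁ η₂)) := ⟨_, rfl⟩
  have hη : 0 < η := by
    rw [hηdef]
    exact lt_min (lt_min one_pos (by linarith)) (lt_min (by linarith) (lt_min hη₁ hη₂))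
  have e1 : η ≤ 1 := hηdef ▸ (min_le_left _ _).trans (min_le_left _ _)
  have e2 : η ≤ x₂ / 8 := hηdef ▸ (min_le_left _ _).trans (min_le_right _ _)
  have e3 : η ≤ s₀ / 8 := hηdef ▸ (min_le_right _ _).trans (min_le_left _ _)
  have e4 : η ≤ η₁ :=
    hηdef ▸ (min_le_right _ _).trans ((min_le_right _ _).trans (min_le_left _ _))
  have e5 : η ≤ η₂ :=
    hηdef ▸ (min_le_right _ _).trans ((min_le_right _ _).trans (min_le_right _ _))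
  obtain ⟨U, hUo, hKU, hUV, hU1, hU2⟩ := hgeo' η {z | nn z < R} hη
    (isOpen_lt nn_continuous continuous_const) (fun z hz => hR z hz)
  refine ⟨A, η, hη, U, hUo, hKU, ?_⟩
  intro z hz w hw
  have hzR : nn z ≤ R := le_of_lt (hUV hz)
  have hwR : nn w ≤ R := le_of_lt (hUV hw)
  rcases le_or_gt δ₅ (nn (z - w)) with hd | hd
  · exact hfar η hη e5 z w hzR hwR hd (hU2 z hz w hw hd) ((hU1 z hz).imp And.right id)
      ((hU1 w hw).imp And.right id)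
  · by_cases hx : x₂ < |r2 P Q z|
    · exact hdeep' η hη e4 z w hzR hwR (lt_of_lt_of_le hd h53') hx
    · rw [not_lt] at hx
      obtain ⟨⟨a, ha, hza⟩, hz2⟩ := (hU1 z hz).resolve_right (not_lt.2 (hx.trans hx₂₁))
      obtain ⟨-, -, -, -, ht5, -, -⟩ := htay z w hzR hwR
      have hdiff : |r2 P Q w - r2 P Q z| ≤ x₂ / 4 := by
        refine abs_le_of_sq_le_sq' ?_ (by linarith) |> abs_le.2
        rw [← sq_abs]
        refine ht5.trans ?_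
        rw [← hMδ₄, nn_sub_comm w z]
        exact mul_le_mul_of_nonneg_left (hd.le.trans h54) hM.le
      obtain ⟨hd1, hd2⟩ := abs_le.1 hdiff
      obtain ⟨hz3, hz4⟩ := abs_le.1 hx
      have hw2 : r2 P Q w < η / 2 := by
        rcases hU1 w hw with h | h
        · exact h.2
        · rcases lt_abs.1 h with h | h
          · linarith
          · linarith
      exact hnear A η hA1 hη e1 a ha z w hza hzR hwR (lt_of_lt_of_le hd h53) (by linarith)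
        (by linarith) (by linarith)

end Pool.Agent.Work.MP_49847a_an
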