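import Pool.Agent.Work.MP_49847a_an.Sg.Kc

/-!
# The data of the merging argument

`ρ` a Hermitian polynomial of bidegree `(d,d)`, `W = ‖h‖² + ε (1 + ‖z‖²)^e`, `G` a real polynomial:
`ρ ≥ r₁ (1 + ‖z‖²)^d` where `ρ ≥ r₀`, `W < 1/4` where `ρ < r₀`, and the second difference of `ρ G` is at least
`c ‖z - w‖²` on `{W ≤ 5}`.
-/

namespace Pool.Agent.Work.MP_49847a_an

open MvPolynomial

/-- the data of the merging argument -/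
structure Adm {n m : ℕ} (d e : ℕ) (ε r₀ r₁ c : ℝ) (h : Fin m → MvPolynomial (Fin n) ℂ)
    (ρ W G : MvPolynomial (Fin n ⊕ Fin n) ℝ) : Prop where
  hd : 0 < d
  hρ : Dg d ρ
  hW : Big e ε h W
  hr₀ : 0 < r₀
  hr₁ : 0 < r₁
  hc : 0 < c
  lo : ∀ z, r₀ ≤ ev ρ z → r₁ * (1 + nn z) ^ d ≤ ev ρ z
  sub : ∀ z, ev ρ z < r₀ → ev W z < 1 / 4
  dia : ∀ z w, ev W z ≤ 5 → ev W w ≤ 5 → c * nn (z - w) ≤ Df (ρ * G) z w

end Pool.Agent.Work.MP_49847a_an
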