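import Pool.Agent.Work.MP_49847a_an.Sg.BigL

/-!
# Module Ban2: approximate inverses on `{W ≤ b} × {W ≤ b}`

Proof.  `L = {ev W ≤ b}` is compact (`Big_cpt`).  Let `σ : Fin (n + n) ≃ Fin n ⊕ Fin n` (`finSumFinEquiv.symm`), and
`Y ⊂ (Fin (n + n) → ℂ)` the set of the points `(Sum.elim z (conj w)) ∘ σ` with `z, w ∈ L`: compact (image of
`L × L`).  Apply `ban` to `Y` and the polynomial `rename σ.symm g`; it gives `G`, and `S = rename σ G`.
It remains to see that `rename σ.symm g` has no zeros on `hull Y`, and for this that `hull Y ⊂ Y`: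
`W` is a Hermitian sum of squares, `ev W = nrm p` for some family `p` (`nrm_append` of `h` and of the family for
`ε (1+nn)^e`, `exists_nrm_WW`, `nrm_mul`, `nrm_const`).  Let `ζ ∈ hull Y`, `ζ = (z, ω)`, `w = conj ω`.  The family
`p_j(z)` (renamed polynomials in the first variables) satisfies `nrm ≤ b` on `Y`, so by `nrm_hull` (applied in
`ℂ^(n+n)`; `b ≥ 0` may be assumed, otherwise `L` and `Y` are empty and so is `hull Y`) `nrm p z ≤ b`, that is
`z ∈ L`.  The family `conj(p_j)(ω)` (conjugate coefficients, `eval_map_conj`, second variables) has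
`nrm = nrm p (conj ω)`, so `w ∈ L`.
-/

namespace Pool.Agent.Work.MP_49847a_an

open MvPolynomial

variable {n m e : ℕ} {ε : ℝ} {h : Fin m → MvPolynomial (Fin n) ℂ}
  {W : MvPolynomial (Fin n ⊕ Fin n) ℝ}

private theorem ban2_pow (n e : ℕ) : ∃ (m : ℕ) (p : Fin m → MvPolynomial (Fin n) ℂ),
    ∀ z, nrm p z = (1 + nn z) ^ e := by
  induction e with
  | zero =>
    obtain ⟨s, hs⟩ := nrm_const (n := n) (zero_le_one (α := ℝ))
    exact ⟨1, s, fun z => by rw [hs, pow_zero]⟩
  | succ e ih =>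
    obtain ⟨m, p, hp⟩ := ih
    obtain ⟨m', p', _, hp'⟩ := exists_nrm_WW (n := n) (zero_le_one (α := ℝ))
    obtain ⟨s, hs⟩ := nrm_mul p p'
    exact ⟨_, s, fun z => by rw [hs, hp, hp', pow_succ]⟩

private theorem ban2_fam (hW : Big e ε h W) :
    ∃ (m : ℕ) (p : Fin m → MvPolynomial (Fin n) ℂ), ∀ z, ev W z = nrm p z := by
  obtain ⟨_, hε, _, hev⟩ := hW
  obtain ⟨m₁, p₁, hp₁⟩ := ban2_pow n e
  obtain ⟨c₁, hc₁⟩ := nrm_const (n := n) hε.le
  obtain ⟨s₁, hs₁⟩ := nrm_mul c₁ p₁
  obtain ⟨s, hs⟩ := nrm_append h s₁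
  exact ⟨_, s, fun z => by rw [hev, hs, hs₁, hc₁, hp₁]⟩

theorem ban2 (hW : Big e ε h W) (b : ℝ) {g : MvPolynomial (Fin n ⊕ Fin n) ℂ}
    (hg : ∀ z w, ev W z ≤ b → ev W w ≤ b →
      eval (Sum.elim z (fun i => (starRingEnd ℂ) (w i))) g ≠ 0) {δ : ℝ} (hδ : 0 < δ) :
    ∃ S : MvPolynomial (Fin n ⊕ Fin n) ℂ, ∀ z w, ev W z ≤ b → ev W w ≤ b →
      ‖1 - eval (Sum.elim z (fun i => (starRingEnd ℂ) (w i))) g *
        eval (Sum.elim z (fun i => (starRingEnd ℂ) (w i))) S‖ < δ := by
  obtain ⟨m', p, hp⟩ := ban2_fam hW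
  rcases lt_or_ge b 0 with hb | hb
  · refine ⟨0, fun z w hz _ => ?_⟩
    rw [hp] at hz
    linarith [nrm_nonneg p z]
  let τ : Fin n ⊕ Fin n ≃ Fin (n + n) := finSumFinEquiv
  let pt : (Fin n → ℂ) × (Fin n → ℂ) → (Fin (n + n) → ℂ) := fun x =>
    fun i => Sum.elim x.1 (fun i => (starRingEnd ℂ) (x.2 i)) (τ.symm i)
  have hptl : ∀ x i, pt x (τ (Sum.inl i)) = x.1 i := by
    intro x i
    simp only [pt, Equiv.symm_apply_apply, Sum.elim_inl]
  have hptr : ∀ x i, pt x (τ (Sum.inr i)) = (starRingEnd ℂ) (x.2 i) := by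
    intro x i
    simp only [pt, Equiv.symm_apply_apply, Sum.elim_inr]
  have hptc : Continuous pt := by
    refine continuous_pi fun i => ?_
    obtain ⟨j, rfl⟩ := τ.surjective i
    rcases j with j | j
    · simp only [hptl]
      exact (continuous_apply j).comp continuous_fst
    · simp only [hptr]
      exact Complex.continuous_conj.comp ((continuous_apply j).comp continuous_snd)
  let L : Set (Fin n → ℂ) := {z | ev W z ≤ b}
  have hL : IsCompact L := Big_cpt hW b
  let Y : Set (Fin (n + n) → ℂ) := pt '' (L ×ˢ L)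
  have hY : IsCompact Y := (hL.prod hL).image hptc
  have hYh : ∀ a ∈ hull Y, a ∈ Y := by
    intro a ha
    let z : Fin n → ℂ := fun i => a (τ (Sum.inl i))
    let w : Fin n → ℂ := fun i => (starRingEnd ℂ) (a (τ (Sum.inr i)))
    let p₁ : Fin m' → MvPolynomial (Fin (n + n)) ℂ := fun j =>
      rename (fun i => τ (Sum.inl i)) (p j)
    let p₂ : Fin m' → MvPolynomial (Fin (n + n)) ℂ := fun j =>
      rename (fun i => τ (Sum.inr i)) (map (starRingEnd ℂ) (p j))
    have h1 : ∀ x, nrm p₁ x = nrm p (fun i => x (τ (Sum.inl i))) := by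
      intro x
      unfold nrm
      refine Finset.sum_congr rfl fun j _ => ?_
      simp only [p₁, eval_rename]
      rfl
    have h2 : ∀ x, nrm p₂ x = nrm p (fun i => (starRingEnd ℂ) (x (τ (Sum.inr i)))) := by
      intro x
      unfold nrm
      refine Finset.sum_congr rfl fun j _ => ?_
      simp only [p₂, eval_rename]
      have h3 := eval_map_conj (p j) (fun i => (starRingEnd ℂ) (x (τ (Sum.inr i))))
      simp only [Complex.conj_conj] at h3
      have h4 : (x ∘ fun i => τ (Sum.inr i)) = fun i => x (τ (Sum.inr i)) := rfl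
      rw [h4, h3, RCLike.norm_conj]
    have h3 : nrm p₁ a ≤ b := by
      refine nrm_hull hb ?_ ha
      rintro _ ⟨x, hx, rfl⟩
      rw [h1]
      simp only [hptl]
      rw [← hp]
      exact hx.1
    have h4 : nrm p₂ a ≤ b := by
      refine nrm_hull hb ?_ ha
      rintro _ ⟨x, hx, rfl⟩
      rw [h2]
      simp only [hptr, Complex.conj_conj]
      rw [← hp]
      exact hx.2
    refine ⟨(z, w), ⟨?_, ?_⟩, ?_⟩
    · change ev W z ≤ b
      rw [hp]
      rw [h1] at h3
      exact h3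
    · change ev W w ≤ b
      rw [hp]
      rw [h2] at h4
      exact h4
    · funext i
      obtain ⟨j, rfl⟩ := τ.surjective i
      rcases j with j | j
      · rw [hptl]
      · rw [hptr]
        simp only [w, Complex.conj_conj]
  have hpe : ∀ z w : Fin n → ℂ, (fun i => pt (z, w) (τ i)) =
      Sum.elim z (fun i => (starRingEnd ℂ) (w i)) := by
    intro z w
    funext i
    rcases i with i | i
    · rw [hptl]; rfl
    · rw [hptr]; rfl
  have hev : ∀ z w : Fin n → ℂ, eval (pt (z, w)) (rename τ g) =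
      eval (Sum.elim z (fun i => (starRingEnd ℂ) (w i))) g := by
    intro z w
    rw [eval_rename, ← hpe z w]
    rfl
  obtain ⟨G, hG⟩ := ban hY (q := rename τ g) (by
    intro a ha
    obtain ⟨⟨z, w⟩, ⟨hz, hw⟩, rfl⟩ := hYh a ha
    rw [hev]
    exact hg z w hz hw) hδ
  refine ⟨rename τ.symm G, fun z w hz hw => ?_⟩
  have h1 := hG (pt (z, w)) ⟨(z, w), ⟨hz, hw⟩, rfl⟩
  rw [hev] at h1
  rw [eval_rename]
  exact h1

end Pool.Agent.Work.MP_49847a_an
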