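import Pool.Agent.Work.MP_49847a_an.Sg.Schw
import Pool.Agent.Work.MP_49847a_an.Sg.Hp
import Pool.Agent.Work.MP_49847a_an.Sg.Ban2

/-!
# Module Apx: polynomial approximation of the kernel

Proof.  `L = {ev W ≤ 6}` is compact.  `exists_zb` gives `g` with `g(z, conj w) = η - R2 P Q z w`
(`pol_r2`, the polynomial `C η - ρ`), without zeros on `L × L`; `‖η - R2‖ ≥ μ > 0` on `L × L` (compactness,
`R2_continuous`).  `ban2` gives `S`, `‖1 - g S‖ < δ` on `L × L`, so `‖S - 1/g‖ ≤ δ/μ`.  `exists_herm` gives `F` with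
`pol F z w = (S(z, conj w) + conj S(w, conj z))/2`; `1/(η - R2 z w)` is Hermitian (`R2_conj`), so
`‖pol F z w - 1/(η - R2 z w)‖ ≤ δ/μ` on `L × L`.
`G = (C A - WW n 0) * F`: `pol (ρ G) z w = (A - ip z w) R2 z w pol F z w` (`pol_mul`, `pol_WW`, `pol_r2`).
`e z w = pol (ρ G) z w - krn P Q A η z w = (A - ip z w) R2 z w (pol F z w - 1/(η - R2 z w))`, so `‖e‖ ≤ M δ/μ` on
`L × L`, `M` a bound of `(A - ip) R2`.
`Big_nbhd` with `5 < 6`: `s`.  Apply `schD` to `e`, `L' = {ev W < 6}` (holomorphic on `L'`: `pol` is a polynomial, the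
denominator is a polynomial without zeros), Hermitian by `pol_conj`, `R2_conj`, `ip_conj`:
`|Dk e z w| ≤ 4 M δ/(μ s) nn (z - w) ≤ 1/4 nn (z - w)` for `δ` small.  `Df (ρ G) = Dk (krn) + Dk e`
(`Dk` is additive, `Dk (pol F) = Df F` by `pol_self`).
-/

namespace Pool.Agent.Work.MP_49847a_an

open MvPolynomial

variable {n k l m e : ℕ} {P : Fin k → MvPolynomial (Fin n) ℂ} {Q : Fin l → MvPolynomial (Fin n) ℂ}
  {ε : ℝ} {h : Fin m → MvPolynomial (Fin n) ℂ} {W ρ : MvPolynomial (Fin n ⊕ Fin n) ℝ}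

private theorem apx_min {X : Type*} [TopologicalSpace X] {L : Set X} (hL : IsCompact L)
    {f : X × X → ℝ} (hf : Continuous f) (hpos : ∀ z ∈ L, ∀ w ∈ L, 0 < f (z, w)) :
    ∃ μ : ℝ, 0 < μ ∧ ∀ z ∈ L, ∀ w ∈ L, μ ≤ f (z, w) := by
  rcases Set.eq_empty_or_nonempty L with he | ⟨x₀, hx₀⟩
  · refine ⟨1, one_pos, fun z hz => ?_⟩
    rw [he] at hz
    exact absurd hz (Set.notMem_empty _)
  · obtain ⟨x, hx, hm⟩ := (hL.prod hL).exists_isMinOn ⟨(x₀, x₀), ⟨hx₀, hx₀⟩⟩ hf.continuousOn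
    refine ⟨f x, hpos x.1 hx.1 x.2 hx.2, fun z hz w hw => ?_⟩
    exact isMinOn_iff.1 hm (z, w) ⟨hz, hw⟩

private theorem apx_max {X : Type*} [TopologicalSpace X] {L : Set X} (hL : IsCompact L)
    {f : X × X → ℂ} (hf : Continuous f) : ∃ M : ℝ, 0 < M ∧ ∀ z ∈ L, ∀ w ∈ L, ‖f (z, w)‖ ≤ M := by
  obtain ⟨M₀, hM₀⟩ := (hL.prod hL).exists_bound_of_continuousOn hf.continuousOn
  exact ⟨max M₀ 1, lt_of_lt_of_le one_pos (le_max_right _ _), fun z hz w hw =>
    (hM₀ (z, w) ⟨hz, hw⟩).trans (le_max_left _ _)⟩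

private theorem apx_diff (F : MvPolynomial (Fin n ⊕ Fin n) ℝ) (z y w : Fin n → ℂ) :
    Differentiable ℂ (fun a : ℂ => pol F (z + a • y) w) := by
  unfold pol
  generalize map (algebraMap ℝ ℂ) F = B
  induction B using MvPolynomial.induction_on with
  | C c =>
    simp only [eval_C]
    exact differentiable_const _
  | add p q hp hq =>
    simp only [map_add]
    exact hp.add hq
  | mul_X p i hp =>
    simp only [map_mul, eval_X]
    refine hp.mul ?_
    rcases i with i | i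
    · simp only [Sum.elim_inl, Pi.add_apply, Pi.smul_apply, smul_eq_mul]
      fun_prop
    · simp only [Sum.elim_inr, Pi.add_apply, Pi.smul_apply, smul_eq_mul]
      fun_prop

private theorem apx_inv {D S : ℂ} {δ μ : ℝ} (hμ : 0 < μ) (hD : μ ≤ ‖D‖) (h : ‖1 - D * S‖ < δ) :
    ‖S - D⁻¹‖ ≤ δ / μ := by
  have hD0 : D ≠ 0 := by
    intro h0
    rw [h0, norm_zero] at hD
    linarith
  have e1 : S - D⁻¹ = -((1 - D * S) / D) := by
    field_simp
    ring
  rw [e1, norm_neg, norm_div]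
  exact div_le_div₀ ((norm_nonneg _).trans h.le) h.le hμ hD

theorem apx {A η : ℝ} (hW : Big e ε h W) (hρ : ∀ z, ev ρ z = r2 P Q z)
    (hU : ∀ z w, ev W z ≤ 6 → ev W w ≤ 6 →
      (η : ℂ) - R2 P Q z w ≠ 0 ∧ 1 / 2 * nn (z - w) ≤ Dk (krn P Q A η) z w) :
    ∃ G : MvPolynomial (Fin n ⊕ Fin n) ℝ, ∀ z w, ev W z ≤ 5 → ev W w ≤ 5 →
      1 / 4 * nn (z - w) ≤ Df (ρ * G) z w := by
  have hR : ∀ z w, pol ρ z w = R2 P Q z w := pol_r2 hρ
  have hRD : ∀ z w, pol (C η - ρ) z w = (η : ℂ) - R2 P Q z w := by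
    intro z w
    rw [pol_sub, pol_C, hR]
  obtain ⟨g, hg⟩ := exists_zb (C η - ρ)
  have hg' : ∀ z w : Fin n → ℂ, eval (Sum.elim z (fun i => (starRingEnd ℂ) (w i))) g =
      (η : ℂ) - R2 P Q z w := fun z w => by rw [hg, hRD]
  have hDc : Continuous (fun q : (Fin n → ℂ) × (Fin n → ℂ) => (η : ℂ) - R2 P Q q.1 q.2) :=
    continuous_const.sub (R2_continuous P Q)
  have hTc : Continuous (fun q : (Fin n → ℂ) × (Fin n → ℂ) =>
      pol (C A - WW n 0) q.1 q.2 * R2 P Q q.1 q.2) :=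
    (pol_continuous _).mul (R2_continuous P Q)
  have hL : IsCompact {z : Fin n → ℂ | ev W z ≤ 6} := Big_cpt hW 6
  obtain ⟨μ, hμ, hμD'⟩ := apx_min hL hDc.norm (fun z hz w hw => norm_pos_iff.2 (hU z w hz hw).1)
  have hμD : ∀ z w, ev W z ≤ 6 → ev W w ≤ 6 → μ ≤ ‖(η : ℂ) - R2 P Q z w‖ :=
    fun z w hz hw => hμD' z hz w hw
  obtain ⟨M, hM, hMT'⟩ := apx_max hL hTc
  have hMT : ∀ z w, ev W z ≤ 6 → ev W w ≤ 6 →
      ‖pol (C A - WW n 0) z w * R2 P Q z w‖ ≤ M := fun z w hz hw => hMT' z hz w hw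
  obtain ⟨s, hs, hnb⟩ := Big_nbhd hW (show (5 : ℝ) < 6 by norm_num)
  obtain ⟨δ, hδdef⟩ : ∃ δ : ℝ, δ = μ * s / (16 * M) := ⟨_, rfl⟩
  have hδ : 0 < δ := by
    rw [hδdef]
    positivity
  obtain ⟨S, hS⟩ := ban2 hW 6 (g := g) (fun z w hz hw => by
    rw [hg']
    exact (hU z w hz hw).1) hδ
  obtain ⟨F, hF⟩ := exists_herm S
  have hFD : ∀ z w, ev W z ≤ 6 → ev W w ≤ 6 →
      ‖pol F z w - ((η : ℂ) - R2 P Q z w)⁻¹‖ ≤ δ / μ := by
    intro z w hz hw
    have h1 := hS z w hz hw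
    have h2 := hS w z hw hz
    rw [hg'] at h1 h2
    have h3 := apx_inv hμ (hμD z w hz hw) h1
    have h4 := apx_inv hμ (hμD w z hw hz) h2
    have h5 : (starRingEnd ℂ) ((η : ℂ) - R2 P Q w z)⁻¹ = ((η : ℂ) - R2 P Q z w)⁻¹ := by
      rw [map_inv₀, map_sub, Complex.conj_ofReal, R2_conj]
    rw [← RCLike.norm_conj, map_sub, h5] at h4
    have e1 : pol F z w - ((η : ℂ) - R2 P Q z w)⁻¹ =
        ((eval (Sum.elim z (fun i => (starRingEnd ℂ) (w i))) S - ((η : ℂ) - R2 P Q z w)⁻¹) +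
          ((starRingEnd ℂ) (eval (Sum.elim w (fun i => (starRingEnd ℂ) (z i))) S) -
            ((η : ℂ) - R2 P Q z w)⁻¹)) / 2 := by
      rw [hF]
      ring
    rw [e1, norm_div]
    have h6 : ‖(2 : ℂ)‖ = 2 := by norm_num
    rw [h6, div_le_iff₀ (by norm_num)]
    refine (norm_add_le _ _).trans ?_
    linarith
  refine ⟨(C A - WW n 0) * F, fun z w hz hw => ?_⟩
  have hz6 : ev W z ≤ 6 := hz.trans (by norm_num)
  have hw6 : ev W w ≤ 6 := hw.trans (by norm_num)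
  have hkr : ∀ z w, krn P Q A η z w = pol (C A - WW n 0) z w * R2 P Q z w *
      ((η : ℂ) - R2 P Q z w)⁻¹ := by
    intro z w
    rw [pol_sub, pol_C, pol_WW, Complex.ofReal_zero, zero_add]
    unfold krn
    rw [div_eq_mul_inv]
  let er : (Fin n → ℂ) → (Fin n → ℂ) → ℂ := fun z w =>
    pol (ρ * ((C A - WW n 0) * F)) z w - krn P Q A η z w
  have her : ∀ z w, er z w = pol (C A - WW n 0) z w * R2 P Q z w *
      (pol F z w - ((η : ℂ) - R2 P Q z w)⁻¹) := by
    intro z w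
    change pol (ρ * ((C A - WW n 0) * F)) z w - krn P Q A η z w = _
    rw [hkr, pol_mul, pol_mul, hR]
    ring
  have key := schD (e := er) (L := {z : Fin n → ℂ | ev W z ≤ 6}) (s := s) (M := M * (δ / μ)) hs
    (fun z w => by
      rw [her, her, map_mul, map_mul, map_sub, map_inv₀, map_sub, Complex.conj_ofReal, R2_conj,
        pol_conj, pol_conj])
    (fun w hw z y => by
      intro a ha
      refine DifferentiableAt.differentiableWithinAt ?_
      have h1 : (fun a : ℂ => er (z + a • y) w) = fun a : ℂ =>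
          pol (C A - WW n 0) (z + a • y) w * pol ρ (z + a • y) w *
            (pol F (z + a • y) w - (pol (C η - ρ) (z + a • y) w)⁻¹) := by
        funext a
        rw [her, hR, hRD]
      rw [h1]
      have h2 : pol (C η - ρ) (z + a • y) w ≠ 0 := by
        rw [hRD]
        exact (hU _ _ ha hw).1
      exact ((apx_diff _ z y w a).mul (apx_diff _ z y w a)).mul
        ((apx_diff _ z y w a).sub ((apx_diff (C η - ρ) z y w a).inv h2)))
    (fun z hz w hw => by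
      rw [her, norm_mul]
      exact mul_le_mul (hMT z w hz hw) (hFD z w hz hw) (norm_nonneg _) hM.le)
    (z := z) (w := w) (fun x hx => (hnb z x hz hx).le) hw6
  have e1 : 4 * (M * (δ / μ)) / s = 1 / 4 := by
    rw [hδdef]
    field_simp
    norm_num
  rw [e1] at key
  have e2 : Df (ρ * ((C A - WW n 0) * F)) z w = Dk (krn P Q A η) z w + Dk er z w := by
    unfold Df Dk
    change _ = _ + ((pol (ρ * ((C A - WW n 0) * F)) z z - krn P Q A η z z).re +
      (pol (ρ * ((C A - WW n 0) * F)) w w - krn P Q A η w w).re -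
      2 * (pol (ρ * ((C A - WW n 0) * F)) z w - krn P Q A η z w).re)
    rw [pol_self, pol_self, Complex.sub_re, Complex.sub_re, Complex.sub_re, Complex.ofReal_re,
      Complex.ofReal_re]
    ring
  have h1 := (hU z w hz6 hw6).2
  have h2 := (abs_le.1 key).1
  rw [e2]
  linarith

end Pool.Agent.Work.MP_49847a_an
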