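import Pool.Agent.Work.MP_49847a_an.Sg.Fu

/-!
# Module BigL: simple properties of `W = ‖h‖² + ε (1 + ‖z‖²)^e`

Proof.
(Big_lower) `nrm h ≥ 0`.  (Big_Ps_sub) `ev (W - C ε * WW n 1 ^ e) = nrm h` (`ev_WW`, `ev_pow`), `Ps_nrm`.
(Big_Ps) add `C ε * WW n 1 ^ e` (`Ps_add`, `Ps_mul`, `Ps_C`, `Ps_pow`, `Ps_WW`).
(Big_Ps_eps) `W - C ε = (W - C ε * WW n 1 ^ e) + C ε * (WW n 1 ^ e - WW n 1 ^ 0)`, `Ps_WW_pow_sub`.
(Big_dg) `Dg` of `nrm h` (zero second family), `Dg_add`, `Dg_mul`, `Dg_C`, `Dg_pow`, `Dg_WW`; use `ev_ext`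
to write `W = H + C ε * WW n 1 ^ e` with `ev H = nrm h` (`exists_nrm`).
(Big_upper) `Dg_bound`.  (Big_cpt) closed (`ev_continuous`) and bounded (`Big_lower`: `ε (1 + nn z) ≤
ε (1+nn z)^e ≤ b`, and `‖z i‖² ≤ nn z`).
(Big_nbhd) `{ev W ≤ a}` is compact and contained in the open set `{ev W < b}`: a Lebesgue number argument
(`IsCompact.exists_cthickening_subset_open` or `IsCompact.exists_thickening_subset_open`; sup norm
`‖x - z‖² ≤ nn (x - z)`).
-/

namespace Pool.Agent.Work.MP_49847a_an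

open MvPolynomial

variable {n m e : ℕ} {ε : ℝ} {h : Fin m → MvPolynomial (Fin n) ℂ}
  {W : MvPolynomial (Fin n ⊕ Fin n) ℝ}

private theorem sq_le_nn (z : Fin n → ℂ) (i : Fin n) : ‖z i‖ ^ 2 ≤ nn z := by
  unfold nn
  exact Finset.single_le_sum (f := fun i => ‖z i‖ ^ 2) (fun j _ => by positivity)
    (Finset.mem_univ i)

private theorem cpt_aux {S : Set (Fin n → ℂ)} (hS : IsClosed S) {R : ℝ}
    (hR : ∀ z ∈ S, nn z ≤ R) : IsCompact S := by
  refine Metric.isCompact_of_isClosed_isBounded hS ?_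
  refine (Metric.isBounded_iff_subset_closedBall 0).2 ⟨Real.sqrt R, fun z hz => ?_⟩
  rw [mem_closedBall_zero_iff, pi_norm_le_iff_of_nonneg (Real.sqrt_nonneg _)]
  intro i
  exact Real.le_sqrt_of_sq_le ((sq_le_nn z i).trans (hR z hz))

theorem Big_lower (hW : Big e ε h W) (z : Fin n → ℂ) : ε * (1 + nn z) ^ e ≤ ev W z := by
  rw [hW.2.2.2 z]
  linarith [nrm_nonneg h z]

private theorem ev_rest (hW : Big e ε h W) (z : Fin n → ℂ) :
    ev (W - C ε * WW n 1 ^ e) z = nrm h z := by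
  rw [ev_sub, ev_mul, ev_C, ev_pow, ev_WW, hW.2.2.2 z]
  ring

theorem Big_Ps_sub (hW : Big e ε h W) (z w : Fin n → ℂ) : Ps (W - C ε * WW n 1 ^ e) z w :=
  Ps_nrm (ev_rest hW) z w

theorem Big_Ps (hW : Big e ε h W) (z w : Fin n → ℂ) : Ps W z w := by
  have h1 := Ps_add (Big_Ps_sub hW z w)
    (Ps_mul (Ps_C hW.2.1.le z w) (Ps_pow (Ps_WW zero_le_one z w) e))
  rwa [sub_add_cancel] at h1

theorem Big_Ps_eps (hW : Big e ε h W) (z w : Fin n → ℂ) : Ps (W - C ε) z w := by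
  have h1 := Ps_add (Big_Ps_sub hW z w)
    (Ps_mul (Ps_C hW.2.1.le z w) (Ps_WW_pow_sub (Nat.zero_le e) z w))
  have h2 : W - C ε * WW n 1 ^ e + C ε * (WW n 1 ^ e - WW n 1 ^ 0) = W - C ε := by
    rw [pow_zero]
    ring
  rwa [h2] at h1

theorem Big_dg (hW : Big e ε h W) : Dg e W := by
  obtain ⟨H, hH⟩ := exists_nrm h
  have h1 : W = H + C ε * WW n 1 ^ e := by
    apply ev_ext
    intro z
    rw [ev_add, ev_mul, ev_C, ev_pow, ev_WW, hH, hW.2.2.2 z]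
  have h2 : Dg e H := by
    refine ⟨m, h, 0, Fin.elim0, hW.2.2.1, fun j => Fin.elim0 j, fun z => ?_⟩
    rw [hH]
    simp [nrm]
  have h3 : Dg e (C ε * WW n 1 ^ e) := by
    have := Dg_mul (Dg_C (n := n) ε) (Dg_pow (Dg_WW (n := n) zero_le_one) e)
    rwa [mul_one, zero_add] at this
  rw [h1]
  exact Dg_add h2 h3

theorem Big_upper (hW : Big e ε h W) : ∃ M : ℝ, 0 < M ∧ ∀ z, ev W z ≤ M * (1 + nn z) ^ e := by
  obtain ⟨M, hM, hM'⟩ := Dg_bound (Big_dg hW)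
  refine ⟨M + 1, by linarith, fun z => ?_⟩
  have h1 := (le_abs_self _).trans (hM' z)
  have h2 : 0 ≤ (1 + nn z) ^ e := pow_nonneg (by linarith [nn_nonneg z]) e
  linarith

theorem Big_cpt (hW : Big e ε h W) (b : ℝ) : IsCompact {z | ev W z ≤ b} := by
  refine cpt_aux (isClosed_le (ev_continuous W) continuous_const) (R := b / ε) fun z hz => ?_
  have h1 := (Big_lower hW z).trans hz
  have h2 : 1 + nn z ≤ (1 + nn z) ^ e :=
    le_self_pow₀ (by linarith [nn_nonneg z]) hW.1.ne'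
  have h3 := mul_le_mul_of_nonneg_left h2 hW.2.1.le
  rw [le_div_iff₀ hW.2.1]
  nlinarith [hW.2.1]

theorem Big_nbhd (hW : Big e ε h W) {a b : ℝ} (hab : a < b) :
    ∃ s : ℝ, 0 < s ∧ ∀ z x, ev W z ≤ a → nn (x - z) < s → ev W x < b := by
  obtain ⟨δ, hδ, hsub⟩ := (Big_cpt hW a).exists_thickening_subset_open
    (isOpen_lt (ev_continuous W) (continuous_const (y := b)))
    (fun z (hz : ev W z ≤ a) => lt_of_le_of_lt hz hab)
  refine ⟨δ ^ 2, by positivity, fun z x hz hx => ?_⟩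
  refine hsub (Metric.mem_thickening_iff.2 ⟨z, hz, ?_⟩)
  rw [dist_pi_lt_iff hδ]
  intro i
  have h1 := (sq_le_nn (x - z) i).trans_lt hx
  rw [Pi.sub_apply] at h1
  rw [dist_eq_norm]
  exact lt_of_pow_lt_pow_left₀ 2 hδ.le h1

/-- a compact set is bounded in the Euclidean norm -/
theorem nn_bdd {K : Set (Fin n → ℂ)} (hK : IsCompact K) : ∃ R : ℝ, 0 < R ∧ ∀ z ∈ K, nn z < R := by
  obtain ⟨M, hM⟩ := hK.bddAbove_image (nn_continuous (n := n)).continuousOn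
  refine ⟨max M 0 + 1, by positivity, fun z hz => ?_⟩
  have h1 : nn z ≤ M := hM ⟨z, hz, rfl⟩
  linarith [le_max_left M 0]

/-- balls are compact -/
theorem nn_cpt (R : ℝ) : IsCompact {z : Fin n → ℂ | nn z ≤ R} :=
  cpt_aux (isClosed_le nn_continuous continuous_const) fun _ hz => hz

end Pool.Agent.Work.MP_49847a_an
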