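import Pool.Agent.Work.MP_49847a_an.Sg.BigL

/-!
# Module Wex: a Hermitian sum of squares which is small on `K` and large outside a neighbourhood

Proof.  `K` compact with `hull K ⊂ K`.  `R > 0` with `nn z < R` on `K`, and `R' = 4 R + 4` (say).
(1) For every `a ∉ K` there is a polynomial `p` with `|p| < 1` on `K` and `|p(a)| > 1`: `a ∉ hull K` gives `p₀`, `c`
with `|p₀| ≤ c` on `K`, `|p₀(a)| > c`; if `c > 0` (or `K` nonempty, then `c ≥ 0`) scale by a constant `t` with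
`t c < 1 < t |p₀(a)|` (`c ≥ 0`; `t = 2/(c + |p₀(a)|)`); if `K` is empty take `p = 2`.
(2) The set `B = {nn z ≤ R'} \ U` is compact, disjoint from `K`; finitely many `p_1, …, p_N` as in (1) with
`max |p_j| > 1` at every point of `B`.  By compactness there are `θ < 1 < θ'` with `|p_j| ≤ θ` on `K` and
`max_j |p_j| ≥ θ'` on `B`.  For `M` large the polynomials `h_j = p_j^M` satisfy `∑ |h_j|² ≤ N θ^(2M) < 1/8` on `K`
and `∑ |h_j|² ≥ θ'^(2M) > 6` on `B`.
(3) `e ≥ 1` with `deg h_j ≤ e` and `(1/8) ((1 + R')/(1 + R))^e > 6`; `ε = (1/8)/(1 + R)^e`.  On `K`: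
`ε (1 + nn)^e < 1/8`; where `nn z > R'`: `ε (1 + nn)^e > 6`.
`W`: a real polynomial with `ev W z = nrm h z + ε (1 + nn z)^e` (`exists_nrm`, `ev_WW`).
-/

namespace Pool.Agent.Work.MP_49847a_an

open MvPolynomial

variable {n : ℕ}

private theorem wex_pt {K : Set (Fin n → ℂ)} (hh : hull K ⊆ K) {a : Fin n → ℂ} (ha : a ∉ K) :
    ∃ (p : MvPolynomial (Fin n) ℂ) (θ θ' : ℝ), 0 ≤ θ ∧ θ < 1 ∧ 1 < θ' ∧
      (∀ z ∈ K, ‖eval z p‖ ≤ θ) ∧ θ' < ‖eval a p‖ := by
  rcases K.eq_empty_or_nonempty with hK | ⟨z₀, hz₀⟩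
  · refine ⟨C 3, 0, 2, le_rfl, by norm_num, by norm_num, ?_, ?_⟩
    · intro z hz
      rw [hK] at hz
      exact hz.elim
    · rw [eval_C]
      norm_num
  · have h1 : a ∉ hull K := fun h => ha (hh h)
    simp only [hull, Set.mem_setOf_eq, not_forall, not_le] at h1
    obtain ⟨p, c, hc, hpa⟩ := h1
    have hc0 : 0 ≤ c := (norm_nonneg _).trans (hc z₀ hz₀)
    have hs : 0 < c + ‖eval a p‖ := by linarith
    have hev : ∀ z : Fin n → ℂ, ‖eval z (C (((2 / (c + ‖eval a p‖) : ℝ) : ℂ)) * p)‖ =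
        2 / (c + ‖eval a p‖) * ‖eval z p‖ := by
      intro z
      rw [map_mul, eval_C, norm_mul, Complex.norm_real, Real.norm_eq_abs,
        abs_of_pos (by positivity)]
    have h2 : 1 < 2 / (c + ‖eval a p‖) * ‖eval a p‖ := by
      rw [div_mul_eq_mul_div, lt_div_iff₀ hs]
      linarith
    refine ⟨C (((2 / (c + ‖eval a p‖) : ℝ) : ℂ)) * p, 2 / (c + ‖eval a p‖) * c,
      (1 + 2 / (c + ‖eval a p‖) * ‖eval a p‖) / 2, by positivity, ?_, by linarith, ?_, ?_⟩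
    · rw [div_mul_eq_mul_div, div_lt_one hs]
      linarith
    · intro z hz
      rw [hev]
      exact mul_le_mul_of_nonneg_left (hc z hz) (by positivity)
    · rw [hev]
      linarith

theorem wex {K U : Set (Fin n → ℂ)} (hK : IsCompact K) (hh : hull K ⊆ K) (hU : IsOpen U)
    (hKU : K ⊆ U) : ∃ (m e : ℕ) (ε : ℝ) (h : Fin m → MvPolynomial (Fin n) ℂ)
      (W : MvPolynomial (Fin n ⊕ Fin n) ℝ), Big e ε h W ∧ (∀ z ∈ K, ev W z < 1 / 4) ∧
        ∀ z, z ∉ U → 6 < ev W z := by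
  classical
  obtain ⟨R, hR, hRK⟩ := nn_bdd hK
  obtain ⟨R', hR'⟩ : ∃ R' : ℝ, R' = 4 * R + 4 := ⟨_, rfl⟩
  have hB : IsCompact ({z : Fin n → ℂ | nn z ≤ R'} \ U) := (nn_cpt R').diff hU
  have hBK : ∀ a ∈ ({z : Fin n → ℂ | nn z ≤ R'} \ U), a ∉ K := fun a ha h => ha.2 (hKU h)
  have h1 : ∀ a : Fin n → ℂ, ∃ (p : MvPolynomial (Fin n) ℂ) (θ θ' : ℝ), a ∉ K → 0 ≤ θ ∧ θ < 1 ∧
      1 < θ' ∧ (∀ z ∈ K, ‖eval z p‖ ≤ θ) ∧ θ' < ‖eval a p‖ := by
    intro a
    by_cases ha : a ∉ K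
    · obtain ⟨p, θ, θ', h⟩ := wex_pt hh ha
      exact ⟨p, θ, θ', fun _ => h⟩
    · exact ⟨0, 0, 0, fun h => absurd h ha⟩
  choose p θ θ' hp using h1
  have hcont : ∀ a : Fin n → ℂ, Continuous fun z => ‖eval z (p a)‖ := fun a =>
    (MvPolynomial.continuous_eval (p a)).norm
  obtain ⟨t, htB, htc⟩ := hB.elim_nhds_subcover (fun a => {z | θ' a < ‖eval z (p a)‖}) (by
    intro a ha
    exact (isOpen_lt continuous_const (hcont a)).mem_nhds (hp a (hBK a ha)).2.2.2.2)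
  have hN : (0 : ℝ) < 8 * ((t.card : ℝ) + 1) := by positivity
  have h2 : ∀ᶠ M : ℕ in Filter.atTop, ∀ a ∈ t, (θ a ^ 2) ^ M < 1 / (8 * ((t.card : ℝ) + 1)) ∧
      6 < (θ' a ^ 2) ^ M := by
    rw [Filter.eventually_all_finset]
    intro a ha
    obtain ⟨k1, k2, k3, -, -⟩ := hp a (hBK a (htB a ha))
    have e1 := (tendsto_pow_atTop_nhds_zero_of_lt_one (sq_nonneg (θ a))
      (by nlinarith : θ a ^ 2 < 1)).eventually (gt_mem_nhds (by positivity :
        (0 : ℝ) < 1 / (8 * ((t.card : ℝ) + 1))))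
    have e2 := (tendsto_pow_atTop_atTop_of_one_lt (by nlinarith : 1 < θ' a ^ 2)).eventually
      (Filter.eventually_gt_atTop (6 : ℝ))
    exact e1.and e2
  obtain ⟨M, hM⟩ := h2.exists
  obtain ⟨h, hh'⟩ : ∃ h : Fin t.card → MvPolynomial (Fin n) ℂ,
      h = fun j => (p ((t.equivFin.symm j : t) : Fin n → ℂ)) ^ M := ⟨_, rfl⟩
  have hnrm : ∀ z, nrm h z = ∑ a ∈ t, (‖eval z (p a)‖ ^ 2) ^ M := by
    intro z
    rw [← Finset.sum_coe_sort, ← t.equivFin.symm.sum_comp]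
    unfold nrm
    refine Finset.sum_congr rfl fun j _ => ?_
    rw [hh']
    dsimp only
    rw [map_pow, norm_pow]
    ring
  obtain ⟨e, he⟩ : ∃ e : ℕ, e = (Finset.univ.sup fun j => (h j).totalDegree) + 3 := ⟨_, rfl⟩
  have hdeg : ∀ j, (h j).totalDegree ≤ e := fun j => by
    have := Finset.le_sup (f := fun j => (h j).totalDegree) (Finset.mem_univ j)
    have h3 : (h j).totalDegree ≤ (Finset.univ.sup fun j => (h j).totalDegree) := this
    omega
  have he3 : 3 ≤ e := by omega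
  obtain ⟨F, hF⟩ := exists_nrm h
  have h1R : (0 : ℝ) < 1 + R := by linarith
  have hε : (0 : ℝ) < (1 / 8) / (1 + R) ^ e := by positivity
  have hW : ∀ z, ev (F + C ((1 / 8) / (1 + R) ^ e) * WW n 1 ^ e) z =
      nrm h z + (1 / 8) / (1 + R) ^ e * (1 + nn z) ^ e := by
    intro z
    rw [ev_add, ev_mul, ev_C, ev_pow, ev_WW, hF]
  refine ⟨t.card, e, (1 / 8) / (1 + R) ^ e, h, F + C ((1 / 8) / (1 + R) ^ e) * WW n 1 ^ e,
    ⟨by omega, hε, hdeg, hW⟩, ?_, ?_⟩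
  · intro z hz
    rw [hW, hnrm]
    have k1 : (1 / 8) / (1 + R) ^ e * (1 + nn z) ^ e ≤ 1 / 8 := by
      rw [div_mul_eq_mul_div, div_le_iff₀ (by positivity)]
      refine mul_le_mul_of_nonneg_left ?_ (by norm_num)
      exact pow_le_pow_left₀ (by linarith [nn_nonneg z]) (by linarith [hRK z hz]) _
    have k2 : ∑ a ∈ t, (‖eval z (p a)‖ ^ 2) ^ M ≤
        ∑ _a ∈ t, 1 / (8 * ((t.card : ℝ) + 1)) := by
      refine Finset.sum_le_sum fun a ha => ?_
      refine le_trans ?_ (hM a ha).1.le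
      refine pow_le_pow_left₀ (sq_nonneg _) ?_ _
      exact pow_le_pow_left₀ (norm_nonneg _) ((hp a (hBK a (htB a ha))).2.2.2.1 z hz) _
    have k3 : ∑ _a ∈ t, 1 / (8 * ((t.card : ℝ) + 1)) < 1 / 8 := by
      rw [Finset.sum_const, nsmul_eq_mul, mul_one_div, div_lt_iff₀ hN]
      linarith
    linarith
  · intro z hz
    rw [hW]
    by_cases hzR : nn z ≤ R'
    · have hzt := htc ⟨hzR, hz⟩
      simp only [Set.mem_iUnion, Set.mem_setOf_eq, exists_prop] at hzt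
      obtain ⟨a, hat, ha⟩ := hzt
      have k0 : 1 < θ' a := (hp a (hBK a (htB a hat))).2.2.1
      have k1 : (‖eval z (p a)‖ ^ 2) ^ M ≤ nrm h z := by
        rw [hnrm]
        exact Finset.single_le_sum (f := fun a => (‖eval z (p a)‖ ^ 2) ^ M)
          (fun b _ => by positivity) hat
      have k2 : (θ' a ^ 2) ^ M ≤ (‖eval z (p a)‖ ^ 2) ^ M := by
        refine pow_le_pow_left₀ (sq_nonneg _) ?_ _
        exact pow_le_pow_left₀ (by linarith) ha.le _
      have k3 := (hM a hat).2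
      have k4 : 0 ≤ (1 / 8) / (1 + R) ^ e * (1 + nn z) ^ e := by
        have := nn_nonneg z
        positivity
      linarith
    · rw [not_le] at hzR
      have k1 : (4 * (1 + R)) ^ e ≤ (1 + nn z) ^ e :=
        pow_le_pow_left₀ (by positivity) (by linarith) _
      have k2 : (1 / 8) / (1 + R) ^ e * (4 * (1 + R)) ^ e ≤
          (1 / 8) / (1 + R) ^ e * (1 + nn z) ^ e := mul_le_mul_of_nonneg_left k1 hε.le
      have k3 : (1 / 8) / (1 + R) ^ e * (4 * (1 + R)) ^ e = (1 / 8) * 4 ^ e := by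
        rw [mul_pow]
        field_simp
      have k4 : (4 : ℝ) ^ 3 ≤ 4 ^ e := pow_le_pow_right₀ (by norm_num) he3
      have k5 := nrm_nonneg h z
      linarith
end Pool.Agent.Work.MP_49847a_an
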