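import Pool.Agent.Work.MP_49847a_an.Sg.A1
import Pool.Agent.Work.MP_49847a_an.Sg.Wex
import Pool.Agent.Work.MP_49847a_an.Sg.Apx
import Pool.Agent.Work.MP_49847a_an.Sg.ADefs

/-!
# Module BlkA: the data of the merging argument exist
-/

namespace Pool.Agent.Work.MP_49847a_an

open MvPolynomial

variable {n k l d : ℕ} {P : Fin k → MvPolynomial (Fin n) ℂ} {Q : Fin l → MvPolynomial (Fin n) ℂ}

theorem Dg_r2 (hL : Lead2 d P Q) {ρ : MvPolynomial (Fin n ⊕ Fin n) ℝ}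
    (hρ : ∀ z, ev ρ z = r2 P Q z) : Dg d ρ :=
  ⟨k, P, l, Q, hL.1, hL.2.1, hρ⟩

theorem blkA (hn : n ≠ 0) (hd : 0 < d) (hL : Lead2 d P Q) (hS : Sep2 P Q) (hl : Levi2 P Q)
    (hI : Inn2 P Q) {ρ : MvPolynomial (Fin n ⊕ Fin n) ℝ} (hρ : ∀ z, ev ρ z = r2 P Q z) :
    ∃ (m e : ℕ) (ε r₀ r₁ c : ℝ) (h : Fin m → MvPolynomial (Fin n) ℂ)
      (W G : MvPolynomial (Fin n ⊕ Fin n) ℝ), Adm d e ε r₀ r₁ c h ρ W G := by
  have hX := X2_compact hd hL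
  obtain ⟨A, η, hη, U, hU, hKU, h1⟩ := a1 hX hS hl hI
  obtain ⟨m, e, ε, h, W, hW, hWK, hWU⟩ := wex (hull_compact hX) (hull_hull _) hU hKU
  have h6 : ∀ z, ev W z ≤ 6 → z ∈ U := fun z hz => by
    by_contra hzU
    exact absurd (hWU z hzU) (not_lt.2 hz)
  obtain ⟨G, hG⟩ := apx hW hρ (fun z w hz hw => h1 z (h6 z hz) w (h6 w hw))
  obtain ⟨r₀, r₁, hr₀, hr₁, h2, h3⟩ := lvl hn hd hL hWK
  refine ⟨m, e, ε, r₀, r₁, 1 / 4, h, W, G, ⟨hd, Dg_r2 hL hρ, hW, hr₀, hr₁, by norm_num, ?_, ?_, hG⟩⟩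
  · intro z hz
    rw [hρ] at hz ⊢
    exact h3 z hz
  · intro z hz
    rw [hρ] at hz
    exact h2 z hz

end Pool.Agent.Work.MP_49847a_an
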