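import Mathlib

/-!
# Module CCirc: a circular average of the exponential function

Proof.  Expand `exp (e^{-ikθ} x) = ∑_j x^j e^{-ijkθ}/j!` (`NormedSpace.expSeries`/`Complex.hasSum_exp`), the series
converges uniformly in `θ` (bounded by `∑ |x|^j/j!`), integrate term by term
(`intervalIntegral.hasSum_integral_of_dominated_convergence` or `hasSum_integral_of_summable_norm`);
`∫_0^{2π} e^{i k (N - j) θ} dθ = 0` for `j ≠ N` (`k > 0`; `integral_exp_mul_complex`), `= 2π` for `j = N`.
-/

namespace Pool.Agent.Work.MP_49847a_an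

open MeasureTheory

private theorem ccirc_term {k : ℕ} (hk : 0 < k) (N j : ℕ) (x : ℂ) :
    (∫ θ : ℝ in (0 : ℝ)..(2 * Real.pi), Complex.exp (Complex.I * θ) ^ (k * N) *
      (((Complex.exp (-(Complex.I * θ))) ^ k * x) ^ j / (j.factorial : ℂ))) =
      if j = N then 2 * Real.pi * (x ^ N / (N.factorial : ℂ)) else 0 := by
  have h1 : ∀ θ : ℝ, Complex.exp (Complex.I * θ) ^ (k * N) *
      (((Complex.exp (-(Complex.I * θ))) ^ k * x) ^ j / (j.factorial : ℂ)) =
      (x ^ j / (j.factorial : ℂ)) *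
        Complex.exp ((Complex.I * ((k : ℂ) * ((N : ℂ) - (j : ℂ)))) * θ) := by
    intro θ
    have e1 : Complex.exp (Complex.I * θ) ^ (k * N) =
        Complex.exp (((k * N : ℕ) : ℂ) * (Complex.I * θ)) := by
      rw [Complex.exp_nat_mul]
    have e2 : ((Complex.exp (-(Complex.I * θ))) ^ k * x) ^ j =
        Complex.exp (((k * j : ℕ) : ℂ) * (-(Complex.I * θ))) * x ^ j := by
      rw [Complex.exp_nat_mul, mul_pow, ← pow_mul]
    have e3 : Complex.exp ((Complex.I * ((k : ℂ) * ((N : ℂ) - (j : ℂ)))) * θ) =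
        Complex.exp (((k * N : ℕ) : ℂ) * (Complex.I * θ)) *
          Complex.exp (((k * j : ℕ) : ℂ) * (-(Complex.I * θ))) := by
      rw [← Complex.exp_add]
      congr 1
      push_cast
      ring
    rw [e1, e2, e3]
    ring
  simp_rw [h1]
  rw [intervalIntegral.integral_const_mul]
  split_ifs with hj
  · subst hj
    simp
    ring
  · have hc : Complex.I * ((k : ℂ) * ((N : ℂ) - (j : ℂ))) ≠ 0 := by
      refine mul_ne_zero Complex.I_ne_zero (mul_ne_zero (by exact_mod_cast hk.ne') ?_)
      rw [sub_ne_zero]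
      exact fun h => hj (by exact_mod_cast h.symm)
    rw [integral_exp_mul_complex hc]
    have e4 : Complex.I * ((k : ℂ) * ((N : ℂ) - (j : ℂ))) * ((2 * Real.pi : ℝ) : ℂ) =
        (((k : ℤ) * ((N : ℤ) - (j : ℤ)) : ℤ) : ℂ) * (2 * Real.pi * Complex.I) := by
      push_cast
      ring
    rw [e4, Complex.exp_int_mul_two_pi_mul_I]
    simp

theorem circle_exp {k : ℕ} (hk : 0 < k) (N : ℕ) (x : ℂ) :
    (∫ θ : ℝ in (0 : ℝ)..(2 * Real.pi), Complex.exp (Complex.I * θ) ^ (k * N) *
      Complex.exp ((Complex.exp (-(Complex.I * θ))) ^ k * x)) =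
      2 * Real.pi * (x ^ N / (N.factorial : ℂ)) := by
  have hn : ∀ θ : ℝ, ‖Complex.exp (Complex.I * θ)‖ = 1 := fun θ => by
    rw [mul_comm, Complex.norm_exp_ofReal_mul_I]
  have hn' : ∀ θ : ℝ, ‖Complex.exp (-(Complex.I * θ))‖ = 1 := fun θ => by
    rw [Complex.exp_neg, norm_inv, hn, inv_one]
  have key := intervalIntegral.hasSum_integral_of_dominated_convergence (μ := volume)
    (a := (0 : ℝ)) (b := 2 * Real.pi)
    (F := fun (j : ℕ) (θ : ℝ) => Complex.exp (Complex.I * θ) ^ (k * N) *
      (((Complex.exp (-(Complex.I * θ))) ^ k * x) ^ j / (j.factorial : ℂ)))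
    (f := fun θ : ℝ => Complex.exp (Complex.I * θ) ^ (k * N) *
      Complex.exp ((Complex.exp (-(Complex.I * θ))) ^ k * x))
    (fun j _ => ‖x‖ ^ j / (j.factorial : ℝ)) ?_ ?_ ?_ ?_ ?_
  · have h2 : HasSum (fun j : ℕ => if j = N then
        2 * (Real.pi : ℂ) * (x ^ N / (N.factorial : ℂ)) else 0)
        (2 * (Real.pi : ℂ) * (x ^ N / (N.factorial : ℂ))) := by
      have := hasSum_ite_eq N (2 * (Real.pi : ℂ) * (x ^ N / (N.factorial : ℂ)))
      simpa using this
    simp only [ccirc_term hk N _ x] at key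
    exact key.unique h2
  · intro j
    refine Continuous.aestronglyMeasurable ?_
    fun_prop
  · intro j
    refine Filter.Eventually.of_forall fun θ _ => ?_
    rw [norm_mul, norm_pow, hn, one_pow, one_mul, norm_div, norm_pow, norm_mul, norm_pow, hn',
      one_pow, one_mul]
    simp
  · refine Filter.Eventually.of_forall fun θ _ => ?_
    exact Real.summable_pow_div_factorial _
  · exact intervalIntegrable_const
  · refine Filter.Eventually.of_forall fun θ _ => ?_
    refine HasSum.mul_left _ ?_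
    rw [Complex.exp_eq_exp_ℂ]
    exact NormedSpace.expSeries_div_hasSum_exp _

end Pool.Agent.Work.MP_49847a_an
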