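import Pool.Agent.Work.MP_49847a_an.Sg.BigL

/-!
# Module CMeanG: Gaussian integrals on `ℂⁿ`

Proof.
(gauss_int) `exp (-a nn y) = ∏ exp (-a ‖y i‖²)`, each factor is integrable on `ℂ`
(`GaussianFourier.integrable_cexp_neg_mul_sq_norm_add` with `c = 0`, norm), `Integrable.fintype_prod`; and
`(1 + nn y)^N exp (-a nn y) ≤ C exp (-(a/2) nn y)`; `nn y √(nn y) ≤ (1 + nn y)²`.
(pow_int) `t^k ≥ t - 1` for `t ≥ 0`, `k ≥ 1`, so `exp (-a nn y ^ k) ≤ e^a exp (-a nn y)`.
(int_scale) `MeasureTheory.Measure.integral_comp_smul` for the real dimension `2 n` of `Fin n → ℂ`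
(`∫ F (t • y) dy = t^(-2n) ∫ F`; `finrank ℝ (Fin n → ℂ) = 2 n`).
(ball_vol) `{nn y < t}` is the image of `{nn y < 1}` under the homothety with the factor `√t`
(`MeasureTheory.Measure.addHaar_smul`), and `0 < volume {nn y < 1} < ∞` (open, nonempty, bounded).
-/

namespace Pool.Agent.Work.MP_49847a_an

open MvPolynomial MeasureTheory
open scoped Pointwise

variable {n : ℕ}

private theorem cmg_gauss0 {a : ℝ} (ha : 0 < a) :
    Integrable (fun y : Fin n → ℂ => Real.exp (-(a * nn y))) := by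
  have h1 : Integrable (fun z : ℂ => Real.exp (-(a * ‖z‖ ^ 2))) := by
    have h2 := GaussianFourier.integrable_cexp_neg_mul_sq_norm_add (V := ℂ) (b := (a : ℂ))
      (by simpa using ha) 0 0
    refine h2.norm.congr (Filter.Eventually.of_forall fun z => ?_)
    show ‖Complex.exp (-(a : ℂ) * (‖z‖ : ℂ) ^ 2 + 0 * ((inner ℝ (0 : ℂ) z : ℝ) : ℂ))‖ =
      Real.exp (-(a * ‖z‖ ^ 2))
    rw [zero_mul, add_zero, Complex.norm_exp]
    congr 1
    have : (-(a : ℂ) * (‖z‖ : ℂ) ^ 2) = ((-(a * ‖z‖ ^ 2) : ℝ) : ℂ) := by push_cast; ring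
    rw [this, Complex.ofReal_re]
  have h3 := Integrable.fintype_prod (ι := Fin n) (f := fun _ => fun z : ℂ => Real.exp (-(a * ‖z‖ ^ 2)))
    (μ := fun _ => (volume : Measure ℂ)) (fun _ => h1)
  refine h3.congr (Filter.Eventually.of_forall fun y => ?_)
  show ∏ i, Real.exp (-(a * ‖y i‖ ^ 2)) = Real.exp (-(a * nn y))
  rw [← Real.exp_sum]
  congr 1
  unfold nn
  rw [Finset.sum_neg_distrib, Finset.mul_sum]

private theorem cmg_poly {a : ℝ} (ha : 0 < a) (N : ℕ) {t : ℝ} (ht : 0 ≤ t) :
    (1 + t) ^ N * Real.exp (-(a * t)) ≤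
      (N.factorial * (2 / a) ^ N * Real.exp (a / 2)) * Real.exp (-(a / 2 * t)) := by
  have h1 := Real.pow_div_factorial_le_exp (a / 2 * (1 + t)) (by positivity) N
  have hN : (0 : ℝ) < N.factorial := by exact_mod_cast N.factorial_pos
  rw [div_le_iff₀ hN, mul_pow] at h1
  have h2 : (1 + t) ^ N ≤ N.factorial * (2 / a) ^ N * Real.exp (a / 2 * (1 + t)) := by
    have h3 : (2 / a) ^ N * (a / 2) ^ N = 1 := by
      rw [← mul_pow]
      have : 2 / a * (a / 2) = 1 := by field_simp
      rw [this, one_pow]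
    calc (1 + t) ^ N = (2 / a) ^ N * ((a / 2) ^ N * (1 + t) ^ N) := by
          rw [← mul_assoc, h3, one_mul]
      _ ≤ (2 / a) ^ N * (Real.exp (a / 2 * (1 + t)) * N.factorial) := by
          apply mul_le_mul_of_nonneg_left h1
          positivity
      _ = _ := by ring
  calc (1 + t) ^ N * Real.exp (-(a * t)) ≤
      (N.factorial * (2 / a) ^ N * Real.exp (a / 2 * (1 + t))) * Real.exp (-(a * t)) :=
        mul_le_mul_of_nonneg_right h2 (Real.exp_pos _).le
    _ = _ := by
        rw [mul_assoc, mul_assoc, mul_assoc, mul_assoc, ← Real.exp_add, ← Real.exp_add]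
        congr 3
        ring_nf

theorem gauss_int {a : ℝ} (ha : 0 < a) (N : ℕ) :
    Integrable (fun y : Fin n → ℂ => (1 + nn y) ^ N * Real.exp (-(a * nn y))) := by
  refine Integrable.mono' ((cmg_gauss0 (n := n) (half_pos ha)).const_mul
    (N.factorial * (2 / a) ^ N * Real.exp (a / 2))) ?_ ?_
  · have hc : Continuous (fun y : Fin n → ℂ => (1 + nn y) ^ N * Real.exp (-(a * nn y))) := by
      have := nn_continuous (n := n)
      fun_prop
    exact hc.aestronglyMeasurable
  · refine Filter.Eventually.of_forall fun y => ?_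
    have h0 := nn_nonneg y
    rw [Real.norm_of_nonneg (by positivity)]
    exact cmg_poly ha N h0

theorem gauss_int' {a : ℝ} (ha : 0 < a) :
    Integrable (fun y : Fin n → ℂ => nn y * Real.sqrt (nn y) * Real.exp (-(a * nn y))) := by
  refine Integrable.mono' (gauss_int (n := n) ha 2) ?_ ?_
  · have hc : Continuous (fun y : Fin n → ℂ => nn y * Real.sqrt (nn y) *
        Real.exp (-(a * nn y))) := by
      have := nn_continuous (n := n)
      fun_prop
    exact hc.aestronglyMeasurable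
  · refine Filter.Eventually.of_forall fun y => ?_
    have h0 := nn_nonneg y
    rw [Real.norm_of_nonneg (by positivity)]
    apply mul_le_mul_of_nonneg_right _ (Real.exp_pos _).le
    have h1 : Real.sqrt (nn y) ≤ 1 + nn y := by
      rw [Real.sqrt_le_left (by positivity)]
      nlinarith
    rw [pow_two]
    exact mul_le_mul (by linarith) h1 (Real.sqrt_nonneg _) (by positivity)

theorem pow_int {a : ℝ} (ha : 0 < a) {k : ℕ} (hk : 0 < k) (N : ℕ) :
    Integrable (fun y : Fin n → ℂ => (1 + nn y) ^ N * Real.exp (-(a * nn y ^ k))) := by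
  refine Integrable.mono' ((gauss_int (n := n) ha N).const_mul (Real.exp a)) ?_ ?_
  · have hc : Continuous (fun y : Fin n → ℂ => (1 + nn y) ^ N *
        Real.exp (-(a * nn y ^ k))) := by
      have := nn_continuous (n := n)
      fun_prop
    exact hc.aestronglyMeasurable
  · refine Filter.Eventually.of_forall fun y => ?_
    have h0 := nn_nonneg y
    rw [Real.norm_of_nonneg (by positivity)]
    have h1 : nn y - 1 ≤ nn y ^ k := by
      rcases le_total 1 (nn y) with h | h
      · have := le_self_pow₀ h hk.ne'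
        linarith
      · have := pow_nonneg h0 k
        linarith
    have h2 : Real.exp (-(a * nn y ^ k)) ≤ Real.exp a * Real.exp (-(a * nn y)) := by
      rw [← Real.exp_add]
      apply Real.exp_le_exp.2
      nlinarith
    calc (1 + nn y) ^ N * Real.exp (-(a * nn y ^ k))
        ≤ (1 + nn y) ^ N * (Real.exp a * Real.exp (-(a * nn y))) :=
          mul_le_mul_of_nonneg_left h2 (by positivity)
      _ = _ := by ring

private theorem cmg_fr : Module.finrank ℝ (Fin n → ℂ) = 2 * n := by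
  rw [Module.finrank_pi_fintype]
  simp [Complex.finrank_real_complex, mul_comm]

theorem int_scale (F : (Fin n → ℂ) → ℝ) {t : ℝ} (ht : 0 < t) :
    ∫ y : Fin n → ℂ, F ((t : ℂ) • y) = ((t ^ 2) ^ n)⁻¹ * ∫ y, F y := by
  have h := Measure.integral_comp_smul (volume : Measure (Fin n → ℂ)) F t
  rw [cmg_fr, pow_mul, abs_of_nonneg (by positivity), smul_eq_mul] at h
  exact h

private theorem cmg_ball0 {t : ℝ} (ht : 0 < t) :
    {w : Fin n → ℂ | nn w < t} = Real.sqrt t • {w : Fin n → ℂ | nn w < 1} := by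
  have hs : 0 < Real.sqrt t := Real.sqrt_pos.2 ht
  ext w
  rw [Set.mem_smul_set_iff_inv_smul_mem₀ hs.ne']
  show nn w < t ↔ nn ((Real.sqrt t)⁻¹ • w) < 1
  have h1 : ((Real.sqrt t)⁻¹ • w : Fin n → ℂ) = (((Real.sqrt t)⁻¹ : ℝ) : ℂ) • w := rfl
  rw [h1, nn_smul]
  rw [Complex.norm_real, Real.norm_of_nonneg (by positivity), inv_pow, Real.sq_sqrt ht.le,
    inv_mul_lt_iff₀ ht, mul_one]

private theorem cmg_trans (t : ℝ) (z : Fin n → ℂ) :
    volume {w : Fin n → ℂ | nn (w - z) < t} = volume {w : Fin n → ℂ | nn w < t} := by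
  have h := measure_preimage_add_right (volume : Measure (Fin n → ℂ)) (-z) {w | nn w < t}
  rw [← h]
  rfl

theorem ball_fin (t : ℝ) (z : Fin n → ℂ) : volume {w : Fin n → ℂ | nn (w - z) < t} < ⊤ := by
  rw [cmg_trans]
  refine lt_of_le_of_lt (measure_mono ?_) (nn_cpt (n := n) t).measure_lt_top
  intro w hw
  have hw' : nn w < t := hw
  exact hw'.le

theorem ball_vol {t : ℝ} (ht : 0 < t) (z : Fin n → ℂ) :
    (volume {w : Fin n → ℂ | nn (w - z) < t}).toReal =
      t ^ n * (volume {w : Fin n → ℂ | nn w < 1}).toReal := by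
  rw [cmg_trans, cmg_ball0 ht, Measure.addHaar_smul, cmg_fr, pow_mul, Real.sq_sqrt ht.le,
    ENNReal.toReal_mul, ENNReal.toReal_ofReal (abs_nonneg _), abs_of_nonneg (by positivity)]

theorem ball_pos : 0 < (volume {w : Fin n → ℂ | nn w < 1}).toReal := by
  refine ENNReal.toReal_pos ?_ ?_
  · have ho : IsOpen {w : Fin n → ℂ | nn w < 1} := isOpen_lt nn_continuous continuous_const
    refine (ho.measure_pos volume ⟨0, ?_⟩).ne'
    show nn (0 : Fin n → ℂ) < 1
    simp [nn]
  · have h := ball_fin (n := n) 1 0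
    simp only [sub_zero] at h
    exact h.ne

end Pool.Agent.Work.MP_49847a_an
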