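import Pool.Agent.Work.MP_49847a_an.Sg.CMeanR
import Pool.Agent.Work.MP_49847a_an.Sg.CMeanG

/-!
# Mean values and Gaussian integrals
-/

namespace Pool.Agent.Work.MP_49847a_an

open MvPolynomial



end Pool.Agent.Work.MP_49847a_an
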