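import Pool.Agent.Work.MP_49847a_an.Sg.CSc
import Pool.Agent.Work.MP_49847a_an.Sg.CMean

/-!
# Module CCon: concentration of homogeneous polynomials of large degree

Proof.  Let `f ≠ 0` be homogeneous of degree `D`.  `a(t) = ∫_{nn z < t} ‖f‖²`; scaling (`int_scale` with the factor `√t`
for the indicator function, `hom_smul`, `nn_smul`) gives `a(t) = t^(D+n) a(1)`, and `a(1) > 0` (continuous, not
identically zero on the ball: `MvPolynomial.funext` and homogeneity; an open set).
`∫_{nn z < R} wt ≤ a(R)` (`r2 ≥ 0`).  On the shell `4 R ≤ nn z < 16 R`: `wt/τ^n ≥ μ ‖f‖²` with `μ > 0` independent of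
`f` (`r2 ≤ M nn^k`, `r2_upper`), and `∫_shell ‖f‖² = a(16 R) - a(4 R) = (16^(D+n) - 4^(D+n)) a(R) ≥ 4^D a(R)`
(`D + n ≥ 1`).  `wt ψ ≥ 0` where `nn z ≥ R`.  So the integral is at least `(c₇ μ 4^D - B) a(R) > 0` for `D` large
(`D₀` with `c₇ μ 4^D₀ > B`, `D₀ ≥ 1`).
-/

namespace Pool.Agent.Work.MP_49847a_an

open MvPolynomial MeasureTheory

variable {n k p q : ℕ} {c : ℝ} {P : Fin p → MvPolynomial (Fin n) ℂ}
  {Q : Fin q → MvPolynomial (Fin n) ℂ}

private def Sb (n : ℕ) (t : ℝ) : Set (Fin n → ℂ) := {z | nn z < t}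

private noncomputable def gf (f : MvPolynomial (Fin n) ℂ) (z : Fin n → ℂ) : ℝ := ‖eval z f‖ ^ 2

private noncomputable def aa (f : MvPolynomial (Fin n) ℂ) (t : ℝ) : ℝ :=
  ∫ z, (Sb n t).indicator (gf f) z

private theorem gf_cont (f : MvPolynomial (Fin n) ℂ) : Continuous (gf f) := by
  unfold gf
  exact ((MvPolynomial.continuous_eval f).norm).pow 2

private theorem gf_nonneg (f : MvPolynomial (Fin n) ℂ) (z : Fin n → ℂ) : 0 ≤ gf f z := by
  unfold gf
  positivity

private theorem Sb_open (t : ℝ) : IsOpen (Sb n t) :=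
  isOpen_lt nn_continuous continuous_const

private theorem gf_intOn (f : MvPolynomial (Fin n) ℂ) (t : ℝ) :
    IntegrableOn (gf f) (Sb n t) := by
  have h1 : IntegrableOn (gf f) {z : Fin n → ℂ | nn z ≤ t} :=
    (gf_cont f).continuousOn.integrableOn_compact (nn_cpt t)
  refine h1.mono_set fun z hz => ?_
  exact le_of_lt (show nn z < t from hz)

private theorem ind_int (f : MvPolynomial (Fin n) ℂ) (t : ℝ) :
    Integrable ((Sb n t).indicator (gf f)) :=
  (integrable_indicator_iff (Sb_open t).measurableSet).mpr (gf_intOn f t)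

private theorem aa_scale {D : ℕ} {f : MvPolynomial (Fin n) ℂ} (hf : f.IsHomogeneous D) {t : ℝ}
    (ht : 0 < t) : aa f t = t ^ (D + n) * aa f 1 := by
  have hs : 0 < Real.sqrt t := Real.sqrt_pos.mpr ht
  have hsq : Real.sqrt t ^ 2 = t := Real.sq_sqrt ht.le
  have h1 := int_scale (n := n) (fun z => (Sb n t).indicator (gf f) z) hs
  have h2 : ∀ y : Fin n → ℂ, (Sb n t).indicator (gf f) (((Real.sqrt t : ℝ) : ℂ) • y) =
      t ^ D * (Sb n 1).indicator (gf f) y := by
    intro y
    have hnn : nn (((Real.sqrt t : ℝ) : ℂ) • y) = t * nn y := by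
      rw [nn_smul, Complex.norm_real, Real.norm_eq_abs, sq_abs, hsq]
    have hgf : gf f (((Real.sqrt t : ℝ) : ℂ) • y) = t ^ D * gf f y := by
      unfold gf
      rw [hom_smul hf, norm_mul, norm_pow, Complex.norm_real, Real.norm_eq_abs, mul_pow,
        ← pow_mul, mul_comm D 2, pow_mul, sq_abs, hsq]
    by_cases hy : nn y < 1
    · have hy' : nn (((Real.sqrt t : ℝ) : ℂ) • y) < t := by
        rw [hnn]
        nlinarith
      rw [Set.indicator_of_mem (show (((Real.sqrt t : ℝ) : ℂ) • y) ∈ Sb n t from hy'),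
        Set.indicator_of_mem (show y ∈ Sb n 1 from hy), hgf]
    · have hy' : ¬ nn (((Real.sqrt t : ℝ) : ℂ) • y) < t := by
        rw [hnn]
        push Not at hy ⊢
        nlinarith
      rw [Set.indicator_of_notMem (show (((Real.sqrt t : ℝ) : ℂ) • y) ∉ Sb n t from hy'),
        Set.indicator_of_notMem (show y ∉ Sb n 1 from hy), mul_zero]
  simp only [h2] at h1
  rw [integral_const_mul, hsq] at h1
  have h3 : (0 : ℝ) < t ^ n := by positivity
  change aa f t = _
  have h4 : t ^ D * aa f 1 = (t ^ n)⁻¹ * aa f t := h1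
  rw [pow_add]
  field_simp at h4
  linarith

private theorem aa_pos {D : ℕ} {f : MvPolynomial (Fin n) ℂ} (hf : f.IsHomogeneous D)
    (hf0 : f ≠ 0) : 0 < aa f 1 := by
  have h1 : ∃ z : Fin n → ℂ, eval z f ≠ 0 := by
    by_contra hcon
    push Not at hcon
    exact hf0 (MvPolynomial.funext fun z => by rw [hcon z, map_zero])
  obtain ⟨z, hz⟩ := h1
  have hnz := nn_nonneg z
  -- scale into the ball
  have hs : 0 < (Real.sqrt (1 + nn z))⁻¹ := by positivity
  set s : ℝ := (Real.sqrt (1 + nn z))⁻¹ with hsdef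
  have hs2 : s ^ 2 * (1 + nn z) = 1 := by
    rw [hsdef, inv_pow, Real.sq_sqrt (by linarith)]
    exact inv_mul_cancel₀ (by linarith)
  have hmem : ((s : ℂ) • z) ∈ Sb n 1 := by
    change nn ((s : ℂ) • z) < 1
    rw [nn_smul, Complex.norm_real, Real.norm_eq_abs, sq_abs]
    nlinarith [sq_nonneg s, pow_pos hs 2]
  have hne : eval ((s : ℂ) • z) f ≠ 0 := by
    rw [hom_smul hf]
    refine mul_ne_zero (pow_ne_zero _ ?_) hz
    exact_mod_cast hs.ne'
  unfold aa
  rw [integral_indicator (Sb_open 1).measurableSet,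
    setIntegral_pos_iff_support_of_nonneg_ae
      (Filter.Eventually.of_forall fun z => gf_nonneg f z) (gf_intOn f 1)]
  have hopen : IsOpen (Function.support (gf f) ∩ Sb n 1) :=
    ((gf_cont f).isOpen_support).inter (Sb_open 1)
  refine hopen.measure_pos volume ⟨(s : ℂ) • z, ?_, hmem⟩
  rw [Function.mem_support]
  unfold gf
  exact pow_ne_zero _ (norm_ne_zero_iff.mpr hne)

theorem conc (h : CS k c P Q) {R c₇ B : ℝ} (hR : 1 ≤ R) (hc : 0 < c₇) (hB : 0 ≤ B) :
    ∃ D₀ : ℕ, ∀ D, D₀ ≤ D → ∀ f : MvPolynomial (Fin n) ℂ, f.IsHomogeneous D → f ≠ 0 →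
      ∀ ψ : (Fin n → ℂ) → ℝ, Integrable (fun z => wt P Q f z * ψ z) →
        (∀ z, R ≤ nn z → c₇ / (nn z ^ (k - 1)) ^ n ≤ ψ z) → (∀ z, nn z < R → -B ≤ ψ z) →
          0 < ∫ z, wt P Q f z * ψ z := by
  obtain ⟨M, hM, hup⟩ := r2_upper h
  have hR0 : (0 : ℝ) < R := by linarith
  set μ : ℝ := Real.exp (-(M * (16 * R) ^ k)) / (((16 * R) ^ (k - 1)) ^ n) with hμ
  have hμ0 : 0 < μ := by positivity
  obtain ⟨D₀, hD₀⟩ := pow_unbounded_of_one_lt (B / (c₇ * μ)) (show (1 : ℝ) < 4 by norm_num)
  refine ⟨D₀ + 1, fun D hD f hf hf0 ψ hint hψ1 hψ2 => ?_⟩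
  have hcμ : 0 < c₇ * μ := by positivity
  have h4D : B < c₇ * μ * 4 ^ D := by
    have h1 : B / (c₇ * μ) < 4 ^ D :=
      lt_of_lt_of_le hD₀ (pow_le_pow_right₀ (by norm_num) (by omega))
    rw [div_lt_iff₀ hcμ] at h1
    linarith
  set G : (Fin n → ℂ) → ℝ := fun z => c₇ * μ * ((Sb n (16 * R)).indicator (gf f) z -
    (Sb n (4 * R)).indicator (gf f) z) - B * (Sb n R).indicator (gf f) z with hG
  have hGint : Integrable G :=
    (((ind_int f (16 * R)).sub (ind_int f (4 * R))).const_mul _).sub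
      ((ind_int f R).const_mul B)
  have hGval : ∫ z, G z = c₇ * μ * (aa f (16 * R) - aa f (4 * R)) - B * aa f R := by
    have e1 : ∫ z, G z = (∫ z, c₇ * μ * ((Sb n (16 * R)).indicator (gf f) z -
      (Sb n (4 * R)).indicator (gf f) z)) - ∫ z, B * (Sb n R).indicator (gf f) z :=
      integral_sub (((ind_int f (16 * R)).sub (ind_int f (4 * R))).const_mul _)
        ((ind_int f R).const_mul B)
    rw [e1, integral_const_mul, integral_const_mul,
      integral_sub (ind_int f (16 * R)) (ind_int f (4 * R))]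
    rfl
  have hpt : ∀ z, G z ≤ wt P Q f z * ψ z := by
    intro z
    have hg := gf_nonneg f z
    have hwt : wt P Q f z = gf f z * Real.exp (-(r2 P Q z)) := rfl
    have hr2 := r2_nonneg h z
    rw [hG]
    by_cases h1 : nn z < R
    · have m1 : z ∈ Sb n R := h1
      have m2 : z ∈ Sb n (4 * R) := show nn z < 4 * R by linarith
      have m3 : z ∈ Sb n (16 * R) := show nn z < 16 * R by linarith
      simp only [Set.indicator_of_mem m1, Set.indicator_of_mem m2, Set.indicator_of_mem m3,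
        sub_self, mul_zero, zero_sub]
      have h2 := hψ2 z h1
      have h3 : Real.exp (-(r2 P Q z)) ≤ 1 := Real.exp_le_one_iff.mpr (by linarith)
      have h4 : wt P Q f z ≤ gf f z := by
        rw [hwt]
        nlinarith [Real.exp_pos (-(r2 P Q z))]
      have h5 : 0 ≤ wt P Q f z := by
        rw [hwt]
        positivity
      calc -(B * gf f z) ≤ -(B * wt P Q f z) := by nlinarith
        _ = wt P Q f z * (-B) := by ring
        _ ≤ wt P Q f z * ψ z := mul_le_mul_of_nonneg_left h2 h5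
    · have m1 : z ∉ Sb n R := h1
      push Not at h1
      have hnz : (0 : ℝ) < nn z := by linarith
      have h2 := hψ1 z h1
      have h5 : 0 ≤ wt P Q f z := by
        rw [hwt]
        positivity
      have h6 : 0 ≤ c₇ / (nn z ^ (k - 1)) ^ n := by positivity
      have h7 : 0 ≤ wt P Q f z * ψ z := mul_nonneg h5 (h6.trans h2)
      by_cases h3 : nn z < 16 * R
      · by_cases h4 : nn z < 4 * R
        · have m2 : z ∈ Sb n (4 * R) := h4
          have m3 : z ∈ Sb n (16 * R) := h3
          simp only [Set.indicator_of_notMem m1, Set.indicator_of_mem m2,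
            Set.indicator_of_mem m3, sub_self, mul_zero]
          exact h7
        · have m2 : z ∉ Sb n (4 * R) := h4
          have m3 : z ∈ Sb n (16 * R) := h3
          simp only [Set.indicator_of_notMem m1, Set.indicator_of_notMem m2,
            Set.indicator_of_mem m3, sub_zero, mul_zero]
          have e1 : Real.exp (-(M * (16 * R) ^ k)) ≤ Real.exp (-(r2 P Q z)) := by
            apply Real.exp_le_exp.mpr
            have e2 := hup z
            have e3 : nn z ^ k ≤ (16 * R) ^ k := pow_le_pow_left₀ hnz.le h3.le k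
            nlinarith
          have e4 : (nn z ^ (k - 1)) ^ n ≤ ((16 * R) ^ (k - 1)) ^ n :=
            pow_le_pow_left₀ (by positivity) (pow_le_pow_left₀ hnz.le h3.le _) n
          have e5 : c₇ / ((16 * R) ^ (k - 1)) ^ n ≤ c₇ / (nn z ^ (k - 1)) ^ n := by
            apply div_le_div_of_nonneg_left hc.le (by positivity) e4
          calc c₇ * μ * gf f z = (gf f z * Real.exp (-(M * (16 * R) ^ k))) *
                (c₇ / ((16 * R) ^ (k - 1)) ^ n) := by
                rw [hμ]
                ring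
            _ ≤ (gf f z * Real.exp (-(r2 P Q z))) * ψ z := by
                apply mul_le_mul (mul_le_mul_of_nonneg_left e1 hg) (e5.trans h2)
                  (by positivity) (by positivity)
            _ = wt P Q f z * ψ z := by rw [hwt]
      · have m2 : z ∉ Sb n (4 * R) := by
          intro hm
          have : nn z < 4 * R := hm
          push Not at h3
          linarith
        have m3 : z ∉ Sb n (16 * R) := h3
        simp only [Set.indicator_of_notMem m1, Set.indicator_of_notMem m2,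
          Set.indicator_of_notMem m3, sub_zero, mul_zero]
        exact h7
  have hmono : ∫ z, G z ≤ ∫ z, wt P Q f z * ψ z := integral_mono hGint hint hpt
  refine lt_of_lt_of_le ?_ hmono
  rw [hGval, aa_scale hf (show (0 : ℝ) < 16 * R by linarith),
    aa_scale hf (show (0 : ℝ) < 4 * R by linarith), aa_scale hf hR0]
  have ha := aa_pos hf hf0
  have hRp : 0 < R ^ (D + n) := by positivity
  rw [mul_pow, mul_pow]
  have h16 : (16 : ℝ) ^ (D + n) = 4 ^ (D + n) * 4 ^ (D + n) := by
    rw [← mul_pow]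
    norm_num
  have h4n : (4 : ℝ) ^ D ≤ 4 ^ (D + n) := pow_le_pow_right₀ (by norm_num) (by omega)
  have h4m : (4 : ℝ) ≤ 4 ^ (D + n) := by
    calc (4 : ℝ) = 4 ^ 1 := by norm_num
      _ ≤ 4 ^ (D + n) := pow_le_pow_right₀ (by norm_num) (by omega)
  rw [h16]
  have key : (4 : ℝ) ^ D ≤ 4 ^ (D + n) * 4 ^ (D + n) - 4 ^ (D + n) := by
    nlinarith
  have hRa : 0 < R ^ (D + n) * aa f 1 := by positivity
  have : c₇ * μ * (4 ^ (D + n) * 4 ^ (D + n) * R ^ (D + n) * aa f 1 -
      4 ^ (D + n) * R ^ (D + n) * aa f 1) - B * (R ^ (D + n) * aa f 1) =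
      (c₇ * μ * (4 ^ (D + n) * 4 ^ (D + n) - 4 ^ (D + n)) - B) * (R ^ (D + n) * aa f 1) := by
    ring
  rw [this]
  apply mul_pos _ hRa
  have h8 : c₇ * μ * 4 ^ D ≤ c₇ * μ * (4 ^ (D + n) * 4 ^ (D + n) - 4 ^ (D + n)) :=
    mul_le_mul_of_nonneg_left key hcμ.le
  linarith

end Pool.Agent.Work.MP_49847a_an
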