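import Pool.Agent.Work.MP_49847a_an.Sg.CNear
import Pool.Agent.Work.MP_49847a_an.Sg.CMean

/-!
# Module CGg: lower bound of the main term

Proof.  `gg ≥ 0` is clear.  `τ = nn z^(k-1)`.  Translation `w = z + y`: `gg = ∫_{nn y < s nn z} exp (-lev2 z y) dy`.
For `nn z ≥ R` with `R ≥ 1`, `s R > 1`: `{nn y < 1/τ} ⊂ {nn y < s nn z}`, there `lev2 z y ≤ M τ nn y ≤ M`, so
`gg ≥ e^(-M) vol {nn y < 1/τ} = e^(-M) (τ^n)⁻¹ vol {nn y < 1}` (`int_scale` for the indicator function, or
`Measure.addHaar_smul`), and `vol {nn y < 1} > 0` (open, nonempty), finite.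
(gg_bdd) upper bound: `gg ≤ vol (nearS s z)` is locally bounded and measurable in `z`: here only
`gg z ≤ C (1 + nn z)^n` is stated (`exp ≤ 1` since `lev2 ≥ 0` there), with `vol {nn y < t} = t^n vol {nn y < 1}`.
(gg_meas) `gg` is measurable: it is a parametric integral of a jointly measurable function
(`MeasureTheory.StronglyMeasurable.integral_prod_right`).
-/

namespace Pool.Agent.Work.MP_49847a_an

open MvPolynomial MeasureTheory

variable {n k p q : ℕ} {c s c₃ M : ℝ} {P : Fin p → MvPolynomial (Fin n) ℂ}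
  {Q : Fin q → MvPolynomial (Fin n) ℂ}

private theorem gg_cont (P : Fin p → MvPolynomial (Fin n) ℂ)
    (Q : Fin q → MvPolynomial (Fin n) ℂ) (z : Fin n → ℂ) :
    Continuous (fun w : Fin n → ℂ => Real.exp (-(lev2 P Q z (w - z)))) := by
  have h1 : Continuous (fun w : Fin n → ℂ => ((z, w - z) : (Fin n → ℂ) × (Fin n → ℂ))) := by
    fun_prop
  exact Real.continuous_exp.comp ((lev2_continuous P Q).comp h1).neg

private theorem gg_open (s : ℝ) (z : Fin n → ℂ) : IsOpen (nearS s z) :=
  isOpen_lt (nn_continuous.comp (continuous_id.sub continuous_const)) continuous_const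

private theorem gg_nn (z : Fin n → ℂ) : 0 ≤ nn z :=
  Finset.sum_nonneg fun _ _ => by positivity

private theorem gg_lev (hN : NearC k s c₃ M P Q) {z w : Fin n → ℂ} (hw : w ∈ nearS s z) :
    0 ≤ lev2 P Q z (w - z) := by
  have h1 := hN.lo z w (le_of_lt hw)
  have h2 : 0 ≤ c₃ * (nn z ^ (k - 1) * nn (w - z)) :=
    mul_nonneg hN.hc.le (mul_nonneg (pow_nonneg (gg_nn z) _) (gg_nn _))
  linarith

private theorem gg_int (hN : NearC k s c₃ M P Q) (z : Fin n → ℂ) :
    IntegrableOn (fun w => Real.exp (-(lev2 P Q z (w - z)))) (nearS s z) := by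
  refine Measure.integrableOn_of_bounded (M := 1) (ball_fin (s * nn z) z).ne
    (gg_cont P Q z).aestronglyMeasurable ?_
  refine (ae_restrict_iff' (gg_open s z).measurableSet).2 (ae_of_all _ fun w hw => ?_)
  rw [Real.norm_eq_abs, abs_of_pos (Real.exp_pos _)]
  exact Real.exp_le_one_iff.2 (by have := gg_lev hN hw; linarith)

theorem gg_nonneg (s : ℝ) (P : Fin p → MvPolynomial (Fin n) ℂ)
    (Q : Fin q → MvPolynomial (Fin n) ℂ) (z : Fin n → ℂ) : 0 ≤ gg s P Q z :=
  integral_nonneg fun _ => (Real.exp_pos _).le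

theorem gg_lower (hN : NearC k s c₃ M P Q) : ∃ R c₆ : ℝ, 1 ≤ R ∧ 0 < c₆ ∧
    ∀ z : Fin n → ℂ, R ≤ nn z → c₆ / (nn z ^ (k - 1)) ^ n ≤ gg s P Q z := by
  have hs := hN.hs
  have hs' := hN.hs'
  refine ⟨2 / s, Real.exp (-M) * (volume {w : Fin n → ℂ | nn w < 1}).toReal, ?_,
    mul_pos (Real.exp_pos _) ball_pos, fun z hz => ?_⟩
  · rw [le_div_iff₀ hs]
    linarith
  have hz1 : 1 ≤ nn z := by
    have : (1 : ℝ) ≤ 2 / s := by
      rw [le_div_iff₀ hs]
      linarith
    linarith
  have hsz : 1 < s * nn z := by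
    have h1 : s * (2 / s) ≤ s * nn z := mul_le_mul_of_nonneg_left hz hs.le
    have h2 : s * (2 / s) = 2 := by
      field_simp
    linarith
  have hτ : 1 ≤ nn z ^ (k - 1) := one_le_pow₀ hz1
  have hτ0 : 0 < nn z ^ (k - 1) := lt_of_lt_of_le one_pos hτ
  have hinv : 1 / nn z ^ (k - 1) ≤ 1 := by
    rw [div_le_one hτ0]
    exact hτ
  have hinv0 : 0 < 1 / nn z ^ (k - 1) := div_pos one_pos hτ0
  have hsub : {w : Fin n → ℂ | nn (w - z) < 1 / nn z ^ (k - 1)} ⊆ nearS s z := by
    intro w hw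
    have hw' : nn (w - z) < 1 / nn z ^ (k - 1) := hw
    exact (by linarith : nn (w - z) < s * nn z)
  have hBo : IsOpen {w : Fin n → ℂ | nn (w - z) < 1 / nn z ^ (k - 1)} :=
    isOpen_lt (nn_continuous.comp (continuous_id.sub continuous_const)) continuous_const
  have h1 : ∫ w in {w : Fin n → ℂ | nn (w - z) < 1 / nn z ^ (k - 1)}, Real.exp (-M) ≤
      ∫ w in {w : Fin n → ℂ | nn (w - z) < 1 / nn z ^ (k - 1)},
        Real.exp (-(lev2 P Q z (w - z))) := by
    refine setIntegral_mono_on ?_ ((gg_int hN z).mono_set hsub) hBo.measurableSet fun w hw => ?_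
    · exact integrableOn_const (ball_fin _ z).ne
    · have hw' : nn (w - z) < 1 / nn z ^ (k - 1) := hw
      have h2 := hN.up z w (le_of_lt (hsub hw))
      have h3 : nn z ^ (k - 1) * nn (w - z) ≤ 1 := by
        have := (mul_lt_mul_of_pos_left hw' hτ0).le
        rwa [mul_one_div_cancel hτ0.ne'] at this
      have h4 : M * (nn z ^ (k - 1) * nn (w - z)) ≤ M * 1 := mul_le_mul_of_nonneg_left h3 hN.hM.le
      exact Real.exp_le_exp.2 (by linarith)
  have h2 : ∫ w in {w : Fin n → ℂ | nn (w - z) < 1 / nn z ^ (k - 1)},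
      Real.exp (-(lev2 P Q z (w - z))) ≤ gg s P Q z := by
    refine setIntegral_mono_set (gg_int hN z) (ae_of_all _ fun w => (Real.exp_pos _).le) ?_
    exact hsub.eventuallyLE
  refine le_trans (le_of_eq ?_) (h1.trans h2)
  rw [setIntegral_const, Measure.real, ball_vol hinv0 z, smul_eq_mul]
  rw [one_div, inv_pow]
  rw [div_eq_mul_inv]
  ring

theorem gg_bdd (hN : NearC k s c₃ M P Q) : ∃ B : ℝ, 0 ≤ B ∧
    ∀ z : Fin n → ℂ, gg s P Q z ≤ B * (1 + nn z) ^ n := by
  refine ⟨(volume {w : Fin n → ℂ | nn w < 1}).toReal, ENNReal.toReal_nonneg, fun z => ?_⟩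
  have hs := hN.hs
  have hs' := hN.hs'
  rcases (gg_nn z).eq_or_lt with h0 | h0
  · have h1 : nearS s z = ∅ := by
      ext w
      simp only [nearS, Set.mem_setOf_eq, Set.mem_empty_iff_false, iff_false, not_lt]
      rw [← h0, mul_zero]
      exact gg_nn _
    unfold gg
    rw [h1, Measure.restrict_empty, integral_zero_measure]
    exact mul_nonneg ENNReal.toReal_nonneg (pow_nonneg (by linarith [gg_nn z]) _)
  have hsz : 0 < s * nn z := mul_pos hs h0
  have h1 : gg s P Q z ≤ ∫ w in nearS s z, (1 : ℝ) := by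
    refine setIntegral_mono_on (gg_int hN z) ?_ (gg_open s z).measurableSet fun w hw => ?_
    · exact integrableOn_const (ball_fin _ z).ne
    · exact Real.exp_le_one_iff.2 (by have := gg_lev hN hw; linarith)
  refine h1.trans ?_
  have h2 : (volume (nearS s z)).toReal = _ := ball_vol hsz z
  rw [setIntegral_const, Measure.real, h2, smul_eq_mul, mul_one, mul_comm]
  refine mul_le_mul_of_nonneg_left (pow_le_pow_left₀ hsz.le ?_ n) ENNReal.toReal_nonneg
  have : s * nn z ≤ 1 * nn z := mul_le_mul_of_nonneg_right (by linarith) h0.le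
  linarith

theorem gg_meas (s : ℝ) (P : Fin p → MvPolynomial (Fin n) ℂ)
    (Q : Fin q → MvPolynomial (Fin n) ℂ) : Measurable (gg s P Q) := by
  have hc1 : Continuous (fun x : (Fin n → ℂ) × (Fin n → ℂ) => (x.1, x.2 - x.1)) := by
    fun_prop
  have hF : Measurable (fun x : (Fin n → ℂ) × (Fin n → ℂ) =>
      Real.exp (-(lev2 P Q x.1 (x.2 - x.1)))) :=
    (Real.continuous_exp.comp ((lev2_continuous P Q).comp hc1).neg).measurable
  have hS : MeasurableSet {x : (Fin n → ℂ) × (Fin n → ℂ) | nn (x.2 - x.1) < s * nn x.1} := by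
    refine (isOpen_lt (nn_continuous.comp (continuous_snd.sub continuous_fst)) ?_).measurableSet
    exact continuous_const.mul (nn_continuous.comp continuous_fst)
  have hG := (hF.indicator hS).stronglyMeasurable.integral_prod_right' (ν := volume)
  have : gg s P Q = fun z => ∫ w, ({x : (Fin n → ℂ) × (Fin n → ℂ) |
      nn (x.2 - x.1) < s * nn x.1}.indicator (fun x : (Fin n → ℂ) × (Fin n → ℂ) =>
      Real.exp (-(lev2 P Q x.1 (x.2 - x.1))))) (z, w) := by
    funext z
    unfold gg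
    rw [← integral_indicator (gg_open s z).measurableSet]
    rfl
  rw [this]
  exact hG.measurable

end Pool.Agent.Work.MP_49847a_an
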