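import Pool.Agent.Work.MP_49847a_an.Sg.CInt
import Pool.Agent.Work.MP_49847a_an.Sg.CGg

/-!
# Module CPsi: bounds of the bracket

Proof.  `gg_lower`: `R₁, c₆`; `kk_int`, `kk_int'` with `θ = c₆/2`: thresholds `R₂`, `R₃`; let `R` be the maximum (use the
statements with `R' = R`), `B` the maximum of the two bounds, `c₇ = c₆/2`.  For `nn z ≥ R` the bracket is
`≥ (k c₆ - c₆/2)/τ^n ≥ (c₆/2)/τ^n`, `τ = nn z^(k-1)` (`k ≥ 1`); for `nn z < R` it is `≥ -B` (`gg_nonneg`).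
-/

namespace Pool.Agent.Work.MP_49847a_an

open MvPolynomial MeasureTheory

variable {n k p q : ℕ} {c : ℝ} {P : Fin p → MvPolynomial (Fin n) ℂ}
  {Q : Fin q → MvPolynomial (Fin n) ℂ}

theorem psi_bound (h : CS k c P Q) {s c₃ M : ℝ} (hN : NearC k s c₃ M P Q) :
    ∃ R c₇ B : ℝ, 1 ≤ R ∧ 0 < c₇ ∧ 0 ≤ B ∧ ∀ z : Fin n → ℂ,
      (R ≤ nn z → c₇ / (nn z ^ (k - 1)) ^ n ≤ k * gg s P Q z -
        1 / 2 * ((∫ w, KK k s P Q z w) + ∫ w, KK k s P Q w z)) ∧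
      (nn z < R → -B ≤ k * gg s P Q z -
        1 / 2 * ((∫ w, KK k s P Q z w) + ∫ w, KK k s P Q w z)) := by
  obtain ⟨R₁, c₆, hR₁, hc₆, hlow⟩ := gg_lower hN
  obtain ⟨R₂, hR₂, h2⟩ := kk_int h hN (c₆ / 2) (by positivity)
  obtain ⟨R₃, hR₃, h3⟩ := kk_int' h hN (c₆ / 2) (by positivity)
  obtain ⟨B₂, hB₂, h2'⟩ := h2 (max R₁ (max R₂ R₃)) (le_trans (le_max_left _ _) (le_max_right _ _))
  obtain ⟨B₃, hB₃, h3'⟩ := h3 (max R₁ (max R₂ R₃)) (le_trans (le_max_right _ _) (le_max_right _ _))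
  have hk : (1 : ℝ) ≤ k := by exact_mod_cast h.hk
  refine ⟨max R₁ (max R₂ R₃), c₆ / 2, (B₂ + B₃) / 2, le_trans hR₁ (le_max_left _ _),
    by positivity, by positivity, fun z => ⟨fun hz => ?_, fun hz => ?_⟩⟩
  · have a1 := hlow z (le_trans (le_max_left _ _) hz)
    have a2 := (h2' z).2.1 hz
    have a3 := (h3' z).2.1 hz
    have hg := gg_nonneg s P Q z
    have hkg : gg s P Q z ≤ k * gg s P Q z := by nlinarith
    have e : c₆ / 2 / (nn z ^ (k - 1)) ^ n = (c₆ / (nn z ^ (k - 1)) ^ n) / 2 := by ring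
    rw [e] at a2 a3 ⊢
    simp only at a2 a3
    linarith
  · have a2 := (h2' z).2.2 hz
    have a3 := (h3' z).2.2 hz
    have hg := gg_nonneg s P Q z
    have hkg : 0 ≤ k * gg s P Q z := by positivity
    simp only at a2 a3
    linarith

end Pool.Agent.Work.MP_49847a_an
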