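import Pool.Agent.Work.MP_49847a_an.Sg.CSch
import Pool.Agent.Work.MP_49847a_an.Sg.CPsi
import Pool.Agent.Work.MP_49847a_an.Sg.CCon

/-!
# Positivity for homogeneous polynomials of large degree (assembly)
-/

namespace Pool.Agent.Work.MP_49847a_an

open MvPolynomial MeasureTheory

variable {n k p q : ℕ} {c : ℝ} {P : Fin p → MvPolynomial (Fin n) ℂ}
  {Q : Fin q → MvPolynomial (Fin n) ℂ}

theorem cd_pos (h : CS k c P Q) : ∃ N₀ : ℕ, 0 < N₀ ∧ ∀ N, N₀ ≤ N →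
    ∀ f : MvPolynomial (Fin n) ℂ, f.IsHomogeneous (k * N) → f ≠ 0 → 0 < (II P Q f).re := by
  obtain ⟨s, c₃, M, hN⟩ := cd_near h
  obtain ⟨R, c₇, B, hR, hc, hB, hψ⟩ := psi_bound h hN
  obtain ⟨D₀, hD⟩ := conc h hR hc hB
  refine ⟨D₀ + 1, Nat.succ_pos _, fun N hNN f hf hf0 => ?_⟩
  have hf' : ∀ ζ : ℂ, ζ ^ k = 1 → ∀ z, eval (ζ • z) f = eval z f := by
    intro ζ hζ z
    rw [hom_smul hf, pow_mul, hζ, one_pow, one_mul]
  obtain ⟨h1, h2⟩ := main_ineq h hN hf'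
  refine (hD (k * N) ?_ f hf hf0 _ h1 (fun z hz => (hψ z).1 hz) (fun z hz => (hψ z).2 hz)).trans_le h2
  calc D₀ ≤ N := by omega
    _ = 1 * N := (one_mul N).symm
    _ ≤ k * N := Nat.mul_le_mul_right N h.hk

end Pool.Agent.Work.MP_49847a_an
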