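import Pool.Agent.Work.MP_49847a_an.Sg.Tay
import Pool.Agent.Work.MP_49847a_an.Rat.Hom

/-!
# The Catlin-D'Angelo theorem: definitions and scaling

`P`, `Q` families of homogeneous polynomials of degree `k` on `ℂⁿ`; `r2 P Q` is bihomogeneous.
* `CS k c P Q`: `r2 ≥ c ‖z‖^{2k}` and the strong Cauchy-Schwarz condition;
* `nearS s z = {w : ‖w - z‖² < s ‖z‖²}`, `farS k s z = {w : ‖w - ζ z‖² ≥ s ‖z‖² for all ζ with ζ^k = 1}`;
* `KK k s P Q`: the error kernel.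
-/

namespace Pool.Agent.Work.MP_49847a_an

open MvPolynomial

variable {n k p q : ℕ} {c : ℝ} {P : Fin p → MvPolynomial (Fin n) ℂ}
  {Q : Fin q → MvPolynomial (Fin n) ℂ}

/-- the strong Cauchy-Schwarz condition -/
structure CS (k : ℕ) (c : ℝ) (P : Fin p → MvPolynomial (Fin n) ℂ)
    (Q : Fin q → MvPolynomial (Fin n) ℂ) : Prop where
  hk : 0 < k
  hc : 0 < c
  hP : ∀ j, (P j).IsHomogeneous k
  hQ : ∀ j, (Q j).IsHomogeneous k
  pos : ∀ z, c * nn z ^ k ≤ r2 P Q z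
  cs : ∀ z w, c * (nn z ^ (k - 1) * nn w ^ (k - 1) * (nn z * nn w - ‖ip z w‖ ^ 2)) ≤
    r2 P Q z * r2 P Q w - ‖R2 P Q z w‖ ^ 2

/-- points close to `z` -/
def nearS {n : ℕ} (s : ℝ) (z : Fin n → ℂ) : Set (Fin n → ℂ) := {w | nn (w - z) < s * nn z}

/-- points far from all `ζ z`, `ζ^k = 1` -/
def farS {n : ℕ} (k : ℕ) (s : ℝ) (z : Fin n → ℂ) : Set (Fin n → ℂ) :=
  {w | ∀ ζ : ℂ, ζ ^ k = 1 → s * nn z ≤ nn (w - ζ • z)}

/-- the error kernel near the diagonal -/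
noncomputable def Kn (P : Fin p → MvPolynomial (Fin n) ℂ) (Q : Fin q → MvPolynomial (Fin n) ℂ)
    (z w : Fin n → ℂ) : ℝ :=
  Real.exp (D2 P Q z w / 2) * |Real.exp (-(D2 P Q z w)) - Real.exp (-(lev2 P Q z (w - z)))|

/-- the error kernel far from the diagonal -/
noncomputable def Kf (P : Fin p → MvPolynomial (Fin n) ℂ) (Q : Fin q → MvPolynomial (Fin n) ℂ)
    (z w : Fin n → ℂ) : ℝ := Real.exp (-(D2 P Q z w) / 2)

/-- the error kernel -/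
noncomputable def KK (k : ℕ) (s : ℝ) (P : Fin p → MvPolynomial (Fin n) ℂ)
    (Q : Fin q → MvPolynomial (Fin n) ℂ) (z w : Fin n → ℂ) : ℝ :=
  k * (nearS s z).indicator (Kn P Q z) w + (farS k s z).indicator (Kf P Q z) w

/-- the main term -/
noncomputable def gg (s : ℝ) (P : Fin p → MvPolynomial (Fin n) ℂ)
    (Q : Fin q → MvPolynomial (Fin n) ℂ) (z : Fin n → ℂ) : ℝ :=
  ∫ w in nearS s z, Real.exp (-(lev2 P Q z (w - z)))

/-- the double integral -/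
noncomputable def II (P : Fin p → MvPolynomial (Fin n) ℂ) (Q : Fin q → MvPolynomial (Fin n) ℂ)
    (f : MvPolynomial (Fin n) ℂ) : ℂ :=
  ∫ z, (starRingEnd ℂ) (eval z f) * (Real.exp (-(r2 P Q z)) : ℂ) *
    ∫ w, eval w f * Complex.exp (R2 P Q z w - (r2 P Q w : ℂ))

/-- `‖f‖² e^(-r2)` -/
noncomputable def wt (P : Fin p → MvPolynomial (Fin n) ℂ) (Q : Fin q → MvPolynomial (Fin n) ℂ)
    (f : MvPolynomial (Fin n) ℂ) (z : Fin n → ℂ) : ℝ := ‖eval z f‖ ^ 2 * Real.exp (-(r2 P Q z))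

/-- constants of the near estimate -/
structure NearC (k : ℕ) (s c₃ M : ℝ) (P : Fin p → MvPolynomial (Fin n) ℂ)
    (Q : Fin q → MvPolynomial (Fin n) ℂ) : Prop where
  hs : 0 < s
  hs' : s ≤ 1 / 16
  hc : 0 < c₃
  hM : 0 < M
  lo : ∀ z w, nn (w - z) ≤ s * nn z →
    c₃ * (nn z ^ (k - 1) * nn (w - z)) ≤ lev2 P Q z (w - z)
  up : ∀ z w, nn (w - z) ≤ s * nn z →
    lev2 P Q z (w - z) ≤ M * (nn z ^ (k - 1) * nn (w - z))
  qu : ∀ z w, nn (w - z) ≤ s * nn z →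
    |D2 P Q z w - lev2 P Q z (w - z)| ≤ lev2 P Q z (w - z) / 4
  th : ∀ z w, nn (w - z) ≤ s * nn z →
    |D2 P Q z w - lev2 P Q z (w - z)| * Real.sqrt (nn z) ≤
      M * (nn z ^ (k - 1) * (nn (w - z) * Real.sqrt (nn (w - z))))
  sep : ∀ ζ ζ' : ℂ, ζ ^ k = 1 → ζ' ^ k = 1 → ζ ≠ ζ' → 4 * s ≤ ‖ζ - ζ'‖ ^ 2

theorem hom_smul {d : ℕ} {f : MvPolynomial (Fin n) ℂ} (hf : f.IsHomogeneous d) (t : ℂ)
    (z : Fin n → ℂ) : eval (t • z) f = t ^ d * eval z f := by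
  have h1 := eval_homog (i := d) f t z
  rw [homogeneousComponent_eq_self hf] at h1
  exact h1

end Pool.Agent.Work.MP_49847a_an
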