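import Pool.Agent.Work.MP_49847a_an.Sg.CSc

/-!
# Module CFar: the second difference is large far from the diagonal

Proof.  Let `Y = {(z, w) : nn z + nn w = 1, s nn z ≤ nn (w - ζ z) for all ζ with ζ^k = 1}`: compact (closed and
bounded; an intersection of closed sets).  `D2 > 0` on `Y`: let `D2 z w = 0`.
If `z = 0`: `R2 0 w = 0`, `D2 = r2 w ≥ c nn w^k = c > 0`; the same for `w = 0`.
If `z, w ≠ 0`: `r2 z > 0`, so by `D2_id` and `cs` (both summands are nonnegative) `r2 z = R2 w z` and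
`r2 z r2 w - |R2|² = 0`, hence `nn z nn w = |ip z w|²` (`cs`, `nn z, nn w > 0`), so `w = λ z` with
`λ = ip w z/nn z` (equality in Cauchy-Schwarz: `nn (w - λ z) = nn w - |ip w z|²/nn z = 0`).  Then
`r2 z = R2 w z = λ^k r2 z` (`R2_smul_left`, `R2_self`), `λ^k = 1`, and `s nn z ≤ nn (w - λ z) = 0`: contradiction.
So `D2 ≥ c₂ > 0` on `Y`.  For general `(z, w)` with `T = nn z + nn w > 0` scale by the real number `t = 1/√T`
(`D2_smul`, `nn_smul`, the condition is invariant); `T = 0` trivial (`k > 0`).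
-/

namespace Pool.Agent.Work.MP_49847a_an

open MvPolynomial

variable {n k p q : ℕ} {c : ℝ} {P : Fin p → MvPolynomial (Fin n) ℂ}
  {Q : Fin q → MvPolynomial (Fin n) ℂ}

private theorem far_zero (h : CS k c P Q) (w : Fin n → ℂ) : D2 P Q 0 w = r2 P Q w := by
  have h1 : R2 P Q 0 w = 0 := by
    have := R2_smul_left h 0 0 w
    rw [zero_smul, zero_pow h.hk.ne', zero_mul] at this
    exact this
  have h2 : r2 P Q 0 = 0 := by
    have := r2_smul h 0 0
    rw [zero_smul, norm_zero, zero_pow two_ne_zero, zero_pow h.hk.ne', zero_mul] at this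
    exact this
  unfold D2
  rw [h1, h2, Complex.zero_re]
  ring

private theorem far_nn_smul_real (t : ℝ) (z : Fin n → ℂ) :
    nn ((t : ℂ) • z) = t ^ 2 * nn z := by
  rw [nn_smul, Complex.norm_real, Real.norm_eq_abs, sq_abs]

private theorem far_pos (h : CS k c P Q) {s : ℝ} (hs : 0 < s) (z w : Fin n → ℂ)
    (hT : nn z + nn w = 1) (hw : ∀ ζ : ℂ, ζ ^ k = 1 → s * nn z ≤ nn (w - ζ • z)) :
    0 < D2 P Q z w := by
  have hc := h.hc
  by_cases hz : z = 0
  · subst hz
    have h0 : nn (0 : Fin n → ℂ) = 0 := nn_eq_zero.2 rfl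
    rw [h0, zero_add] at hT
    have := h.pos w
    rw [hT, one_pow, mul_one] at this
    rw [far_zero h]
    linarith
  by_cases hw0 : w = 0
  · subst hw0
    have h0 : nn (0 : Fin n → ℂ) = 0 := nn_eq_zero.2 rfl
    rw [h0, add_zero] at hT
    have := h.pos z
    rw [hT, one_pow, mul_one] at this
    rw [D2_symm, far_zero h]
    linarith
  have hnz : 0 < nn z := lt_of_le_of_ne (nn_nonneg z) (fun h => hz (nn_eq_zero.1 h.symm))
  have hnw : 0 < nn w := lt_of_le_of_ne (nn_nonneg w) (fun h => hw0 (nn_eq_zero.1 h.symm))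
  have hrz : 0 < r2 P Q z := lt_of_lt_of_le (by positivity) (h.pos z)
  by_contra hcon
  have hD0 : D2 P Q z w = 0 := le_antisymm (not_lt.1 hcon) (D2_nonneg h z w)
  have hid := D2_id P Q z w
  rw [hD0, mul_zero] at hid
  have hcs := h.cs z w
  have hip := ip_cs z w
  have hpow : 0 < nn z ^ (k - 1) * nn w ^ (k - 1) := by positivity
  have hge : 0 ≤ c * (nn z ^ (k - 1) * nn w ^ (k - 1) * (nn z * nn w - ‖ip z w‖ ^ 2)) :=
    mul_nonneg hc.le (mul_nonneg hpow.le (by linarith))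
  have hsq := sq_nonneg ‖((r2 P Q z : ℝ) : ℂ) - R2 P Q w z‖
  have e1 : ‖((r2 P Q z : ℝ) : ℂ) - R2 P Q w z‖ ^ 2 = 0 := by linarith
  have e2 : c * (nn z ^ (k - 1) * nn w ^ (k - 1) * (nn z * nn w - ‖ip z w‖ ^ 2)) = 0 := by
    linarith
  have e3 : nn z * nn w - ‖ip z w‖ ^ 2 = 0 := by
    rcases mul_eq_zero.1 e2 with h1 | h1
    · exact absurd h1 hc.ne'
    · rcases mul_eq_zero.1 h1 with h2 | h2
      · exact absurd h2 hpow.ne'
      · exact h2
  have e4 : R2 P Q w z = ((r2 P Q z : ℝ) : ℂ) := by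
    have := pow_eq_zero_iff (two_ne_zero) |>.1 e1
    rw [norm_eq_zero, sub_eq_zero] at this
    exact this.symm
  have hnzC : ((nn z : ℝ) : ℂ) ≠ 0 := by exact_mod_cast hnz.ne'
  set lam : ℂ := ip w z / ((nn z : ℝ) : ℂ) with hlam
  have hnip : ‖ip w z‖ = ‖ip z w‖ := by rw [← ip_conj z w, RCLike.norm_conj]
  have e5 : nn (w - lam • z) = 0 := by
    rw [nn_sub, nn_smul]
    have i1 : ip w (lam • z) = (starRingEnd ℂ) lam * ip w z := by
      unfold ip
      rw [Finset.mul_sum]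
      refine Finset.sum_congr rfl fun i _ => ?_
      rw [Pi.smul_apply, smul_eq_mul, map_mul]
      ring
    have i2 : (starRingEnd ℂ) lam * ip w z = ((‖ip w z‖ ^ 2 / nn z : ℝ) : ℂ) := by
      rw [hlam, map_div₀, Complex.conj_ofReal]
      push_cast
      rw [div_mul_eq_mul_div, mul_comm, Complex.mul_conj, Complex.normSq_eq_norm_sq]
      push_cast
      rfl
    rw [i1, i2, Complex.ofReal_re, hlam, norm_div, Complex.norm_real,
      Real.norm_of_nonneg hnz.le, div_pow, hnip]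
    field_simp
    linarith
  have e6 : w = lam • z := by
    have := nn_eq_zero.1 e5
    exact sub_eq_zero.1 this
  have e7 : lam ^ k = 1 := by
    have h1 : R2 P Q w z = lam ^ k * ((r2 P Q z : ℝ) : ℂ) := by
      conv_lhs => rw [e6]
      rw [R2_smul_left h, R2_self]
    rw [e4] at h1
    have hne : ((r2 P Q z : ℝ) : ℂ) ≠ 0 := by exact_mod_cast hrz.ne'
    have h2 : (1 : ℂ) * ((r2 P Q z : ℝ) : ℂ) = lam ^ k * ((r2 P Q z : ℝ) : ℂ) := by
      rw [one_mul]
      exact h1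
    exact (mul_right_cancel₀ hne h2).symm
  have e8 := hw lam e7
  rw [e5] at e8
  have : 0 < s * nn z := mul_pos hs hnz
  linarith

theorem cd_far (h : CS k c P Q) {s : ℝ} (hs : 0 < s) : ∃ c₂ : ℝ, 0 < c₂ ∧ ∀ z w : Fin n → ℂ,
    w ∈ farS k s z → c₂ * (nn z + nn w) ^ k ≤ D2 P Q z w := by
  set Y : Set ((Fin n → ℂ) × (Fin n → ℂ)) := {x | nn x.1 + nn x.2 = 1 ∧
    ∀ ζ : ℂ, ζ ^ k = 1 → s * nn x.1 ≤ nn (x.2 - ζ • x.1)} with hY
  have hclosed : IsClosed Y := by
    have h1 : IsClosed {x : (Fin n → ℂ) × (Fin n → ℂ) | nn x.1 + nn x.2 = 1} :=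
      isClosed_eq ((nn_continuous.comp continuous_fst).add (nn_continuous.comp continuous_snd))
        continuous_const
    have h2 : IsClosed {x : (Fin n → ℂ) × (Fin n → ℂ) |
        ∀ ζ : ℂ, ζ ^ k = 1 → s * nn x.1 ≤ nn (x.2 - ζ • x.1)} := by
      simp only [Set.ofPred_forall]
      refine isClosed_iInter fun ζ => isClosed_iInter fun _ => ?_
      refine isClosed_le (continuous_const.mul (nn_continuous.comp continuous_fst)) ?_
      exact nn_continuous.comp (continuous_snd.sub (continuous_fst.const_smul ζ))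
    exact h1.inter h2
  have hbound : Bornology.IsBounded Y := by
    refine (Metric.isBounded_closedBall (x := (0 : (Fin n → ℂ) × (Fin n → ℂ))) (r := 1)).subset ?_
    intro x hx
    have hx1 : nn x.1 + nn x.2 = 1 := hx.1
    have key : ∀ y : Fin n → ℂ, nn y ≤ 1 → ‖y‖ ≤ 1 := by
      intro y hy
      rw [pi_norm_le_iff_of_nonneg zero_le_one]
      intro i
      have h1 : ‖y i‖ ^ 2 ≤ nn y :=
        Finset.single_le_sum (f := fun i => ‖y i‖ ^ 2) (fun _ _ => sq_nonneg _)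
          (Finset.mem_univ i)
      nlinarith [norm_nonneg (y i)]
    rw [mem_closedBall_zero_iff, Prod.norm_def]
    refine max_le (key _ ?_) (key _ ?_)
    · linarith [nn_nonneg x.2]
    · linarith [nn_nonneg x.1]
  have hcomp : IsCompact Y := Metric.isCompact_of_isClosed_isBounded hclosed hbound
  obtain ⟨c₂, hc2, hmin⟩ : ∃ c₂ : ℝ, 0 < c₂ ∧ ∀ x ∈ Y, c₂ ≤ D2 P Q x.1 x.2 := by
    rcases Set.eq_empty_or_nonempty Y with he | hne
    · exact ⟨1, one_pos, fun x hx => by rw [he] at hx; exact absurd hx (Set.notMem_empty x)⟩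
    · obtain ⟨x, hx, hm⟩ := hcomp.exists_isMinOn hne (D2_continuous P Q).continuousOn
      exact ⟨D2 P Q x.1 x.2, far_pos h hs x.1 x.2 hx.1 hx.2, fun y hy => hm hy⟩
  refine ⟨c₂, hc2, fun z w hw => ?_⟩
  set T := nn z + nn w with hTdef
  have hT0 : 0 ≤ T := add_nonneg (nn_nonneg z) (nn_nonneg w)
  rcases hT0.eq_or_lt with hT | hT
  · rw [← hT, zero_pow h.hk.ne', mul_zero]
    exact D2_nonneg h z w
  · set t : ℝ := (Real.sqrt T)⁻¹ with ht
    have hsT : 0 < Real.sqrt T := Real.sqrt_pos.2 hT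
    have ht2 : t ^ 2 = T⁻¹ := by
      rw [ht, inv_pow, Real.sq_sqrt hT0]
    have hmem : ((t : ℂ) • z, (t : ℂ) • w) ∈ Y := by
      refine ⟨?_, fun ζ hζ => ?_⟩
      · show nn ((t : ℂ) • z) + nn ((t : ℂ) • w) = 1
        rw [far_nn_smul_real, far_nn_smul_real, ht2, ← mul_add]
        exact inv_mul_cancel₀ hT.ne'
      · show s * nn ((t : ℂ) • z) ≤ nn ((t : ℂ) • w - ζ • (t : ℂ) • z)
        have e : (t : ℂ) • w - ζ • (t : ℂ) • z = (t : ℂ) • (w - ζ • z) := by
          rw [smul_sub, smul_comm]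
        rw [e, far_nn_smul_real, far_nn_smul_real, ht2]
        have h1 := hw ζ hζ
        have h2 : 0 < T⁻¹ := inv_pos.2 hT
        nlinarith
    have h1 := hmin _ hmem
    have h2 : D2 P Q ((t : ℂ) • z) ((t : ℂ) • w) = (T⁻¹) ^ k * D2 P Q z w := by
      rw [D2_smul h, Complex.norm_real, Real.norm_eq_abs, sq_abs, ht2]
    have h3 : c₂ ≤ (T⁻¹) ^ k * D2 P Q z w := by
      rw [← h2]
      exact h1
    have h4 : 0 < T ^ k := by positivity
    rw [inv_pow, inv_mul_eq_div, le_div_iff₀ h4] at h3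
    exact h3

end Pool.Agent.Work.MP_49847a_an
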