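import Pool.Agent.Work.MP_49847a_an.Sg.CIB
import Pool.Agent.Work.MP_49847a_an.Sg.CFar
import Pool.Agent.Work.MP_49847a_an.Sg.CMean

/-!
# Module CFi: far part, both integrals

Proof.  `D2 z w ≥ c₂ (nn z + nn w)^k ≥ (c₂/2) (nn z^k + nn w^k)` on the far set (`cd_far`), so
`(farS k s z).indicator (Kf P Q z) w ≤ e^(-(c₂/4) nn z^k) e^(-(c₂/4) nn w^k)` for all `z, w` (the left side is zero outside
the far set), and `∫ e^(-(c₂/4) nn w^k) dw = B < ∞` (`pow_int` with `N = 0`).  So the integral over `w` (over `z`) is at most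
`B e^(-(c₂/4) T^k)`, `T = nn z` (`T = nn w`), at most `B`, and at most `θ / (T^(k-1))^n` for `T ≥ R` large (`T ≥ 1`:
`T^k ≥ T`, and `T^((k-1) n) e^(-(c₂/4) T) → 0`, `Real.tendsto_pow_mul_exp_neg_atTop_nhds_zero`).
Measurability: `farS k s z` is closed (an intersection of closed sets over `ζ`), `{z : w ∈ farS k s z}` too; `Kf` is
continuous (`D2_continuous`).
-/

namespace Pool.Agent.Work.MP_49847a_an

open MvPolynomial MeasureTheory

variable {n k p q : ℕ} {c : ℝ} {P : Fin p → MvPolynomial (Fin n) ℂ}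
  {Q : Fin q → MvPolynomial (Fin n) ℂ}

private theorem fi_core {b : ℝ} (hb : 0 < b) (m : ℕ) {B θ : ℝ} (hB : 0 ≤ B) (hθ : 0 < θ) :
    ∃ R : ℝ, 1 ≤ R ∧ ∀ T, R ≤ T → Real.exp (-(b * T)) * B * T ^ m ≤ θ := by
  obtain ⟨K, hK⟩ : ∃ K : ℝ, K = ((m + 1).factorial : ℝ) / b ^ (m + 1) := ⟨_, rfl⟩
  have hK0 : 0 ≤ K := by
    rw [hK]
    positivity
  refine ⟨1 + B * K / θ, by
    have : 0 ≤ B * K / θ := by positivity
    linarith, fun T hT => ?_⟩
  have h0 : 0 ≤ B * K / θ := by positivity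
  have hT0 : 0 < T := by linarith
  have h1 := Real.pow_div_factorial_le_exp (b * T) (by positivity) (m + 1)
  have hf : (0 : ℝ) < (m + 1).factorial := by positivity
  have h2 : T ^ m * Real.exp (-(b * T)) ≤ K / T := by
    rw [Real.exp_neg, ← div_eq_mul_inv, div_le_div_iff₀ (Real.exp_pos _) hT0]
    rw [div_le_iff₀ hf, mul_pow] at h1
    rw [hK, div_mul_eq_mul_div, le_div_iff₀ (by positivity)]
    calc T ^ m * T * b ^ (m + 1) = b ^ (m + 1) * T ^ (m + 1) := by ring
      _ ≤ Real.exp (b * T) * ((m + 1).factorial : ℝ) := h1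
      _ = _ := by ring
  calc Real.exp (-(b * T)) * B * T ^ m = B * (T ^ m * Real.exp (-(b * T))) := by ring
    _ ≤ B * (K / T) := mul_le_mul_of_nonneg_left h2 hB
    _ ≤ θ := by
      rw [← mul_div_assoc, div_le_iff₀ hT0]
      have h3 : B * K / θ ≤ T := by linarith
      rw [div_le_iff₀ hθ] at h3
      linarith

private theorem fi_gen (hk : 0 < k) {F : (Fin n → ℂ) → (Fin n → ℂ) → ℝ} {b : ℝ} (hb : 0 < b)
    (hm : ∀ x, Measurable (F x)) (h0 : ∀ x y, 0 ≤ F x y)
    (h1 : ∀ x y, F x y ≤ Real.exp (-(b * nn x ^ k)) * Real.exp (-(b * nn y ^ k))) :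
    IntB k F := by
  have hg : Integrable (fun y : Fin n → ℂ => Real.exp (-(b * nn y ^ k))) := by
    have := pow_int (n := n) hb hk 0
    simpa using this
  obtain ⟨B, hB⟩ : ∃ B : ℝ, B = ∫ y : Fin n → ℂ, Real.exp (-(b * nn y ^ k)) := ⟨_, rfl⟩
  have hB0 : 0 ≤ B := by
    rw [hB]
    exact integral_nonneg fun y => Real.exp_nonneg _
  have hint : ∀ x, Integrable (F x) := fun x =>
    (hg.const_mul (Real.exp (-(b * nn x ^ k)))).mono' (hm x).aestronglyMeasurable
      (ae_of_all _ fun y => by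
        rw [Real.norm_of_nonneg (h0 x y)]
        exact h1 x y)
  have hI : ∀ x, ∫ y, F x y ≤ Real.exp (-(b * nn x ^ k)) * B := by
    intro x
    rw [hB, ← integral_const_mul]
    exact integral_mono (hint x) (hg.const_mul _) (h1 x)
  intro θ hθ
  obtain ⟨R, hR1, hR⟩ := fi_core hb ((k - 1) * n) hB0 hθ
  refine ⟨R, hR1, fun R' hR' => ⟨B, hB0, fun x => ⟨hint x, fun hx => ?_, fun _ => ?_⟩⟩⟩
  · have hx1 : 1 ≤ nn x := hR1.trans (hR'.trans hx)
    have hx0 : 0 < nn x := by linarith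
    rw [← pow_mul, le_div_iff₀ (by positivity)]
    refine le_trans ?_ (hR (nn x) (hR'.trans hx))
    refine mul_le_mul_of_nonneg_right ((hI x).trans (mul_le_mul_of_nonneg_right ?_ hB0))
      (by positivity)
    rw [Real.exp_le_exp, neg_le_neg_iff]
    exact mul_le_mul_of_nonneg_left (le_self_pow₀ hx1 hk.ne') hb.le
  · refine (hI x).trans (mul_le_of_le_one_left hB0 ?_)
    rw [Real.exp_le_one_iff, neg_nonpos]
    have := nn_nonneg x
    positivity

private theorem fi_bd (h : CS k c P Q) {s : ℝ} (hs : 0 < s) : ∃ b : ℝ, 0 < b ∧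
    ∀ z w : Fin n → ℂ, (farS k s z).indicator (Kf P Q z) w ≤
      Real.exp (-(b * nn z ^ k)) * Real.exp (-(b * nn w ^ k)) := by
  obtain ⟨c₂, hc₂, hD⟩ := cd_far h hs
  refine ⟨c₂ / 4, by positivity, fun z w => ?_⟩
  by_cases hw : w ∈ farS k s z
  · rw [Set.indicator_of_mem hw]
    have h1 := hD z w hw
    have hz0 := nn_nonneg z
    have hw0 := nn_nonneg w
    have h2 : nn z ^ k ≤ (nn z + nn w) ^ k := pow_le_pow_left₀ hz0 (by linarith) k
    have h3 : nn w ^ k ≤ (nn z + nn w) ^ k := pow_le_pow_left₀ hw0 (by linarith) k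
    unfold Kf
    rw [← Real.exp_add, Real.exp_le_exp]
    nlinarith
  · rw [Set.indicator_of_notMem hw]
    positivity

private theorem fi_nn (P : Fin p → MvPolynomial (Fin n) ℂ) (Q : Fin q → MvPolynomial (Fin n) ℂ)
    (k : ℕ) (s : ℝ) (z w : Fin n → ℂ) : 0 ≤ (farS k s z).indicator (Kf P Q z) w :=
  Set.indicator_nonneg (fun _ _ => Real.exp_nonneg _) w

private theorem fi_m1 (P : Fin p → MvPolynomial (Fin n) ℂ) (Q : Fin q → MvPolynomial (Fin n) ℂ)
    (k : ℕ) (s : ℝ) (z : Fin n → ℂ) :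
    Measurable (fun w => (farS k s z).indicator (Kf P Q z) w) := by
  have g1 : Continuous (fun w : Fin n → ℂ => ((z, w) : (Fin n → ℂ) × (Fin n → ℂ))) :=
    continuous_const.prodMk continuous_id
  have h1' := (D2_continuous P Q).comp g1
  have h1 : Continuous (fun w : Fin n → ℂ => D2 P Q z w) := h1'
  have h2 : Continuous (Kf P Q z) := Real.continuous_exp.comp (h1.neg.div_const 2)
  refine Measurable.indicator h2.measurable (IsClosed.measurableSet ?_)
  have e : farS k s z = ⋂ ζ : ℂ, ⋂ _ : ζ ^ k = 1, {w | s * nn z ≤ nn (w - ζ • z)} := by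
    ext w
    simp [farS]
  rw [e]
  exact isClosed_iInter fun ζ => isClosed_iInter fun _ =>
    isClosed_le continuous_const (nn_continuous.comp (continuous_id.sub continuous_const))

private theorem fi_m2 (P : Fin p → MvPolynomial (Fin n) ℂ) (Q : Fin q → MvPolynomial (Fin n) ℂ)
    (k : ℕ) (s : ℝ) (w : Fin n → ℂ) :
    Measurable (fun z => (farS k s z).indicator (Kf P Q z) w) := by
  have g1 : Continuous (fun z : Fin n → ℂ => ((z, w) : (Fin n → ℂ) × (Fin n → ℂ))) :=
    continuous_id.prodMk continuous_const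
  have h1' := (D2_continuous P Q).comp g1
  have h1 : Continuous (fun z : Fin n → ℂ => D2 P Q z w) := h1'
  have h2 : Continuous (fun z => Kf P Q z w) := Real.continuous_exp.comp (h1.neg.div_const 2)
  have e0 : (fun z => (farS k s z).indicator (Kf P Q z) w) =
      {z | w ∈ farS k s z}.indicator (fun z => Kf P Q z w) := by
    funext z
    by_cases hz : w ∈ farS k s z
    · rw [Set.indicator_of_mem hz, Set.indicator_of_mem (show z ∈ {z | w ∈ farS k s z} from hz)]
    · rw [Set.indicator_of_notMem hz,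
        Set.indicator_of_notMem (show z ∉ {z | w ∈ farS k s z} from hz)]
  rw [e0]
  refine Measurable.indicator h2.measurable (IsClosed.measurableSet ?_)
  have e : {z | w ∈ farS k s z} =
      ⋂ ζ : ℂ, ⋂ _ : ζ ^ k = 1, {z | s * nn z ≤ nn (w - ζ • z)} := by
    ext z
    simp [farS]
  rw [e]
  exact isClosed_iInter fun ζ => isClosed_iInter fun _ =>
    isClosed_le (continuous_const.mul nn_continuous)
      (nn_continuous.comp (continuous_const.sub (continuous_id.const_smul ζ)))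

theorem far_int (h : CS k c P Q) {s : ℝ} (hs : 0 < s) :
    IntB k (fun z w => (farS k s z).indicator (Kf P Q z) w) := by
  obtain ⟨b, hb, h1⟩ := fi_bd h hs
  exact fi_gen h.hk hb (fun z => fi_m1 P Q k s z) (fun z w => fi_nn P Q k s z w) h1

theorem far_int' (h : CS k c P Q) {s : ℝ} (hs : 0 < s) :
    IntB k (fun w z => (farS k s z).indicator (Kf P Q z) w) := by
  obtain ⟨b, hb, h1⟩ := fi_bd h hs
  exact fi_gen h.hk hb (fun w => fi_m2 P Q k s w) (fun w z => fi_nn P Q k s z w)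
    (fun w z => (h1 z w).trans (le_of_eq (mul_comm _ _)))

end Pool.Agent.Work.MP_49847a_an
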