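import Pool.Agent.Work.MP_49847a_an.Sg.CPh
import Pool.Agent.Work.MP_49847a_an.Sg.CCirc

/-!
# Module COrth: only one degree contributes

Proof.  `V = R2 P Q z`, `f` homogeneous of degree `k N`.  For `θ ∈ [0, 2π]`, `ζ = e^{iθ}`: substitute `w → ζ w`
(`measure_rot`): `∫ f(w) exp(V(w)) e^(-r2 w) dw = ∫ ζ^(kN) f(w) exp (conj(ζ)^k V(w)) e^(-r2 w) dw`
(`hom_smul`, `R2_smul_right`, `r2_smul`).  Integrate over `θ ∈ [0, 2π]`, divide by `2π`, exchange the integrals
(the integrand is bounded by `|f(w)| e^(|V(w)|) e^(-r2 w)` and `|V(w)| ≤ (r2 z + r2 w)/2` (`R2_le`), integrable: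
`ph_int`, `r2 w ≥ c nn w^k`).  The inner integral is
`(1/2π) ∫ e^{i k N θ} exp (e^{-i k θ} x) dθ = x^N/N!` (`circle_exp`).
(integrability) `|V|^N ≤ N! e^(|V|)`, or `V^N f` is a polynomial in `w`, `conj w` times `e^(-r2)` (`ph_int`).
-/

namespace Pool.Agent.Work.MP_49847a_an

open MvPolynomial MeasureTheory

variable {n k p q : ℕ} {c : ℝ} {P : Fin p → MvPolynomial (Fin n) ℂ}
  {Q : Fin q → MvPolynomial (Fin n) ℂ}

private theorem eval_cont (f : MvPolynomial (Fin n) ℂ) :
    Continuous (fun w : Fin n → ℂ => eval w f) := MvPolynomial.continuous_eval f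

private theorem R2_cont_right (z : Fin n → ℂ) :
    Continuous (fun w : Fin n → ℂ => R2 P Q z w) := by
  have h1 : Continuous (fun w : Fin n → ℂ => ((z, w) : (Fin n → ℂ) × (Fin n → ℂ))) := by
    fun_prop
  have h2 := R2_continuous P Q
  have h3 := Continuous.comp (g := fun q : (Fin n → ℂ) × (Fin n → ℂ) => R2 P Q q.1 q.2)
    (f := fun w : Fin n → ℂ => ((z, w) : (Fin n → ℂ) × (Fin n → ℂ))) h2 h1
  exact h3

private theorem ph_int0 (h : CS k c P Q) (f : MvPolynomial (Fin n) ℂ) :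
    Integrable (fun z => ph P Q f z) := by
  have h1 := (ph_int h f 0).1
  simpa using h1

private theorem bound0 (h : CS k c P Q) (f : MvPolynomial (Fin n) ℂ) (z w : Fin n → ℂ) :
    ‖eval w f‖ * Real.exp ‖R2 P Q z w‖ * Real.exp (-(r2 P Q w)) ≤
      Real.exp (r2 P Q z / 2) * ph P Q f w := by
  have h1 := R2_le h z w
  unfold ph
  have h2 : Real.exp ‖R2 P Q z w‖ * Real.exp (-(r2 P Q w)) ≤
      Real.exp (r2 P Q z / 2) * Real.exp (-(r2 P Q w) / 2) := by
    rw [← Real.exp_add, ← Real.exp_add]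
    apply Real.exp_le_exp.mpr
    linarith
  calc ‖eval w f‖ * Real.exp ‖R2 P Q z w‖ * Real.exp (-(r2 P Q w))
      = ‖eval w f‖ * (Real.exp ‖R2 P Q z w‖ * Real.exp (-(r2 P Q w))) := by ring
    _ ≤ ‖eval w f‖ * (Real.exp (r2 P Q z / 2) * Real.exp (-(r2 P Q w) / 2)) :=
        mul_le_mul_of_nonneg_left h2 (norm_nonneg _)
    _ = _ := by ring

private theorem norm_cexp_neg (x : ℝ) : ‖Complex.exp (-(x : ℂ))‖ = Real.exp (-x) := by
  rw [Complex.norm_exp]
  simp

private theorem norm_cexp_le (x : ℂ) : ‖Complex.exp x‖ ≤ Real.exp ‖x‖ := by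
  rw [Complex.norm_exp]
  exact Real.exp_le_exp.mpr (Complex.re_le_norm x)

private theorem cd_orth_int (h : CS k c P Q) (N : ℕ) (f : MvPolynomial (Fin n) ℂ)
    (z : Fin n → ℂ) :
    Integrable (fun w => eval w f * R2 P Q z w ^ N * Complex.exp (-(r2 P Q w : ℂ))) := by
  have hG : Integrable (fun w => (N.factorial : ℝ) * (Real.exp (r2 P Q z / 2) * ph P Q f w)) :=
    ((ph_int0 h f).const_mul _).const_mul _
  refine hG.mono' ?_ (Filter.Eventually.of_forall fun w => ?_)
  · apply Continuous.aestronglyMeasurable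
    have h1 : Continuous (fun w : Fin n → ℂ => ((r2 P Q w : ℝ) : ℂ)) :=
      Complex.continuous_ofReal.comp (r2_continuous P Q)
    exact ((eval_cont f).mul ((R2_cont_right z).pow N)).mul (Complex.continuous_exp.comp h1.neg)
  · rw [norm_mul, norm_mul, norm_pow, norm_cexp_neg]
    have h1 : ‖R2 P Q z w‖ ^ N ≤ N.factorial * Real.exp ‖R2 P Q z w‖ := by
      have h2 := Real.pow_div_factorial_le_exp ‖R2 P Q z w‖ (norm_nonneg _) N
      have h3 : (0 : ℝ) < N.factorial := by exact_mod_cast N.factorial_pos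
      rw [div_le_iff₀ h3] at h2
      linarith
    have h2 := bound0 h f z w
    have h3 : (0 : ℝ) < N.factorial := by exact_mod_cast N.factorial_pos
    calc ‖eval w f‖ * ‖R2 P Q z w‖ ^ N * Real.exp (-(r2 P Q w))
        ≤ ‖eval w f‖ * (N.factorial * Real.exp ‖R2 P Q z w‖) * Real.exp (-(r2 P Q w)) := by
          gcongr
      _ = N.factorial * (‖eval w f‖ * Real.exp ‖R2 P Q z w‖ * Real.exp (-(r2 P Q w))) := by ring
      _ ≤ _ := mul_le_mul_of_nonneg_left h2 h3.le

private theorem norm_ei (θ : ℝ) : ‖Complex.exp (Complex.I * θ)‖ = 1 := by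
  rw [mul_comm]
  exact Complex.norm_exp_ofReal_mul_I θ

private theorem conj_ei (θ : ℝ) : (starRingEnd ℂ) (Complex.exp (Complex.I * θ)) =
    Complex.exp (-(Complex.I * θ)) := by
  rw [← Complex.exp_conj]
  congr 1
  simp

private theorem rot_eq (h : CS k c P Q) {N : ℕ} {f : MvPolynomial (Fin n) ℂ}
    (hf : f.IsHomogeneous (k * N)) (z w : Fin n → ℂ) (θ : ℝ) :
    eval (Complex.exp (Complex.I * θ) • w) f *
      Complex.exp (R2 P Q z (Complex.exp (Complex.I * θ) • w) -
        (r2 P Q (Complex.exp (Complex.I * θ) • w) : ℂ)) =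
    (Complex.exp (Complex.I * θ) ^ (k * N) *
      Complex.exp ((Complex.exp (-(Complex.I * θ))) ^ k * R2 P Q z w)) *
      (eval w f * Complex.exp (-(r2 P Q w : ℂ))) := by
  rw [hom_smul hf, R2_smul_right h, r2_smul h, norm_ei, conj_ei, sub_eq_add_neg, Complex.exp_add]
  have : ((((1 : ℝ) ^ 2) ^ k * r2 P Q w : ℝ) : ℂ) = (r2 P Q w : ℂ) := by simp
  rw [this]
  ring

private theorem prodInt (h : CS k c P Q) {N : ℕ} {f : MvPolynomial (Fin n) ℂ} (z : Fin n → ℂ) :
    Integrable (fun x : ℝ × (Fin n → ℂ) =>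
      (Complex.exp (Complex.I * x.1) ^ (k * N) *
      Complex.exp ((Complex.exp (-(Complex.I * x.1))) ^ k * R2 P Q z x.2)) *
      (eval x.2 f * Complex.exp (-(r2 P Q x.2 : ℂ))))
      ((volume.restrict (Set.Ioc (0 : ℝ) (2 * Real.pi))).prod volume) := by
  have hG : Integrable (fun w => Real.exp (r2 P Q z / 2) * ph P Q f w) :=
    (ph_int0 h f).const_mul _
  have hH : Integrable (fun x : ℝ × (Fin n → ℂ) =>
      (1 : ℝ) * (Real.exp (r2 P Q z / 2) * ph P Q f x.2))
      ((volume.restrict (Set.Ioc (0 : ℝ) (2 * Real.pi))).prod volume) :=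
    Integrable.mul_prod (integrable_const (1 : ℝ)) hG
  refine hH.mono' ?_ (Filter.Eventually.of_forall fun x => ?_)
  · apply Continuous.aestronglyMeasurable
    have h1 : Continuous (fun x : ℝ × (Fin n → ℂ) => ((r2 P Q x.2 : ℝ) : ℂ)) :=
      Complex.continuous_ofReal.comp ((r2_continuous P Q).comp continuous_snd)
    have h2 : Continuous (fun x : ℝ × (Fin n → ℂ) => eval x.2 f) :=
      (eval_cont f).comp continuous_snd
    have h3 : Continuous (fun x : ℝ × (Fin n → ℂ) => R2 P Q z x.2) :=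
      (R2_cont_right z).comp continuous_snd
    have h4 : Continuous (fun x : ℝ × (Fin n → ℂ) => Complex.exp (Complex.I * x.1)) := by
      fun_prop
    have h5 : Continuous (fun x : ℝ × (Fin n → ℂ) => Complex.exp (-(Complex.I * x.1))) := by
      fun_prop
    exact ((h4.pow _).mul (Complex.continuous_exp.comp ((h5.pow _).mul h3))).mul
      (h2.mul (Complex.continuous_exp.comp h1.neg))
  · rw [norm_mul, norm_mul, norm_mul, norm_pow, norm_cexp_neg, norm_ei, one_pow, one_mul]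
    have h1 : ‖Complex.exp ((Complex.exp (-(Complex.I * x.1))) ^ k * R2 P Q z x.2)‖ ≤
        Real.exp ‖R2 P Q z x.2‖ := by
      refine (norm_cexp_le _).trans (le_of_eq ?_)
      rw [norm_mul, norm_pow, ← conj_ei, RCLike.norm_conj, norm_ei, one_pow, one_mul]
    have h2 := bound0 h f z x.2
    calc ‖Complex.exp ((Complex.exp (-(Complex.I * x.1))) ^ k * R2 P Q z x.2)‖ *
          (‖eval x.2 f‖ * Real.exp (-(r2 P Q x.2)))
        ≤ Real.exp ‖R2 P Q z x.2‖ * (‖eval x.2 f‖ * Real.exp (-(r2 P Q x.2))) := by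
          gcongr
      _ = ‖eval x.2 f‖ * Real.exp ‖R2 P Q z x.2‖ * Real.exp (-(r2 P Q x.2)) := by ring
      _ ≤ _ := by rw [one_mul]; exact h2

theorem cd_orth (h : CS k c P Q) {N : ℕ} {f : MvPolynomial (Fin n) ℂ}
    (hf : f.IsHomogeneous (k * N)) (z : Fin n → ℂ) :
    Integrable (fun w => eval w f * R2 P Q z w ^ N * Complex.exp (-(r2 P Q w : ℂ))) ∧
    ∫ w, eval w f * Complex.exp (R2 P Q z w - (r2 P Q w : ℂ)) =
      (N.factorial : ℂ)⁻¹ * ∫ w, eval w f * R2 P Q z w ^ N * Complex.exp (-(r2 P Q w : ℂ)) := by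
  refine ⟨cd_orth_int h N f z, ?_⟩
  set F : (Fin n → ℂ) → ℂ := fun w => eval w f * Complex.exp (R2 P Q z w - (r2 P Q w : ℂ)) with hF
  have hpi : (0 : ℝ) < 2 * Real.pi := Real.two_pi_pos
  -- rotation
  have hrot : ∀ θ : ℝ, ∫ w, F w = ∫ w, F (Complex.exp (Complex.I * θ) • w) := by
    intro θ
    have hmp := measure_rot (n := n) (norm_ei θ)
    have hne : Complex.exp (Complex.I * θ) ≠ 0 := Complex.exp_ne_zero _
    have hemb : MeasurableEmbedding (fun y : Fin n → ℂ => Complex.exp (Complex.I * θ) • y) :=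
      (Homeomorph.smulOfNeZero _ hne).measurableEmbedding
    exact (hmp.integral_comp hemb F).symm
  have havg : ((2 * Real.pi : ℝ) : ℂ) * ∫ w, F w =
      ∫ θ in Set.Ioc (0 : ℝ) (2 * Real.pi), ∫ w, F (Complex.exp (Complex.I * θ) • w) := by
    have h1 : ∫ θ in Set.Ioc (0 : ℝ) (2 * Real.pi), ∫ w, F (Complex.exp (Complex.I * θ) • w) =
        ∫ θ in Set.Ioc (0 : ℝ) (2 * Real.pi), ∫ w, F w := by
      apply integral_congr_ae
      exact Filter.Eventually.of_forall fun θ => (hrot θ).symm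
    rw [h1, ← intervalIntegral.integral_of_le hpi.le, intervalIntegral.integral_const]
    simp
  have hsw : ∫ θ in Set.Ioc (0 : ℝ) (2 * Real.pi), ∫ w, F (Complex.exp (Complex.I * θ) • w) =
      ∫ w, ∫ θ in Set.Ioc (0 : ℝ) (2 * Real.pi),
        (Complex.exp (Complex.I * θ) ^ (k * N) *
        Complex.exp ((Complex.exp (-(Complex.I * θ))) ^ k * R2 P Q z w)) *
        (eval w f * Complex.exp (-(r2 P Q w : ℂ))) := by
    have h1 := integral_integral_swap (f := fun (θ : ℝ) (w : Fin n → ℂ) =>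
      (Complex.exp (Complex.I * θ) ^ (k * N) *
        Complex.exp ((Complex.exp (-(Complex.I * θ))) ^ k * R2 P Q z w)) *
        (eval w f * Complex.exp (-(r2 P Q w : ℂ)))) (prodInt h (N := N) (f := f) z)
    refine Eq.trans ?_ h1
    apply integral_congr_ae
    refine Filter.Eventually.of_forall fun θ => ?_
    apply integral_congr_ae
    exact Filter.Eventually.of_forall fun w => rot_eq h hf z w θ
  have hin : ∀ w : Fin n → ℂ, ∫ θ in Set.Ioc (0 : ℝ) (2 * Real.pi),
        (Complex.exp (Complex.I * θ) ^ (k * N) *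
        Complex.exp ((Complex.exp (-(Complex.I * θ))) ^ k * R2 P Q z w)) *
        (eval w f * Complex.exp (-(r2 P Q w : ℂ))) =
      (2 * Real.pi * (N.factorial : ℂ)⁻¹) *
        (eval w f * R2 P Q z w ^ N * Complex.exp (-(r2 P Q w : ℂ))) := by
    intro w
    rw [integral_mul_const, ← intervalIntegral.integral_of_le hpi.le, circle_exp h.hk]
    rw [div_eq_mul_inv]
    ring
  rw [hsw] at havg
  simp only [hin] at havg
  rw [integral_const_mul] at havg
  have h2pi : ((2 * Real.pi : ℝ) : ℂ) ≠ 0 := by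
    exact_mod_cast hpi.ne'
  apply mul_left_cancel₀ h2pi
  rw [havg]
  push_cast
  ring

end Pool.Agent.Work.MP_49847a_an
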