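import Pool.Agent.Work.MP_49847a_an.Sg.CMo
import Pool.Agent.Work.MP_49847a_an.Sg.COrth

/-!
# Module CGram: positive definiteness of the Gram matrix

Proof.  Let `c_α(f) = ∫ f(w) conj(w^α) e^(-r2 w) dw`.  By `cd_orth` and `hG'`,
`N! II P Q f = ∑_{α,β} G α β (∫ conj f(z) z^α e^(-r2 z)) (∫ f(w) conj(w^β) e^(-r2 w)) = ∑ conj(c_α) G α β c_β`
(all integrands are integrable: `ph_int`, `poly_bd`).
The linear map `x ↦ (c_α(∑ x_β mo β))_α` of `ix → ℂ` is injective (`∑_α conj(x_α) c_α(f) = ∫ |f|² e^(-r2) > 0` for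
`f = ∑ x_β mo β ≠ 0`, `mo_indep`), so bijective (`LinearMap.injective_iff_surjective`), and for `y ≠ 0`, `y = c(f)`,
`f ≠ 0`: `∑ conj(y_α) G α β y_β = N! II f`, whose real part is positive (`hpos`, `mo_hom`); it is real since `G` is
Hermitian.
-/

namespace Pool.Agent.Work.MP_49847a_an

open MvPolynomial MeasureTheory

open scoped ComplexOrder

variable {n k p q : ℕ} {c : ℝ} {P : Fin p → MvPolynomial (Fin n) ℂ}
  {Q : Fin q → MvPolynomial (Fin n) ℂ}

private theorem gp_int (h : CS k c P Q) (f g : MvPolynomial (Fin n) ℂ) :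
    Integrable (fun w => eval w f * (starRingEnd ℂ) (eval w g) * Complex.exp (-(r2 P Q w : ℂ))) := by
  have h1 := (ph_int h (f * g) 0).1
  refine h1.mono' ?_ ?_
  · refine Continuous.aestronglyMeasurable ?_
    have h2 := r2_continuous P Q
    have h3 := MvPolynomial.continuous_eval f
    have h4 := MvPolynomial.continuous_eval g
    have h5 : Continuous (fun w : Fin n → ℂ => (starRingEnd ℂ) (eval w g)) :=
      Complex.continuous_conj.comp h4
    have h6 : Continuous (fun w : Fin n → ℂ => Complex.exp (-(r2 P Q w : ℂ))) :=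
      Complex.continuous_exp.comp (Complex.continuous_ofReal.comp h2).neg
    exact (h3.mul h5).mul h6
  · refine Filter.Eventually.of_forall fun w => ?_
    have h2 : ‖Complex.exp (-(r2 P Q w : ℂ))‖ = Real.exp (-(r2 P Q w)) := by
      rw [Complex.norm_exp]
      simp
    rw [norm_mul, norm_mul, h2, RCLike.norm_conj]
    unfold ph
    rw [pow_zero, mul_one, map_mul, norm_mul]
    refine mul_le_mul_of_nonneg_left ?_ (by positivity)
    refine Real.exp_le_exp.mpr ?_
    have := r2_nonneg h w
    linarith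

/-- the moments of `f` -/
private noncomputable def cof (P : Fin p → MvPolynomial (Fin n) ℂ)
    (Q : Fin q → MvPolynomial (Fin n) ℂ) (f g : MvPolynomial (Fin n) ℂ) : ℂ :=
  ∫ w, eval w f * (starRingEnd ℂ) (eval w g) * Complex.exp (-(r2 P Q w : ℂ))

private theorem cof_conj (f g : MvPolynomial (Fin n) ℂ) :
    (starRingEnd ℂ) (cof P Q f g) = cof P Q g f := by
  unfold cof
  rw [← integral_conj]
  refine integral_congr_ae (Filter.Eventually.of_forall fun w => ?_)
  show (starRingEnd ℂ) (eval w f * (starRingEnd ℂ) (eval w g) * Complex.exp (-(r2 P Q w : ℂ))) = _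
  rw [map_mul, map_mul, Complex.conj_conj, ← Complex.exp_conj, map_neg, Complex.conj_ofReal]
  ring

private theorem cof_sum (h : CS k c P Q) {ι : Type*} [Fintype ι] (x : ι → ℂ)
    (m : ι → MvPolynomial (Fin n) ℂ) (g : MvPolynomial (Fin n) ℂ) :
    cof P Q (∑ b, C (x b) * m b) g = ∑ b, x b * cof P Q (m b) g := by
  unfold cof
  simp_rw [← integral_const_mul]
  rw [← integral_finsetSum _ (fun b _ => (gp_int h (m b) g).const_mul (x b))]
  refine integral_congr_ae (Filter.Eventually.of_forall fun w => ?_)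
  simp only [map_sum, map_mul, eval_C, Finset.sum_mul]
  refine Finset.sum_congr rfl fun b _ => ?_
  ring

private theorem cof_self (h : CS k c P Q) {f : MvPolynomial (Fin n) ℂ}
    (hf : cof P Q f f = 0) : f = 0 := by
  have h1 : ∫ w, wt P Q f w = 0 := by
    have h2 : cof P Q f f = ((∫ w, wt P Q f w : ℝ) : ℂ) := by
      unfold cof
      rw [← integral_complex_ofReal]
      refine integral_congr_ae (Filter.Eventually.of_forall fun w => ?_)
      show _ = ((wt P Q f w : ℝ) : ℂ)
      unfold wt
      push_cast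
      rw [Complex.mul_conj, Complex.normSq_eq_norm_sq]
      push_cast
      ring
    rw [h2] at hf
    exact_mod_cast hf
  have h3 : Integrable (wt P Q f) := by
    have := (ph_int h f 0).2
    simpa using this
  have h4 : wt P Q f =ᵐ[volume] 0 := by
    rw [integral_eq_zero_iff_of_nonneg (fun w => by unfold wt; positivity) h3] at h1
    exact h1
  have h5 : Continuous (wt P Q f) := by
    unfold wt
    exact (((MvPolynomial.continuous_eval f).norm).pow 2).mul
      (Real.continuous_exp.comp (r2_continuous P Q).neg)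
  have h6 : wt P Q f = 0 := by
    have := MeasureTheory.Measure.eq_of_ae_eq (μ := (volume : Measure (Fin n → ℂ))) h4 h5
      continuous_const
    exact this
  refine MvPolynomial.funext fun w => ?_
  have h7 := congrFun h6 w
  unfold wt at h7
  simp only [Pi.zero_apply, mul_eq_zero, Real.exp_ne_zero, or_false, ne_eq, OfNat.ofNat_ne_zero,
    not_false_eq_true, pow_eq_zero_iff, norm_eq_zero] at h7
  rw [h7, map_zero]

private theorem II_eq (h : CS k c P Q) {N : ℕ}
    {G : Matrix (ix n (k * N)) (ix n (k * N)) ℂ}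
    (hG' : ∀ z w, R2 P Q z w ^ N =
      ∑ α, ∑ β, G α β * eval z (mo α) * (starRingEnd ℂ) (eval w (mo β)))
    {f : MvPolynomial (Fin n) ℂ} (hf : f.IsHomogeneous (k * N)) :
    (N.factorial : ℂ) * II P Q f =
      star (fun α => cof P Q f (mo α)) ⬝ᵥ (G.mulVec (fun α => cof P Q f (mo α))) := by
  have h1 : ∀ z, ∫ w, eval w f * R2 P Q z w ^ N * Complex.exp (-(r2 P Q w : ℂ)) =
      ∑ α, ∑ β, G α β * eval z (mo α) * cof P Q f (mo β) := by
    intro z
    unfold cof
    simp_rw [← integral_const_mul]
    rw [integral_congr_ae (g := fun w => ∑ α, ∑ β, G α β * eval z (mo α) *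
      (eval w f * (starRingEnd ℂ) (eval w (mo β)) * Complex.exp (-(r2 P Q w : ℂ))))
      (Filter.Eventually.of_forall fun w => ?_)]
    · rw [integral_finsetSum]
      · refine Finset.sum_congr rfl fun α _ => ?_
        rw [integral_finsetSum]
        intro β _
        exact (gp_int h f (mo β)).const_mul _
      · intro α _
        refine integrable_finsetSum _ fun β _ => ?_
        exact (gp_int h f (mo β)).const_mul _
    · simp only
      rw [hG', Finset.mul_sum, Finset.sum_mul]
      refine Finset.sum_congr rfl fun α _ => ?_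
      rw [Finset.mul_sum, Finset.sum_mul]
      refine Finset.sum_congr rfl fun β _ => ?_
      ring
  have h2 : ∀ z, (starRingEnd ℂ) (eval z f) * (Real.exp (-(r2 P Q z)) : ℂ) *
      ∫ w, eval w f * Complex.exp (R2 P Q z w - (r2 P Q w : ℂ)) =
      ∑ α, ∑ β, ((N.factorial : ℂ)⁻¹ * G α β * cof P Q f (mo β)) *
        (eval z (mo α) * (starRingEnd ℂ) (eval z f) * Complex.exp (-(r2 P Q z : ℂ))) := by
    intro z
    rw [(cd_orth h hf z).2, h1, Finset.mul_sum, Finset.mul_sum]
    refine Finset.sum_congr rfl fun α _ => ?_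
    rw [Finset.mul_sum, Finset.mul_sum]
    refine Finset.sum_congr rfl fun β _ => ?_
    push_cast
    ring
  have h3 : II P Q f = ∑ α, ∑ β, ((N.factorial : ℂ)⁻¹ * G α β * cof P Q f (mo β)) *
      cof P Q (mo α) f := by
    unfold II
    simp_rw [h2]
    rw [integral_finsetSum]
    · refine Finset.sum_congr rfl fun α _ => ?_
      rw [integral_finsetSum]
      · refine Finset.sum_congr rfl fun β _ => ?_
        rw [integral_const_mul]
        rfl
      · intro β _
        exact (gp_int h (mo α) f).const_mul _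
    · intro α _
      refine integrable_finsetSum _ fun β _ => ?_
      exact (gp_int h (mo α) f).const_mul _
  have hN : (N.factorial : ℂ) ≠ 0 := by exact_mod_cast N.factorial_ne_zero
  rw [h3]
  simp only [dotProduct, Matrix.mulVec, Pi.star_apply]
  rw [Finset.mul_sum]
  refine Finset.sum_congr rfl fun α _ => ?_
  rw [Finset.mul_sum, Finset.mul_sum]
  refine Finset.sum_congr rfl fun β _ => ?_
  have h4 : star (cof P Q f (mo α)) = cof P Q (mo α) f := cof_conj f (mo α)
  rw [h4]
  field_simp

theorem gram_pos (h : CS k c P Q) {N : ℕ}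
    (hpos : ∀ f : MvPolynomial (Fin n) ℂ, f.IsHomogeneous (k * N) → f ≠ 0 → 0 < (II P Q f).re)
    {G : Matrix (ix n (k * N)) (ix n (k * N)) ℂ} (hG : G.IsHermitian)
    (hG' : ∀ z w, R2 P Q z w ^ N =
      ∑ α, ∑ β, G α β * eval z (mo α) * (starRingEnd ℂ) (eval w (mo β))) : G.PosDef := by
  refine Matrix.PosDef.of_dotProduct_mulVec_pos hG fun y hy => ?_
  let M : Matrix (ix n (k * N)) (ix n (k * N)) ℂ := fun α β => cof P Q (mo β) (mo α)
  have hM : ∀ x : ix n (k * N) → ℂ, M.mulVec x =
      fun α => cof P Q (∑ β, C (x β) * mo β) (mo α) := by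
    intro x
    funext α
    rw [cof_sum h]
    simp only [Matrix.mulVec, dotProduct, M]
    refine Finset.sum_congr rfl fun β _ => mul_comm _ _
  have hinj : Function.Injective M.mulVecLin := by
    rw [← LinearMap.ker_eq_bot, LinearMap.ker_eq_bot']
    intro x hx
    rw [Matrix.mulVecLin_apply, hM] at hx
    refine mo_indep ?_
    refine cof_self h ?_
    have h1 : cof P Q (∑ β, C (x β) * mo β) (∑ β, C (x β) * mo β) =
        (starRingEnd ℂ) (cof P Q (∑ β, C (x β) * mo β) (∑ β, C (x β) * mo β)) :=
      (cof_conj _ _).symm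
    have h2 : ∀ g : MvPolynomial (Fin n) ℂ, cof P Q g (∑ β, C (x β) * mo β) =
        ∑ β, (starRingEnd ℂ) (x β) * cof P Q g (mo β) := by
      intro g
      rw [← cof_conj, cof_sum h, map_sum]
      refine Finset.sum_congr rfl fun β _ => ?_
      rw [map_mul, cof_conj]
    rw [h2]
    refine Finset.sum_eq_zero fun β _ => ?_
    have h3 := congrFun hx β
    simp only [Pi.zero_apply] at h3
    rw [h3, mul_zero]
  have hsur : Function.Surjective M.mulVecLin := LinearMap.injective_iff_surjective.mp hinj
  obtain ⟨x, hx⟩ := hsur y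
  rw [Matrix.mulVecLin_apply] at hx
  have hx0 : x ≠ 0 := by
    rintro rfl
    rw [Matrix.mulVec_zero] at hx
    exact hy hx.symm
  rw [hM] at hx
  have hf0 : (∑ β, C (x β) * mo β : MvPolynomial (Fin n) ℂ) ≠ 0 := fun h0 => hx0 (mo_indep h0)
  have hfh : (∑ β, C (x β) * mo β : MvPolynomial (Fin n) ℂ).IsHomogeneous (k * N) := by
    refine IsHomogeneous.sum _ _ _ fun β _ => ?_
    have := (isHomogeneous_C (Fin n) (x β)).mul (mo_hom β)
    rwa [zero_add] at this
  have h1 := II_eq h hG' hfh
  rw [hx] at h1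
  have h2 := hpos _ hfh hf0
  have h3 := hG.im_star_dotProduct_mulVec_self y
  rw [Complex.lt_def]
  constructor
  · rw [← h1]
    rw [Complex.zero_re, ← Complex.ofReal_natCast, Complex.re_ofReal_mul]
    exact mul_pos (by exact_mod_cast N.factorial_pos) h2
  · exact h3.symm

end Pool.Agent.Work.MP_49847a_an
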