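import Pool.Agent.Work.MP_49847a_an.Sg.CMo

/-!
# Module CGs: a positive definite Gram matrix gives a Hermitian sum of squares with a margin

Proof.  (1) there is a diagonal matrix `Δ ≥ 0` with
`nn z ^ D = ∑_α Δ_α |z^α|²`, `Δ_α` the multinomial coefficients (`Finset.sum_pow_of_commute`/
`Finset.sum_pow_eq_sum_piAntidiag`, or: `nn z ^ D = ∑_t |g_t(z)|²` over the functions `t : Fin D → Fin n`, `g_t = ∏ X (t i)`,
and then use the matrix of this form, which is positive semidefinite, in place of `Δ`: `hom_expand`).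
(2) `G - ε Δ` is positive semidefinite for small `ε > 0`: `G` is positive definite, the unit sphere of `ix → ℂ` is
compact (or use the smallest eigenvalue: `G.PosDef` gives `λ > 0` with `x^* G x ≥ λ ‖x‖²`), `x^* Δ x ≤ B ‖x‖²`.
(3) `G - ε Δ = B^* B` (`Matrix.posSemidef_iff_eq_conjTranspose_mul_self` or `PosSemidef` square root), so
with `v_α = conj(z^α)`, `v^* M v = ‖B v‖²`, and `conj (B v)_t = ∑_α conj(B_{tα}) z^α` is a polynomial in `z`.  Index the sum
by `Fin m` (`Fintype.equivFin`).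
-/

namespace Pool.Agent.Work.MP_49847a_an

open MvPolynomial

open scoped ComplexOrder

variable {n : ℕ}

section aux

variable {ι : Type} [Fintype ι]

open Matrix

private theorem qf_cont (M : Matrix ι ι ℂ) :
    Continuous fun v : ι → ℂ => (star v ⬝ᵥ (M *ᵥ v)).re := by
  refine Complex.continuous_re.comp ?_
  simp only [dotProduct, mulVec, Pi.star_apply]
  refine continuous_finsetSum _ fun i _ => ?_
  refine (continuous_star.comp (continuous_apply i)).mul ?_
  exact continuous_finsetSum _ fun j _ => continuous_const.mul (continuous_apply j)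

private theorem qf_smul (M : Matrix ι ι ℂ) (r : ℝ) (v : ι → ℂ) :
    (star ((r : ℂ) • v) ⬝ᵥ (M *ᵥ ((r : ℂ) • v))).re = r ^ 2 * (star v ⬝ᵥ (M *ᵥ v)).re := by
  rw [star_smul, mulVec_smul, smul_dotProduct, dotProduct_smul, smul_smul, smul_eq_mul]
  have h1 : star (r : ℂ) * (r : ℂ) = ((r ^ 2 : ℝ) : ℂ) := by
    rw [Complex.star_def, Complex.conj_ofReal]
    push_cast
    ring
  rw [h1, Complex.re_ofReal_mul]

private theorem pos_margin {G Δ : Matrix ι ι ℂ} (hG : G.PosDef) (hΔ : Δ.PosSemidef) :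
    ∃ ε : ℝ, 0 < ε ∧ (G - (ε : ℂ) • Δ).PosSemidef := by
  have ha : ∀ v : ι → ℂ, v ≠ 0 → 0 < (star v ⬝ᵥ (G *ᵥ v)).re := fun v hv =>
    (Complex.pos_iff.1 (hG.dotProduct_mulVec_pos hv)).1
  have hcont : ContinuousOn
      (fun v : ι → ℂ => (star v ⬝ᵥ (Δ *ᵥ v)).re / (star v ⬝ᵥ (G *ᵥ v)).re)
      (Metric.sphere (0 : ι → ℂ) 1) := by
    refine (qf_cont Δ).continuousOn.div (qf_cont G).continuousOn fun v hv => ?_
    refine (ha v ?_).ne'
    rintro rfl
    rw [mem_sphere_zero_iff_norm, norm_zero] at hv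
    exact zero_ne_one hv
  obtain ⟨C, hC⟩ := (isCompact_sphere (0 : ι → ℂ) 1).exists_bound_of_continuousOn hcont
  have hC1 : 0 < |C| + 1 := by positivity
  refine ⟨1 / (|C| + 1), by positivity, ?_⟩
  have hkey : ∀ v : ι → ℂ,
      1 / (|C| + 1) * (star v ⬝ᵥ (Δ *ᵥ v)).re ≤ (star v ⬝ᵥ (G *ᵥ v)).re := by
    intro v
    by_cases hv : v = 0
    · subst hv
      simp
    · have hn : 0 < ‖v‖ := norm_pos_iff.2 hv
      have hnu : ‖((‖v‖⁻¹ : ℝ) : ℂ) • v‖ = 1 := by
        rw [norm_smul, Complex.norm_real, norm_inv, norm_norm, inv_mul_cancel₀ hn.ne']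
      have hvu : v = ((‖v‖ : ℝ) : ℂ) • (((‖v‖⁻¹ : ℝ) : ℂ) • v) := by
        rw [smul_smul, ← Complex.ofReal_mul, mul_inv_cancel₀ hn.ne', Complex.ofReal_one, one_smul]
      generalize ((‖v‖⁻¹ : ℝ) : ℂ) • v = u at hnu hvu
      have hu0 : u ≠ 0 := by
        rintro rfl
        rw [norm_zero] at hnu
        exact zero_ne_one hnu
      have h1 := hC u (mem_sphere_zero_iff_norm.2 hnu)
      have h2 : (star u ⬝ᵥ (Δ *ᵥ u)).re ≤ (|C| + 1) * (star u ⬝ᵥ (G *ᵥ u)).re := by
        have h3 : (star u ⬝ᵥ (Δ *ᵥ u)).re / (star u ⬝ᵥ (G *ᵥ u)).re ≤ |C| + 1 :=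
          (le_abs_self _).trans (h1.trans ((le_abs_self C).trans (le_add_of_nonneg_right zero_le_one)))
        rwa [div_le_iff₀ (ha u hu0)] at h3
      rw [hvu, qf_smul, qf_smul, one_div, inv_mul_le_iff₀ hC1]
      nlinarith [sq_nonneg ‖v‖]
  refine PosSemidef.of_dotProduct_mulVec_nonneg ?_ fun v => ?_
  · refine hG.isHermitian.sub ?_
    have := hΔ.isHermitian
    rw [IsHermitian] at this ⊢
    rw [conjTranspose_smul, this, Complex.star_def, Complex.conj_ofReal]
  · rw [sub_mulVec, dotProduct_sub, smul_mulVec, dotProduct_smul, smul_eq_mul, Complex.le_def]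
    have h1 := Complex.nonneg_iff.1 (hG.posSemidef.dotProduct_mulVec_nonneg v)
    have h2 := Complex.nonneg_iff.1 (hΔ.dotProduct_mulVec_nonneg v)
    constructor
    · rw [Complex.sub_re, Complex.re_ofReal_mul, Complex.zero_re]
      linarith [hkey v]
    · rw [Complex.sub_im, Complex.im_ofReal_mul, Complex.zero_im, ← h1.2, ← h2.2, mul_zero,
        sub_zero]

private theorem sum_sq {κ : Type} [Fintype κ] (x : κ → ι → ℂ) (m : ι → ℂ) :
    ∑ α, ∑ β, (∑ t, vecMulVec (x t) (star (x t))) α β * m α * (starRingEnd ℂ) (m β) =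
      ((∑ t, ‖∑ α, x t α * m α‖ ^ 2 : ℝ) : ℂ) := by
  have h1 : ∀ w : ℂ, ((‖w‖ ^ 2 : ℝ) : ℂ) = w * (starRingEnd ℂ) w := by
    intro w
    rw [Complex.mul_conj, Complex.normSq_eq_norm_sq]
  rw [Complex.ofReal_sum]
  simp_rw [h1, map_sum, map_mul, Finset.sum_mul_sum, Matrix.sum_apply, vecMulVec_apply,
    Pi.star_apply, Finset.sum_mul]
  rw [Finset.sum_comm]
  have h2 : ∀ β, ∑ α, ∑ t, x t α * star (x t β) * m α * (starRingEnd ℂ) (m β) =
      ∑ t, ∑ α, x t α * star (x t β) * m α * (starRingEnd ℂ) (m β) := fun β => Finset.sum_comm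
  simp_rw [h2]
  rw [Finset.sum_comm]
  refine Finset.sum_congr rfl fun t _ => ?_
  rw [Finset.sum_comm]
  refine Finset.sum_congr rfl fun α _ => Finset.sum_congr rfl fun β _ => ?_
  rw [Complex.star_def]
  ring

end aux

private theorem eval_comb {D : ℕ} (x : ix n D → ℂ) (z : Fin n → ℂ) :
    eval z (∑ α, C (x α) * mo α) = ∑ α, x α * eval z (mo α) := by
  rw [map_sum]
  refine Finset.sum_congr rfl fun α _ => ?_
  rw [map_mul, eval_C]

private theorem nn_pow (D : ℕ) (z : Fin n → ℂ) :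
    nn z ^ D = ∑ t : Fin D → Fin n, ‖eval z (∏ j, X (t j) : MvPolynomial (Fin n) ℂ)‖ ^ 2 := by
  unfold nn
  rw [Fintype.sum_pow]
  refine Finset.sum_congr rfl fun t _ => ?_
  rw [map_prod, norm_prod, ← Finset.prod_pow]
  refine Finset.prod_congr rfl fun j _ => ?_
  rw [eval_X]

theorem gram_sos {D : ℕ} {G : Matrix (ix n D) (ix n D) ℂ} (hG : G.PosDef) :
    ∃ (ε : ℝ) (m : ℕ) (g : Fin m → MvPolynomial (Fin n) ℂ), 0 < ε ∧ ∀ z : Fin n → ℂ,
      ∑ α, ∑ β, G α β * eval z (mo α) * (starRingEnd ℂ) (eval z (mo β)) =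
        ((nrm g z + ε * nn z ^ D : ℝ) : ℂ) := by
  classical
  have hhom : ∀ t : Fin D → Fin n, (∏ j, X (t j) : MvPolynomial (Fin n) ℂ).IsHomogeneous D := by
    intro t
    have h1 := IsHomogeneous.prod Finset.univ (fun j => (X (t j) : MvPolynomial (Fin n) ℂ))
      (fun _ => 1) (fun j _ => isHomogeneous_X ℂ (t j))
    simpa using h1
  choose x hx using fun t => hom_expand (hhom t)
  have hΔ : (∑ t, Matrix.vecMulVec (x t) (star (x t))).PosSemidef :=
    Matrix.posSemidef_sum _ fun t _ => Matrix.posSemidef_vecMulVec_self_star (x t)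
  obtain ⟨ε, hε, hM⟩ := pos_margin hG hΔ
  obtain ⟨m, v, hv⟩ := Matrix.posSemidef_iff_eq_sum_vecMulVec.1 hM
  refine ⟨ε, m, fun i => ∑ α, C (v i α) * mo α, hε, fun z => ?_⟩
  have hG' : ∀ α β, G α β = (∑ i, Matrix.vecMulVec (v i) (star (v i))) α β +
      (ε : ℂ) * (∑ t, Matrix.vecMulVec (x t) (star (x t))) α β := by
    intro α β
    rw [← hv, Matrix.sub_apply, Matrix.smul_apply, smul_eq_mul]
    ring
  have h1 : ∑ α, ∑ β, G α β * eval z (mo α) * (starRingEnd ℂ) (eval z (mo β)) =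
      (∑ α, ∑ β, (∑ i, Matrix.vecMulVec (v i) (star (v i))) α β * eval z (mo α) *
        (starRingEnd ℂ) (eval z (mo β))) +
      (ε : ℂ) * ∑ α, ∑ β, (∑ t, Matrix.vecMulVec (x t) (star (x t))) α β * eval z (mo α) *
        (starRingEnd ℂ) (eval z (mo β)) := by
    simp_rw [Finset.mul_sum, ← Finset.sum_add_distrib]
    refine Finset.sum_congr rfl fun α _ => Finset.sum_congr rfl fun β _ => ?_
    rw [hG']
    ring
  rw [h1, sum_sq v (fun α => eval z (mo α)), sum_sq x (fun α => eval z (mo α))]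
  have h2 : nrm (fun i => ∑ α, C (v i α) * mo α) z = ∑ i, ‖∑ α, v i α * eval z (mo α)‖ ^ 2 := by
    unfold nrm
    refine Finset.sum_congr rfl fun i _ => ?_
    rw [eval_comb]
  have h3 : nn z ^ D = ∑ t, ‖∑ α, x t α * eval z (mo α)‖ ^ 2 := by
    rw [nn_pow]
    refine Finset.sum_congr rfl fun t _ => ?_
    rw [hx t, eval_comb]
  rw [h2, h3]
  push_cast
  ring

end Pool.Agent.Work.MP_49847a_an
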