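import Pool.Agent.Work.MP_49847a_an.Sg.CMo
import Pool.Agent.Work.MP_49847a_an.Sg.CDefs

/-!
# Module CHerm: the Gram matrix of a power of the kernel

Proof.  `V = R2 P Q`; `V(z,w)^N = (∑_j σ_j g_j(z) conj g_j(w))^N` (`g = P, Q` with signs `σ = ±1`), expand
(induction on `N`: the set of the kernels of the form `∑_{t < m} σ_t g_t(z) conj g_t(w)` with `σ_t` real and `g_t`
homogeneous of degree `k N` is closed under products, degrees add): `V^N = ∑_t σ_t g_t(z) conj g_t(w)`.
With `g_t = ∑_α x_t(α) mo α` (`hom_expand`): `G α β = ∑_t σ_t x_t(α) conj (x_t(β))`.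
-/

namespace Pool.Agent.Work.MP_49847a_an

open MvPolynomial

variable {n k p q : ℕ} {c : ℝ} {P : Fin p → MvPolynomial (Fin n) ℂ}
  {Q : Fin q → MvPolynomial (Fin n) ℂ}

private theorem herm_pow (h : CS k c P Q) (N : ℕ) :
    ∃ (ι : Type) (_ : Fintype ι) (σ : ι → ℝ) (g : ι → MvPolynomial (Fin n) ℂ),
      (∀ t, (g t).IsHomogeneous (k * N)) ∧ ∀ z w, R2 P Q z w ^ N =
        ∑ t, (σ t : ℂ) * (eval z (g t) * (starRingEnd ℂ) (eval w (g t))) := by
  induction N with
  | zero =>
    refine ⟨Unit, inferInstance, fun _ => 1, fun _ => 1, fun _ => ?_, fun z w => ?_⟩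
    · rw [Nat.mul_zero]
      exact isHomogeneous_one _ _
    · simp
  | succ N ih =>
    obtain ⟨ι, hι, σ, g, hg, hV⟩ := ih
    refine ⟨ι × (Fin p ⊕ Fin q), inferInstance,
      fun t => σ t.1 * Sum.elim (fun _ => (1 : ℝ)) (fun _ => -1) t.2,
      fun t => g t.1 * Sum.elim P Q t.2, ?_, ?_⟩
    · rintro ⟨t, s | s⟩
      · exact (hg t).mul (h.hP s)
      · exact (hg t).mul (h.hQ s)
    · intro z w
      rw [pow_succ, hV, Fintype.sum_prod_type, Finset.sum_mul]
      refine Finset.sum_congr rfl fun t _ => ?_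
      rw [Fintype.sum_sum_type]
      simp only [Sum.elim_inl, Sum.elim_inr, map_mul]
      unfold R2
      rw [mul_sub, Finset.mul_sum, Finset.mul_sum, sub_eq_add_neg, ← Finset.sum_neg_distrib]
      congr 1
      · refine Finset.sum_congr rfl fun j _ => ?_
        push_cast
        ring
      · refine Finset.sum_congr rfl fun j _ => ?_
        push_cast
        ring

theorem herm_rep (h : CS k c P Q) (N : ℕ) : ∃ G : Matrix (ix n (k * N)) (ix n (k * N)) ℂ,
    G.IsHermitian ∧ ∀ z w, R2 P Q z w ^ N =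
      ∑ α, ∑ β, G α β * eval z (mo α) * (starRingEnd ℂ) (eval w (mo β)) := by
  obtain ⟨ι, hι, σ, g, hg, hV⟩ := herm_pow h N
  choose x hx using fun t => hom_expand (hg t)
  refine ⟨Matrix.of fun α β => ∑ t, (σ t : ℂ) * (x t α * (starRingEnd ℂ) (x t β)), ?_,
    fun z w => ?_⟩
  · refine Matrix.IsHermitian.ext fun α β => ?_
    rw [Matrix.of_apply, Matrix.of_apply, Complex.star_def, map_sum]
    refine Finset.sum_congr rfl fun t _ => ?_
    rw [map_mul, map_mul, Complex.conj_conj, Complex.conj_ofReal]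
    ring
  · rw [hV]
    have h1 : ∀ (t : ι) (y : Fin n → ℂ), eval y (g t) = ∑ α, x t α * eval y (mo α) := by
      intro t y
      conv_lhs => rw [hx t]
      rw [map_sum]
      refine Finset.sum_congr rfl fun α _ => ?_
      rw [map_mul, eval_C]
    have h2 : ∀ t, (σ t : ℂ) * (eval z (g t) * (starRingEnd ℂ) (eval w (g t))) =
        ∑ α, ∑ β, (σ t : ℂ) * (x t α * (starRingEnd ℂ) (x t β)) * eval z (mo α) *
          (starRingEnd ℂ) (eval w (mo β)) := by
      intro t
      rw [h1 t z, h1 t w, map_sum, Finset.sum_mul_sum, Finset.mul_sum]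
      refine Finset.sum_congr rfl fun α _ => ?_
      rw [Finset.mul_sum]
      refine Finset.sum_congr rfl fun β _ => ?_
      rw [map_mul]
      ring
    rw [Finset.sum_congr rfl fun t _ => h2 t, Finset.sum_comm]
    refine Finset.sum_congr rfl fun α _ => ?_
    rw [Finset.sum_comm]
    refine Finset.sum_congr rfl fun β _ => ?_
    rw [Matrix.of_apply, Finset.sum_mul, Finset.sum_mul]

end Pool.Agent.Work.MP_49847a_an
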