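import Pool.Agent.Work.MP_49847a_an.Sg.CDefs

/-!
# Module CIB: families of functions with decreasing integrals

Proof.
(add) thresholds `max`, `θ/2` for both.  (const_mul) for `a = 0` trivial, otherwise `θ/a`.
-/

namespace Pool.Agent.Work.MP_49847a_an

open MvPolynomial MeasureTheory

variable {n k : ℕ}

/-- `∫ F z w dw ≤ θ / (nn z ^ (k - 1)) ^ n` for `nn z ≥ R(θ)`, locally bounded in `z` -/
def IntB (k : ℕ) (F : (Fin n → ℂ) → (Fin n → ℂ) → ℝ) : Prop :=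
  ∀ θ : ℝ, 0 < θ → ∃ R : ℝ, 1 ≤ R ∧ ∀ R', R ≤ R' → ∃ B' : ℝ, 0 ≤ B' ∧ ∀ z : Fin n → ℂ,
    Integrable (F z) ∧ (R' ≤ nn z → ∫ w, F z w ≤ θ / (nn z ^ (k - 1)) ^ n) ∧
      (nn z < R' → ∫ w, F z w ≤ B')

theorem IntB.add {F G : (Fin n → ℂ) → (Fin n → ℂ) → ℝ} (hF : IntB k F) (hG : IntB k G) :
    IntB k (fun z w => F z w + G z w) := by
  intro θ hθ
  obtain ⟨R1, hR1, h1⟩ := hF (θ / 2) (by positivity)
  obtain ⟨R2, hR2, h2⟩ := hG (θ / 2) (by positivity)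
  refine ⟨max R1 R2, hR1.trans (le_max_left _ _), fun R' hR' => ?_⟩
  obtain ⟨B1, hB1, h1'⟩ := h1 R' ((le_max_left _ _).trans hR')
  obtain ⟨B2, hB2, h2'⟩ := h2 R' ((le_max_right _ _).trans hR')
  refine ⟨B1 + B2, by positivity, fun z => ?_⟩
  obtain ⟨i1, a1, b1⟩ := h1' z
  obtain ⟨i2, a2, b2⟩ := h2' z
  have hs : ∫ w, (F z w + G z w) = (∫ w, F z w) + ∫ w, G z w := integral_add i1 i2
  refine ⟨i1.add i2, fun hz => ?_, fun hz => ?_⟩
  · rw [hs]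
    have e1 := a1 hz
    have e2 := a2 hz
    have e3 : θ / (nn z ^ (k - 1)) ^ n =
        θ / 2 / (nn z ^ (k - 1)) ^ n + θ / 2 / (nn z ^ (k - 1)) ^ n := by ring
    rw [e3]
    exact add_le_add e1 e2
  · rw [hs]
    exact add_le_add (b1 hz) (b2 hz)

theorem IntB.const_mul {F : (Fin n → ℂ) → (Fin n → ℂ) → ℝ} (hF : IntB k F) {a : ℝ}
    (ha : 0 ≤ a) : IntB k (fun z w => a * F z w) := by
  intro θ hθ
  rcases ha.lt_or_eq with ha | rfl
  · obtain ⟨R, hR, h⟩ := hF (θ / a) (by positivity)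
    refine ⟨R, hR, fun R' hR' => ?_⟩
    obtain ⟨B', hB', h'⟩ := h R' hR'
    refine ⟨a * B', by positivity, fun z => ?_⟩
    obtain ⟨i1, a1, b1⟩ := h' z
    have hs : ∫ w, a * F z w = a * ∫ w, F z w := integral_const_mul a _
    refine ⟨i1.const_mul a, fun hz => ?_, fun hz => ?_⟩
    · rw [hs]
      have e1 := mul_le_mul_of_nonneg_left (a1 hz) ha.le
      refine e1.trans (le_of_eq ?_)
      rw [div_div, mul_comm a ((nn z ^ (k - 1)) ^ n), ← div_div, mul_div_cancel₀ _ ha.ne']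
    · rw [hs]
      exact mul_le_mul_of_nonneg_left (b1 hz) ha.le
  · refine ⟨1, le_rfl, fun R' _ => ⟨0, le_rfl, fun z => ?_⟩⟩
    have hs : ∫ w, (0 : ℝ) * F z w = 0 := by
      simp
    refine ⟨by simp, fun _ => ?_, fun _ => ?_⟩
    · rw [hs]
      have h1 : 0 ≤ nn z := Finset.sum_nonneg fun _ _ => by positivity
      positivity
    · rw [hs]

end Pool.Agent.Work.MP_49847a_an
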