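import Pool.Agent.Work.MP_49847a_an.Sg.CSc
import Pool.Agent.Work.MP_49847a_an.Sg.CMean

/-!
# Module CKn: the error kernel near the diagonal

Notation `T = nn z`, `τ = T^(k-1)`, `y = w - z`, `D = D2 z w ≥ 0`, `L = lev2 z y`.
Proof.
(Kn_le_one) on `nearS s z`: `|D - L| ≤ L/4` (`qu`), so `L ≥ 0`, `D/2 ≤ (5/8) L ≤ L`; `e^(D/2) e^(-D) ≤ 1`,
`e^(D/2) e^(-L) ≤ 1`, and `|a - b| ≤ max a b` for `a, b ≥ 0`.
(Kn_le) `|e^(-D) - e^(-L)| ≤ |D - L| e^(-min D L)` and `D/2 - min D L ≤ -L/8` (`D ≥ (3/4) L`, `D ≤ (5/4) L`), so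
`Kn z w √T ≤ |D - L| √T e^(-L/8) ≤ M τ nn y √(nn y) exp (-(c₃/8) τ nn y)` (`th`, `lo`).
(maj_int) `τ nn y √(nn y) exp (-a τ nn y) = τ^(-1/2) g (√τ y)`, `g y = nn y √(nn y) exp (-a nn y)` (`nn_smul`), so by
`int_scale` with `t = √τ` the integral is `τ^(-1/2) (τ^n)⁻¹ ∫ g ≤ (τ^n)⁻¹ ∫ g`; integrability: `gauss_int'` with `a τ`.
-/

namespace Pool.Agent.Work.MP_49847a_an

open MvPolynomial MeasureTheory

variable {n k p q : ℕ} {c s c₃ M : ℝ} {P : Fin p → MvPolynomial (Fin n) ℂ}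
  {Q : Fin q → MvPolynomial (Fin n) ℂ}

theorem Kn_nonneg (P : Fin p → MvPolynomial (Fin n) ℂ) (Q : Fin q → MvPolynomial (Fin n) ℂ)
    (z w : Fin n → ℂ) : 0 ≤ Kn P Q z w :=
  mul_nonneg (Real.exp_nonneg _) (abs_nonneg _)

private theorem ckn_real_one {D L : ℝ} (hD : 0 ≤ D) (h : |D - L| ≤ L / 4) :
    Real.exp (D / 2) * |Real.exp (-D) - Real.exp (-L)| ≤ 1 := by
  have hL : 0 ≤ L := by linarith [abs_nonneg (D - L)]
  have h1 := abs_le.1 h
  have h2 : |Real.exp (-D) - Real.exp (-L)| ≤ max (Real.exp (-D)) (Real.exp (-L)) := by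
    have a := Real.exp_pos (-D)
    have b := Real.exp_pos (-L)
    rw [abs_le]
    constructor
    · linarith [le_max_right (Real.exp (-D)) (Real.exp (-L))]
    · linarith [le_max_left (Real.exp (-D)) (Real.exp (-L))]
  have h3 : max (Real.exp (-D)) (Real.exp (-L)) ≤ Real.exp (-(D / 2)) := by
    apply max_le
    · exact Real.exp_le_exp.2 (by linarith)
    · exact Real.exp_le_exp.2 (by linarith [h1.2])
  calc Real.exp (D / 2) * |Real.exp (-D) - Real.exp (-L)| ≤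
        Real.exp (D / 2) * Real.exp (-(D / 2)) :=
        mul_le_mul_of_nonneg_left (h2.trans h3) (Real.exp_nonneg _)
    _ = 1 := by rw [← Real.exp_add]; simp

private theorem ckn_real_two {D L : ℝ} (hD : 0 ≤ D) (h : |D - L| ≤ L / 4) :
    Real.exp (D / 2) * |Real.exp (-D) - Real.exp (-L)| ≤ |D - L| * Real.exp (-(L / 8)) := by
  have hL : 0 ≤ L := by linarith [abs_nonneg (D - L)]
  have h1 := abs_le.1 h
  have key : ∀ x y : ℝ, x ≤ y → |Real.exp (-x) - Real.exp (-y)| ≤ (y - x) * Real.exp (-x) := by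
    intro x y hxy
    have e1 : Real.exp (-y) ≤ Real.exp (-x) := Real.exp_le_exp.2 (by linarith)
    rw [abs_of_nonneg (by linarith)]
    have e2 : Real.exp (-y) = Real.exp (-x) * Real.exp (-(y - x)) := by
      rw [← Real.exp_add]; congr 1; ring
    have e3 := Real.add_one_le_exp (-(y - x))
    have e4 := Real.exp_pos (-x)
    rw [e2]
    nlinarith
  rcases le_total D L with hDL | hDL
  · have e1 := key D L hDL
    have e2 : Real.exp (D / 2) * Real.exp (-D) ≤ Real.exp (-(L / 8)) := by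
      rw [← Real.exp_add]
      exact Real.exp_le_exp.2 (by linarith [h1.1])
    rw [abs_of_nonpos (by linarith : D - L ≤ 0)]
    calc Real.exp (D / 2) * |Real.exp (-D) - Real.exp (-L)| ≤
          Real.exp (D / 2) * ((L - D) * Real.exp (-D)) :=
          mul_le_mul_of_nonneg_left e1 (Real.exp_nonneg _)
      _ = (L - D) * (Real.exp (D / 2) * Real.exp (-D)) := by ring
      _ ≤ (L - D) * Real.exp (-(L / 8)) := mul_le_mul_of_nonneg_left e2 (by linarith)
      _ = _ := by ring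
  · have e1 := key L D hDL
    have e2 : Real.exp (D / 2) * Real.exp (-L) ≤ Real.exp (-(L / 8)) := by
      rw [← Real.exp_add]
      exact Real.exp_le_exp.2 (by linarith [h1.2])
    rw [abs_sub_comm] at e1
    rw [abs_of_nonneg (by linarith : 0 ≤ D - L)]
    calc Real.exp (D / 2) * |Real.exp (-D) - Real.exp (-L)| ≤
          Real.exp (D / 2) * ((D - L) * Real.exp (-L)) :=
          mul_le_mul_of_nonneg_left e1 (Real.exp_nonneg _)
      _ = (D - L) * (Real.exp (D / 2) * Real.exp (-L)) := by ring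
      _ ≤ (D - L) * Real.exp (-(L / 8)) := mul_le_mul_of_nonneg_left e2 (by linarith)

theorem Kn_le_one (h : CS k c P Q) (hN : NearC k s c₃ M P Q) {z w : Fin n → ℂ}
    (hw : w ∈ nearS s z) : Kn P Q z w ≤ 1 := by
  have hw' : nn (w - z) < s * nn z := hw
  exact ckn_real_one (D2_nonneg h z w) (hN.qu z w hw'.le)

theorem Kn_le (h : CS k c P Q) (hN : NearC k s c₃ M P Q) {z w : Fin n → ℂ}
    (hw : w ∈ nearS s z) : Kn P Q z w * Real.sqrt (nn z) ≤
      M * (nn z ^ (k - 1) * (nn (w - z) * Real.sqrt (nn (w - z)))) *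
        Real.exp (-(c₃ / 8 * (nn z ^ (k - 1) * nn (w - z)))) := by
  have hw' : nn (w - z) < s * nn z := hw
  have h1 := ckn_real_two (D2_nonneg h z w) (hN.qu z w hw'.le)
  have h2 := hN.th z w hw'.le
  have h3 := hN.lo z w hw'.le
  have h4 : Real.exp (-(lev2 P Q z (w - z) / 8)) ≤
      Real.exp (-(c₃ / 8 * (nn z ^ (k - 1) * nn (w - z)))) :=
    Real.exp_le_exp.2 (by linarith)
  calc Kn P Q z w * Real.sqrt (nn z) ≤
        (|D2 P Q z w - lev2 P Q z (w - z)| * Real.exp (-(lev2 P Q z (w - z) / 8))) *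
          Real.sqrt (nn z) := mul_le_mul_of_nonneg_right h1 (Real.sqrt_nonneg _)
    _ = (|D2 P Q z w - lev2 P Q z (w - z)| * Real.sqrt (nn z)) *
          Real.exp (-(lev2 P Q z (w - z) / 8)) := by ring
    _ ≤ _ := mul_le_mul h2 h4 (Real.exp_nonneg _) (le_trans (by positivity) h2)

/-- the integral of the scaled Gaussian majorant -/
theorem maj_int {a τ : ℝ} (ha : 0 < a) (hτ : 1 ≤ τ) :
    Integrable (fun y : Fin n → ℂ =>
      τ * (nn y * Real.sqrt (nn y)) * Real.exp (-(a * (τ * nn y)))) ∧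
    ∫ y : Fin n → ℂ, τ * (nn y * Real.sqrt (nn y)) * Real.exp (-(a * (τ * nn y))) ≤
      (τ ^ n)⁻¹ * ∫ y : Fin n → ℂ, nn y * Real.sqrt (nn y) * Real.exp (-(a * nn y)) := by
  have hτ0 : 0 < τ := by linarith
  have hi : Integrable (fun y : Fin n → ℂ =>
      τ * (nn y * Real.sqrt (nn y)) * Real.exp (-(a * (τ * nn y)))) := by
    have h1 := (gauss_int' (n := n) (mul_pos ha hτ0)).const_mul τ
    refine h1.congr (Filter.Eventually.of_forall fun y => ?_)
    simp only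
    rw [mul_assoc a τ (nn y), ← mul_assoc]
  refine ⟨hi, ?_⟩
  have hs : 0 < Real.sqrt τ := Real.sqrt_pos.2 hτ0
  have hs1 : 1 ≤ Real.sqrt τ := by
    rw [show (1 : ℝ) = Real.sqrt 1 from Real.sqrt_one.symm]
    exact Real.sqrt_le_sqrt hτ
  have e1 := int_scale (fun y : Fin n → ℂ => nn y * Real.sqrt (nn y) * Real.exp (-(a * nn y))) hs
  rw [Real.sq_sqrt hτ0.le] at e1
  rw [← e1]
  have e2 : ∀ y : Fin n → ℂ, nn (((Real.sqrt τ : ℝ) : ℂ) • y) = τ * nn y := by
    intro y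
    rw [nn_smul, Complex.norm_real, Real.norm_of_nonneg hs.le, Real.sq_sqrt hτ0.le]
  have e3 : ∀ y : Fin n → ℂ, nn (((Real.sqrt τ : ℝ) : ℂ) • y) *
      Real.sqrt (nn (((Real.sqrt τ : ℝ) : ℂ) • y)) *
      Real.exp (-(a * nn (((Real.sqrt τ : ℝ) : ℂ) • y))) = Real.sqrt τ *
      (τ * (nn y * Real.sqrt (nn y)) * Real.exp (-(a * (τ * nn y)))) := by
    intro y
    rw [e2, Real.sqrt_mul hτ0.le]
    ring
  simp only [e3]
  refine integral_mono hi (hi.const_mul _) fun y => ?_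
  have h0 : 0 ≤ τ * (nn y * Real.sqrt (nn y)) * Real.exp (-(a * (τ * nn y))) := by
    have := nn_nonneg y
    positivity
  simp only
  nlinarith

end Pool.Agent.Work.MP_49847a_an
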