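import Pool.Agent.Work.MP_49847a_an.Sg.CIB
import Pool.Agent.Work.MP_49847a_an.Sg.CKn

/-!
# Module CNi2: near part, integral over the first variable

Proof.  For fixed `w`; `F z = (nearS s z).indicator (Kn P Q z) w`.  If `w ∈ nearS s z` then `√(nn (w - z)) < (1/4) √(nn z)`
(`s ≤ 1/16`), so by the triangle inequality for the Euclidean norm (or from `nn_sub`, `ip_cs`)
`(9/16) nn z ≤ nn w ≤ (25/16) nn z`.  `nn w ≥ R`: with `τ = nn w^(k-1)`, `y = z - w`,
`(16/25)^(k-1) τ ≤ nn z^(k-1) ≤ (16/9)^(k-1) τ`, `√(nn z) ≥ (4/5) √(nn w) ≥ (4/5) √R`, so by `Kn_le`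
`F z ≤ (C/√R) τ nn y √(nn y) exp (-a τ nn y)`, `a = (c₃/8) (16/25)^(k-1)`; `maj_int`, translation invariance
(`nn_sub_comm`).  `nn w < R'`: `F ≤ 1` (`Kn_le_one`), and `nn (w - z) < s nn z ≤ (1/16) (16/9) nn w ≤ R'`: a ball of finite
volume independent of `w` (`ball_vol`).
Measurability: `{z : w ∈ nearS s z}` is open.
-/

namespace Pool.Agent.Work.MP_49847a_an

open MvPolynomial MeasureTheory

variable {n k p q : ℕ} {c s c₃ M : ℝ} {P : Fin p → MvPolynomial (Fin n) ℂ}
  {Q : Fin q → MvPolynomial (Fin n) ℂ}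

private theorem n2_cmp {s : ℝ} {z w : Fin n → ℂ} (hs' : s ≤ 1 / 16) (h : nn (w - z) < s * nn z) :
    9 * nn z ≤ 16 * nn w ∧ 16 * nn w ≤ 25 * nn z := by
  have h1 := nn_sub w z
  have h2 : (ip w z).re ≤ Real.sqrt (nn w) * Real.sqrt (nn z) := by
    rw [← Real.sqrt_mul (nn_nonneg w)]
    exact (Complex.re_le_norm _).trans (Real.le_sqrt_of_sq_le (ip_cs w z))
  have ha := Real.sq_sqrt (nn_nonneg z)
  have hb := Real.sq_sqrt (nn_nonneg w)
  have ha0 := Real.sqrt_nonneg (nn z)
  have hb0 := Real.sqrt_nonneg (nn w)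
  have h3 : s * nn z ≤ 1 / 16 * nn z := mul_le_mul_of_nonneg_right hs' (nn_nonneg z)
  set a := Real.sqrt (nn z)
  set b := Real.sqrt (nn w)
  have h4 : (b - a) ^ 2 ≤ (a / 4) ^ 2 := by nlinarith
  have h5 := abs_le.1 (abs_le_of_sq_le_sq h4 (by positivity))
  rw [← ha, ← hb]
  constructor <;> nlinarith

private theorem n2_ind (P : Fin p → MvPolynomial (Fin n) ℂ) (Q : Fin q → MvPolynomial (Fin n) ℂ)
    (s : ℝ) (w z : Fin n → ℂ) : (nearS s z).indicator (Kn P Q z) w =
      {z : Fin n → ℂ | nn (w - z) < s * nn z}.indicator (fun z => Kn P Q z w) z := by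
  by_cases h : nn (w - z) < s * nn z
  · rw [Set.indicator_of_mem (show w ∈ nearS s z from h), Set.indicator_of_mem
      (show z ∈ {z : Fin n → ℂ | nn (w - z) < s * nn z} from h)]
  · rw [Set.indicator_of_notMem (show w ∉ nearS s z from h), Set.indicator_of_notMem
      (show z ∉ {z : Fin n → ℂ | nn (w - z) < s * nn z} from h)]

private theorem n2_meas (P : Fin p → MvPolynomial (Fin n) ℂ)
    (Q : Fin q → MvPolynomial (Fin n) ℂ) (s : ℝ) (w : Fin n → ℂ) :
    Measurable (fun z => (nearS s z).indicator (Kn P Q z) w) := by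
  have e : (fun z => (nearS s z).indicator (Kn P Q z) w) =
      {z : Fin n → ℂ | nn (w - z) < s * nn z}.indicator (fun z => Kn P Q z w) :=
    funext fun z => n2_ind P Q s w z
  rw [e]
  refine Measurable.indicator ?_ (isOpen_lt ?_ ?_).measurableSet
  · have g1 : Continuous (fun z : Fin n → ℂ => ((z, w) : (Fin n → ℂ) × (Fin n → ℂ))) :=
      continuous_id.prodMk continuous_const
    have g2 : Continuous (fun z : Fin n → ℂ => ((z, w - z) : (Fin n → ℂ) × (Fin n → ℂ))) :=
      continuous_id.prodMk (continuous_const.sub continuous_id)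
    have h1' := (D2_continuous P Q).comp g1
    have h1 : Continuous (fun z : Fin n → ℂ => D2 P Q z w) := h1'
    have h2' := (lev2_continuous P Q).comp g2
    have h2 : Continuous (fun z : Fin n → ℂ => lev2 P Q z (w - z)) := h2'
    refine Continuous.measurable ?_
    unfold Kn
    exact (Real.continuous_exp.comp (h1.div_const 2)).mul
      ((Real.continuous_exp.comp h1.neg).sub (Real.continuous_exp.comp h2.neg)).abs
  · exact nn_continuous.comp (continuous_const.sub continuous_id)
  · exact continuous_const.mul nn_continuous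

theorem near_int' (h : CS k c P Q) (hN : NearC k s c₃ M P Q) :
    IntB k (fun w z => (nearS s z).indicator (Kn P Q z) w) := by
  obtain ⟨a, ha0⟩ : ∃ a : ℝ, a = c₃ / 8 * (16 / 25) ^ (k - 1) := ⟨_, rfl⟩
  have hc3 := hN.hc
  have hM := hN.hM
  have ha : 0 < a := by
    rw [ha0]
    positivity
  obtain ⟨I₀, hI₀⟩ : ∃ I₀ : ℝ, I₀ = ∫ y : Fin n → ℂ, nn y * Real.sqrt (nn y) *
    Real.exp (-(a * nn y)) := ⟨_, rfl⟩
  have hI0 : 0 ≤ I₀ := by
    rw [hI₀]
    exact integral_nonneg fun y => mul_nonneg (mul_nonneg (nn_nonneg y) (Real.sqrt_nonneg _))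
      (Real.exp_nonneg _)
  obtain ⟨C, hC0⟩ : ∃ C : ℝ, C = 5 / 4 * (M * (16 / 9) ^ (k - 1)) := ⟨_, rfl⟩
  have hC : 0 < C := by
    rw [hC0]
    positivity
  have hnn : ∀ w z : Fin n → ℂ, 0 ≤ (nearS s z).indicator (Kn P Q z) w := fun w z =>
    Set.indicator_nonneg (fun w _ => Kn_nonneg P Q z w) w
  have hfar : ∀ w z : Fin n → ℂ, w ∈ nearS s z → nn (z - w) ≤ nn w := by
    intro w z hz
    have hz' : nn (w - z) < s * nn z := hz
    have h1 := n2_cmp hN.hs' hz'
    rw [nn_sub_comm]
    have h2 : s * nn z ≤ 1 / 16 * nn z := mul_le_mul_of_nonneg_right hN.hs' (nn_nonneg z)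
    have := nn_nonneg w
    linarith [h1.1]
  have hball : ∀ (w : Fin n → ℂ) (t : ℝ), nn w < t → ∀ z,
      (nearS s z).indicator (Kn P Q z) w ≤
        {z : Fin n → ℂ | nn (z - w) < t}.indicator (fun _ => (1 : ℝ)) z := by
    intro w t ht z
    by_cases hz : w ∈ nearS s z
    · rw [Set.indicator_of_mem hz, Set.indicator_of_mem
        (show z ∈ {z : Fin n → ℂ | nn (z - w) < t} from (hfar w z hz).trans_lt ht)]
      exact Kn_le_one h hN hz
    · rw [Set.indicator_of_notMem hz]
      exact Set.indicator_nonneg (fun _ _ => zero_le_one) z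
  have hms : ∀ (w : Fin n → ℂ) (t : ℝ), MeasurableSet {z : Fin n → ℂ | nn (z - w) < t} :=
    fun w t => (isOpen_lt (nn_continuous.comp (continuous_id.sub continuous_const))
      continuous_const).measurableSet
  have hint1 : ∀ (w : Fin n → ℂ) (t : ℝ),
      Integrable ({z : Fin n → ℂ | nn (z - w) < t}.indicator (fun _ => (1 : ℝ))) := by
    intro w t
    rw [integrable_indicator_iff (hms w t)]
    exact integrableOn_const (ball_fin t w).ne
  have hval : ∀ (w : Fin n → ℂ) (t : ℝ), 0 < t →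
      ∫ z, {z : Fin n → ℂ | nn (z - w) < t}.indicator (fun _ => (1 : ℝ)) z =
        t ^ n * (volume {w : Fin n → ℂ | nn w < 1}).toReal := by
    intro w t ht
    rw [integral_indicator (hms w t), setIntegral_const, smul_eq_mul, mul_one, ← ball_vol ht w]
    rfl
  have hint : ∀ w : Fin n → ℂ, Integrable (fun z => (nearS s z).indicator (Kn P Q z) w) := by
    intro w
    refine (hint1 w (nn w + 1)).mono' (n2_meas P Q s w).aestronglyMeasurable
      (ae_of_all _ fun z => ?_)
    rw [Real.norm_of_nonneg (hnn w z)]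
    exact hball w (nn w + 1) (by linarith) z
  intro θ hθ
  refine ⟨1 + (C * I₀ / θ) ^ 2, by nlinarith [sq_nonneg (C * I₀ / θ)], fun R' hR' =>
    ⟨R' ^ n * (volume {w : Fin n → ℂ | nn w < 1}).toReal, ?_, fun w => ⟨hint w, fun hw => ?_,
      fun hw => ?_⟩⟩⟩
  · have h0 : 0 ≤ R' := by nlinarith [sq_nonneg (C * I₀ / θ)]
    positivity
  · have hw1 : 1 + (C * I₀ / θ) ^ 2 ≤ nn w := hR'.trans hw
    have hw2 : 1 ≤ nn w := by nlinarith [sq_nonneg (C * I₀ / θ)]
    have hw0 : 0 < Real.sqrt (nn w) := Real.sqrt_pos.2 (by linarith)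
    obtain ⟨τ, hτ0⟩ : ∃ τ : ℝ, τ = nn w ^ (k - 1) := ⟨_, rfl⟩
    have hτ : 1 ≤ τ := by
      rw [hτ0]
      exact one_le_pow₀ hw2
    have hτp : 0 < τ := by linarith
    obtain ⟨m1, m2⟩ := maj_int (n := n) ha hτ
    have hb : ∀ z : Fin n → ℂ, (nearS s z).indicator (Kn P Q z) w ≤ C / Real.sqrt (nn w) *
        (τ * (nn (z - w) * Real.sqrt (nn (z - w))) * Real.exp (-(a * (τ * nn (z - w))))) := by
      intro z
      by_cases hz : w ∈ nearS s z
      · rw [Set.indicator_of_mem hz]
        have hz' : nn (w - z) < s * nn z := hz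
        obtain ⟨c1, c2⟩ := n2_cmp hN.hs' hz'
        have hk := Kn_le h hN hz
        rw [nn_sub_comm] at hk
        have hy := nn_nonneg (z - w)
        have hy2 := Real.sqrt_nonneg (nn (z - w))
        have p1 : nn z ^ (k - 1) ≤ (16 / 9) ^ (k - 1) * τ := by
          rw [hτ0, ← mul_pow]
          exact pow_le_pow_left₀ (nn_nonneg z) (by linarith) _
        have p2 : (16 / 25) ^ (k - 1) * τ ≤ nn z ^ (k - 1) := by
          rw [hτ0, ← mul_pow]
          exact pow_le_pow_left₀ (by positivity) (by linarith) _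
        have p3 : Real.exp (-(c₃ / 8 * (nn z ^ (k - 1) * nn (z - w)))) ≤
            Real.exp (-(a * (τ * nn (z - w)))) := by
          rw [Real.exp_le_exp, neg_le_neg_iff, ha0]
          calc c₃ / 8 * (16 / 25) ^ (k - 1) * (τ * nn (z - w)) =
                c₃ / 8 * (((16 / 25) ^ (k - 1) * τ) * nn (z - w)) := by ring
            _ ≤ _ := by gcongr
        have p4 : Real.sqrt (nn w) ≤ 5 / 4 * Real.sqrt (nn z) := by
          rw [Real.sqrt_le_left (by positivity), mul_pow, Real.sq_sqrt (nn_nonneg z)]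
          linarith
        have p5 : M * (nn z ^ (k - 1) * (nn (z - w) * Real.sqrt (nn (z - w)))) *
            Real.exp (-(c₃ / 8 * (nn z ^ (k - 1) * nn (z - w)))) ≤
            M * ((16 / 9) ^ (k - 1) * τ * (nn (z - w) * Real.sqrt (nn (z - w)))) *
            Real.exp (-(a * (τ * nn (z - w)))) := by
          gcongr
        rw [div_mul_eq_mul_div, le_div_iff₀ hw0]
        calc Kn P Q z w * Real.sqrt (nn w) ≤ Kn P Q z w * (5 / 4 * Real.sqrt (nn z)) :=
              mul_le_mul_of_nonneg_left p4 (Kn_nonneg P Q z w)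
          _ = 5 / 4 * (Kn P Q z w * Real.sqrt (nn z)) := by ring
          _ ≤ 5 / 4 * (M * ((16 / 9) ^ (k - 1) * τ * (nn (z - w) * Real.sqrt (nn (z - w)))) *
            Real.exp (-(a * (τ * nn (z - w))))) :=
              mul_le_mul_of_nonneg_left (hk.trans p5) (by norm_num)
          _ = _ := by
              rw [hC0]
              ring
      · rw [Set.indicator_of_notMem hz]
        have hy := nn_nonneg (z - w)
        positivity
    calc ∫ z, (nearS s z).indicator (Kn P Q z) w ≤ ∫ z, C / Real.sqrt (nn w) *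
          (τ * (nn (z - w) * Real.sqrt (nn (z - w))) * Real.exp (-(a * (τ * nn (z - w))))) :=
          integral_mono (hint w) ((m1.comp_sub_right w).const_mul _) hb
      _ = C / Real.sqrt (nn w) * ∫ y : Fin n → ℂ,
          τ * (nn y * Real.sqrt (nn y)) * Real.exp (-(a * (τ * nn y))) := by
          rw [integral_const_mul, integral_sub_right_eq_self (fun y : Fin n → ℂ =>
            τ * (nn y * Real.sqrt (nn y)) * Real.exp (-(a * (τ * nn y)))) w]
      _ ≤ C / Real.sqrt (nn w) * ((τ ^ n)⁻¹ * I₀) := by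
          rw [hI₀]
          exact mul_le_mul_of_nonneg_left m2 (by positivity)
      _ = C * I₀ / Real.sqrt (nn w) / τ ^ n := by
          field_simp
      _ ≤ θ / (nn w ^ (k - 1)) ^ n := by
          rw [← hτ0]
          refine div_le_div_of_nonneg_right ?_ (by positivity)
          rw [div_le_iff₀ hw0, ← div_le_iff₀' hθ]
          exact Real.le_sqrt_of_sq_le (by linarith)
  · have h0 : 0 < R' := by nlinarith [sq_nonneg (C * I₀ / θ)]
    rw [← hval w R' h0]
    exact integral_mono (hint w) (hint1 w R') (hball w R' hw)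

end Pool.Agent.Work.MP_49847a_an
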