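import Pool.Agent.Work.MP_49847a_an.Sg.CNi
import Pool.Agent.Work.MP_49847a_an.Sg.CNi2
import Pool.Agent.Work.MP_49847a_an.Sg.CFi

/-!
# The error kernel: both integrals (assembly)
-/

namespace Pool.Agent.Work.MP_49847a_an

open MvPolynomial MeasureTheory

variable {n k p q : ℕ} {c s c₃ M : ℝ} {P : Fin p → MvPolynomial (Fin n) ℂ}
  {Q : Fin q → MvPolynomial (Fin n) ℂ}

theorem kk_int (h : CS k c P Q) (hN : NearC k s c₃ M P Q) :
    IntB k (fun z w => KK k s P Q z w) :=
  ((near_int h hN).const_mul (Nat.cast_nonneg k)).add (far_int h hN.hs)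

theorem kk_int' (h : CS k c P Q) (hN : NearC k s c₃ M P Q) :
    IntB k (fun w z => KK k s P Q z w) :=
  ((near_int' h hN).const_mul (Nat.cast_nonneg k)).add (far_int' h hN.hs)

end Pool.Agent.Work.MP_49847a_an
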