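import Pool.Agent.Work.MP_49847a_an.Sg.CSc
import Pool.Agent.Work.MP_49847a_an.Sg.CMean

/-!
# Module CNM: the mean value property near the diagonal

Proof.  `H(w) = f(w) exp (-R2 w z)` is entire in `w` (`R2 P Q w z` is a polynomial in `w`).  Translation `w = z + y`
(`integral_add_left_eq_self`, or `setIntegral` under a translation), `mean_val` with `f := y ↦ H (z + y)`,
`g y = exp (-lev2 z y)`, `ρ = s nn z`: `lev2` is invariant under `y ↦ ζ y`, `‖ζ‖ = 1` (`lev2_smul` with `t = 1`), and continuous
(`lev2_continuous`).  `H(z) = f(z) e^(-r2 z)` (`R2_self`).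
-/

namespace Pool.Agent.Work.MP_49847a_an

open MvPolynomial MeasureTheory

variable {n k p q : ℕ} {c : ℝ} {P : Fin p → MvPolynomial (Fin n) ℂ}
  {Q : Fin q → MvPolynomial (Fin n) ℂ}

private theorem cnm_diff (f : MvPolynomial (Fin n) ℂ) (z : Fin n → ℂ) :
    Differentiable ℂ (fun y : Fin n → ℂ => eval (z + y) f) := by
  induction f using MvPolynomial.induction_on with
  | C a =>
    simp only [eval_C]
    exact differentiable_const a
  | add p q hp hq =>
    simp only [map_add]
    exact hp.add hq
  | mul_X p i hp =>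
    simp only [map_mul, eval_X, Pi.add_apply]
    exact hp.mul ((differentiable_const _).add (differentiable_apply i))

private theorem cnm_cont (L : (Fin n → ℂ) → (Fin n → ℂ) → ℝ)
    (hL : Continuous (fun x : (Fin n → ℂ) × (Fin n → ℂ) => L x.1 x.2)) (z : Fin n → ℂ) :
    Continuous (fun y : Fin n → ℂ => Real.exp (-(L z y))) := by
  have h2 : Continuous (fun y : Fin n → ℂ => L z y) :=
    hL.comp (Continuous.prodMk continuous_const continuous_id)
  exact Real.continuous_exp.comp h2.neg

theorem near_mean (h : CS k c P Q) (s : ℝ) (f : MvPolynomial (Fin n) ℂ) (z : Fin n → ℂ) :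
    ∫ w in nearS s z, eval w f * Complex.exp (-(R2 P Q w z)) *
      (Real.exp (-(lev2 P Q z (w - z))) : ℂ) =
      eval z f * (Real.exp (-(r2 P Q z)) : ℂ) * (gg s P Q z : ℂ) := by
  have hpre : (fun y => z + y) ⁻¹' (nearS s z) = {y : Fin n → ℂ | nn y < s * nn z} := by
    ext y
    simp [nearS]
  have hmp := measurePreserving_add_left (volume : Measure (Fin n → ℂ)) z
  have hme : MeasurableEmbedding (fun y : Fin n → ℂ => z + y) :=
    (MeasurableEquiv.addLeft z).measurableEmbedding
  have e1 := hmp.setIntegral_preimage_emb hme (fun w => eval w f * Complex.exp (-(R2 P Q w z)) *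
      (Real.exp (-(lev2 P Q z (w - z))) : ℂ)) (nearS s z)
  have e2 := hmp.setIntegral_preimage_emb hme
    (fun w => Real.exp (-(lev2 P Q z (w - z)))) (nearS s z)
  have hfd : Differentiable ℂ (fun y : Fin n → ℂ =>
      eval (z + y) f * Complex.exp (-(R2 P Q (z + y) z))) := by
    refine (cnm_diff f z).mul (Differentiable.cexp (Differentiable.neg ?_))
    unfold R2
    refine Differentiable.sub ?_ ?_
    · refine Differentiable.fun_sum fun j _ => ?_
      exact (cnm_diff (P j) z).mul_const _
    · refine Differentiable.fun_sum fun j _ => ?_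
      exact (cnm_diff (Q j) z).mul_const _
  have hg : Continuous (fun y : Fin n → ℂ => Real.exp (-(lev2 P Q z y))) :=
    cnm_cont (lev2 P Q) (lev2_continuous P Q) z
  have hrot : ∀ (ζ : ℂ) (y : Fin n → ℂ), ‖ζ‖ = 1 →
      (fun y : Fin n → ℂ => Real.exp (-(lev2 P Q z y))) (ζ • y) =
        (fun y : Fin n → ℂ => Real.exp (-(lev2 P Q z y))) y := by
    intro ζ y hζ
    have h1 := lev2_smul h 1 ζ z y
    simp only [one_smul, norm_one, one_pow, one_mul, hζ] at h1
    simp only [h1]
  have hm := mean_val hfd hg hrot (s * nn z)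
  rw [hpre] at e1 e2
  simp only [add_sub_cancel_left] at e1 e2
  rw [← e1]
  unfold gg
  rw [← e2, hm]
  simp only [add_zero]
  rw [R2_self]
  push_cast
  rfl

end Pool.Agent.Work.MP_49847a_an
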