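import Mathlib

/-!
# Module CRoot: separation of the roots of unity

Proof.  The set of the `k`-th roots of unity is finite (`Polynomial.nthRoots`, or the roots of `X^k - 1`): take `s` at most
a quarter of the minimum of the `‖ζ - ζ'‖²` over the finitely many pairs `ζ ≠ ζ'` (`Set.Finite`, `Finset.inf'` or
induction; `s = 1` if there is no pair).
(card_roots) the finite set has exactly `k` elements (`Complex.card_rootsOfUnity`, `IsPrimitiveRoot.card_nthRoots...`).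
-/

namespace Pool.Agent.Work.MP_49847a_an

theorem card_roots {k : ℕ} (hk : 0 < k) :
    ∃ S : Finset ℂ, (∀ ζ : ℂ, ζ ∈ S ↔ ζ ^ k = 1) ∧ S.card = k := by
  refine ⟨Polynomial.nthRootsFinset k (1 : ℂ), fun ζ => ?_, ?_⟩
  · exact Polynomial.mem_nthRootsFinset hk 1
  · exact (Complex.isPrimitiveRoot_exp k hk.ne').card_nthRootsFinset

theorem root_sep {k : ℕ} (hk : 0 < k) : ∃ s : ℝ, 0 < s ∧ ∀ ζ ζ' : ℂ, ζ ^ k = 1 → ζ' ^ k = 1 →
    ζ ≠ ζ' → 4 * s ≤ ‖ζ - ζ'‖ ^ 2 := by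
  classical
  obtain ⟨S, hS, -⟩ := card_roots hk
  set P : Finset (ℂ × ℂ) := (S ×ˢ S).filter (fun p => p.1 ≠ p.2) with hP
  rcases P.eq_empty_or_nonempty with he | hne
  · refine ⟨1, one_pos, fun ζ ζ' h1 h2 h3 => ?_⟩
    have : (ζ, ζ') ∈ P := by
      rw [hP, Finset.mem_filter, Finset.mem_product]
      exact ⟨⟨(hS ζ).2 h1, (hS ζ').2 h2⟩, h3⟩
    rw [he] at this
    simp at this
  · obtain ⟨q, hq, hmin⟩ := Finset.exists_min_image P (fun p => ‖p.1 - p.2‖ ^ 2) hne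
    rw [hP, Finset.mem_filter] at hq
    have hpos : 0 < ‖q.1 - q.2‖ ^ 2 := by
      have : 0 < ‖q.1 - q.2‖ := norm_pos_iff.2 (sub_ne_zero.2 hq.2)
      positivity
    refine ⟨‖q.1 - q.2‖ ^ 2 / 4, by positivity, fun ζ ζ' h1 h2 h3 => ?_⟩
    have hm : (ζ, ζ') ∈ P := by
      rw [hP, Finset.mem_filter, Finset.mem_product]
      exact ⟨⟨(hS ζ).2 h1, (hS ζ').2 h2⟩, h3⟩
    have := hmin _ hm
    simp only at this
    linarith

end Pool.Agent.Work.MP_49847a_an
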