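import Pool.Agent.Work.MP_49847a_an.Sg.CDefs
import Pool.Agent.Work.MP_49847a_an.Sg.CRoot
import Pool.Agent.Work.MP_49847a_an.Sg.CMean

/-!
# Module CPart: a partition of the space

Proof.  For `z ≠ 0` the sets `N_ζ = {w : nn (w - ζ z) < s nn z}`, `ζ^k = 1`, are disjoint: if `w` is in `N_ζ` and
`N_ζ'` then `‖ζ - ζ'‖² nn z = nn ((ζ - ζ') z) ≤ 2 nn (w - ζ z) + 2 nn (w - ζ' z) < 4 s nn z` (`nn_add_le`), contradiction
to `sep`; `farS k s z` is the complement of their union; they are measurable (open).  For `z = 0` all `N_ζ` are empty and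
`farS k s z` is everything.  There are exactly `k` roots (`card_roots`).  `∫_{N_ζ} F = ∫_{nearS s z} F`: substitute
`w = ζ w'` (`measure_rot`, `MeasurePreserving.setIntegral_preimage_emb`, multiplication by `ζ` is a homeomorphism;
`ζ w' ∈ N_ζ ↔ w' ∈ nearS s z` by `nn_smul`, `‖ζ‖ = 1`), `F(ζ w') = F(w')`.
`∫ F = ∑_ζ ∫_{N_ζ} F + ∫_{farS} F` (`integral_add_compl`, `integral_finset_biUnion`).
-/

namespace Pool.Agent.Work.MP_49847a_an

open MvPolynomial MeasureTheory

variable {n k : ℕ}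

theorem part_int (hk : 0 < k) {s : ℝ} (hs : 0 < s)
    (hsep : ∀ ζ ζ' : ℂ, ζ ^ k = 1 → ζ' ^ k = 1 → ζ ≠ ζ' → 4 * s ≤ ‖ζ - ζ'‖ ^ 2)
    {F : (Fin n → ℂ) → ℂ} (hF : Integrable F)
    (hinv : ∀ ζ : ℂ, ζ ^ k = 1 → ∀ w, F (ζ • w) = F w) (z : Fin n → ℂ) :
    ∫ w, F w = k * (∫ w in nearS s z, F w) + ∫ w in farS k s z, F w := by
  classical
  obtain ⟨S, hS, hcard⟩ := card_roots hk
  have hn : ∀ ζ : ℂ, ζ ^ k = 1 → ‖ζ‖ = 1 := fun ζ h => by
    have h1 := congrArg norm h
    rw [norm_pow, norm_one] at h1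
    exact (pow_eq_one_iff_of_nonneg (norm_nonneg _) hk.ne').1 h1
  let N : ℂ → Set (Fin n → ℂ) := fun ζ => {w | nn (w - ζ • z) < s * nn z}
  have hNo : ∀ ζ, IsOpen (N ζ) := fun ζ =>
    isOpen_lt (nn_continuous.comp (continuous_id.sub continuous_const)) continuous_const
  have hdisj : Set.Pairwise (S : Set ℂ) (Function.onFun Disjoint N) := by
    intro ζ hζ ζ' hζ' hne
    refine Set.disjoint_left.2 fun w hw hw' => ?_
    have h1 : nn (w - ζ • z) < s * nn z := hw
    have h2 : nn (w - ζ' • z) < s * nn z := hw'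
    have h3 := hsep ζ ζ' ((hS ζ).1 hζ) ((hS ζ').1 hζ') hne
    have h4 : nn ((ζ - ζ') • z) ≤ 2 * nn (w - ζ' • z) + 2 * nn (w - ζ • z) := by
      have e : (ζ - ζ') • z = (w - ζ' • z) + (ζ • z - w) := by
        rw [sub_smul]
        abel
      rw [e, ← nn_sub_comm (ζ • z) w]
      exact nn_add_le _ _
    rw [nn_smul] at h4
    have h5 : 0 ≤ nn z := nn_nonneg z
    nlinarith [mul_le_mul_of_nonneg_right h3 h5]
  have hfar : farS k s z = (⋃ ζ ∈ S, N ζ)ᶜ := by
    ext w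
    simp only [farS, Set.mem_setOf_eq, Set.mem_compl_iff, Set.mem_iUnion, not_exists]
    constructor
    · intro h ζ hζ hw
      exact absurd (show nn (w - ζ • z) < s * nn z from hw) (not_lt.2 (h ζ ((hS ζ).1 hζ)))
    · intro h ζ hζ
      exact not_lt.1 fun hw => h ζ ((hS ζ).2 hζ) hw
  have hmeas : MeasurableSet (⋃ ζ ∈ S, N ζ) :=
    Finset.measurableSet_biUnion S fun ζ _ => (hNo ζ).measurableSet
  rw [← integral_add_compl hmeas hF, hfar,
    integral_biUnion_finset S (fun ζ _ => (hNo ζ).measurableSet) hdisj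
      (fun ζ _ => hF.integrableOn)]
  congr 1
  have h6 : ∀ ζ ∈ S, ∫ w in N ζ, F w = ∫ w in nearS s z, F w := by
    intro ζ hζ
    have h7 := hn ζ ((hS ζ).1 hζ)
    have h8 : ζ ≠ 0 := by
      rintro rfl
      rw [norm_zero] at h7
      exact zero_ne_one h7
    have h9 := (measure_rot (n := n) h7).setIntegral_preimage_emb
      (Homeomorph.smulOfNeZero ζ h8).measurableEmbedding F (N ζ)
    rw [← h9]
    have h10 : (fun y : Fin n → ℂ => ζ • y) ⁻¹' N ζ = nearS s z := by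
      ext w
      show nn (ζ • w - ζ • z) < s * nn z ↔ nn (w - z) < s * nn z
      rw [← smul_sub, nn_smul, h7, one_pow, one_mul]
    rw [h10]
    exact integral_congr_ae (Filter.Eventually.of_forall fun w => hinv ζ ((hS ζ).1 hζ) w)
  rw [Finset.sum_congr rfl h6, Finset.sum_const, hcard, nsmul_eq_mul]

end Pool.Agent.Work.MP_49847a_an
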