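import Pool.Agent.Work.MP_49847a_an.Sg.CSc
import Pool.Agent.Work.MP_49847a_an.Sg.CMean

/-!
# Module CPh: integrability

Proof.
(poly_bd) a polynomial is `O((1+nn)^N)` (induction on `f`, or `|z^α| ≤ (1 + nn z)^|α|`).
(ph_int) `r2 w ≥ c nn w^k` (`pos`), `pow_int` with `a = c/2`, `a = c`; continuity gives measurability; `Integrable.mono'`.
(inner_int) `F w = f(w) exp (R2 z w - r2 w)`.  `|F w| ≤ e^(r2 z/2) |f(w)| e^(-r2 w/2)` (`R2_le`: `Re R2 ≤ (r2 z + r2 w)/2`).
(prod_int) `|conj f(z) e^(-r2 z) f(w) exp (R2 z w - r2 w)| ≤ ph z ph w`; `Integrable.mul_prod`.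
-/

namespace Pool.Agent.Work.MP_49847a_an

open MvPolynomial MeasureTheory

variable {n k p q : ℕ} {c : ℝ} {P : Fin p → MvPolynomial (Fin n) ℂ}
  {Q : Fin q → MvPolynomial (Fin n) ℂ}

/-- `|f| e^(-r2/2)` -/
noncomputable def ph (P : Fin p → MvPolynomial (Fin n) ℂ) (Q : Fin q → MvPolynomial (Fin n) ℂ)
    (f : MvPolynomial (Fin n) ℂ) (z : Fin n → ℂ) : ℝ :=
  ‖eval z f‖ * Real.exp (-(r2 P Q z) / 2)

theorem ph_sq (P : Fin p → MvPolynomial (Fin n) ℂ) (Q : Fin q → MvPolynomial (Fin n) ℂ)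
    (f : MvPolynomial (Fin n) ℂ) (z : Fin n → ℂ) : ph P Q f z ^ 2 = wt P Q f z := by
  unfold ph wt
  rw [mul_pow, ← Real.exp_nat_mul]
  congr 2
  push_cast
  ring

theorem poly_bd (f : MvPolynomial (Fin n) ℂ) :
    ∃ (B : ℝ) (N : ℕ), 0 ≤ B ∧ ∀ z, ‖eval z f‖ ≤ B * (1 + nn z) ^ N := by
  induction f using MvPolynomial.induction_on with
  | C a =>
    refine ⟨‖a‖, 0, norm_nonneg _, fun z => ?_⟩
    rw [eval_C, pow_zero, mul_one]
  | add f g hf hg =>
    obtain ⟨B1, N1, hB1, h1⟩ := hf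
    obtain ⟨B2, N2, hB2, h2⟩ := hg
    refine ⟨B1 + B2, N1 + N2, by positivity, fun z => ?_⟩
    have h0 := nn_nonneg z
    have h3 : (1 + nn z) ^ N1 ≤ (1 + nn z) ^ (N1 + N2) :=
      pow_le_pow_right₀ (by linarith) (by omega)
    have h4 : (1 + nn z) ^ N2 ≤ (1 + nn z) ^ (N1 + N2) :=
      pow_le_pow_right₀ (by linarith) (by omega)
    rw [map_add]
    calc ‖eval z f + eval z g‖ ≤ ‖eval z f‖ + ‖eval z g‖ := norm_add_le _ _
      _ ≤ B1 * (1 + nn z) ^ (N1 + N2) + B2 * (1 + nn z) ^ (N1 + N2) :=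
          add_le_add ((h1 z).trans (mul_le_mul_of_nonneg_left h3 hB1))
            ((h2 z).trans (mul_le_mul_of_nonneg_left h4 hB2))
      _ = _ := by ring
  | mul_X f i hf =>
    obtain ⟨B1, N1, hB1, h1⟩ := hf
    refine ⟨B1, N1 + 1, hB1, fun z => ?_⟩
    have h0 := nn_nonneg z
    have h2 : ‖z i‖ ≤ 1 + nn z := by
      have h3 : ‖z i‖ ^ 2 ≤ nn z := by
        unfold nn
        exact Finset.single_le_sum (f := fun j => ‖z j‖ ^ 2) (fun j _ => by positivity)
          (Finset.mem_univ i)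
      nlinarith [sq_nonneg (‖z i‖ - 1)]
    rw [map_mul, eval_X, norm_mul, pow_succ, ← mul_assoc]
    exact mul_le_mul (h1 z) h2 (norm_nonneg _) (by positivity)

private theorem cph_meas (f : MvPolynomial (Fin n) ℂ) : Continuous (fun z => eval z f) := by
  exact MvPolynomial.continuous_eval f

/-- polynomials times `e^(-r2/2)` are integrable -/
theorem ph_int (h : CS k c P Q) (f : MvPolynomial (Fin n) ℂ) (N : ℕ) :
    Integrable (fun z => ph P Q f z * (1 + nn z) ^ N) ∧
    Integrable (fun z => wt P Q f z * (1 + nn z) ^ N) := by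
  obtain ⟨B, M, hB, hf⟩ := poly_bd f
  have hr := r2_continuous P Q
  have hn := nn_continuous (n := n)
  have hfc := cph_meas f
  constructor
  · refine Integrable.mono' ((pow_int (n := n) (half_pos h.hc) h.hk (M + N)).const_mul B) ?_ ?_
    · have hc : Continuous (fun z => ph P Q f z * (1 + nn z) ^ N) := by
        unfold ph
        fun_prop
      exact hc.aestronglyMeasurable
    · refine Filter.Eventually.of_forall fun z => ?_
      have h0 := nn_nonneg z
      have h1 := h.pos z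
      have h2 : Real.exp (-(r2 P Q z) / 2) ≤ Real.exp (-(c / 2 * nn z ^ k)) := by
        apply Real.exp_le_exp.2
        linarith
      unfold ph
      rw [Real.norm_of_nonneg (by positivity)]
      calc ‖eval z f‖ * Real.exp (-(r2 P Q z) / 2) * (1 + nn z) ^ N
          ≤ (B * (1 + nn z) ^ M) * Real.exp (-(c / 2 * nn z ^ k)) * (1 + nn z) ^ N := by
            apply mul_le_mul_of_nonneg_right _ (by positivity)
            exact mul_le_mul (hf z) h2 (Real.exp_pos _).le (by positivity)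
        _ = _ := by rw [pow_add]; ring
  · refine Integrable.mono' ((pow_int (n := n) h.hc h.hk (M * 2 + N)).const_mul (B ^ 2)) ?_ ?_
    · have hc : Continuous (fun z => wt P Q f z * (1 + nn z) ^ N) := by
        unfold wt
        fun_prop
      exact hc.aestronglyMeasurable
    · refine Filter.Eventually.of_forall fun z => ?_
      have h0 := nn_nonneg z
      have h1 := h.pos z
      have h2 : Real.exp (-(r2 P Q z)) ≤ Real.exp (-(c * nn z ^ k)) := by
        apply Real.exp_le_exp.2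
        linarith
      have h3 : ‖eval z f‖ ^ 2 ≤ (B * (1 + nn z) ^ M) ^ 2 :=
        pow_le_pow_left₀ (norm_nonneg _) (hf z) 2
      unfold wt
      rw [Real.norm_of_nonneg (by positivity)]
      calc ‖eval z f‖ ^ 2 * Real.exp (-(r2 P Q z)) * (1 + nn z) ^ N
          ≤ (B * (1 + nn z) ^ M) ^ 2 * Real.exp (-(c * nn z ^ k)) * (1 + nn z) ^ N := by
            apply mul_le_mul_of_nonneg_right _ (by positivity)
            exact mul_le_mul h3 h2 (Real.exp_pos _).le (by positivity)
        _ = _ := by rw [pow_add, pow_mul, mul_pow]; ring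

private theorem cph_re (h : CS k c P Q) (z w : Fin n → ℂ) :
    ‖Complex.exp (R2 P Q z w - (r2 P Q w : ℂ))‖ ≤
      Real.exp (r2 P Q z / 2) * Real.exp (-(r2 P Q w) / 2) := by
  rw [Complex.norm_exp, ← Real.exp_add]
  apply Real.exp_le_exp.2
  rw [Complex.sub_re, Complex.ofReal_re]
  have h1 := R2_le h z w
  have h2 := Complex.re_le_norm (R2 P Q z w)
  linarith

theorem inner_int (h : CS k c P Q) (f : MvPolynomial (Fin n) ℂ) (z : Fin n → ℂ) :
    Integrable (fun w => eval w f * Complex.exp (R2 P Q z w - (r2 P Q w : ℂ))) := by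
  have h1 := (ph_int h f 0).1
  simp only [pow_zero, mul_one] at h1
  refine Integrable.mono' (h1.const_mul (Real.exp (r2 P Q z / 2))) ?_ ?_
  · have hr := r2_continuous P Q
    have hfc := cph_meas f
    have hR : Continuous (fun w => R2 P Q z w) :=
      ((R2_continuous P Q).comp (Continuous.prodMk_right z)).congr fun w => rfl
    have hc : Continuous (fun w => eval w f * Complex.exp (R2 P Q z w - (r2 P Q w : ℂ))) := by
      fun_prop
    exact hc.aestronglyMeasurable
  · refine Filter.Eventually.of_forall fun w => ?_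
    rw [norm_mul]
    unfold ph
    calc ‖eval w f‖ * ‖Complex.exp (R2 P Q z w - (r2 P Q w : ℂ))‖
        ≤ ‖eval w f‖ * (Real.exp (r2 P Q z / 2) * Real.exp (-(r2 P Q w) / 2)) :=
          mul_le_mul_of_nonneg_left (cph_re h z w) (norm_nonneg _)
      _ = _ := by ring

theorem prod_int (h : CS k c P Q) (f : MvPolynomial (Fin n) ℂ) :
    Integrable (fun x : (Fin n → ℂ) × (Fin n → ℂ) => (starRingEnd ℂ) (eval x.1 f) *
      (Real.exp (-(r2 P Q x.1)) : ℂ) *
        (eval x.2 f * Complex.exp (R2 P Q x.1 x.2 - (r2 P Q x.2 : ℂ)))) := by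
  have h1 := (ph_int h f 0).1
  simp only [pow_zero, mul_one] at h1
  refine Integrable.mono' (h1.mul_prod h1) ?_ ?_
  · have hr := r2_continuous P Q
    have hfc := cph_meas f
    have hR := R2_continuous P Q
    have hr1 : Continuous (fun x : (Fin n → ℂ) × (Fin n → ℂ) => r2 P Q x.1) :=
      hr.comp continuous_fst
    have hr2 : Continuous (fun x : (Fin n → ℂ) × (Fin n → ℂ) => r2 P Q x.2) :=
      hr.comp continuous_snd
    have hf1 : Continuous (fun x : (Fin n → ℂ) × (Fin n → ℂ) => eval x.1 f) :=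
      hfc.comp continuous_fst
    have hf2 : Continuous (fun x : (Fin n → ℂ) × (Fin n → ℂ) => eval x.2 f) :=
      hfc.comp continuous_snd
    have hs : Continuous (fun x : (Fin n → ℂ) × (Fin n → ℂ) => (starRingEnd ℂ) (eval x.1 f)) :=
      Complex.continuous_conj.comp hf1
    have hc : Continuous (fun x : (Fin n → ℂ) × (Fin n → ℂ) => (starRingEnd ℂ) (eval x.1 f) *
      (Real.exp (-(r2 P Q x.1)) : ℂ) *
        (eval x.2 f * Complex.exp (R2 P Q x.1 x.2 - (r2 P Q x.2 : ℂ)))) := by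
      fun_prop
    exact hc.aestronglyMeasurable
  · refine Filter.Eventually.of_forall fun x => ?_
    rw [norm_mul, norm_mul, norm_mul]
    have h2 : ‖(starRingEnd ℂ) (eval x.1 f)‖ = ‖eval x.1 f‖ := RCLike.norm_conj _
    have h3 : ‖((Real.exp (-(r2 P Q x.1)) : ℝ) : ℂ)‖ = Real.exp (-(r2 P Q x.1)) := by
      rw [Complex.norm_real, Real.norm_of_nonneg (Real.exp_pos _).le]
    have h4 : Real.exp (-(r2 P Q x.1)) * Real.exp (r2 P Q x.1 / 2) =
        Real.exp (-(r2 P Q x.1) / 2) := by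
      rw [← Real.exp_add]
      congr 1
      ring
    rw [h2, h3]
    unfold ph
    calc ‖eval x.1 f‖ * Real.exp (-(r2 P Q x.1)) *
          (‖eval x.2 f‖ * ‖Complex.exp (R2 P Q x.1 x.2 - (r2 P Q x.2 : ℂ))‖)
        ≤ ‖eval x.1 f‖ * Real.exp (-(r2 P Q x.1)) *
          (‖eval x.2 f‖ * (Real.exp (r2 P Q x.1 / 2) * Real.exp (-(r2 P Q x.2) / 2))) := by
          apply mul_le_mul_of_nonneg_left _ (by positivity)
          exact mul_le_mul_of_nonneg_left (cph_re h x.1 x.2) (norm_nonneg _)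
      _ = ‖eval x.1 f‖ * (Real.exp (-(r2 P Q x.1)) * Real.exp (r2 P Q x.1 / 2)) *
          (‖eval x.2 f‖ * Real.exp (-(r2 P Q x.2) / 2)) := by ring
      _ = _ := by rw [h4]

end Pool.Agent.Work.MP_49847a_an
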