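import Pool.Agent.Work.MP_49847a_an.Sg.CNear
import Pool.Agent.Work.MP_49847a_an.Sg.CPh
import Pool.Agent.Work.MP_49847a_an.Sg.CPart
import Pool.Agent.Work.MP_49847a_an.Sg.CNM

/-!
# Module CJ: the inner integral

Proof.  `F w = f(w) exp (R2 z w - r2 w)` is integrable (`inner_int`) and invariant under the `k`-th roots of unity
(`hf`, `R2_smul_right`, `r2_smul`), so `∫ F = k ∫_{nearS s z} F + ∫_{farS} F` (`part_int`).
(near) `R2 z w - r2 w = r2 z - R2 w z - D2 z w`, so `e^(-r2 z) F w = H(w) e^(-D)`, `H(w) = f(w) exp (-R2 w z)`;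
`∫_{near} H e^(-L) = f(z) e^(-r2 z) gg z` (`near_mean`).  So
`conj f(z) e^(-r2 z) ∫_{near} F = wt f z gg z + conj f(z) ∫_{near} H (e^(-D) - e^(-L))` and
`|f(z) H(w) (e^(-D) - e^(-L))| = |f(z)| |f(w)| e^(-Re R2) |e^(-D) - e^(-L)| = ph z ph w Kn z w` since
`Re R2 = (r2 z + r2 w - D)/2`.
(far) `|conj f(z) e^(-r2 z) F w| = |f(z)| |f(w)| e^(Re R2 - r2 z - r2 w) = ph z ph w e^(-D/2) = ph z ph w Kf z w`.
Integrability: continuous functions on the bounded set `nearS s z` (`ball_fin`, closure compact), `ph_int` on `farS`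
(`e^(-D/2) ≤ 1` by `D2_nonneg`); `nearS s z` is open, `farS k s z` is closed.
Take real parts.
-/

namespace Pool.Agent.Work.MP_49847a_an

open MvPolynomial MeasureTheory

variable {n k p q : ℕ} {c s c₃ M : ℝ} {P : Fin p → MvPolynomial (Fin n) ℂ}
  {Q : Fin q → MvPolynomial (Fin n) ℂ}

private theorem cj_near_int {E : Type} [NormedAddCommGroup E] {g : (Fin n → ℂ) → E}
    (hg : Continuous g) (s : ℝ) (z : Fin n → ℂ) : IntegrableOn g (nearS s z) := by
  have hc : IsCompact {w : Fin n → ℂ | nn (w - z) ≤ s * nn z} := by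
    have h1 := (nn_cpt (n := n) (s * nn z)).image
      (continuous_const.add continuous_id : Continuous fun y : Fin n → ℂ => z + y)
    refine h1.of_isClosed_subset (isClosed_le
      (nn_continuous.comp (continuous_id.sub continuous_const)) continuous_const) ?_
    intro w hw
    exact ⟨w - z, hw, add_sub_cancel z w⟩
  refine (hg.continuousOn.integrableOn_compact hc).mono_set ?_
  intro w hw
  show nn (w - z) ≤ s * nn z
  exact le_of_lt hw

private theorem cj_near_open (s : ℝ) (z : Fin n → ℂ) : IsOpen (nearS s z) :=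
  isOpen_lt (nn_continuous.comp (continuous_id.sub continuous_const)) continuous_const

private theorem cj_far_closed (k : ℕ) (s : ℝ) (z : Fin n → ℂ) : IsClosed (farS k s z) := by
  unfold farS
  simp only [Set.ofPred_forall]
  refine isClosed_iInter fun ζ => isClosed_iInter fun _ => ?_
  exact isClosed_le continuous_const (nn_continuous.comp (continuous_id.sub continuous_const))

private theorem cj_re (z w : Fin n → ℂ) :
    (R2 P Q z w).re = (r2 P Q z + r2 P Q w - D2 P Q z w) / 2 := by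
  unfold D2
  ring

private theorem cj_re' (z w : Fin n → ℂ) :
    (R2 P Q w z).re = (r2 P Q z + r2 P Q w - D2 P Q z w) / 2 := by
  rw [← R2_conj P Q z w, Complex.conj_re, cj_re]

/-- `-r2 z + R2 z w - r2 w = -D2 z w - R2 w z` -/
private theorem cj_exp (z w : Fin n → ℂ) :
    (Real.exp (-(r2 P Q z)) : ℂ) * Complex.exp (R2 P Q z w - (r2 P Q w : ℂ)) =
      Complex.exp (-(R2 P Q w z)) * (Real.exp (-(D2 P Q z w)) : ℂ) := by
  have h1 : R2 P Q z w + R2 P Q w z = ((2 * (R2 P Q z w).re : ℝ) : ℂ) := by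
    rw [← R2_conj P Q z w, Complex.add_conj]
  have h2 : ((D2 P Q z w : ℝ) : ℂ) = (r2 P Q z : ℂ) + (r2 P Q w : ℂ) -
      (R2 P Q z w + R2 P Q w z) := by
    rw [h1]
    unfold D2
    push_cast
    ring
  rw [Complex.ofReal_exp, Complex.ofReal_exp, ← Complex.exp_add, ← Complex.exp_add]
  congr 1
  rw [Complex.ofReal_neg, Complex.ofReal_neg, h2]
  ring

private theorem cj_Kn (f : MvPolynomial (Fin n) ℂ) (z w : Fin n → ℂ) :
    ‖(starRingEnd ℂ) (eval z f) * (eval w f * Complex.exp (-(R2 P Q w z)) *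
      ((Real.exp (-(D2 P Q z w)) : ℂ) - (Real.exp (-(lev2 P Q z (w - z))) : ℂ)))‖ =
      ph P Q f z * (ph P Q f w * Kn P Q z w) := by
  have h1 : ‖(starRingEnd ℂ) (eval z f)‖ = ‖eval z f‖ := RCLike.norm_conj _
  have h2 : ‖(Real.exp (-(D2 P Q z w)) : ℂ) - (Real.exp (-(lev2 P Q z (w - z))) : ℂ)‖ =
      |Real.exp (-(D2 P Q z w)) - Real.exp (-(lev2 P Q z (w - z)))| := by
    rw [← Complex.ofReal_sub, Complex.norm_real, Real.norm_eq_abs]
  have h3 : Real.exp (-(R2 P Q w z)).re = Real.exp (-(r2 P Q z) / 2) *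
      (Real.exp (-(r2 P Q w) / 2) * Real.exp (D2 P Q z w / 2)) := by
    rw [← Real.exp_add, ← Real.exp_add, Complex.neg_re, cj_re']
    congr 1
    ring
  rw [norm_mul, norm_mul, norm_mul, h1, h2, Complex.norm_exp, h3]
  unfold ph Kn
  ring

private theorem cj_Kf (f : MvPolynomial (Fin n) ℂ) (z w : Fin n → ℂ) :
    ‖(starRingEnd ℂ) (eval z f) * (Real.exp (-(r2 P Q z)) : ℂ) *
      (eval w f * Complex.exp (R2 P Q z w - (r2 P Q w : ℂ)))‖ =
      ph P Q f z * (ph P Q f w * Kf P Q z w) := by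
  have h1 : ‖(starRingEnd ℂ) (eval z f)‖ = ‖eval z f‖ := RCLike.norm_conj _
  have h2 : ‖(Real.exp (-(r2 P Q z)) : ℂ)‖ = Real.exp (-(r2 P Q z)) := by
    rw [Complex.norm_real, Real.norm_of_nonneg (Real.exp_pos _).le]
  have h3 : Real.exp (-(r2 P Q z)) * Real.exp ((R2 P Q z w - (r2 P Q w : ℂ)).re) =
      Real.exp (-(r2 P Q z) / 2) * (Real.exp (-(r2 P Q w) / 2) *
        Real.exp (-(D2 P Q z w) / 2)) := by
    rw [← Real.exp_add, ← Real.exp_add, ← Real.exp_add, Complex.sub_re, Complex.ofReal_re, cj_re]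
    congr 1
    ring
  rw [norm_mul, norm_mul, norm_mul, h1, h2, Complex.norm_exp]
  unfold ph Kf
  calc ‖eval z f‖ * Real.exp (-(r2 P Q z)) *
        (‖eval w f‖ * Real.exp ((R2 P Q z w - (r2 P Q w : ℂ)).re)) =
      ‖eval z f‖ * ‖eval w f‖ * (Real.exp (-(r2 P Q z)) *
        Real.exp ((R2 P Q z w - (r2 P Q w : ℂ)).re)) := by ring
    _ = _ := by
      rw [h3]
      ring


private theorem cj_cont (f : MvPolynomial (Fin n) ℂ) (z : Fin n → ℂ) :
    Continuous (ph P Q f) ∧ (Continuous fun w => Kn P Q z w) ∧ (Continuous fun w => Kf P Q z w) ∧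
    (Continuous fun w => (starRingEnd ℂ) (eval z f) * (eval w f *
      Complex.exp (-(R2 P Q w z)) * (Real.exp (-(lev2 P Q z (w - z))) : ℂ))) ∧
    (Continuous fun w => (starRingEnd ℂ) (eval z f) * (eval w f *
      Complex.exp (-(R2 P Q w z)) * ((Real.exp (-(D2 P Q z w)) : ℂ) -
        (Real.exp (-(lev2 P Q z (w - z))) : ℂ)))) := by
  have hev : Continuous fun w : Fin n → ℂ => eval w f := MvPolynomial.continuous_eval f
  have hr2 : Continuous (r2 P Q) := r2_continuous P Q
  have hRr : Continuous fun w : Fin n → ℂ => R2 P Q w z :=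
    ((R2_continuous P Q).comp (Continuous.prodMk_left z)).congr fun w => rfl
  have hD : Continuous fun w : Fin n → ℂ => D2 P Q z w :=
    ((D2_continuous P Q).comp (Continuous.prodMk_right z)).congr fun w => rfl
  have hL : Continuous fun w : Fin n → ℂ => lev2 P Q z (w - z) :=
    (((lev2_continuous P Q).comp (Continuous.prodMk_right z)).comp
      (continuous_id.sub continuous_const)).congr fun w => rfl
  have e1 : Continuous fun w : Fin n → ℂ => ((Real.exp (-(D2 P Q z w)) : ℝ) : ℂ) :=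
    Complex.continuous_ofReal.comp (Real.continuous_exp.comp hD.neg)
  have e2 : Continuous fun w : Fin n → ℂ => ((Real.exp (-(lev2 P Q z (w - z))) : ℝ) : ℂ) :=
    Complex.continuous_ofReal.comp (Real.continuous_exp.comp hL.neg)
  have e3 : Continuous fun w : Fin n → ℂ => Complex.exp (-(R2 P Q w z)) :=
    Complex.continuous_exp.comp hRr.neg
  refine ⟨?_, ?_, ?_, ?_, ?_⟩
  · exact hev.norm.mul (Real.continuous_exp.comp (hr2.neg.div_const 2))
  · exact (Real.continuous_exp.comp (hD.div_const 2)).mul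
      ((Real.continuous_exp.comp hD.neg).sub (Real.continuous_exp.comp hL.neg)).abs
  · exact Real.continuous_exp.comp (hD.neg.div_const 2)
  · exact continuous_const.mul ((hev.mul e3).mul e2)
  · exact continuous_const.mul ((hev.mul e3).mul (e1.sub e2))

private theorem re_ge (x : ℂ) (t : ℝ) (h : ‖x‖ ≤ t) : -t ≤ x.re := by
  have h3 := Complex.abs_re_le_norm x
  have h4 := neg_abs_le x.re
  linarith

private theorem cj_farp (f : MvPolynomial (Fin n) ℂ) (s : ℝ) (z : Fin n → ℂ) :
    -(ph P Q f z * ∫ w in farS k s z, ph P Q f w * Kf P Q z w) ≤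
      ((starRingEnd ℂ) (eval z f) * (Real.exp (-(r2 P Q z)) : ℂ) *
        ∫ w in farS k s z, eval w f * Complex.exp (R2 P Q z w - (r2 P Q w : ℂ))).re := by
  apply re_ge
  rw [← integral_const_mul, ← integral_const_mul]
  refine (norm_integral_le_integral_norm _).trans (le_of_eq ?_)
  exact integral_congr_ae (Filter.Eventually.of_forall fun w => cj_Kf f z w)

private theorem cj_split (f : MvPolynomial (Fin n) ℂ) (s : ℝ) (z : Fin n → ℂ) :
    (starRingEnd ℂ) (eval z f) * (Real.exp (-(r2 P Q z)) : ℂ) *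
        ∫ w in nearS s z, eval w f * Complex.exp (R2 P Q z w - (r2 P Q w : ℂ)) =
        (∫ w in nearS s z, (starRingEnd ℂ) (eval z f) * (eval w f *
          Complex.exp (-(R2 P Q w z)) * (Real.exp (-(lev2 P Q z (w - z))) : ℂ))) +
        ∫ w in nearS s z, (starRingEnd ℂ) (eval z f) * (eval w f *
          Complex.exp (-(R2 P Q w z)) * ((Real.exp (-(D2 P Q z w)) : ℂ) -
            (Real.exp (-(lev2 P Q z (w - z))) : ℂ))) := by
  obtain ⟨-, -, -, hG1c, hG2c⟩ := cj_cont (P := P) (Q := Q) f z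
  rw [← integral_add (cj_near_int hG1c s z) (cj_near_int hG2c s z), ← integral_const_mul]
  refine integral_congr_ae (Filter.Eventually.of_forall fun w => ?_)
  have h2 := cj_exp (P := P) (Q := Q) z w
  calc (starRingEnd ℂ) (eval z f) * (Real.exp (-(r2 P Q z)) : ℂ) *
        (eval w f * Complex.exp (R2 P Q z w - (r2 P Q w : ℂ))) =
      (starRingEnd ℂ) (eval z f) * (eval w f * ((Real.exp (-(r2 P Q z)) : ℂ) *
        Complex.exp (R2 P Q z w - (r2 P Q w : ℂ)))) := by ring
    _ = _ := by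
      rw [h2]
      ring

private theorem cj_main (h : CS k c P Q) (f : MvPolynomial (Fin n) ℂ) (s : ℝ)
    (z : Fin n → ℂ) :
    ∫ w in nearS s z, (starRingEnd ℂ) (eval z f) * (eval w f *
          Complex.exp (-(R2 P Q w z)) * (Real.exp (-(lev2 P Q z (w - z))) : ℂ)) =
        ((wt P Q f z * gg s P Q z : ℝ) : ℂ) := by
  rw [integral_const_mul, near_mean h s f z]
  unfold wt
  have h3 : (starRingEnd ℂ) (eval z f) * eval z f = ((‖eval z f‖ ^ 2 : ℝ) : ℂ) := by
    rw [mul_comm, Complex.mul_conj, Complex.normSq_eq_norm_sq]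
  calc (starRingEnd ℂ) (eval z f) * (eval z f * (Real.exp (-(r2 P Q z)) : ℂ) *
        (gg s P Q z : ℂ)) = ((starRingEnd ℂ) (eval z f) * eval z f) *
        (Real.exp (-(r2 P Q z)) : ℂ) * (gg s P Q z : ℂ) := by ring
    _ = _ := by
      rw [h3]
      push_cast
      ring

private theorem cj_nearp (h : CS k c P Q) (f : MvPolynomial (Fin n) ℂ) (s : ℝ)
    (z : Fin n → ℂ) : wt P Q f z * gg s P Q z -
      ph P Q f z * ∫ w in nearS s z, ph P Q f w * Kn P Q z w ≤
      ((starRingEnd ℂ) (eval z f) * (Real.exp (-(r2 P Q z)) : ℂ) *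
        ∫ w in nearS s z, eval w f * Complex.exp (R2 P Q z w - (r2 P Q w : ℂ))).re := by
  rw [cj_split, cj_main h, Complex.add_re, Complex.ofReal_re, sub_eq_add_neg]
  refine add_le_add le_rfl (re_ge _ _ ?_)
  rw [← integral_const_mul]
  refine (norm_integral_le_integral_norm _).trans (le_of_eq ?_)
  exact integral_congr_ae (Filter.Eventually.of_forall fun w => cj_Kn f z w)

private theorem cj_KK (h : CS k c P Q) (f : MvPolynomial (Fin n) ℂ) (s : ℝ)
    (z : Fin n → ℂ) : ∫ w, ph P Q f w * KK k s P Q z w =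
      k * (∫ w in nearS s z, ph P Q f w * Kn P Q z w) +
        ∫ w in farS k s z, ph P Q f w * Kf P Q z w := by
  obtain ⟨hph, hKn, hKf, -, -⟩ := cj_cont (P := P) (Q := Q) f z
  have hph0 : Integrable (ph P Q f) := by
    have := (ph_int h f 0).1
    simpa only [pow_zero, mul_one] using this
  have hi1 : IntegrableOn (fun w => ph P Q f w * Kn P Q z w) (nearS s z) :=
    cj_near_int (hph.mul hKn) s z
  have hi2 : Integrable (fun w => ph P Q f w * Kf P Q z w) := by
    refine hph0.mono' (hph.mul hKf).aestronglyMeasurable (Filter.Eventually.of_forall fun w => ?_)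
    have h1 : 0 ≤ ph P Q f w := by
      unfold ph
      positivity
    have h2 : Kf P Q z w ≤ 1 := by
      unfold Kf
      rw [Real.exp_le_one_iff]
      have := D2_nonneg h z w
      linarith
    have h3 : 0 ≤ Kf P Q z w := by
      unfold Kf
      exact (Real.exp_pos _).le
    rw [Real.norm_of_nonneg (mul_nonneg h1 h3)]
    exact mul_le_of_le_one_right h1 h2
  have hm1 := (cj_near_open s z).measurableSet
  have hm2 := (cj_far_closed k s z).measurableSet
  rw [← integral_indicator hm1, ← integral_indicator hm2, ← integral_const_mul,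
    ← integral_add (((integrable_indicator_iff hm1).2 hi1).const_mul _)
      (hi2.indicator hm2)]
  refine integral_congr_ae (Filter.Eventually.of_forall fun w => ?_)
  show ph P Q f w * (k * (nearS s z).indicator (Kn P Q z) w +
    (farS k s z).indicator (Kf P Q z) w) = k * (nearS s z).indicator
      (fun w => ph P Q f w * Kn P Q z w) w + (farS k s z).indicator
      (fun w => ph P Q f w * Kf P Q z w) w
  have h1 : (nearS s z).indicator (fun w => ph P Q f w * Kn P Q z w) w =
      ph P Q f w * (nearS s z).indicator (Kn P Q z) w := by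
    by_cases hw : w ∈ nearS s z
    · rw [Set.indicator_of_mem hw, Set.indicator_of_mem hw]
    · rw [Set.indicator_of_notMem hw, Set.indicator_of_notMem hw, mul_zero]
  have h2 : (farS k s z).indicator (fun w => ph P Q f w * Kf P Q z w) w =
      ph P Q f w * (farS k s z).indicator (Kf P Q z) w := by
    by_cases hw : w ∈ farS k s z
    · rw [Set.indicator_of_mem hw, Set.indicator_of_mem hw]
    · rw [Set.indicator_of_notMem hw, Set.indicator_of_notMem hw, mul_zero]
  rw [h1, h2]
  ring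

private theorem cj_part (h : CS k c P Q) (hN : NearC k s c₃ M P Q) {f : MvPolynomial (Fin n) ℂ}
    (hf : ∀ ζ : ℂ, ζ ^ k = 1 → ∀ z, eval (ζ • z) f = eval z f) (z : Fin n → ℂ) :
    ∫ w, eval w f * Complex.exp (R2 P Q z w - (r2 P Q w : ℂ)) =
      k * (∫ w in nearS s z, eval w f * Complex.exp (R2 P Q z w - (r2 P Q w : ℂ))) +
      ∫ w in farS k s z, eval w f * Complex.exp (R2 P Q z w - (r2 P Q w : ℂ)) := by
  have hk := h.hk
  refine part_int hk hN.hs hN.sep (inner_int h f z) ?_ z
  intro ζ hζ w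
  have h1 : ‖ζ‖ = 1 := Complex.norm_eq_one_of_pow_eq_one hζ hk.ne'
  have h2 : (starRingEnd ℂ) ζ ^ k = 1 := by rw [← map_pow, hζ, map_one]
  rw [hf ζ hζ, R2_smul_right h, r2_smul h, h1, h2, one_pow, one_pow, one_mul, one_mul]

theorem cd_J (h : CS k c P Q) (hN : NearC k s c₃ M P Q) {f : MvPolynomial (Fin n) ℂ}
    (hf : ∀ ζ : ℂ, ζ ^ k = 1 → ∀ z, eval (ζ • z) f = eval z f) (z : Fin n → ℂ) :
    k * (wt P Q f z * gg s P Q z) - ph P Q f z * ∫ w, ph P Q f w * KK k s P Q z w ≤
      ((starRingEnd ℂ) (eval z f) * (Real.exp (-(r2 P Q z)) : ℂ) *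
        ∫ w, eval w f * Complex.exp (R2 P Q z w - (r2 P Q w : ℂ))).re := by
  have h1 := cj_farp (P := P) (Q := Q) (k := k) f s z
  have h2 := cj_nearp h f s z
  rw [cj_part h hN hf z, cj_KK h f s z]
  generalize (starRingEnd ℂ) (eval z f) * (Real.exp (-(r2 P Q z)) : ℂ) = A at h1 h2 ⊢
  generalize (∫ w in nearS s z, eval w f * Complex.exp (R2 P Q z w - (r2 P Q w : ℂ))) = X at h2 ⊢
  generalize (∫ w in farS k s z, eval w f * Complex.exp (R2 P Q z w - (r2 P Q w : ℂ))) = Y
    at h1 ⊢
  generalize (∫ w in nearS s z, ph P Q f w * Kn P Q z w) = U at h2 ⊢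
  generalize (∫ w in farS k s z, ph P Q f w * Kf P Q z w) = V at h1 ⊢
  have e : A * (k * X + Y) = ((k : ℝ) : ℂ) * (A * X) + A * Y := by
    rw [Complex.ofReal_natCast]
    ring
  rw [e, Complex.add_re, Complex.re_ofReal_mul]
  have h3 := mul_le_mul_of_nonneg_left h2 (Nat.cast_nonneg k : (0 : ℝ) ≤ k)
  linarith

end Pool.Agent.Work.MP_49847a_an
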