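import Pool.Agent.Work.MP_49847a_an.Sg.BigL

/-!
# Module CMeanR: mean value property for circular weights

Proof.
(measure_rot) multiplication by `ζ`, `‖ζ‖ = 1`, on `Fin n → ℂ` preserves the Lebesgue measure: it is a real linear
map with determinant of absolute value one; or `MeasureTheory.volume_preserving_pi` from the one dimensional case
(`LinearIsometryEquiv.measurePreserving` for `rotation` of `ℂ`).
(mean_val) `B = {y : nn y < ρ}` is invariant under `y ↦ ζ y`.  For `θ ∈ [0, 2π]`:
`∫_B f(y) g(y) dy = ∫_B f(e^{iθ} y) g(y) dy`.  Integrate over `θ`, divide by `2π`, exchange (continuous integrand on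
the bounded set `B × [0, 2π]`, `MeasureTheory.integral_integral_swap`, `IntegrableOn` of a bounded measurable
function on a set of finite measure): the inner integral is `(1/2π) ∫ f(e^{iθ} y) dθ = f(0)` (mean value property of
the entire function `t ↦ f(t y)`: `circleAverage`, or `circleIntegral` and the Cauchy integral formula
`Complex.circleIntegral_sub_inv_smul_of_differentiable_on...`).
-/

namespace Pool.Agent.Work.MP_49847a_an

open MvPolynomial MeasureTheory

variable {n : ℕ}

private theorem rot_one {ζ : ℂ} (hζ : ‖ζ‖ = 1) :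
    MeasurePreserving (fun y : ℂ => ζ • y) volume volume := by
  have h := (rotation (⟨ζ, by simpa [Submonoid.unitSphere] using hζ⟩ : Circle)).measurePreserving
  have e : (fun y : ℂ => ζ • y) =
      ⇑(rotation (⟨ζ, by simpa [Submonoid.unitSphere] using hζ⟩ : Circle)) := by
    funext y
    simp [rotation_apply]
  rw [e]
  exact h

theorem measure_rot {ζ : ℂ} (hζ : ‖ζ‖ = 1) :
    MeasurePreserving (fun y : Fin n → ℂ => ζ • y) volume volume := by
  have h := volume_preserving_pi (ι := Fin n) (α' := fun _ => ℂ) (β' := fun _ => ℂ)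
    (f := fun _ => fun y : ℂ => ζ • y) (fun _ => rot_one hζ)
  exact h

private theorem nn_rot {ζ : ℂ} (hζ : ‖ζ‖ = 1) (y : Fin n → ℂ) : nn (ζ • y) = nn y := by
  unfold nn
  refine Finset.sum_congr rfl fun i _ => ?_
  rw [Pi.smul_apply, norm_smul, hζ, one_mul]

private theorem cont_nn : Continuous (fun y : Fin n → ℂ => nn y) := by
  unfold nn
  fun_prop

private theorem ball_sub (ρ : ℝ) :
    {y : Fin n → ℂ | nn y < ρ} ⊆ Metric.closedBall 0 (Real.sqrt ρ) := by
  intro y hy
  rw [mem_closedBall_zero_iff]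
  refine (pi_norm_le_iff_of_nonneg (Real.sqrt_nonneg _)).2 fun i => ?_
  refine Real.le_sqrt_of_sq_le ?_
  have h1 : ‖y i‖ ^ 2 ≤ nn y := by
    unfold nn
    exact Finset.single_le_sum (f := fun i => ‖y i‖ ^ 2) (fun j _ => by positivity)
      (Finset.mem_univ i)
  exact h1.trans (le_of_lt hy)

private theorem mean_line {f : (Fin n → ℂ) → ℂ} (hf : Differentiable ℂ f) (y : Fin n → ℂ) :
    ∫ θ in Set.Ioc 0 (2 * Real.pi), f (circleMap 0 1 θ • y) = 2 * Real.pi * f 0 := by
  have h1 : Differentiable ℂ (fun t : ℂ => f (t • y)) :=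
    hf.comp (differentiable_id.smul_const y)
  have h2 : Real.circleAverage (fun t : ℂ => f (t • y)) 0 1 = f ((0 : ℂ) • y) :=
    DiffContOnCl.circleAverage h1.diffContOnCl
  rw [Real.circleAverage_def, zero_smul] at h2
  rw [intervalIntegral.integral_of_le (by positivity)] at h2
  have hp : (2 * Real.pi : ℝ) ≠ 0 := by positivity
  rw [← h2]
  rw [Complex.real_smul]
  push_cast
  rw [← mul_assoc]
  have hp2 : (2 * (Real.pi : ℂ)) * (2 * (Real.pi : ℂ))⁻¹ = 1 := by
    apply mul_inv_cancel₀
    exact_mod_cast hp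
  rw [hp2, one_mul]

theorem mean_val {f : (Fin n → ℂ) → ℂ} (hf : Differentiable ℂ f) {g : (Fin n → ℂ) → ℝ}
    (hg : Continuous g) (hrot : ∀ (ζ : ℂ) (y : Fin n → ℂ), ‖ζ‖ = 1 → g (ζ • y) = g y) (ρ : ℝ) :
    ∫ y in {y : Fin n → ℂ | nn y < ρ}, f y * (g y : ℂ) =
      f 0 * ((∫ y in {y : Fin n → ℂ | nn y < ρ}, g y : ℝ) : ℂ) := by
  set B : Set (Fin n → ℂ) := {y : Fin n → ℂ | nn y < ρ} with hB
  have hBm : MeasurableSet B := (isOpen_lt cont_nn continuous_const).measurableSet
  have hpi : (0 : ℝ) < 2 * Real.pi := by positivity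
  -- rotation of the variable
  have hr : ∀ θ : ℝ, ∫ y in B, f (circleMap 0 1 θ • y) * (g y : ℂ) = ∫ y in B, f y * (g y : ℂ) := by
    intro θ
    have hζ : ‖circleMap 0 1 θ‖ = 1 := by simp
    have hne : circleMap 0 1 θ ≠ 0 := by
      intro h
      rw [h, norm_zero] at hζ
      exact zero_ne_one hζ
    have h1 := (measure_rot (n := n) hζ).setIntegral_preimage_emb
      (Homeomorph.smulOfNeZero (α := Fin n → ℂ) _ hne).measurableEmbedding
      (fun y => f y * (g y : ℂ)) B
    have h2 : (fun y : Fin n → ℂ => circleMap 0 1 θ • y) ⁻¹' B = B := by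
      ext y
      simp only [hB, Set.mem_preimage, Set.mem_ofPred_eq, nn_rot hζ]
    rw [h2] at h1
    rw [← h1]
    refine setIntegral_congr_fun hBm fun y _ => ?_
    rw [hrot _ y hζ]
  -- integrability
  have hint : Integrable (Function.uncurry fun (θ : ℝ) (y : Fin n → ℂ) =>
      f (circleMap 0 1 θ • y) * (g y : ℂ))
      ((volume.restrict (Set.Ioc 0 (2 * Real.pi))).prod (volume.restrict B)) := by
    rw [Measure.prod_restrict]
    have hc : Continuous (Function.uncurry fun (θ : ℝ) (y : Fin n → ℂ) =>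
        f (circleMap 0 1 θ • y) * (g y : ℂ)) := by
      have hcf := hf.continuous
      have hcm : Continuous (circleMap 0 1) := continuous_circleMap 0 1
      unfold Function.uncurry
      fun_prop
    have hK : IsCompact ((Set.Icc (0 : ℝ) (2 * Real.pi)) ×ˢ
        (Metric.closedBall (0 : Fin n → ℂ) (Real.sqrt ρ))) :=
      isCompact_Icc.prod (isCompact_closedBall _ _)
    have h3 := hc.continuousOn.integrableOn_compact (μ := (volume : Measure ℝ).prod
      (volume : Measure (Fin n → ℂ))) hK
    exact h3.mono_set (Set.prod_mono Set.Ioc_subset_Icc_self (ball_sub ρ))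
  have hsw := integral_integral_swap hint
  have hL : ∫ θ in Set.Ioc 0 (2 * Real.pi), (∫ y in B, f (circleMap 0 1 θ • y) * (g y : ℂ)) =
      (2 * Real.pi : ℝ) * ∫ y in B, f y * (g y : ℂ) := by
    simp only [hr]
    rw [setIntegral_const, Complex.real_smul]
    congr 2
    rw [Measure.real, Real.volume_Ioc, ENNReal.toReal_ofReal (by linarith)]
    ring
  have hR : ∫ y in B, (∫ θ in Set.Ioc 0 (2 * Real.pi), f (circleMap 0 1 θ • y) * (g y : ℂ)) =
      (2 * Real.pi : ℝ) * (f 0 * ((∫ y in B, g y : ℝ) : ℂ)) := by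
    have h4 : ∀ y : Fin n → ℂ, (∫ θ in Set.Ioc 0 (2 * Real.pi), f (circleMap 0 1 θ • y) * (g y : ℂ))
        = (2 * Real.pi * f 0) * (g y : ℂ) := by
      intro y
      rw [integral_mul_const, mean_line hf y]
    simp only [h4]
    rw [integral_const_mul, integral_complex_ofReal]
    push_cast
    ring
  rw [hL, hR] at hsw
  have hne : ((2 * Real.pi : ℝ) : ℂ) ≠ 0 := by
    exact_mod_cast hpi.ne'
  exact mul_left_cancel₀ hne hsw

end Pool.Agent.Work.MP_49847a_an
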