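import Pool.Agent.Work.MP_49847a_an.Sg.SDefs

/-!
# Module CMo: monomials of a fixed degree

`ix n D`: the exponents of the monomials of degree `D` in `n` variables; `mo α` the monomial.
Proof.
(mo_hom) product of homogeneous polynomials (`IsHomogeneous.prod`, `isHomogeneous_X`, `IsHomogeneous.pow`).
(hom_expand) a homogeneous polynomial of degree `D` is `∑_α coeff_α • mo α` (`MvPolynomial.as_sum`, `degree` of the
exponents in the support; the exponents are `≤ D`).  `mo α = monomial (exponent) 1`.
(mo_indep) compare coefficients.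
-/

namespace Pool.Agent.Work.MP_49847a_an

open MvPolynomial

/-- exponents of degree `D` -/
abbrev ix (n D : ℕ) : Type := {α : Fin n → Fin (D + 1) // ∑ i, (α i : ℕ) = D}

/-- the monomial with exponent `α` -/
noncomputable def mo {n D : ℕ} (α : ix n D) : MvPolynomial (Fin n) ℂ :=
  ∏ i, X i ^ (α.1 i : ℕ)

/-- the exponent of `mo α` -/
private noncomputable def ee {n D : ℕ} (α : ix n D) : Fin n →₀ ℕ :=
  Finsupp.equivFunOnFinite.symm (fun i => (α.1 i : ℕ))

private theorem ee_apply {n D : ℕ} (α : ix n D) (i : Fin n) : ee α i = (α.1 i : ℕ) := rfl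

private theorem ee_inj {n D : ℕ} : Function.Injective (ee : ix n D → (Fin n →₀ ℕ)) := by
  intro α β h
  apply Subtype.ext
  funext i
  apply Fin.ext
  have := DFunLike.congr_fun h i
  rwa [ee_apply, ee_apply] at this

private theorem mo_eq {n D : ℕ} (α : ix n D) : mo α = monomial (ee α) (1 : ℂ) := by
  rw [MvPolynomial.monomial_eq, C_1, one_mul, Finsupp.prod_fintype _ _ (fun i => pow_zero _)]
  rfl

private theorem coeff_sum_mo {n D : ℕ} (x : ix n D → ℂ) (m : Fin n →₀ ℕ) :
    coeff m (∑ α, C (x α) * mo α) = ∑ α, if ee α = m then x α else 0 := by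
  rw [coeff_sum]
  refine Finset.sum_congr rfl fun α _ => ?_
  rw [coeff_C_mul, mo_eq, coeff_monomial]
  split_ifs <;> simp

private theorem coeff_sum_mo_ee {n D : ℕ} (x : ix n D → ℂ) (β : ix n D) :
    coeff (ee β) (∑ α, C (x α) * mo α) = x β := by
  rw [coeff_sum_mo]
  simp only [ee_inj.eq_iff]
  rw [Finset.sum_ite_eq' Finset.univ β x, if_pos (Finset.mem_univ β)]

theorem mo_hom {n D : ℕ} (α : ix n D) : (mo α).IsHomogeneous D := by
  have h := IsHomogeneous.prod (R := ℂ) Finset.univ (fun i : Fin n => X i ^ (α.1 i : ℕ))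
    (fun i => (α.1 i : ℕ)) (fun i _ => by
      have := (isHomogeneous_X ℂ i).pow (α.1 i : ℕ)
      rwa [one_mul] at this)
  rw [α.2] at h
  exact h

theorem hom_expand {n D : ℕ} {f : MvPolynomial (Fin n) ℂ} (hf : f.IsHomogeneous D) :
    ∃ x : ix n D → ℂ, f = ∑ α, C (x α) * mo α := by
  refine ⟨fun α => coeff (ee α) f, ?_⟩
  ext m
  by_cases hm : ∑ i, m i = D
  · have hle : ∀ i, m i < D + 1 := by
      intro i
      have := Finset.single_le_sum (f := fun i => m i) (fun i _ => Nat.zero_le _)
        (Finset.mem_univ i)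
      omega
    let β : ix n D := ⟨fun i => ⟨m i, hle i⟩, hm⟩
    have hβ : ee β = m := by
      ext i
      rfl
    rw [← hβ, coeff_sum_mo_ee]
  · rw [coeff_sum_mo]
    have h0 : coeff m f = 0 := by
      by_contra hne
      apply hm
      have := hf hne
      rw [Finsupp.weight_apply, Finsupp.sum_fintype _ _ (fun i => by simp)] at this
      simpa using this
    rw [h0]
    symm
    refine Finset.sum_eq_zero fun α _ => ?_
    rw [if_neg]
    intro h
    apply hm
    rw [← h]
    exact α.2

theorem mo_indep {n D : ℕ} {x : ix n D → ℂ} (h : ∑ α, C (x α) * mo α = 0) : x = 0 := by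
  funext β
  rw [← coeff_sum_mo_ee x β, h, coeff_zero]
  rfl

end Pool.Agent.Work.MP_49847a_an
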