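import Pool.Agent.Work.MP_49847a_an.Sg.CNearL
import Pool.Agent.Work.MP_49847a_an.Sg.CRoot

/-!
# Module CNear: the second difference near the diagonal

Proof.  `c₃` from `lev2_lower`.
(theta) `tay2` with `R = 4`: for `nn z = 1`, `nn y ≤ 1` (so `nn (z + y) ≤ 4`):
`|D2 z (z+y) - lev2 z y| ≤ M nn y √(nn y)`.  Scaling by `√(nn z)` (`D2_smul`, `lev2_smul`): for `nn y ≤ nn z`:
`|D2 - lev2| ≤ M nn z^k (nn y/nn z) √(nn y/nn z)`, that is `|D2 - lev2| √(nn z) ≤ M nn z^(k-1) nn y √(nn y)`.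
(quarter) so `|D2 - lev2| ≤ M nn z^(k-1) nn y √s ≤ (c₃/4) nn z^(k-1) nn y ≤ lev2/4` for `√s ≤ c₃/(4 M)`.
(upper) `lev2_upper`.
(z = 0) `nn (w - z) ≤ s nn z` gives `w = z` and everything is zero.
(separation) `root_sep`; `s` the minimum of all bounds, `s ≤ 1/16`.
-/

namespace Pool.Agent.Work.MP_49847a_an

open MvPolynomial

variable {n k p q : ℕ} {c : ℝ} {P : Fin p → MvPolynomial (Fin n) ℂ}
  {Q : Fin q → MvPolynomial (Fin n) ℂ}

private theorem near_zero {z w : Fin n → ℂ} {s : ℝ} (hz : z = 0)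
    (hw : nn (w - z) ≤ s * nn z) : w = 0 := by
  subst hz
  rw [nn_eq_zero.2 rfl, mul_zero, sub_zero] at hw
  exact nn_eq_zero.1 (le_antisymm hw (nn_nonneg w))

private theorem near_D2_zero (P : Fin p → MvPolynomial (Fin n) ℂ)
    (Q : Fin q → MvPolynomial (Fin n) ℂ) (z : Fin n → ℂ) : D2 P Q z z = 0 := by
  unfold D2
  rw [R2_self, Complex.ofReal_re]
  ring

private theorem near_lev_zero (P : Fin p → MvPolynomial (Fin n) ℂ)
    (Q : Fin q → MvPolynomial (Fin n) ℂ) (z : Fin n → ℂ) : lev2 P Q z 0 = 0 := by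
  unfold lev2 dd
  simp

private theorem near_th (h : CS k c P Q) {M : ℝ}
    (hM : ∀ z w : Fin n → ℂ, nn z ≤ 4 → nn w ≤ 4 →
      |D2 P Q z w - lev2 P Q z (w - z)| ≤ M * (nn (w - z) * Real.sqrt (nn (w - z))))
    {s : ℝ} (hs : s ≤ 1 / 16) (z w : Fin n → ℂ) (hw : nn (w - z) ≤ s * nn z) :
    |D2 P Q z w - lev2 P Q z (w - z)| * Real.sqrt (nn z) ≤
      M * (nn z ^ (k - 1) * (nn (w - z) * Real.sqrt (nn (w - z)))) := by
  by_cases hz : z = 0
  · have hw0 := near_zero hz hw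
    subst hz
    subst hw0
    rw [sub_self, near_D2_zero, near_lev_zero, nn_eq_zero.2 rfl]
    simp
  have hT : 0 < nn z := lt_of_le_of_ne (nn_nonneg z) (fun h => hz (nn_eq_zero.1 h.symm))
  set T := nn z with hTd
  have hsT : 0 < Real.sqrt T := Real.sqrt_pos.2 hT
  set t : ℝ := (Real.sqrt T)⁻¹ with ht
  have ht0 : 0 < t := inv_pos.2 hsT
  have ht2 : t ^ 2 = T⁻¹ := by rw [ht, inv_pow, Real.sq_sqrt hT.le]
  have hnn : ∀ y : Fin n → ℂ, nn ((t : ℂ) • y) = T⁻¹ * nn y := by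
    intro y
    rw [nn_smul, Complex.norm_real, Real.norm_eq_abs, sq_abs, ht2]
  have hy := nn_nonneg (w - z)
  have e0 : (t : ℂ) • w - (t : ℂ) • z = (t : ℂ) • (w - z) := (smul_sub _ _ _).symm
  have h1 : nn ((t : ℂ) • z) = 1 := by
    rw [hnn]
    exact inv_mul_cancel₀ hT.ne'
  have h2 : nn ((t : ℂ) • (w - z)) ≤ 1 := by
    rw [hnn, inv_mul_le_iff₀ hT]
    nlinarith
  have h3 : nn ((t : ℂ) • w) ≤ 4 := by
    have := nn_add_le ((t : ℂ) • z) ((t : ℂ) • (w - z))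
    rw [← smul_add, add_sub_cancel] at this
    linarith
  have h4 := hM ((t : ℂ) • z) ((t : ℂ) • w) (by rw [h1]; norm_num) h3
  have hk1 : k - 1 + 1 = k := Nat.sub_add_cancel h.hk
  have h5 : D2 P Q ((t : ℂ) • z) ((t : ℂ) • w) - lev2 P Q ((t : ℂ) • z) ((t : ℂ) • w - (t : ℂ) • z)
      = (T⁻¹) ^ k * (D2 P Q z w - lev2 P Q z (w - z)) := by
    rw [e0, D2_smul h, lev2_smul h, Complex.norm_real, Real.norm_eq_abs, sq_abs, ht2,
      ← pow_succ, hk1]
    ring
  rw [h5, abs_mul, abs_of_pos (by positivity : (0 : ℝ) < (T⁻¹) ^ k), e0, hnn,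
    Real.sqrt_mul (by positivity : (0 : ℝ) ≤ T⁻¹), Real.sqrt_inv] at h4
  set A := |D2 P Q z w - lev2 P Q z (w - z)| with hA
  set y := nn (w - z) with hyd
  have h6 : (T⁻¹) ^ k * A * (T ^ k * Real.sqrt T) ≤
      M * (T⁻¹ * y * ((Real.sqrt T)⁻¹ * Real.sqrt y)) * (T ^ k * Real.sqrt T) :=
    mul_le_mul_of_nonneg_right h4 (by positivity)
  have h7 : (T⁻¹) ^ k * A * (T ^ k * Real.sqrt T) = A * Real.sqrt T := by
    rw [inv_pow]
    field_simp
  have h8 : M * (T⁻¹ * y * ((Real.sqrt T)⁻¹ * Real.sqrt y)) * (T ^ k * Real.sqrt T) =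
      M * (T ^ (k - 1) * (y * Real.sqrt y)) := by
    have : T ^ k = T ^ (k - 1) * T := by rw [← pow_succ, hk1]
    rw [this]
    field_simp
  rw [h7, h8] at h6
  exact h6

theorem cd_near (h : CS k c P Q) : ∃ s c₃ M : ℝ, NearC k s c₃ M P Q := by
  obtain ⟨c₃, hc3, hlo⟩ := lev2_lower h
  obtain ⟨M₁, hM1, hup⟩ := lev2_upper h
  obtain ⟨M₂, hM2, htay⟩ := tay2 P Q 4
  obtain ⟨s₀, hs0, hsep⟩ := root_sep h.hk
  set M := max M₁ M₂ with hM
  have hM0 : 0 < M := lt_of_lt_of_le hM1 (le_max_left _ _)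
  set s := min (min (1 / 16) s₀) ((c₃ / (4 * M)) ^ 2) with hsd
  have hs : 0 < s := lt_min (lt_min (by norm_num) hs0) (by positivity)
  have hs16 : s ≤ 1 / 16 := (min_le_left _ _).trans (min_le_left _ _)
  have hss0 : s ≤ s₀ := (min_le_left _ _).trans (min_le_right _ _)
  have hsq : Real.sqrt s ≤ c₃ / (4 * M) := by
    rw [Real.sqrt_le_left (by positivity)]
    exact min_le_right _ _
  have hth : ∀ z w : Fin n → ℂ, nn (w - z) ≤ s * nn z →
      |D2 P Q z w - lev2 P Q z (w - z)| * Real.sqrt (nn z) ≤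
        M * (nn z ^ (k - 1) * (nn (w - z) * Real.sqrt (nn (w - z)))) := by
    intro z w hw
    refine near_th h ?_ hs16 z w hw
    intro z w hz hw
    refine ((htay z w hz hw).2.2.1).trans ?_
    have := nn_nonneg (w - z)
    exact mul_le_mul_of_nonneg_right (le_max_right _ _) (by positivity)
  have hlo' : ∀ z w : Fin n → ℂ, nn (w - z) ≤ s * nn z →
      c₃ * (nn z ^ (k - 1) * nn (w - z)) ≤ lev2 P Q z (w - z) := by
    intro z w hw
    by_cases hz : z = 0
    · have hw0 := near_zero hz hw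
      subst hz
      subst hw0
      rw [sub_self, near_lev_zero, nn_eq_zero.2 rfl, mul_zero, mul_zero]
    · exact hlo z (w - z) hz
  refine ⟨s, c₃, M, hs, hs16, hc3, hM0, hlo', ?_, ?_, hth, ?_⟩
  · intro z w _
    have h1 := (le_abs_self _).trans (hup z (w - z))
    have h2 := nn_nonneg z
    have h3 := nn_nonneg (w - z)
    exact h1.trans (mul_le_mul_of_nonneg_right (le_max_left _ _) (by positivity))
  · intro z w hw
    by_cases hz : z = 0
    · have hw0 := near_zero hz hw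
      subst hz
      subst hw0
      rw [sub_self, near_D2_zero, near_lev_zero]
      simp
    have hT : 0 < nn z := lt_of_le_of_ne (nn_nonneg z) (fun h => hz (nn_eq_zero.1 h.symm))
    have h1 := hth z w hw
    have h2 := hlo' z w hw
    have hsT : 0 < Real.sqrt (nn z) := Real.sqrt_pos.2 hT
    have hy := nn_nonneg (w - z)
    have h3 : Real.sqrt (nn (w - z)) ≤ c₃ / (4 * M) * Real.sqrt (nn z) := by
      calc Real.sqrt (nn (w - z)) ≤ Real.sqrt (s * nn z) := Real.sqrt_le_sqrt hw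
        _ = Real.sqrt s * Real.sqrt (nn z) := Real.sqrt_mul hs.le _
        _ ≤ c₃ / (4 * M) * Real.sqrt (nn z) := mul_le_mul_of_nonneg_right hsq hsT.le
    have h4 : |D2 P Q z w - lev2 P Q z (w - z)| * Real.sqrt (nn z) ≤
        (c₃ * (nn z ^ (k - 1) * nn (w - z)) / 4) * Real.sqrt (nn z) := by
      refine h1.trans ?_
      have h5 : M * (nn z ^ (k - 1) * (nn (w - z) * Real.sqrt (nn (w - z)))) ≤
          M * (nn z ^ (k - 1) * (nn (w - z) * (c₃ / (4 * M) * Real.sqrt (nn z)))) := by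
        have : (0 : ℝ) ≤ nn z ^ (k - 1) := by positivity
        gcongr
      refine h5.trans (le_of_eq ?_)
      field_simp
    have h6 := le_of_mul_le_mul_right h4 hsT
    linarith
  · intro ζ ζ' h1 h2 h3
    have := hsep ζ ζ' h1 h2 h3
    linarith

end Pool.Agent.Work.MP_49847a_an
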