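import Pool.Agent.Work.MP_49847a_an.Sg.CSc

/-!
# Module CNearL: lower bound of the Levi form

Proof.  For `nn z = 1`, `nn v = 1`: `lev2 z v > 0`.  From `D2_id` with `w = z + t v`, `t` real, and `cs`:
`r2 z D2 z (z + t v) ≥ |r2 z - R2 (z + t v) z|² + c nn z^(k-1) nn (z+tv)^(k-1) t² (nn z nn v - |ip z v|²)`
(`nn z nn (z+tv) - |ip z (z+tv)|² = t² (nn z nn v - |ip z v|²)`).  Divide by `t²`, `t → 0`, with `tay2`:
`D2 z (z+tv)/t² → lev2 z v`, `(R2 (z+tv) z - r2 z)/t → dr2 z v`: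
`r2 z lev2 z v ≥ |dr2 z v|² + c nn z^(2k-2) (nn z nn v - |ip z v|²)`.
If `lev2 z v ≤ 0` then `nn z nn v = |ip z v|²`, so `v = λ z`, `λ ≠ 0`, and
`0 = dr2 z v = λ k r2 z ≠ 0` (`dr2_self`, `dr2` is linear in `v`): contradiction.
By compactness (`lev2_continuous`, the set `nn z = nn v = 1` is compact) `lev2 z v ≥ c₃` for `nn z = nn v = 1`, and by
`lev2_smul` `lev2 z v ≥ c₃ nn z^(k-1) nn v` for all `z ≠ 0` and `v` (`v = 0` trivial; if `n = 0` there is no `z ≠ 0`).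
-/

namespace Pool.Agent.Work.MP_49847a_an

open MvPolynomial Filter Topology

variable {n k p q : ℕ} {c : ℝ} {P : Fin p → MvPolynomial (Fin n) ℂ}
  {Q : Fin q → MvPolynomial (Fin n) ℂ}

private theorem ip_addr (z a b : Fin n → ℂ) : ip z (a + b) = ip z a + ip z b := by
  unfold ip
  rw [← Finset.sum_add_distrib]
  refine Finset.sum_congr rfl fun i _ => ?_
  rw [Pi.add_apply, map_add, mul_add]

private theorem ip_smulr (z a : Fin n → ℂ) (s : ℂ) : ip z (s • a) = (starRingEnd ℂ) s * ip z a := by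
  unfold ip
  rw [Finset.mul_sum]
  refine Finset.sum_congr rfl fun i _ => ?_
  rw [Pi.smul_apply, smul_eq_mul, map_mul]
  ring

private theorem nn_add' (z v : Fin n → ℂ) : nn (z + v) = nn z + nn v + 2 * (ip z v).re := by
  have h1 := nn_sub z ((-1 : ℂ) • v)
  have h2 : z - (-1 : ℂ) • v = z + v := by
    rw [neg_one_smul, sub_neg_eq_add]
  have h3 : (starRingEnd ℂ) (-1 : ℂ) = -1 := by rw [map_neg, map_one]
  rw [h2, nn_smul, ip_smulr, h3, norm_neg, norm_one, one_pow, one_mul, neg_one_mul,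
    Complex.neg_re] at h1
  linarith

private theorem gram' (z v : Fin n → ℂ) (t : ℝ) :
    nn z * nn (z + (t : ℂ) • v) - ‖ip z (z + (t : ℂ) • v)‖ ^ 2 =
      t ^ 2 * (nn z * nn v - ‖ip z v‖ ^ 2) := by
  rw [nn_add', nn_smul, ip_addr, ip_smulr, ip_self, Complex.conj_ofReal, Complex.norm_real,
    Real.norm_eq_abs, sq_abs, Complex.re_ofReal_mul, ← Complex.normSq_eq_norm_sq,
    ← Complex.normSq_eq_norm_sq, Complex.normSq_apply, Complex.normSq_apply]
  simp only [Complex.add_re, Complex.add_im, Complex.ofReal_re, Complex.ofReal_im,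
    Complex.re_ofReal_mul, Complex.im_ofReal_mul]
  ring

private theorem dd_lin' {m : ℕ} (F : Fin m → MvPolynomial (Fin n) ℂ) (z v : Fin n → ℂ) (s : ℂ)
    (j : Fin m) : dd F z (s • v) j = s * dd F z v j := by
  unfold dd
  rw [Finset.mul_sum]
  refine Finset.sum_congr rfl fun i _ => ?_
  rw [Pi.smul_apply, smul_eq_mul]
  ring

private theorem dr2_lin' (z v : Fin n → ℂ) (s : ℂ) : dr2 P Q z (s • v) = s * dr2 P Q z v := by
  unfold dr2
  rw [mul_sub, Finset.mul_sum, Finset.mul_sum]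
  congr 1
  · refine Finset.sum_congr rfl fun j _ => ?_
    rw [dd_lin', mul_assoc]
  · refine Finset.sum_congr rfl fun j _ => ?_
    rw [dd_lin', mul_assoc]

private theorem lev2_lin' (h : CS k c P Q) (z v : Fin n → ℂ) (s : ℂ) :
    lev2 P Q z (s • v) = ‖s‖ ^ 2 * lev2 P Q z v := by
  have h1 := lev2_smul h 1 s z v
  rw [one_smul, norm_one, one_pow, one_pow, one_mul] at h1
  exact h1

private theorem key_ineq (h : CS k c P Q) (z v : Fin n → ℂ) :
    ‖dr2 P Q z v‖ ^ 2 + c * (nn z ^ (k - 1) * nn z ^ (k - 1) * (nn z * nn v - ‖ip z v‖ ^ 2)) ≤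
      r2 P Q z * lev2 P Q z v := by
  obtain ⟨M, hM, hT⟩ := tay2 P Q (2 * nn z + 2 * nn v)
  have hz0 := nn_nonneg z
  have hv0 := nn_nonneg v
  have ht : ∀ᶠ t : ℝ in 𝓝[>] 0, 0 < t ∧ t < 1 :=
    Ioo_mem_nhdsGT (show (0 : ℝ) < 1 by norm_num)
  have hsub : ∀ t : ℝ, z + (t : ℂ) • v - z = (t : ℂ) • v := fun t => by
    rw [add_sub_cancel_left]
  have hnt : ∀ t : ℝ, nn ((t : ℂ) • v) = t ^ 2 * nn v := by
    intro t
    rw [nn_smul, Complex.norm_real, Real.norm_eq_abs, sq_abs]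
  have hR : ∀ t : ℝ, 0 < t → t < 1 → nn (z + (t : ℂ) • v) ≤ 2 * nn z + 2 * nn v := by
    intro t h0 h1
    have h2 := nn_add_le z ((t : ℂ) • v)
    rw [hnt] at h2
    have h3 : t ^ 2 * nn v ≤ 1 * nn v := by
      apply mul_le_mul_of_nonneg_right _ hv0
      nlinarith
    linarith
  -- limit of the second difference
  have l1 : Tendsto (fun t : ℝ => D2 P Q z (z + (t : ℂ) • v) / t ^ 2) (𝓝[>] 0)
      (𝓝 (lev2 P Q z v)) := by
    rw [← tendsto_sub_nhds_zero_iff]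
    refine squeeze_zero_norm' (a := fun t : ℝ => M * (nn v * Real.sqrt (nn v)) * t) ?_ ?_
    · filter_upwards [ht] with t ⟨h0, h1⟩
      have h2 := (hT z (z + (t : ℂ) • v) (by linarith) (hR t h0 h1)).2.2.1
      rw [hsub, hnt, lev2_lin' h, Complex.norm_real, Real.norm_eq_abs, sq_abs,
        Real.sqrt_mul (sq_nonneg t), Real.sqrt_sq h0.le] at h2
      have h3 : D2 P Q z (z + (t : ℂ) • v) / t ^ 2 - lev2 P Q z v =
          (D2 P Q z (z + (t : ℂ) • v) - t ^ 2 * lev2 P Q z v) / t ^ 2 := by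
        field_simp
      rw [h3, Real.norm_eq_abs, abs_div, abs_of_pos (pow_pos h0 2), div_le_iff₀ (pow_pos h0 2)]
      refine h2.trans (le_of_eq ?_)
      ring
    · have h4 : Tendsto (fun t : ℝ => M * (nn v * Real.sqrt (nn v)) * t) (𝓝 0)
          (𝓝 (M * (nn v * Real.sqrt (nn v)) * 0)) :=
        (continuous_const.mul continuous_id).tendsto 0
      rw [mul_zero] at h4
      exact h4.mono_left nhdsWithin_le_nhds
  -- limit of the first difference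
  have l2 : Tendsto (fun t : ℝ => (R2 P Q (z + (t : ℂ) • v) z - (r2 P Q z : ℂ)) / (t : ℂ))
      (𝓝[>] 0) (𝓝 (dr2 P Q z v)) := by
    rw [← tendsto_sub_nhds_zero_iff]
    refine squeeze_zero_norm' (a := fun t : ℝ => M * nn v * t) ?_ ?_
    · filter_upwards [ht] with t ⟨h0, h1⟩
      have h2 := (hT z (z + (t : ℂ) • v) (by linarith) (hR t h0 h1)).1
      rw [hsub, hnt, dr2_lin'] at h2
      have ht0 : (t : ℂ) ≠ 0 := by exact_mod_cast h0.ne'
      have h3 : (R2 P Q (z + (t : ℂ) • v) z - (r2 P Q z : ℂ)) / (t : ℂ) - dr2 P Q z v =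
          (R2 P Q (z + (t : ℂ) • v) z - (r2 P Q z : ℂ) - (t : ℂ) * dr2 P Q z v) / (t : ℂ) := by
        field_simp
      rw [h3, norm_div, Complex.norm_real, Real.norm_eq_abs, abs_of_pos h0, div_le_iff₀ h0]
      refine h2.trans (le_of_eq ?_)
      ring
    · have h4 : Tendsto (fun t : ℝ => M * nn v * t) (𝓝 0) (𝓝 (M * nn v * 0)) :=
        (continuous_const.mul continuous_id).tendsto 0
      rw [mul_zero] at h4
      exact h4.mono_left nhdsWithin_le_nhds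
  have l3 : Tendsto (fun t : ℝ => nn (z + (t : ℂ) • v)) (𝓝[>] 0) (𝓝 (nn z)) := by
    have h4 : Continuous (fun t : ℝ => nn (z + (t : ℂ) • v)) :=
      nn_continuous.comp (continuous_const.add (Complex.continuous_ofReal.smul continuous_const))
    have h5 := h4.tendsto 0
    rw [Complex.ofReal_zero, zero_smul, add_zero] at h5
    exact h5.mono_left nhdsWithin_le_nhds
  have l4 : Tendsto (fun t : ℝ => r2 P Q z * (D2 P Q z (z + (t : ℂ) • v) / t ^ 2)) (𝓝[>] 0)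
      (𝓝 (r2 P Q z * lev2 P Q z v)) := tendsto_const_nhds.mul l1
  have l5 : Tendsto (fun t : ℝ =>
      ‖(R2 P Q (z + (t : ℂ) • v) z - (r2 P Q z : ℂ)) / (t : ℂ)‖ ^ 2 +
        c * (nn z ^ (k - 1) * nn (z + (t : ℂ) • v) ^ (k - 1) * (nn z * nn v - ‖ip z v‖ ^ 2)))
      (𝓝[>] 0) (𝓝 (‖dr2 P Q z v‖ ^ 2 +
        c * (nn z ^ (k - 1) * nn z ^ (k - 1) * (nn z * nn v - ‖ip z v‖ ^ 2)))) :=
    (l2.norm.pow 2).add (tendsto_const_nhds.mul ((tendsto_const_nhds.mul (l3.pow (k - 1))).mul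
      tendsto_const_nhds))
  refine le_of_tendsto_of_tendsto l5 l4 ?_
  filter_upwards [ht] with t ⟨h0, h1⟩
  have h2 := D2_id P Q z (z + (t : ℂ) • v)
  have h3 := h.cs z (z + (t : ℂ) • v)
  rw [gram'] at h3
  have h4 : ‖(R2 P Q (z + (t : ℂ) • v) z - (r2 P Q z : ℂ)) / (t : ℂ)‖ ^ 2 =
      ‖((r2 P Q z : ℝ) : ℂ) - R2 P Q (z + (t : ℂ) • v) z‖ ^ 2 / t ^ 2 := by
    rw [norm_div, div_pow, norm_sub_rev, Complex.norm_real, Real.norm_eq_abs, sq_abs]
  rw [h4, ← mul_div_assoc, h2, div_add' _ _ _ (pow_pos h0 2).ne',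
    div_le_div_iff_of_pos_right (pow_pos h0 2)]
  have h5 : c * (nn z ^ (k - 1) * nn (z + (t : ℂ) • v) ^ (k - 1) *
      (nn z * nn v - ‖ip z v‖ ^ 2)) * t ^ 2 =
      c * (nn z ^ (k - 1) * nn (z + (t : ℂ) • v) ^ (k - 1) *
        (t ^ 2 * (nn z * nn v - ‖ip z v‖ ^ 2))) := by ring
  rw [h5]
  linarith

private theorem lev2_pos (h : CS k c P Q) {z v : Fin n → ℂ} (hz : nn z = 1) (hv : nn v = 1) :
    0 < lev2 P Q z v := by
  by_contra hcon
  rw [not_lt] at hcon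
  have h1 := key_ineq h z v
  have hr : 0 < r2 P Q z := by
    have h2 := h.pos z
    rw [hz, one_pow, mul_one] at h2
    exact lt_of_lt_of_le h.hc h2
  have h2 : r2 P Q z * lev2 P Q z v ≤ 0 := mul_nonpos_of_nonneg_of_nonpos hr.le hcon
  rw [hz, hv, one_pow, one_mul, one_mul] at h1
  have h3 : ‖ip z v‖ ^ 2 ≤ 1 := by
    have h4 := ip_cs z v
    rw [hz, hv, one_mul] at h4
    exact h4
  have h4 : 0 ≤ c * (1 - ‖ip z v‖ ^ 2) := mul_nonneg h.hc.le (by linarith)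
  have h5 : ‖dr2 P Q z v‖ ^ 2 = 0 := le_antisymm (by linarith) (sq_nonneg _)
  have h6 : dr2 P Q z v = 0 := by
    have h7 := pow_eq_zero_iff (two_ne_zero) |>.1 h5
    exact norm_eq_zero.1 h7
  have h8 : c * (1 - ‖ip z v‖ ^ 2) = 0 := le_antisymm (by linarith [sq_nonneg ‖dr2 P Q z v‖]) h4
  have h9 : ‖ip z v‖ ^ 2 = 1 := by
    rcases mul_eq_zero.1 h8 with h10 | h10
    · exact absurd h10 h.hc.ne'
    · linarith
  -- `v = ip v z • z`
  have h10 : ‖ip v z‖ ^ 2 = 1 := by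
    rw [← ip_conj z v, Complex.norm_conj]
    exact h9
  have h11 : v = ip v z • z := by
    have h12 : nn (v - ip v z • z) = 0 := by
      rw [nn_sub, nn_smul, ip_smulr, hz, hv, h10, mul_comm ((starRingEnd ℂ) (ip v z)),
        Complex.mul_conj, Complex.normSq_eq_norm_sq, Complex.ofReal_re, h10]
      norm_num
    exact sub_eq_zero.1 (nn_eq_zero.1 h12)
  rw [h11, dr2_lin', dr2_self h] at h6
  have h13 : ip v z ≠ 0 := by
    intro h0
    rw [h0, norm_zero] at h10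
    norm_num at h10
  have h14 : (k : ℂ) ≠ 0 := by exact_mod_cast h.hk.ne'
  have h15 : ((r2 P Q z : ℝ) : ℂ) ≠ 0 := by exact_mod_cast hr.ne'
  exact (mul_ne_zero h13 (mul_ne_zero h14 h15)) h6

private theorem unit' {z : Fin n → ℂ} (hz : z ≠ 0) :
    0 < Real.sqrt (nn z) ∧ nn ((((Real.sqrt (nn z))⁻¹ : ℝ) : ℂ) • z) = 1 ∧
      z = ((Real.sqrt (nn z) : ℝ) : ℂ) • ((((Real.sqrt (nn z))⁻¹ : ℝ) : ℂ) • z) := by
  have h0 : 0 < nn z := lt_of_le_of_ne (nn_nonneg z) (fun h => hz (nn_eq_zero.1 h.symm))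
  have h1 : 0 < Real.sqrt (nn z) := Real.sqrt_pos.2 h0
  refine ⟨h1, ?_, ?_⟩
  · rw [nn_smul, Complex.norm_real, Real.norm_eq_abs, sq_abs, inv_pow, Real.sq_sqrt h0.le,
      inv_mul_cancel₀ h0.ne']
  · rw [smul_smul, ← Complex.ofReal_mul, mul_inv_cancel₀ h1.ne', Complex.ofReal_one, one_smul]

/-- lower bound of the Levi form -/
theorem lev2_lower (h : CS k c P Q) : ∃ c₃ : ℝ, 0 < c₃ ∧ ∀ z v : Fin n → ℂ, z ≠ 0 →
    c₃ * (nn z ^ (k - 1) * nn v) ≤ lev2 P Q z v := by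
  have hS : IsCompact {z : Fin n → ℂ | nn z = 1} := by
    refine (nn_cpt (n := n) 1).of_isClosed_subset (isClosed_eq nn_continuous continuous_const) ?_
    intro z hz
    exact le_of_eq hz
  have hK := hS.prod hS
  obtain ⟨c₃, hc₃, hlow⟩ : ∃ c₃ : ℝ, 0 < c₃ ∧ ∀ z v : Fin n → ℂ, nn z = 1 → nn v = 1 →
      c₃ ≤ lev2 P Q z v := by
    rcases Set.eq_empty_or_nonempty
      ({z : Fin n → ℂ | nn z = 1} ×ˢ {z : Fin n → ℂ | nn z = 1}) with he | hne
    · refine ⟨1, one_pos, fun z v hz hv => ?_⟩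
      exact absurd (show (z, v) ∈ ({z : Fin n → ℂ | nn z = 1} ×ˢ {z : Fin n → ℂ | nn z = 1}) from
        ⟨hz, hv⟩) (by rw [he]; exact Set.notMem_empty _)
    · obtain ⟨x, hx, hmin⟩ := hK.exists_isMinOn hne (lev2_continuous P Q).continuousOn
      exact ⟨lev2 P Q x.1 x.2, lev2_pos h hx.1 hx.2, fun z v hz hv => hmin (a := (z, v)) ⟨hz, hv⟩⟩
  refine ⟨c₃, hc₃, fun z v hz => ?_⟩
  obtain ⟨a1, a2, a3⟩ := unit' hz
  by_cases hv : v = 0
  · subst hv
    have h1 := lev2_lin' h z (0 : Fin n → ℂ) 0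
    rw [smul_zero, norm_zero] at h1
    have h2 : nn (0 : Fin n → ℂ) = 0 := nn_eq_zero.2 rfl
    rw [h1, h2]
    norm_num
  · obtain ⟨b1, b2, b3⟩ := unit' hv
    have h1 := hlow _ _ a2 b2
    have h2 := lev2_smul h ((Real.sqrt (nn z) : ℝ) : ℂ) ((Real.sqrt (nn v) : ℝ) : ℂ)
      ((((Real.sqrt (nn z))⁻¹ : ℝ) : ℂ) • z) ((((Real.sqrt (nn v))⁻¹ : ℝ) : ℂ) • v)
    rw [← a3, ← b3, Complex.norm_real, Complex.norm_real, Real.norm_eq_abs, Real.norm_eq_abs,
      sq_abs, sq_abs, Real.sq_sqrt (nn_nonneg z), Real.sq_sqrt (nn_nonneg v)] at h2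
    rw [h2, mul_comm]
    exact mul_le_mul_of_nonneg_left h1
      (mul_nonneg (pow_nonneg (nn_nonneg z) _) (nn_nonneg v))

end Pool.Agent.Work.MP_49847a_an
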