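import Pool.Agent.Work.MP_49847a_an.Sg.CIB
import Pool.Agent.Work.MP_49847a_an.Sg.CKn

/-!
# Module CNi: near part, integral over the second variable

Notation as in `CKn`.  `F z w = (nearS s z).indicator (Kn P Q z) w`.  Measurability: `nearS s z` is open, `Kn` continuous
(`D2_continuous`, `lev2_continuous`).  Let `θ > 0`.
`T ≥ R ≥ 1`: by `Kn_le` `Kn z w ≤ (M/√R) τ nn y √(nn y) exp (-(c₃/8) τ nn y)`, translation `w = z + y`
(`integral_sub_right_eq_self`), `maj_int` with `a = c₃/8`: `∫ F z ≤ (M G₀/√R) (τ^n)⁻¹ ≤ θ (τ^n)⁻¹` for `R` large,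
`G₀ = ∫ nn y √(nn y) exp (-a nn y)`.
`T < R'`: `0 ≤ F ≤ 1` (`Kn_le_one`) and `nearS s z ⊂ {w : nn (w - z) < R'}` (`s ≤ 1`), whose volume is finite and independent
of `z` (`ball_vol`, `ball_fin`).
Integrability for all `z`: bounded measurable, zero outside a set of finite measure.
-/

namespace Pool.Agent.Work.MP_49847a_an

open MvPolynomial MeasureTheory

variable {n k p q : ℕ} {c s c₃ M : ℝ} {P : Fin p → MvPolynomial (Fin n) ℂ}
  {Q : Fin q → MvPolynomial (Fin n) ℂ}

private theorem near_open (s : ℝ) (z : Fin n → ℂ) : IsOpen (nearS s z) :=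
  isOpen_lt (nn_continuous.comp (continuous_id.sub continuous_const)) continuous_const

private theorem Kn_cont (P : Fin p → MvPolynomial (Fin n) ℂ)
    (Q : Fin q → MvPolynomial (Fin n) ℂ) (z : Fin n → ℂ) : Continuous (Kn P Q z) := by
  have h1 : Continuous fun w : Fin n → ℂ => D2 P Q z w :=
    Continuous.comp (g := fun x : (Fin n → ℂ) × (Fin n → ℂ) => D2 P Q x.1 x.2)
      (f := fun w : Fin n → ℂ => (z, w)) (D2_continuous P Q)
      (continuous_const.prodMk continuous_id)
  have h2 : Continuous fun w : Fin n → ℂ => lev2 P Q z (w - z) :=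
    Continuous.comp (g := fun x : (Fin n → ℂ) × (Fin n → ℂ) => lev2 P Q x.1 x.2)
      (f := fun w : Fin n → ℂ => (z, w - z)) (lev2_continuous P Q)
      (continuous_const.prodMk (continuous_id.sub continuous_const))
  unfold Kn
  exact (Real.continuous_exp.comp (h1.div_const 2)).mul
    ((Real.continuous_exp.comp h1.neg).sub (Real.continuous_exp.comp h2.neg)).abs

private theorem near_integrable (h : CS k c P Q) (hN : NearC k s c₃ M P Q) (z : Fin n → ℂ) :
    Integrable ((nearS s z).indicator (Kn P Q z)) := by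
  rw [integrable_indicator_iff (near_open s z).measurableSet]
  refine Measure.integrableOn_of_bounded (M := 1) (ball_fin (s * nn z) z).ne
    (Kn_cont P Q z).aestronglyMeasurable ?_
  refine (ae_restrict_iff' (near_open s z).measurableSet).2 (Filter.Eventually.of_forall ?_)
  intro w hw
  rw [Real.norm_eq_abs, abs_of_nonneg (Kn_nonneg P Q z w)]
  exact Kn_le_one h hN hw

theorem near_int (h : CS k c P Q) (hN : NearC k s c₃ M P Q) :
    IntB k (fun z w => (nearS s z).indicator (Kn P Q z) w) := by
  intro θ hθ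
  have ha : 0 < c₃ / 8 := by
    have := hN.hc
    positivity
  set G₀ : ℝ := ∫ y : Fin n → ℂ, nn y * Real.sqrt (nn y) * Real.exp (-(c₃ / 8 * nn y)) with hG
  have hG0 : 0 ≤ G₀ := integral_nonneg fun y =>
    mul_nonneg (mul_nonneg (nn_nonneg y) (Real.sqrt_nonneg _)) (Real.exp_nonneg _)
  have hM := hN.hM
  refine ⟨max 1 ((M * G₀ / θ) ^ 2), le_max_left _ _, fun R' hR' => ?_⟩
  have hR1 : 1 ≤ R' := (le_max_left _ _).trans hR'
  have hR2 : (M * G₀ / θ) ^ 2 ≤ R' := (le_max_right _ _).trans hR'
  refine ⟨R' ^ n * (volume {w : Fin n → ℂ | nn w < 1}).toReal,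
    mul_nonneg (pow_nonneg (by linarith) _) ENNReal.toReal_nonneg, fun z =>
    ⟨near_integrable h hN z, fun hz => ?_, fun hz => ?_⟩⟩
  · have hT1 : 1 ≤ nn z := hR1.trans hz
    have hτ : 1 ≤ nn z ^ (k - 1) := one_le_pow₀ hT1
    obtain ⟨m1, m2⟩ := maj_int (n := n) ha hτ
    have hsq : 0 < Real.sqrt (nn z) := Real.sqrt_pos.2 (by linarith)
    have h1 : ∫ w, (nearS s z).indicator (Kn P Q z) w ≤
        ∫ w : Fin n → ℂ, M / Real.sqrt (nn z) * (nn z ^ (k - 1) *
          (nn (w - z) * Real.sqrt (nn (w - z))) *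
          Real.exp (-(c₃ / 8 * (nn z ^ (k - 1) * nn (w - z))))) := by
      refine integral_mono (near_integrable h hN z) ((m1.comp_sub_right z).const_mul _) ?_
      intro w
      by_cases hw : w ∈ nearS s z
      · rw [Set.indicator_of_mem hw]
        have h2 := Kn_le h hN hw
        beta_reduce
        rw [div_mul_eq_mul_div, le_div_iff₀ hsq]
        refine h2.trans (le_of_eq ?_)
        ring
      · rw [Set.indicator_of_notMem hw]
        have h3 : 0 ≤ nn (w - z) := nn_nonneg _
        have h4 : 0 ≤ nn z ^ (k - 1) := by linarith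
        positivity
    have h5 : ∫ w : Fin n → ℂ, M / Real.sqrt (nn z) * (nn z ^ (k - 1) *
          (nn (w - z) * Real.sqrt (nn (w - z))) *
          Real.exp (-(c₃ / 8 * (nn z ^ (k - 1) * nn (w - z))))) =
        M / Real.sqrt (nn z) * ∫ y : Fin n → ℂ, nn z ^ (k - 1) *
          (nn y * Real.sqrt (nn y)) * Real.exp (-(c₃ / 8 * (nn z ^ (k - 1) * nn y))) := by
      rw [integral_const_mul, integral_sub_right_eq_self (fun y : Fin n → ℂ => nn z ^ (k - 1) *
          (nn y * Real.sqrt (nn y)) * Real.exp (-(c₃ / 8 * (nn z ^ (k - 1) * nn y)))) z]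
    rw [h5] at h1
    refine h1.trans ((mul_le_mul_of_nonneg_left m2 (by positivity)).trans ?_)
    rw [← hG, div_eq_mul_inv θ, ← mul_assoc, mul_comm (M / Real.sqrt (nn z)), mul_assoc,
      mul_comm θ]
    refine mul_le_mul_of_nonneg_left ?_ (by positivity)
    have h6 : M * G₀ / θ ≤ Real.sqrt (nn z) := Real.le_sqrt_of_sq_le (hR2.trans hz)
    rw [div_mul_eq_mul_div, div_le_iff₀ hsq]
    rw [div_le_iff₀ hθ] at h6
    linarith
  · have hR0 : 0 < R' := by linarith
    have hopen : IsOpen {w : Fin n → ℂ | nn (w - z) < R'} :=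
      isOpen_lt (nn_continuous.comp (continuous_id.sub continuous_const)) continuous_const
    have h1 : ∫ w, (nearS s z).indicator (Kn P Q z) w ≤
        ∫ w, ({w : Fin n → ℂ | nn (w - z) < R'}).indicator (fun _ => (1 : ℝ)) w := by
      refine integral_mono (near_integrable h hN z) ?_ ?_
      · rw [integrable_indicator_iff hopen.measurableSet]
        exact integrableOn_const (ball_fin R' z).ne
      · intro w
        by_cases hw : w ∈ nearS s z
        · have h2 : w ∈ {w : Fin n → ℂ | nn (w - z) < R'} := by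
            have h3 : nn (w - z) < s * nn z := hw
            have h4 := hN.hs'
            have h5 := nn_nonneg z
            show nn (w - z) < R'
            nlinarith
          rw [Set.indicator_of_mem hw, Set.indicator_of_mem h2]
          exact Kn_le_one h hN hw
        · rw [Set.indicator_of_notMem hw]
          exact Set.indicator_nonneg (fun _ _ => zero_le_one) _
    refine h1.trans (le_of_eq ?_)
    rw [integral_indicator hopen.measurableSet, setIntegral_const, smul_eq_mul, mul_one,
      ← ball_vol hR0 z]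
    rfl

end Pool.Agent.Work.MP_49847a_an
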