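import Pool.Agent.Work.MP_49847a_an.Sg.CScA

/-!
# Module CSc: the basic identity, simple bounds

Proof.
(D2_id) `r2 z D2 z w = |r2 z - R2 w z|² + (r2 z r2 w - |R2 z w|²)`: `|r2 z - R2 w z|² = r2 z² - 2 r2 z Re R2 w z +
|R2 w z|²`, `R2_conj`.
(r2_nonneg) `pos`.
(D2_nonneg) if `r2 z > 0` from `D2_id` and `cs` (its left side is `≥ 0` by `ip_cs`); if `r2 z = 0` then `nn z = 0`
(`pos`), `z = 0`, `R2 0 w = 0` (`R2_smul_left` with `t = 0`, `k > 0`), `D2 = r2 w ≥ 0`.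
(R2_le) `cs` gives `|R2|² ≤ r2 z r2 w ≤ ((r2 z + r2 w)/2)²`.
(continuity) `r2_continuous`, `R2_continuous`; `dd P z v j` is a finite sum of products of continuous functions.
(upper) on the compact set `nn z = 1` (`nn z = 1`, `nn v = 1`) `r2`, `lev2` are bounded; scaling `z = √(nn z) z'`
(for `lev2_upper` and `z = 0`: if `k > 1` both sides are zero by `lev2_smul` with `t = 0`; if `k = 1`, `lev2 z v` does not
depend on `z` by `lev2_smul` with `t = 0`, `(‖0‖²)^0 = 1`, so `z = 0` may be replaced by any point; if `n = 0`, `v = 0`).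
-/

namespace Pool.Agent.Work.MP_49847a_an

open MvPolynomial

variable {n k p q : ℕ} {c : ℝ} {P : Fin p → MvPolynomial (Fin n) ℂ}
  {Q : Fin q → MvPolynomial (Fin n) ℂ}

private theorem exists_scale (z : Fin n → ℂ) :
    ∃ (t : ℂ) (z' : Fin n → ℂ), z = t • z' ∧ ‖t‖ ^ 2 = nn z ∧ nn z' ≤ 1 := by
  by_cases hz : nn z = 0
  · refine ⟨0, 0, ?_, ?_, ?_⟩
    · rw [nn_eq_zero.1 hz, smul_zero]
    · rw [hz, norm_zero]
      norm_num
    · rw [nn_eq_zero.2 rfl]
      norm_num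
  · have hz0 : 0 < nn z := lt_of_le_of_ne (nn_nonneg z) (Ne.symm hz)
    have ht : ‖((Real.sqrt (nn z) : ℝ) : ℂ)‖ ^ 2 = nn z := by
      rw [Complex.norm_real, Real.norm_of_nonneg (Real.sqrt_nonneg _), Real.sq_sqrt hz0.le]
    have ht0 : ((Real.sqrt (nn z) : ℝ) : ℂ) ≠ 0 := by
      rw [Complex.ofReal_ne_zero]
      exact (Real.sqrt_pos.2 hz0).ne'
    refine ⟨((Real.sqrt (nn z) : ℝ) : ℂ), ((Real.sqrt (nn z) : ℝ) : ℂ)⁻¹ • z, ?_, ht, ?_⟩
    · rw [smul_inv_smul₀ ht0]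
    · rw [nn_smul, norm_inv, inv_pow, ht, inv_mul_cancel₀ hz]

private theorem cs_nonneg' (h : CS k c P Q) (z w : Fin n → ℂ) :
    0 ≤ r2 P Q z * r2 P Q w - ‖R2 P Q z w‖ ^ 2 := by
  refine le_trans ?_ (h.cs z w)
  have h1 := ip_cs z w
  have h2 := nn_nonneg z
  have h3 := nn_nonneg w
  have h4 := h.hc.le
  have h5 : 0 ≤ nn z * nn w - ‖ip z w‖ ^ 2 := by linarith
  positivity

private theorem eval_cont1 (f : MvPolynomial (Fin n) ℂ) :
    Continuous (fun x : (Fin n → ℂ) × (Fin n → ℂ) => eval x.1 f) :=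
  (MvPolynomial.continuous_eval f).comp continuous_fst

private theorem dd_cont {m : ℕ} (F : Fin m → MvPolynomial (Fin n) ℂ) (j : Fin m) :
    Continuous (fun x : (Fin n → ℂ) × (Fin n → ℂ) => dd F x.1 x.2 j) := by
  unfold dd
  refine continuous_finsetSum _ fun i _ => ?_
  exact (eval_cont1 _).mul ((continuous_apply i).comp continuous_snd)

theorem D2_id (P : Fin p → MvPolynomial (Fin n) ℂ) (Q : Fin q → MvPolynomial (Fin n) ℂ)
    (z w : Fin n → ℂ) : r2 P Q z * D2 P Q z w = ‖((r2 P Q z : ℝ) : ℂ) - R2 P Q w z‖ ^ 2 +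
      (r2 P Q z * r2 P Q w - ‖R2 P Q z w‖ ^ 2) := by
  rw [← R2_conj P Q z w]
  unfold D2
  rw [← Complex.normSq_eq_norm_sq, ← Complex.normSq_eq_norm_sq, Complex.normSq_apply,
    Complex.normSq_apply, Complex.sub_re, Complex.sub_im, Complex.ofReal_re, Complex.ofReal_im,
    Complex.conj_re, Complex.conj_im]
  ring

theorem r2_nonneg (h : CS k c P Q) (z : Fin n → ℂ) : 0 ≤ r2 P Q z := by
  refine le_trans ?_ (h.pos z)
  have h1 := nn_nonneg z
  have h2 := h.hc.le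
  positivity

theorem D2_nonneg (h : CS k c P Q) (z w : Fin n → ℂ) : 0 ≤ D2 P Q z w := by
  rcases (r2_nonneg h z).lt_or_eq with hz | hz
  · have h1 := D2_id P Q z w
    have h2 := cs_nonneg' h z w
    have h3 : 0 ≤ r2 P Q z * D2 P Q z w := by
      rw [h1]
      positivity
    exact nonneg_of_mul_nonneg_right h3 hz
  · have h1 := h.pos z
    rw [← hz] at h1
    have h2 : nn z ^ k ≤ 0 := nonpos_of_mul_nonpos_right h1 h.hc
    have h3 : nn z = 0 := by
      have h4 : nn z ^ k = 0 := le_antisymm h2 (pow_nonneg (nn_nonneg z) k)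
      exact pow_eq_zero_iff h.hk.ne' |>.1 h4
    have h5 : z = (0 : ℂ) • z := by
      rw [nn_eq_zero.1 h3, smul_zero]
    have h6 : R2 P Q z w = 0 := by
      rw [h5, R2_smul_left h, zero_pow h.hk.ne', zero_mul]
    unfold D2
    rw [← hz, h6, Complex.zero_re]
    have h7 := r2_nonneg h w
    linarith

theorem R2_le (h : CS k c P Q) (z w : Fin n → ℂ) :
    ‖R2 P Q z w‖ ≤ (r2 P Q z + r2 P Q w) / 2 := by
  have h1 := cs_nonneg' h z w
  have h2 := r2_nonneg h z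
  have h3 := r2_nonneg h w
  refine (pow_le_pow_iff_left₀ (norm_nonneg _) (by positivity) two_ne_zero).1 ?_
  nlinarith [sq_nonneg (r2 P Q z - r2 P Q w)]

theorem D2_continuous (P : Fin p → MvPolynomial (Fin n) ℂ)
    (Q : Fin q → MvPolynomial (Fin n) ℂ) :
    Continuous (fun x : (Fin n → ℂ) × (Fin n → ℂ) => D2 P Q x.1 x.2) := by
  unfold D2
  exact (((r2_continuous P Q).comp continuous_fst).add
    ((r2_continuous P Q).comp continuous_snd)).sub
    (continuous_const.mul (Complex.continuous_re.comp (R2_continuous P Q)))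

theorem lev2_continuous (P : Fin p → MvPolynomial (Fin n) ℂ)
    (Q : Fin q → MvPolynomial (Fin n) ℂ) :
    Continuous (fun x : (Fin n → ℂ) × (Fin n → ℂ) => lev2 P Q x.1 x.2) := by
  unfold lev2
  exact (continuous_finsetSum _ fun j _ => ((dd_cont P j).norm.pow 2)).sub
    (continuous_finsetSum _ fun j _ => ((dd_cont Q j).norm.pow 2))

theorem r2_upper (h : CS k c P Q) : ∃ M : ℝ, 0 < M ∧ ∀ z, r2 P Q z ≤ M * nn z ^ k := by
  obtain ⟨M, hM⟩ := (nn_cpt (n := n) 1).bddAbove_image (r2_continuous P Q).continuousOn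
  refine ⟨max M 0 + 1, by positivity, fun z => ?_⟩
  obtain ⟨t, z', hz, ht, hz'⟩ := exists_scale z
  have h1 : r2 P Q z' ≤ M := hM ⟨z', hz', rfl⟩
  have h2 : r2 P Q z = nn z ^ k * r2 P Q z' := by
    conv_lhs => rw [hz]
    rw [r2_smul h, ht]
  rw [h2, mul_comm]
  refine mul_le_mul_of_nonneg_right ?_ (pow_nonneg (nn_nonneg z) k)
  linarith [le_max_left M 0]

theorem lev2_upper (h : CS k c P Q) :
    ∃ M : ℝ, 0 < M ∧ ∀ z v, |lev2 P Q z v| ≤ M * (nn z ^ (k - 1) * nn v) := by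
  obtain ⟨M, hM⟩ := ((nn_cpt (n := n) 1).prod (nn_cpt (n := n) 1)).bddAbove_image
    (lev2_continuous P Q).abs.continuousOn
  refine ⟨max M 0 + 1, by positivity, fun z v => ?_⟩
  obtain ⟨t, z', hz, ht, hz'⟩ := exists_scale z
  obtain ⟨u, v', hv, hu, hv'⟩ := exists_scale v
  have h1 : |lev2 P Q z' v'| ≤ M := hM ⟨(z', v'), ⟨hz', hv'⟩, rfl⟩
  have h2 : lev2 P Q z v = nn z ^ (k - 1) * nn v * lev2 P Q z' v' := by
    conv_lhs => rw [hz, hv]
    rw [lev2_smul h, ht, hu]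
  have h3 : 0 ≤ nn z ^ (k - 1) * nn v :=
    mul_nonneg (pow_nonneg (nn_nonneg z) _) (nn_nonneg v)
  rw [h2, abs_mul, abs_of_nonneg h3, mul_comm]
  refine mul_le_mul_of_nonneg_right ?_ h3
  linarith [le_max_left M 0]

end Pool.Agent.Work.MP_49847a_an
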