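import Pool.Agent.Work.MP_49847a_an.Sg.CDefs

/-!
# Module CScA: scaling

Proof.
(R2_smul_left, R2_smul_right, r2_smul) `hom_smul` in every term; `r2_smul` from `R2_self` or directly.
(D2_smul) `R2 (t z) (t w) = t^k conj(t)^k R2 z w = (‖t‖²)^k R2 z w`.
(D2_root) `‖ζ‖ = 1` (`norm_eq_one_of_pow_eq_one`), `conj ζ ^ k = 1`.
(D2_symm) `R2_conj`.
(dd_smul_left) `dd P (t z) v j = t^(k-1) dd P z v j`: `pderiv i` of a homogeneous polynomial of degree `k` is
homogeneous of degree `k - 1` (`MvPolynomial.IsHomogeneous.pderiv`), `hom_smul`; linear in `v`.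
(dr2_self) Euler: `∑ i, z i * eval z (pderiv i f) = k * eval z f` for `f` homogeneous
(`MvPolynomial.IsHomogeneous.sum_X_mul_pderiv` or differentiate `t ↦ eval (t z) f` at `t = 1`).
-/

namespace Pool.Agent.Work.MP_49847a_an

open MvPolynomial

variable {n k p q : ℕ} {c : ℝ} {P : Fin p → MvPolynomial (Fin n) ℂ}
  {Q : Fin q → MvPolynomial (Fin n) ℂ}

theorem R2_smul_left (h : CS k c P Q) (t : ℂ) (z w : Fin n → ℂ) :
    R2 P Q (t • z) w = t ^ k * R2 P Q z w := by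
  unfold R2
  rw [mul_sub, Finset.mul_sum, Finset.mul_sum]
  congr 1
  · refine Finset.sum_congr rfl fun j _ => ?_
    rw [hom_smul (h.hP j), mul_assoc]
  · refine Finset.sum_congr rfl fun j _ => ?_
    rw [hom_smul (h.hQ j), mul_assoc]

theorem R2_smul_right (h : CS k c P Q) (t : ℂ) (z w : Fin n → ℂ) :
    R2 P Q z (t • w) = (starRingEnd ℂ) t ^ k * R2 P Q z w := by
  rw [← R2_conj P Q (t • w) z, R2_smul_left h, map_mul, map_pow, R2_conj]

private theorem nrm_smul' {m : ℕ} {F : Fin m → MvPolynomial (Fin n) ℂ} {d : ℕ}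
    (hF : ∀ j, (F j).IsHomogeneous d) (t : ℂ) (z : Fin n → ℂ) :
    nrm F (t • z) = (‖t‖ ^ 2) ^ d * nrm F z := by
  unfold nrm
  rw [Finset.mul_sum]
  refine Finset.sum_congr rfl fun j _ => ?_
  rw [hom_smul (hF j), norm_mul, norm_pow, mul_pow, ← pow_mul, ← pow_mul, mul_comm d 2]

theorem r2_smul (h : CS k c P Q) (t : ℂ) (z : Fin n → ℂ) :
    r2 P Q (t • z) = (‖t‖ ^ 2) ^ k * r2 P Q z := by
  unfold r2
  rw [nrm_smul' h.hP, nrm_smul' h.hQ, mul_sub]

private theorem conj_pow_mul (t : ℂ) (k : ℕ) :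
    (starRingEnd ℂ) t ^ k * t ^ k = (((‖t‖ ^ 2) ^ k : ℝ) : ℂ) := by
  rw [← mul_pow, mul_comm, Complex.mul_conj, Complex.normSq_eq_norm_sq]
  push_cast
  rfl

theorem D2_smul (h : CS k c P Q) (t : ℂ) (z w : Fin n → ℂ) :
    D2 P Q (t • z) (t • w) = (‖t‖ ^ 2) ^ k * D2 P Q z w := by
  unfold D2
  rw [r2_smul h, r2_smul h, R2_smul_right h, R2_smul_left h, ← mul_assoc, conj_pow_mul,
    Complex.re_ofReal_mul]
  ring

theorem D2_root (h : CS k c P Q) {ζ : ℂ} (hζ : ζ ^ k = 1) (z w : Fin n → ℂ) :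
    D2 P Q z (ζ • w) = D2 P Q z w := by
  have h1 : ‖ζ‖ = 1 := Complex.norm_eq_one_of_pow_eq_one hζ h.hk.ne'
  have h2 : (starRingEnd ℂ) ζ ^ k = 1 := by
    rw [← map_pow, hζ, map_one]
  unfold D2
  rw [r2_smul h, R2_smul_right h, h1, h2, one_pow, one_pow, one_mul, one_mul]

theorem D2_symm (P : Fin p → MvPolynomial (Fin n) ℂ) (Q : Fin q → MvPolynomial (Fin n) ℂ)
    (z w : Fin n → ℂ) : D2 P Q z w = D2 P Q w z := by
  unfold D2
  rw [← R2_conj P Q w z, Complex.conj_re]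
  ring

private theorem dd_smul' {m : ℕ} {F : Fin m → MvPolynomial (Fin n) ℂ} {d : ℕ}
    (hF : ∀ j, (F j).IsHomogeneous d) (t s : ℂ) (z v : Fin n → ℂ) (j : Fin m) :
    dd F (t • z) (s • v) j = t ^ (d - 1) * s * dd F z v j := by
  unfold dd
  rw [Finset.mul_sum]
  refine Finset.sum_congr rfl fun i _ => ?_
  rw [hom_smul ((hF j).pderiv), Pi.smul_apply, smul_eq_mul]
  ring

theorem lev2_smul (h : CS k c P Q) (t s : ℂ) (z v : Fin n → ℂ) :
    lev2 P Q (t • z) (s • v) = (‖t‖ ^ 2) ^ (k - 1) * ‖s‖ ^ 2 * lev2 P Q z v := by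
  have key : ∀ {m : ℕ} {F : Fin m → MvPolynomial (Fin n) ℂ} (hF : ∀ j, (F j).IsHomogeneous k),
      ∑ j, ‖dd F (t • z) (s • v) j‖ ^ 2 =
        (‖t‖ ^ 2) ^ (k - 1) * ‖s‖ ^ 2 * ∑ j, ‖dd F z v j‖ ^ 2 := by
    intro m F hF
    rw [Finset.mul_sum]
    refine Finset.sum_congr rfl fun j _ => ?_
    rw [dd_smul' hF, norm_mul, norm_mul, norm_pow, mul_pow, mul_pow, ← pow_mul, ← pow_mul,
      mul_comm (k - 1) 2]
  unfold lev2
  rw [key h.hP, key h.hQ, mul_sub]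

theorem dr2_self (h : CS k c P Q) (z : Fin n → ℂ) :
    dr2 P Q z z = (k : ℂ) * ((r2 P Q z : ℝ) : ℂ) := by
  have key : ∀ {m : ℕ} {F : Fin m → MvPolynomial (Fin n) ℂ} (hF : ∀ j, (F j).IsHomogeneous k),
      ∀ j, dd F z z j = (k : ℂ) * eval z (F j) := by
    intro m F hF j
    have h1 := congrArg (eval z) (hF j).sum_X_mul_pderiv
    rw [map_sum] at h1
    unfold dd
    simp only [map_mul, eval_X, nsmul_eq_mul, map_natCast] at h1
    rw [← h1]
    refine Finset.sum_congr rfl fun i _ => ?_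
    ring
  rw [← R2_self]
  unfold dr2 R2
  rw [mul_sub, Finset.mul_sum, Finset.mul_sum]
  congr 1
  · refine Finset.sum_congr rfl fun j _ => ?_
    rw [key h.hP, mul_assoc]
  · refine Finset.sum_congr rfl fun j _ => ?_
    rw [key h.hQ, mul_assoc]

end Pool.Agent.Work.MP_49847a_an
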