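import Pool.Agent.Work.MP_49847a_an.Sg.CInt
import Pool.Agent.Work.MP_49847a_an.Sg.CGg
import Pool.Agent.Work.MP_49847a_an.Sg.CJ

/-!
# Module CSch: the Schur test

Proof.  Let `A z = ∫ KK z w dw`, `B w = ∫ KK z w dz`; by `kk_int`, `kk_int'` (with `θ = 1`; `IntB`) `A`, `B` are bounded by a
constant (`θ/(…)^n ≤ 1` for `nn z ≥ R ≥ 1`).  `KK` is nonnegative and jointly measurable (`{(z,w) : nn (w-z) < s nn z}`
is open, `{(z,w) : ∀ ζ, …}` is closed, `D2`, `lev2` continuous).
(1) `ph(z) ph(w) KK(z,w) ≤ (1/2) (ph(z)² + ph(w)²) KK(z,w)`, and the right side is integrable on the product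
(`integrable_prod_iff`: `∫ ph(z)² KK dw = wt(z) A(z)`, and for the second term `Integrable.swap`), so the left side is
integrable and `∫_z ph z ∫_w ph w KK ≤ (1/2) ∫ wt (A + B)` (`integral_prod`, `integral_integral_swap`).
(2) `z ↦ conj f(z) e^(-r2 z) ∫_w F` is integrable: `|conj f(z) f(w) exp (R2 z w - r2 z - r2 w)| ≤ ph z ph w`
(`R2_le`), integrable on the product (`prod_int`), `Integrable.integral_prod_left`.  `z ↦ wt z gg z` is integrable
(`gg_bdd`, `gg_meas`, `ph_int`), `z ↦ wt z A z` too.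
(3) Integrate `cd_J` over `z` (`integral_mono`, real part of an integral: `integral_re` or `Complex.reCLM`).
-/

namespace Pool.Agent.Work.MP_49847a_an

open MvPolynomial MeasureTheory

variable {n k p q : ℕ} {c s c₃ M : ℝ} {P : Fin p → MvPolynomial (Fin n) ℂ}
  {Q : Fin q → MvPolynomial (Fin n) ℂ}

private theorem kk_nonneg (k : ℕ) (s : ℝ) (P : Fin p → MvPolynomial (Fin n) ℂ)
    (Q : Fin q → MvPolynomial (Fin n) ℂ) (z w : Fin n → ℂ) : 0 ≤ KK k s P Q z w := by
  unfold KK
  refine add_nonneg (mul_nonneg (Nat.cast_nonneg k) ?_) ?_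
  · exact Set.indicator_nonneg (fun x _ => mul_nonneg (Real.exp_nonneg _) (abs_nonneg _)) w
  · exact Set.indicator_nonneg (fun x _ => Real.exp_nonneg _) w

private theorem kk_meas (k : ℕ) (s : ℝ) (P : Fin p → MvPolynomial (Fin n) ℂ)
    (Q : Fin q → MvPolynomial (Fin n) ℂ) :
    Measurable (fun x : (Fin n → ℂ) × (Fin n → ℂ) => KK k s P Q x.1 x.2) := by
  have hD := D2_continuous (n := n) P Q
  have hg : Continuous (fun x : (Fin n → ℂ) × (Fin n → ℂ) => (x.1, x.2 - x.1)) :=
    continuous_fst.prodMk (continuous_snd.sub continuous_fst)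
  have hl : Continuous (fun x : (Fin n → ℂ) × (Fin n → ℂ) => lev2 P Q x.1 (x.2 - x.1)) := by
    have h0 := (lev2_continuous P Q).comp hg
    simpa only [Function.comp_def] using h0
  have h1 : Continuous (fun x : (Fin n → ℂ) × (Fin n → ℂ) => Kn P Q x.1 x.2) :=
    (Real.continuous_exp.comp (hD.div_const 2)).mul
      ((Real.continuous_exp.comp hD.neg).sub (Real.continuous_exp.comp hl.neg)).abs
  have h2 : Continuous (fun x : (Fin n → ℂ) × (Fin n → ℂ) => Kf P Q x.1 x.2) :=
    Real.continuous_exp.comp (hD.neg.div_const 2)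
  have hnn := nn_continuous (n := n)
  have hS₁ : IsOpen {x : (Fin n → ℂ) × (Fin n → ℂ) | x.2 ∈ nearS s x.1} := by
    have : {x : (Fin n → ℂ) × (Fin n → ℂ) | x.2 ∈ nearS s x.1} =
        {x : (Fin n → ℂ) × (Fin n → ℂ) | nn (x.2 - x.1) < s * nn x.1} := rfl
    rw [this]
    exact isOpen_lt (hnn.comp (continuous_snd.sub continuous_fst))
      (continuous_const.mul (hnn.comp continuous_fst))
  have hS₂ : IsClosed {x : (Fin n → ℂ) × (Fin n → ℂ) | x.2 ∈ farS k s x.1} := by
    have : {x : (Fin n → ℂ) × (Fin n → ℂ) | x.2 ∈ farS k s x.1} =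
        ⋂ ζ : ℂ, ⋂ _ : ζ ^ k = 1,
          {x : (Fin n → ℂ) × (Fin n → ℂ) | s * nn x.1 ≤ nn (x.2 - ζ • x.1)} := by
      ext x
      simp only [Set.mem_iInter, Set.mem_setOf_eq]
      exact Iff.rfl
    rw [this]
    refine isClosed_iInter fun ζ => isClosed_iInter fun _ => ?_
    exact isClosed_le (continuous_const.mul (hnn.comp continuous_fst))
      (hnn.comp (continuous_snd.sub (continuous_fst.const_smul ζ)))
  have h3 : (fun x : (Fin n → ℂ) × (Fin n → ℂ) => KK k s P Q x.1 x.2) = fun x =>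
      k * {x : (Fin n → ℂ) × (Fin n → ℂ) | x.2 ∈ nearS s x.1}.indicator
        (fun x => Kn P Q x.1 x.2) x +
      {x : (Fin n → ℂ) × (Fin n → ℂ) | x.2 ∈ farS k s x.1}.indicator
        (fun x => Kf P Q x.1 x.2) x := by
    funext x
    unfold KK
    congr 2
  rw [h3]
  exact (measurable_const.mul (h1.measurable.indicator hS₁.measurableSet)).add
    (h2.measurable.indicator hS₂.measurableSet)

private theorem kk_bdd (h : CS k c P Q) (hN : NearC k s c₃ M P Q) :
    (∀ z, Integrable (fun w => KK k s P Q z w)) ∧ (∀ w, Integrable (fun z => KK k s P Q z w)) ∧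
    ∃ B : ℝ, 0 ≤ B ∧ (∀ z, ∫ w, KK k s P Q z w ≤ B) ∧ ∀ w, ∫ z, KK k s P Q z w ≤ B := by
  obtain ⟨R₁, hR₁, h1⟩ := kk_int h hN 1 one_pos
  obtain ⟨R₂, hR₂, h2⟩ := kk_int' h hN 1 one_pos
  obtain ⟨B₁, hB₁, h1⟩ := h1 R₁ le_rfl
  obtain ⟨B₂, hB₂, h2⟩ := h2 R₂ le_rfl
  have key : ∀ {T R : ℝ}, 1 ≤ R → R ≤ T → 1 / (T ^ (k - 1)) ^ n ≤ 1 := by
    intro T R hR hT
    have hT0 : 0 < T := by linarith
    rw [div_le_one (by positivity)]
    exact one_le_pow₀ (one_le_pow₀ (hR.trans hT))
  refine ⟨fun z => (h1 z).1, fun w => (h2 w).1, max 1 (max B₁ B₂), le_max_of_le_left zero_le_one, ?_, ?_⟩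
  · intro z
    by_cases hz : R₁ ≤ nn z
    · exact ((h1 z).2.1 hz).trans ((key hR₁ hz).trans (le_max_left _ _))
    · exact ((h1 z).2.2 (not_le.1 hz)).trans ((le_max_left _ _).trans (le_max_right _ _))
  · intro z
    by_cases hz : R₂ ≤ nn z
    · exact ((h2 z).2.1 hz).trans ((key hR₂ hz).trans (le_max_left _ _))
    · exact ((h2 z).2.2 (not_le.1 hz)).trans ((le_max_right _ _).trans (le_max_right _ _))

private theorem wt_cont (P : Fin p → MvPolynomial (Fin n) ℂ)
    (Q : Fin q → MvPolynomial (Fin n) ℂ) (f : MvPolynomial (Fin n) ℂ) :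
    Continuous (wt P Q f) := by
  have h1 := r2_continuous P Q
  have h2 : Continuous (fun z : Fin n → ℂ => eval z f) := MvPolynomial.continuous_eval f
  exact (h2.norm.pow 2).mul (Real.continuous_exp.comp h1.neg)

private theorem ph_cont (P : Fin p → MvPolynomial (Fin n) ℂ)
    (Q : Fin q → MvPolynomial (Fin n) ℂ) (f : MvPolynomial (Fin n) ℂ) :
    Continuous (ph P Q f) := by
  have h1 := r2_continuous P Q
  have h2 : Continuous (fun z : Fin n → ℂ => eval z f) := MvPolynomial.continuous_eval f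
  exact h2.norm.mul (Real.continuous_exp.comp (h1.neg.div_const 2))

private theorem wt_nonneg (P : Fin p → MvPolynomial (Fin n) ℂ)
    (Q : Fin q → MvPolynomial (Fin n) ℂ) (f : MvPolynomial (Fin n) ℂ) (z : Fin n → ℂ) :
    0 ≤ wt P Q f z := mul_nonneg (by positivity) (Real.exp_nonneg _)

private theorem ph_nonneg (P : Fin p → MvPolynomial (Fin n) ℂ)
    (Q : Fin q → MvPolynomial (Fin n) ℂ) (f : MvPolynomial (Fin n) ℂ) (z : Fin n → ℂ) :
    0 ≤ ph P Q f z := mul_nonneg (norm_nonneg _) (Real.exp_nonneg _)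

private theorem wt_int (h : CS k c P Q) (f : MvPolynomial (Fin n) ℂ) :
    Integrable (wt P Q f) := by
  have := (ph_int h f 0).2
  simpa using this

theorem main_ineq (h : CS k c P Q) (hN : NearC k s c₃ M P Q) {f : MvPolynomial (Fin n) ℂ}
    (hf : ∀ ζ : ℂ, ζ ^ k = 1 → ∀ z, eval (ζ • z) f = eval z f) :
    Integrable (fun z => wt P Q f z * (k * gg s P Q z -
      1 / 2 * ((∫ w, KK k s P Q z w) + ∫ w, KK k s P Q w z))) ∧
    ∫ z, wt P Q f z * (k * gg s P Q z -
      1 / 2 * ((∫ w, KK k s P Q z w) + ∫ w, KK k s P Q w z)) ≤ (II P Q f).re := by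
  obtain ⟨hA, hB, C, hC, hAC, hBC⟩ := kk_bdd h hN
  have hm := kk_meas (n := n) k s P Q
  have hK := kk_nonneg (n := n) k s P Q
  have hwt := wt_int h f
  have hA0 : ∀ z, 0 ≤ ∫ w, KK k s P Q z w := fun z => integral_nonneg (hK z)
  have hB0 : ∀ z, 0 ≤ ∫ w, KK k s P Q w z := fun z => integral_nonneg (fun w => hK w z)
  have hAm : AEStronglyMeasurable (fun z => ∫ w, KK k s P Q z w) volume :=
    (hm.stronglyMeasurable.integral_prod_right' (ν := volume)).aestronglyMeasurable
  have hBm : AEStronglyMeasurable (fun z => ∫ w, KK k s P Q w z) volume :=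
    (hm.stronglyMeasurable.integral_prod_left' (μ := volume)).aestronglyMeasurable
  have hwA : Integrable (fun z => wt P Q f z * ∫ w, KK k s P Q z w) := by
    refine (hwt.mul_const C).mono' (hwt.aestronglyMeasurable.mul hAm) ?_
    refine Filter.Eventually.of_forall fun z => ?_
    rw [Real.norm_of_nonneg (mul_nonneg (wt_nonneg P Q f z) (hA0 z))]
    exact mul_le_mul_of_nonneg_left (hAC z) (wt_nonneg P Q f z)
  have hwB : Integrable (fun z => wt P Q f z * ∫ w, KK k s P Q w z) := by
    refine (hwt.mul_const C).mono' (hwt.aestronglyMeasurable.mul hBm) ?_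
    refine Filter.Eventually.of_forall fun z => ?_
    rw [Real.norm_of_nonneg (mul_nonneg (wt_nonneg P Q f z) (hB0 z))]
    exact mul_le_mul_of_nonneg_left (hBC z) (wt_nonneg P Q f z)
  have hwg : Integrable (fun z => wt P Q f z * gg s P Q z) := by
    obtain ⟨B, hB0, hB⟩ := gg_bdd hN
    refine (((ph_int h f n).2).const_mul B).mono'
      (hwt.aestronglyMeasurable.mul (gg_meas s P Q).aestronglyMeasurable) ?_
    refine Filter.Eventually.of_forall fun z => ?_
    rw [Real.norm_of_nonneg (mul_nonneg (wt_nonneg P Q f z) (gg_nonneg s P Q z))]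
    calc wt P Q f z * gg s P Q z ≤ wt P Q f z * (B * (1 + nn z) ^ n) :=
          mul_le_mul_of_nonneg_left (hB z) (wt_nonneg P Q f z)
      _ = B * (wt P Q f z * (1 + nn z) ^ n) := by ring
  have hint : Integrable (fun z => wt P Q f z * (k * gg s P Q z -
      1 / 2 * ((∫ w, KK k s P Q z w) + ∫ w, KK k s P Q w z))) := by
    have := (hwg.const_mul (k : ℝ)).sub ((hwA.add hwB).const_mul (1 / 2))
    refine this.congr (Filter.Eventually.of_forall fun z => ?_)
    simp only [Pi.sub_apply, Pi.add_apply]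
    ring
  refine ⟨hint, ?_⟩
  -- the double integral of the kernel
  have hΦm : Measurable (fun x : (Fin n → ℂ) × (Fin n → ℂ) => wt P Q f x.1 * KK k s P Q x.1 x.2) :=
    ((wt_cont P Q f).measurable.comp measurable_fst).mul hm
  have hΨm : Measurable (fun x : (Fin n → ℂ) × (Fin n → ℂ) => wt P Q f x.2 * KK k s P Q x.1 x.2) :=
    ((wt_cont P Q f).measurable.comp measurable_snd).mul hm
  have hΦ : Integrable (fun x : (Fin n → ℂ) × (Fin n → ℂ) => wt P Q f x.1 * KK k s P Q x.1 x.2)
      (volume.prod volume) := by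
    rw [integrable_prod_iff hΦm.aestronglyMeasurable]
    refine ⟨Filter.Eventually.of_forall fun z => (hA z).const_mul (wt P Q f z), ?_⟩
    refine hwA.congr (Filter.Eventually.of_forall fun z => ?_)
    simp only
    rw [← integral_const_mul]
    refine integral_congr_ae (Filter.Eventually.of_forall fun w => ?_)
    simp only
    rw [Real.norm_of_nonneg (mul_nonneg (wt_nonneg P Q f z) (hK z w))]
  have hΨ : Integrable (fun x : (Fin n → ℂ) × (Fin n → ℂ) => wt P Q f x.2 * KK k s P Q x.1 x.2)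
      (volume.prod volume) := by
    rw [integrable_prod_iff' hΨm.aestronglyMeasurable]
    refine ⟨Filter.Eventually.of_forall fun z => (hB z).const_mul (wt P Q f z), ?_⟩
    refine hwB.congr (Filter.Eventually.of_forall fun z => ?_)
    simp only
    rw [← integral_const_mul]
    refine integral_congr_ae (Filter.Eventually.of_forall fun w => ?_)
    simp only
    rw [Real.norm_of_nonneg (mul_nonneg (wt_nonneg P Q f z) (hK w z))]
  have hΘm : Measurable (fun x : (Fin n → ℂ) × (Fin n → ℂ) =>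
      ph P Q f x.1 * (ph P Q f x.2 * KK k s P Q x.1 x.2)) :=
    ((ph_cont P Q f).measurable.comp measurable_fst).mul
      (((ph_cont P Q f).measurable.comp measurable_snd).mul hm)
  have hΘle : ∀ x : (Fin n → ℂ) × (Fin n → ℂ), ph P Q f x.1 * (ph P Q f x.2 * KK k s P Q x.1 x.2) ≤
      1 / 2 * (wt P Q f x.1 * KK k s P Q x.1 x.2 + wt P Q f x.2 * KK k s P Q x.1 x.2) := by
    intro x
    rw [← ph_sq, ← ph_sq]
    nlinarith [mul_nonneg (sq_nonneg (ph P Q f x.1 - ph P Q f x.2)) (hK x.1 x.2)]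
  have hΘ : Integrable (fun x : (Fin n → ℂ) × (Fin n → ℂ) =>
      ph P Q f x.1 * (ph P Q f x.2 * KK k s P Q x.1 x.2)) (volume.prod volume) := by
    refine ((hΦ.add hΨ).const_mul (1 / 2)).mono' hΘm.aestronglyMeasurable ?_
    refine Filter.Eventually.of_forall fun x => ?_
    rw [Real.norm_of_nonneg (mul_nonneg (ph_nonneg P Q f x.1)
      (mul_nonneg (ph_nonneg P Q f x.2) (hK x.1 x.2)))]
    exact hΘle x
  have hΘ' : Integrable (fun z => ph P Q f z * ∫ w, ph P Q f w * KK k s P Q z w) := by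
    have := hΘ.integral_prod_left
    refine this.congr (Filter.Eventually.of_forall fun z => ?_)
    simp only
    rw [integral_const_mul]
  have hΘI : ∫ z, ph P Q f z * ∫ w, ph P Q f w * KK k s P Q z w ≤
      1 / 2 * ((∫ z, wt P Q f z * ∫ w, KK k s P Q z w) +
        ∫ z, wt P Q f z * ∫ w, KK k s P Q w z) := by
    have e1 : ∫ z, ph P Q f z * ∫ w, ph P Q f w * KK k s P Q z w =
        ∫ x, ph P Q f x.1 * (ph P Q f x.2 * KK k s P Q x.1 x.2) ∂(volume.prod volume) := by
      rw [integral_prod _ hΘ]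
      refine integral_congr_ae (Filter.Eventually.of_forall fun z => ?_)
      simp only
      rw [integral_const_mul]
    have e2 : ∫ z, wt P Q f z * ∫ w, KK k s P Q z w =
        ∫ x, wt P Q f x.1 * KK k s P Q x.1 x.2 ∂(volume.prod volume) := by
      rw [integral_prod _ hΦ]
      refine integral_congr_ae (Filter.Eventually.of_forall fun z => ?_)
      simp only
      rw [integral_const_mul]
    have e3 : ∫ z, wt P Q f z * ∫ w, KK k s P Q w z =
        ∫ x, wt P Q f x.2 * KK k s P Q x.1 x.2 ∂(volume.prod volume) := by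
      rw [integral_prod_symm _ hΨ]
      refine integral_congr_ae (Filter.Eventually.of_forall fun z => ?_)
      simp only
      rw [integral_const_mul]
    rw [e1, e2, e3, ← integral_add hΦ hΨ, ← integral_const_mul]
    exact integral_mono hΘ ((hΦ.add hΨ).const_mul (1 / 2)) hΘle
  -- the main term
  have hJ : Integrable (fun z => (starRingEnd ℂ) (eval z f) * (Real.exp (-(r2 P Q z)) : ℂ) *
      ∫ w, eval w f * Complex.exp (R2 P Q z w - (r2 P Q w : ℂ))) := by
    have := (prod_int h f).integral_prod_left (μ := volume) (ν := volume)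
    refine this.congr (Filter.Eventually.of_forall fun z => ?_)
    simp only
    rw [integral_const_mul]
  have hre : (II P Q f).re = ∫ z, ((starRingEnd ℂ) (eval z f) *
      (Real.exp (-(r2 P Q z)) : ℂ) *
        ∫ w, eval w f * Complex.exp (R2 P Q z w - (r2 P Q w : ℂ))).re := by
    unfold II
    have := integral_re hJ
    simpa using this.symm
  rw [hre]
  have hL : ∫ z, wt P Q f z * (k * gg s P Q z -
      1 / 2 * ((∫ w, KK k s P Q z w) + ∫ w, KK k s P Q w z)) =
      (∫ z, k * (wt P Q f z * gg s P Q z)) - 1 / 2 * ((∫ z, wt P Q f z * ∫ w, KK k s P Q z w) +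
        ∫ z, wt P Q f z * ∫ w, KK k s P Q w z) := by
    have e1 := integral_add hwA hwB
    have e2 := integral_const_mul (μ := volume) (1 / 2 : ℝ) (fun z =>
      (wt P Q f z * ∫ w, KK k s P Q z w) + wt P Q f z * ∫ w, KK k s P Q w z)
    have hw2 : Integrable (fun z => 1 / 2 * ((wt P Q f z * ∫ w, KK k s P Q z w) +
        wt P Q f z * ∫ w, KK k s P Q w z)) := (hwA.add hwB).const_mul (1 / 2)
    have e3 := integral_sub (hwg.const_mul (k : ℝ)) hw2
    rw [← e1, ← e2, ← e3]
    refine integral_congr_ae (Filter.Eventually.of_forall fun z => ?_)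
    simp only
    ring
  rw [hL]
  have hfin : (∫ z, k * (wt P Q f z * gg s P Q z)) -
      ∫ z, ph P Q f z * ∫ w, ph P Q f w * KK k s P Q z w ≤
      ∫ z, ((starRingEnd ℂ) (eval z f) * (Real.exp (-(r2 P Q z)) : ℂ) *
        ∫ w, eval w f * Complex.exp (R2 P Q z w - (r2 P Q w : ℂ))).re := by
    rw [← integral_sub (hwg.const_mul (k : ℝ)) hΘ']
    exact integral_mono ((hwg.const_mul (k : ℝ)).sub hΘ') hJ.re (fun z => cd_J h hN hf z)
  linarith

end Pool.Agent.Work.MP_49847a_an
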