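import Pool.Agent.Work.MP_49847a_an.Sg.CConc
import Pool.Agent.Work.MP_49847a_an.Sg.CHerm
import Pool.Agent.Work.MP_49847a_an.Sg.CGram
import Pool.Agent.Work.MP_49847a_an.Sg.CGs

/-!
# The theorem of Catlin and D'Angelo, homogeneous version (assembly)
-/

namespace Pool.Agent.Work.MP_49847a_an

open MvPolynomial MeasureTheory

open scoped ComplexOrder

variable {n k p q : ℕ} {c : ℝ} {P : Fin p → MvPolynomial (Fin n) ℂ}
  {Q : Fin q → MvPolynomial (Fin n) ℂ}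

theorem cdh (h : CS k c P Q) : ∃ (N : ℕ) (ε : ℝ) (m : ℕ) (g : Fin m → MvPolynomial (Fin n) ℂ),
    0 < N ∧ 0 < ε ∧ ∀ z, r2 P Q z ^ N = nrm g z + ε * nn z ^ (k * N) := by
  obtain ⟨N, hN, hpos⟩ := cd_pos h
  obtain ⟨G, hG, hG'⟩ := herm_rep h N
  obtain ⟨ε, m, g, hε, hg⟩ := gram_sos (gram_pos h (hpos N le_rfl) hG hG')
  refine ⟨N, ε, m, g, hN, hε, fun z => ?_⟩
  have h1 := hG' z z
  rw [hg z, R2_self] at h1
  exact_mod_cast h1

end Pool.Agent.Work.MP_49847a_an
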