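import Pool.Agent.Work.MP_49847a_an.Sg.Kc

/-!
# Module DfMul: the second difference of a product

Proof.  Put `K₁ = F(z,z)`, `K₂ = F(w,w)`, `K = F(z,w)`, `L₁, L₂, L` the same for `G`.  The difference of the two
sides is `S = K₁ L₁ + 4 K₁ L₂ + K₂ L₂ - 4 K₁ Re L + 2 Re (K L) - 4 L₂ Re K` (it is
`‖k₁ ⊗ l₁ - 2 k₁ ⊗ l₂ + k₂ ⊗ l₂‖²` for vectors with these Gram matrices).  If `K₁ > 0` and `L₂ > 0`:
`K₂ ≥ |K|²/K₁`, `L₁ ≥ |L|²/L₂`, so `S ≥ K₁ L₂ |x + conj y - 2|² ≥ 0` with `x = K/K₁`, `y = L/L₂`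
(expand: `|x|² + |y|² + 4 + 2 Re (x y) - 4 Re x - 4 Re y`).  If `K₁ = 0` then `K = 0` and
`S = K₂ L₂ ≥ 0`; if `L₂ = 0` then `L = 0` and `S = K₁ L₁ ≥ 0`.
-/

namespace Pool.Agent.Work.MP_49847a_an

open MvPolynomial

variable {n : ℕ}

private theorem real_ineq {K1 K2 a b L1 L2 c d : ℝ} (hK1 : 0 ≤ K1) (hK2 : 0 ≤ K2)
    (hK : a ^ 2 + b ^ 2 ≤ K1 * K2) (hL1 : 0 ≤ L1) (hL2 : 0 ≤ L2)
    (hL : c ^ 2 + d ^ 2 ≤ L1 * L2) :
    0 ≤ K1 * L1 + 4 * (K1 * L2) + K2 * L2 - 4 * (K1 * c) - 4 * (L2 * a) +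
      2 * (a * c - b * d) := by
  rcases hK1.eq_or_lt with h0 | h0
  · have ha : a = 0 := by
      rw [← h0, zero_mul] at hK
      nlinarith [sq_nonneg a, sq_nonneg b]
    have hb : b = 0 := by
      rw [← h0, zero_mul] at hK
      nlinarith [sq_nonneg a, sq_nonneg b]
    rw [← h0, ha, hb]
    have := mul_nonneg hK2 hL2
    linarith
  rcases hL2.eq_or_lt with g0 | g0
  · have ha : c = 0 := by
      rw [← g0, mul_zero] at hL
      nlinarith [sq_nonneg c, sq_nonneg d]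
    have hb : d = 0 := by
      rw [← g0, mul_zero] at hL
      nlinarith [sq_nonneg c, sq_nonneg d]
    rw [← g0, ha, hb]
    have := mul_nonneg h0.le hL1
    linarith
  · have hpos : 0 < K1 * L2 := mul_pos h0 g0
    refine nonneg_of_mul_nonneg_right ?_ hpos
    have e1 : K1 ^ 2 * (c ^ 2 + d ^ 2) ≤ K1 ^ 2 * (L1 * L2) :=
      mul_le_mul_of_nonneg_left hL (sq_nonneg _)
    have e2 : L2 ^ 2 * (a ^ 2 + b ^ 2) ≤ L2 ^ 2 * (K1 * K2) :=
      mul_le_mul_of_nonneg_left hK (sq_nonneg _)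
    have e3 := sq_nonneg (K1 * c + L2 * a - 2 * (K1 * L2))
    have e4 := sq_nonneg (K1 * d - L2 * b)
    nlinarith

theorem Df_mul_le {F G : MvPolynomial (Fin n ⊕ Fin n) ℝ} {z w : Fin n → ℂ} (hF : Ps F z w)
    (hG : Ps G z w) : Df (F * G) z w ≤ 2 * ev F z * Df G z w + 2 * ev G w * Df F z w := by
  obtain ⟨h1, h2, h3⟩ := hF
  obtain ⟨g1, g2, g3⟩ := hG
  have e1 : (pol F z w).re ^ 2 + (pol F z w).im ^ 2 ≤ ev F z * ev F w := by
    rw [← Complex.normSq_eq_norm_sq, Complex.normSq_apply] at h3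
    nlinarith
  have e2 : (pol G z w).re ^ 2 + (pol G z w).im ^ 2 ≤ ev G z * ev G w := by
    rw [← Complex.normSq_eq_norm_sq, Complex.normSq_apply] at g3
    nlinarith
  have key := real_ineq h1 h2 e1 g1 g2 e2
  unfold Df
  rw [ev_mul, ev_mul, pol_mul, Complex.mul_re]
  nlinarith

end Pool.Agent.Work.MP_49847a_an
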