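import Pool.Agent.Work.MP_49847a_an.Sg.Fu

/-!
# Module Dom: a Hermitian polynomial of bidegree `(m,m)` is dominated by a multiple of `(1 + ‖z‖²)^m`

Proof.  For a holomorphic polynomial `p` and a real polynomial `N` with `ev N = |p|²` say that `p ∈ S_m` if
for some `M ≥ 0`, `Ps (C M * WW n 1 ^ m - N) z w` for all `z w`.
(0) constants are in `S_0` (`M = |c|²`, the difference is zero), `S_m ⊂ S_(m+1)` (`Ps_WW_pow_sub`:
`M W^(m+1) - N = M (W^(m+1) - W^m) + (M W^m - N)`).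
(1) `p ∈ S_m → X i * p ∈ S_(m+1)`: with `ev N_i = |z_i|²`, `M W^(m+1) - N_i N = (W - N_i) M W^m +
N_i (M W^m - N)`; `W - N_i = 1 + ∑_{j ≠ i} |z_j|²` is a Hermitian sum of squares (`Ps_nrm`); `Ps_mul`,
`Ps_add`.
(2) sums: `|p + q|² = 2 |p|² + 2 |q|² - |p - q|²` (as real polynomials, `ev_ext`), so
`(2M + 2M') W^m - N_{p+q} = 2 (M W^m - N_p) + 2 (M' W^m - N_q) + N_{p-q}`.
(3) every `p` with `totalDegree p ≤ m` is in `S_m`: `p` is the sum of its monomials
(`MvPolynomial.as_sum` or `support_sum_monomial_coeff`), a monomial of degree `i` is in `S_i` by (1)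
(induction on the exponent, `Finsupp` induction or `MvPolynomial.monomial_add_single`), so in `S_m`.
(4) For `Dg m F`, `ev F = nrm a - nrm b`: `M W^m - F = (∑_j (M_j W^m - |a_j|²)) + |b|²`, `M W^m + F` in the same
way; take `M` the sum of all constants (a larger `M` is allowed, `Ps_C`, `Ps_pow`, `Ps_WW`).
-/

namespace Pool.Agent.Work.MP_49847a_an

open MvPolynomial

variable {n : ℕ}

private def InS (m : ℕ) (p : MvPolynomial (Fin n) ℂ) : Prop :=
  ∃ M : ℝ, 0 ≤ M ∧ ∃ N : MvPolynomial (Fin n ⊕ Fin n) ℝ, (∀ z, ev N z = ‖eval z p‖ ^ 2) ∧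
    ∀ z w, Ps (C M * WW n 1 ^ m - N) z w

private theorem ps_sq {p : MvPolynomial (Fin n) ℂ} {N : MvPolynomial (Fin n ⊕ Fin n) ℝ}
    (h : ∀ z, ev N z = ‖eval z p‖ ^ 2) (z w : Fin n → ℂ) : Ps N z w :=
  Ps_nrm (p := fun _ : Fin 1 => p) (fun z => by rw [nrm_one, h]) z w

private theorem s_const (c : ℂ) : InS 0 (C c : MvPolynomial (Fin n) ℂ) := by
  refine ⟨‖c‖ ^ 2, by positivity, C (‖c‖ ^ 2), fun z => by rw [ev_C, eval_C], fun z w => ?_⟩
  rw [pow_zero, mul_one, sub_self, ← C_0]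
  exact Ps_C le_rfl z w

private theorem s_succ {m : ℕ} {p : MvPolynomial (Fin n) ℂ} (h : InS m p) : InS (m + 1) p := by
  obtain ⟨M, hM, N, hN, hP⟩ := h
  refine ⟨M, hM, N, hN, fun z w => ?_⟩
  have e : C M * WW n 1 ^ (m + 1) - N = C M * (WW n 1 ^ (m + 1) - WW n 1 ^ m) +
      (C M * WW n 1 ^ m - N) := by ring
  rw [e]
  exact Ps_add (Ps_mul (Ps_C hM z w) (Ps_WW_pow_sub (Nat.le_succ m) z w)) (hP z w)

private theorem s_mono {m m' : ℕ} {p : MvPolynomial (Fin n) ℂ} (h : InS m p) (hm : m ≤ m') :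
    InS m' p := by
  induction m', hm using Nat.le_induction with
  | base => exact h
  | succ k _ ih => exact s_succ ih

private theorem ev_pair (i : Fin n) (z : Fin n → ℂ) :
    ev (X (Sum.inl i) ^ 2 + X (Sum.inr i) ^ 2) z = ‖eval z (X i : MvPolynomial (Fin n) ℂ)‖ ^ 2 := by
  rw [eval_X, ← Complex.normSq_eq_norm_sq, Complex.normSq_apply]
  simp only [ev, map_add, map_pow, eval_X, Sum.elim_inl, Sum.elim_inr]
  ring

private theorem ps_WW_sub (i : Fin n) (z w : Fin n → ℂ) :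
    Ps (WW n 1 - (X (Sum.inl i) ^ 2 + X (Sum.inr i) ^ 2)) z w := by
  classical
  have e : WW n 1 - (X (Sum.inl i) ^ 2 + X (Sum.inr i) ^ 2) =
      C 1 + ∑ j ∈ Finset.univ.erase i,
        (X (Sum.inl j) ^ 2 + X (Sum.inr j) ^ 2 : MvPolynomial (Fin n ⊕ Fin n) ℝ) := by
    unfold WW
    rw [← Finset.add_sum_erase Finset.univ
      (fun j : Fin n => (X (Sum.inl j) ^ 2 + X (Sum.inr j) ^ 2 : MvPolynomial (Fin n ⊕ Fin n) ℝ))
      (Finset.mem_univ i)]
    ring
  rw [e]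
  exact Ps_add (Ps_C zero_le_one z w) (Ps_sum _ fun j _ => ps_sq (ev_pair j) z w)

private theorem s_mulX {m : ℕ} {p : MvPolynomial (Fin n) ℂ} (h : InS m p) (i : Fin n) :
    InS (m + 1) (X i * p) := by
  obtain ⟨M, hM, N, hN, hP⟩ := h
  refine ⟨M, hM, (X (Sum.inl i) ^ 2 + X (Sum.inr i) ^ 2) * N, fun z => ?_, fun z w => ?_⟩
  · rw [ev_mul, ev_pair, hN, map_mul, norm_mul, mul_pow]
  · have e : C M * WW n 1 ^ (m + 1) - (X (Sum.inl i) ^ 2 + X (Sum.inr i) ^ 2) * N =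
        (WW n 1 - (X (Sum.inl i) ^ 2 + X (Sum.inr i) ^ 2)) * (C M * WW n 1 ^ m) +
          (X (Sum.inl i) ^ 2 + X (Sum.inr i) ^ 2) * (C M * WW n 1 ^ m - N) := by ring
    rw [e]
    exact Ps_add (Ps_mul (ps_WW_sub i z w)
      (Ps_mul (Ps_C hM z w) (Ps_pow (Ps_WW zero_le_one z w) m)))
      (Ps_mul (ps_sq (ev_pair i) z w) (hP z w))

private theorem s_mulXpow {m : ℕ} {p : MvPolynomial (Fin n) ℂ} (h : InS m p) (i : Fin n) (b : ℕ) :
    InS (b + m) (X i ^ b * p) := by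
  induction b with
  | zero => rw [pow_zero, one_mul, Nat.zero_add]; exact h
  | succ b ih =>
    have e : X i ^ (b + 1) * p = X i * (X i ^ b * p) := by ring
    have e2 : b + 1 + m = b + m + 1 := by omega
    rw [e, e2]
    exact s_mulX ih i

private theorem s_add {m : ℕ} {p q : MvPolynomial (Fin n) ℂ} (hp : InS m p) (hq : InS m q) :
    InS m (p + q) := by
  obtain ⟨M, hM, N, hN, hP⟩ := hp
  obtain ⟨M', hM', N', hN', hP'⟩ := hq
  obtain ⟨A, hA⟩ := exists_norm_sq (p + q)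
  obtain ⟨B, hB⟩ := exists_norm_sq (p - q)
  have key : A = C 2 * N + C 2 * N' - B := by
    apply ev_ext
    intro z
    rw [ev_sub, ev_add, ev_mul, ev_mul, ev_C, hA, hB, hN, hN', map_add, map_sub,
      ← Complex.normSq_eq_norm_sq, ← Complex.normSq_eq_norm_sq, ← Complex.normSq_eq_norm_sq,
      ← Complex.normSq_eq_norm_sq, Complex.normSq_add, Complex.normSq_sub]
    ring
  refine ⟨2 * M + 2 * M', by positivity, A, hA, fun z w => ?_⟩
  have e : C (2 * M + 2 * M') * WW n 1 ^ m - A =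
      C 2 * (C M * WW n 1 ^ m - N) + C 2 * (C M' * WW n 1 ^ m - N') + B := by
    rw [key, C_add, C_mul, C_mul]
    ring
  rw [e]
  exact Ps_add (Ps_add (Ps_mul (Ps_C zero_le_two z w) (hP z w))
    (Ps_mul (Ps_C zero_le_two z w) (hP' z w))) (ps_sq hB z w)

private theorem s_monomial (s : Fin n →₀ ℕ) (c : ℂ) :
    InS (s.sum fun _ e => e) (monomial s c) := by
  classical
  induction s using Finsupp.induction with
  | zero =>
    rw [Finsupp.sum_zero_index]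
    exact s_const c
  | single_add a b f _ _ ih =>
    rw [monomial_single_add, Finsupp.sum_add_index' (fun _ => rfl) (fun _ _ _ => rfl),
      Finsupp.sum_single_index rfl]
    exact s_mulXpow ih a b

private theorem s_all {m : ℕ} (p : MvPolynomial (Fin n) ℂ) (hp : p.totalDegree ≤ m) : InS m p := by
  rw [← p.support_sum_monomial_coeff]
  refine Finset.sum_induction _ (InS m) (fun _ _ => s_add) ?_ ?_
  · rw [← C_0]
    exact s_mono (s_const 0) (Nat.zero_le m)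
  · intro s hs
    exact s_mono (s_monomial s _) ((le_totalDegree hs).trans hp)

theorem dom_one {m : ℕ} (p : MvPolynomial (Fin n) ℂ) (hp : p.totalDegree ≤ m) :
    ∃ M : ℝ, 0 ≤ M ∧ ∀ N : MvPolynomial (Fin n ⊕ Fin n) ℝ, (∀ z, ev N z = ‖eval z p‖ ^ 2) →
      ∀ z w, Ps (C M * WW n 1 ^ m - N) z w := by
  obtain ⟨M, hM, N, hN, hP⟩ := s_all p hp
  refine ⟨M, hM, fun N' hN' => ?_⟩
  have e : N' = N := ev_ext fun z => by rw [hN, hN']
  rw [e]
  exact hP

theorem dom {m : ℕ} {F : MvPolynomial (Fin n ⊕ Fin n) ℝ} (h : Dg m F) :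
    ∃ M : ℝ, 0 ≤ M ∧ ∀ z w, Ps (C M * WW n 1 ^ m - F) z w ∧ Ps (C M * WW n 1 ^ m + F) z w := by
  obtain ⟨k, a, l, b, ha, hb, hF⟩ := h
  choose A hA using fun j => exists_norm_sq (a j)
  choose B hB using fun j => exists_norm_sq (b j)
  choose M hM hMP using fun j => dom_one (a j) (ha j)
  choose L hL hLP using fun j => dom_one (b j) (hb j)
  have ev_sum' : ∀ {r : ℕ} (G : Fin r → MvPolynomial (Fin n ⊕ Fin n) ℝ) (z : Fin n → ℂ),
      ev (∑ j, G j) z = ∑ j, ev (G j) z := by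
    intro r G z
    unfold ev
    rw [map_sum]
  have key : F = ∑ j, A j - ∑ j, B j := by
    apply ev_ext
    intro z
    rw [ev_sub, ev_sum', ev_sum', hF]
    unfold nrm
    simp only [hA, hB]
  have hsum : ∀ {r : ℕ} (c : Fin r → ℝ) (G : Fin r → MvPolynomial (Fin n ⊕ Fin n) ℝ),
      ∑ j, (C (c j) * WW n 1 ^ m - G j) = C (∑ j, c j) * WW n 1 ^ m - ∑ j, G j := by
    intro r c G
    rw [Finset.sum_sub_distrib, ← Finset.sum_mul, ← map_sum]
  have hMs : 0 ≤ ∑ j, M j := Finset.sum_nonneg fun j _ => hM j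
  have hLs : 0 ≤ ∑ j, L j := Finset.sum_nonneg fun j _ => hL j
  have pW : ∀ z w, Ps (WW n 1 ^ m) z w := fun z w => Ps_pow (Ps_WW zero_le_one z w) m
  refine ⟨∑ j, M j + ∑ j, L j, add_nonneg hMs hLs, fun z w => ⟨?_, ?_⟩⟩
  · have e : C (∑ j, M j + ∑ j, L j) * WW n 1 ^ m - F =
        ∑ j, (C (M j) * WW n 1 ^ m - A j) + C (∑ j, L j) * WW n 1 ^ m + ∑ j, B j := by
      rw [key, hsum, C_add]
      ring
    rw [e]
    exact Ps_add (Ps_add (Ps_sum _ fun j _ => hMP j (A j) (hA j) z w)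
      (Ps_mul (Ps_C hLs z w) (pW z w))) (Ps_sum _ fun j _ => ps_sq (hB j) z w)
  · have e : C (∑ j, M j + ∑ j, L j) * WW n 1 ^ m + F =
        ∑ j, (C (L j) * WW n 1 ^ m - B j) + C (∑ j, M j) * WW n 1 ^ m + ∑ j, A j := by
      rw [key, hsum, C_add]
      ring
    rw [e]
    exact Ps_add (Ps_add (Ps_sum _ fun j _ => hLP j (B j) (hB j) z w)
      (Ps_mul (Ps_C hMs z w) (pW z w))) (Ps_sum _ fun j _ => ps_sq (hA j) z w)

end Pool.Agent.Work.MP_49847a_an
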