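import Pool.Agent.Work.MP_49847a_an.Sg.ELemA

/-!
# Module ELem: `ρ W^κ` is positive on the pairs of points where `ρ` is large, for a large fixed `κ`

Proof.  Write `u = 1 + nn`, `f = fu z w / (u z u w) ∈ [0, 1]` (`fu_le`, `nn_le_fu`).  Let `z`, `w` be points with
`ρ ≥ r₁ u^d`.  By `elem_r` and `elem_w` `|ρ(z,w)|² ≤ ρ(z) ρ(w) (1 + C₂ f)`, `|W(z,w)|² ≤ W(z) W(w) (1 - c₃ f)`.
(3) So for `ρ' = ρ W^κ`, `|ρ'(z,w)|² ≤ ρ'(z) ρ'(w) (1 + C₂ f)(1 - c₃ f)^κ ≤ ρ'(z) ρ'(w) exp(C₂ f - κ c₃ f) ≤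
ρ'(z) ρ'(w) exp (-f) ≤ ρ'(z) ρ'(w) (1 - f/2)` if `κ c₃ ≥ C₂ + 1` (`Real.add_one_le_exp`,
`exp(-f) ≤ 1 - f/2` on `[0,1]`, e.g. `exp(-f) ≤ 1/(1+f)`).  Fix this `κ`, `k = d + e κ > 0`, `U = WW n 1 ^ k`.
(4) `ρ'(z) ≥ r₁ ε^κ u^k` and `Ff ρ' ≥ (f/2) ρ'(z) ρ'(w)`.  The polynomials `ρ'`, `U`, `ρ' + U` have `Dg k`, so
by `lag` `T = Ff (ρ' + U) - Ff ρ' - Ff U ≤ M' u^(k-1) u^(k-1) fu = M' f u^k u^k ≤ M'' f ρ'(z) ρ'(w)`, and
`Ff (ρ' - C ε₂ * U) = Ff ρ' - ε₂ T + ε₂² Ff U ≥ (f/2 - ε₂ M'' f) ρ'(z) ρ'(w) ≥ 0` for `ε₂ ≤ 1/(2 M'' + 2)`; the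
diagonal entries `ρ'(z) - ε₂ u^k ≥ 0` for `ε₂ ≤ r₁ ε^κ`.
-/

namespace Pool.Agent.Work.MP_49847a_an

open MvPolynomial

variable {n m e : ℕ} {ε : ℝ} {h : Fin m → MvPolynomial (Fin n) ℂ}
  {W : MvPolynomial (Fin n ⊕ Fin n) ℝ}

private theorem exp_aux {C₂ c₃ f : ℝ} {κ : ℕ} (hC : 0 ≤ C₂) (hc₁ : c₃ ≤ 1)
    (hκ : C₂ + 1 ≤ κ * c₃) (hf : 0 ≤ f) (hf1 : f ≤ 1) :
    (1 + C₂ * f) * (1 - c₃ * f) ^ κ ≤ 1 - f / 2 := by
  have h1 : 1 + C₂ * f ≤ Real.exp (C₂ * f) := by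
    have := Real.add_one_le_exp (C₂ * f)
    linarith
  have h2 : 1 - c₃ * f ≤ Real.exp (-(c₃ * f)) := by
    have := Real.add_one_le_exp (-(c₃ * f))
    linarith
  have h0 : 0 ≤ 1 - c₃ * f := by nlinarith
  have h3 : (1 - c₃ * f) ^ κ ≤ Real.exp (-(κ * (c₃ * f))) := by
    calc (1 - c₃ * f) ^ κ ≤ Real.exp (-(c₃ * f)) ^ κ := pow_le_pow_left₀ h0 h2 κ
      _ = Real.exp (-(κ * (c₃ * f))) := by
        rw [← Real.exp_nat_mul]
        congr 1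
        ring
  have h4 : (1 + C₂ * f) * (1 - c₃ * f) ^ κ ≤
      Real.exp (C₂ * f) * Real.exp (-(κ * (c₃ * f))) :=
    mul_le_mul h1 h3 (pow_nonneg h0 κ) (Real.exp_pos _).le
  rw [← Real.exp_add] at h4
  have h5 : C₂ * f + -(κ * (c₃ * f)) ≤ -f := by nlinarith
  have h6 := h4.trans (Real.exp_le_exp.2 h5)
  have h7 : Real.exp (-f) * (1 + f) ≤ 1 := by
    have h8 := Real.add_one_le_exp f
    have h9 : Real.exp (-f) * Real.exp f = 1 := by
      rw [← Real.exp_add, neg_add_cancel, Real.exp_zero]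
    have h10 := (Real.exp_pos (-f)).le
    nlinarith
  have h8 : Real.exp (-f) ≤ 1 - f / 2 := by
    by_contra hcon
    push Not at hcon
    nlinarith
  exact h6.trans h8

private theorem Ff_quad (F G : MvPolynomial (Fin n ⊕ Fin n) ℝ) (t : ℝ) (z w : Fin n → ℂ) :
    Ff (F - C t * G) z w =
      Ff F z w - t * (Ff (F + G) z w - Ff F z w - Ff G z w) + t ^ 2 * Ff G z w := by
  unfold Ff
  rw [ev_sub, ev_sub, ev_mul, ev_mul, ev_C, ev_C, pol_sub, pol_mul, pol_C, ev_add, ev_add,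
    pol_add]
  have h1 : ∀ x : ℂ, ‖x‖ ^ 2 = x.re * x.re + x.im * x.im := by
    intro x
    rw [← Complex.normSq_eq_norm_sq, Complex.normSq_apply]
  rw [h1, h1, h1, h1]
  simp only [Complex.sub_re, Complex.sub_im, Complex.re_ofReal_mul, Complex.im_ofReal_mul,
    Complex.add_re, Complex.add_im]
  ring

theorem elem {d : ℕ} (hd : 0 < d) {ρ : MvPolynomial (Fin n ⊕ Fin n) ℝ} (hρ : Dg d ρ)
    (hW : Big e ε h W) {r₁ : ℝ} (hr : 0 < r₁) :
    ∃ (κ : ℕ) (ε₂ : ℝ), 0 < ε₂ ∧ ∀ z w, r₁ * (1 + nn z) ^ d ≤ ev ρ z →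
      r₁ * (1 + nn w) ^ d ≤ ev ρ w →
        Ps (ρ * W ^ κ - C ε₂ * WW n 1 ^ (d + e * κ)) z w := by
  obtain ⟨C₂, hC₂, hr2⟩ := elem_r hd hρ hr
  obtain ⟨c₃, hc₃, hc₃1, hw2⟩ := elem_w hW
  have he : 0 < e := hW.1
  have hε : 0 < ε := hW.2.1
  obtain ⟨κ, hκ⟩ := exists_nat_ge ((C₂ + 1) / c₃)
  have hκ' : C₂ + 1 ≤ κ * c₃ := by
    rwa [div_le_iff₀ hc₃] at hκ
  set k := d + e * κ with hk
  have hk0 : 0 < k := by omega
  set R := ρ * W ^ κ with hR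
  have hDR : Dg k R := by
    have := Dg_mul hρ (Dg_pow (Big_dg hW) κ)
    rwa [mul_comm κ e] at this
  have hDU : Dg k (WW n 1 ^ k) := by
    have := Dg_pow (Dg_WW (n := n) zero_le_one) k
    rwa [mul_one] at this
  obtain ⟨M₁, hM₁, hl₁⟩ := lag hk0 hDR
  obtain ⟨M₂, hM₂, hl₂⟩ := lag hk0 hDU
  obtain ⟨M₃, hM₃, hl₃⟩ := lag hk0 (Dg_add hDR hDU)
  set M := M₁ + M₂ + M₃ with hM
  have hM0 : 0 ≤ M := by positivity
  set a := r₁ * ε ^ κ with ha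
  have ha0 : 0 < a := by positivity
  set N := M / a ^ 2 with hN
  have hN0 : 0 ≤ N := by positivity
  refine ⟨κ, min a (1 / (2 * N + 2)), lt_min ha0 (by positivity), fun z w hz hw => ?_⟩
  set t := min a (1 / (2 * N + 2)) with ht
  have ht0 : 0 < t := lt_min ha0 (by positivity)
  have hta : t ≤ a := min_le_left _ _
  have htN : t * N ≤ 1 / 2 := by
    have h1 : t ≤ 1 / (2 * N + 2) := min_le_right _ _
    have h2 : t * (2 * N + 2) ≤ 1 := by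
      rwa [le_div_iff₀ (by positivity)] at h1
    nlinarith
  have hu : 0 < 1 + nn z := by linarith [nn_nonneg z]
  have hv : 0 < 1 + nn w := by linarith [nn_nonneg w]
  have hf : 0 ≤ fu z w := (nn_nonneg _).trans (nn_le_fu z w)
  have hf1 := fu_le z w
  have hz2 := Big_lower hW z
  have hw3 := Big_lower hW w
  have hr3 := hr2 z w hz hw
  have hw4 := hw2 z w
  have l₁ := hl₁ z w
  have l₂ := hl₂ z w
  have l₃ := hl₃ z w
  have hdz : ∀ x : Fin n → ℂ, ev (R - C t * WW n 1 ^ k) x = ev ρ x * ev W x ^ κ - t * (1 + nn x) ^ k := by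
    intro x
    rw [hR, ev_sub, ev_mul, ev_pow, ev_mul, ev_C, ev_pow, ev_WW]
  have hRz : ∀ x : Fin n → ℂ, ev R x = ev ρ x * ev W x ^ κ := by
    intro x
    rw [hR, ev_mul, ev_pow]
  have hlow : ∀ x : Fin n → ℂ, r₁ * (1 + nn x) ^ d ≤ ev ρ x → a * (1 + nn x) ^ k ≤ ev R x := by
    intro x hx
    have hx0 : 0 < 1 + nn x := by linarith [nn_nonneg x]
    rw [hRz]
    calc a * (1 + nn x) ^ k = (r₁ * (1 + nn x) ^ d) * (ε * (1 + nn x) ^ e) ^ κ := by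
          rw [ha, hk, pow_add, pow_mul, mul_pow]
          ring
      _ ≤ ev ρ x * ev W x ^ κ := mul_le_mul hx (pow_le_pow_left₀ (by positivity)
          (Big_lower hW x) κ) (by positivity) (le_trans (by positivity) hx)
  have hRlz := hlow z hz
  have hRlw := hlow w hw
  have hWz0 : 0 ≤ ev W z := le_trans (by positivity) hz2
  have hWw0 : 0 ≤ ev W w := le_trans (by positivity) hw3
  have hρz0 : 0 ≤ ev ρ z := le_trans (by positivity) hz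
  have hρw0 : 0 ≤ ev ρ w := le_trans (by positivity) hw
  set u := 1 + nn z with hudef
  set v := 1 + nn w with hvdef
  set f := fu z w / (u * v) with hfd
  have hf0 : 0 ≤ f := by positivity
  have hfl : f ≤ 1 := by
    rw [hfd, div_le_one (by positivity)]
    exact hf1
  have hfu : u ^ (k - 1) * v ^ (k - 1) * fu z w = u ^ k * v ^ k * f := by
    obtain ⟨j, hj⟩ : ∃ j, k = j + 1 := ⟨k - 1, by omega⟩
    rw [hj, Nat.add_sub_cancel, pow_succ, pow_succ, hfd]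
    field_simp
  rw [hfu] at l₁ l₂ l₃
  have hRz0 : 0 ≤ ev R z := le_trans (by positivity) hRlz
  have hRw0 : 0 ≤ ev R w := le_trans (by positivity) hRlw
  -- the determinant of `R`
  have hdet : ‖pol R z w‖ ^ 2 ≤ ev R z * ev R w * (1 - f / 2) := by
    have h1 : ‖pol R z w‖ ^ 2 = ‖pol ρ z w‖ ^ 2 * (‖pol W z w‖ ^ 2) ^ κ := by
      rw [hR, pol_mul, pol_pow, norm_mul, norm_pow, mul_pow, ← pow_mul, ← pow_mul, mul_comm κ 2]
    rw [h1, hRz, hRz]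
    calc ‖pol ρ z w‖ ^ 2 * (‖pol W z w‖ ^ 2) ^ κ ≤
          (ev ρ z * ev ρ w * (1 + C₂ * f)) * (ev W z * ev W w * (1 - c₃ * f)) ^ κ :=
          mul_le_mul hr3 (pow_le_pow_left₀ (by positivity) hw4 κ) (by positivity) (by positivity)
      _ = (ev ρ z * ev W z ^ κ * (ev ρ w * ev W w ^ κ)) * ((1 + C₂ * f) * (1 - c₃ * f) ^ κ) := by
          rw [mul_pow, mul_pow]
          ring
      _ ≤ (ev ρ z * ev W z ^ κ * (ev ρ w * ev W w ^ κ)) * (1 - f / 2) :=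
          mul_le_mul_of_nonneg_left (exp_aux hC₂ hc₃1 hκ' hf0 hfl) (by positivity)
  have hFf : f / 2 * (ev R z * ev R w) ≤ Ff R z w := by
    unfold Ff
    linarith
  have hT : Ff (R + WW n 1 ^ k) z w - Ff R z w - Ff (WW n 1 ^ k) z w ≤ M * (u ^ k * v ^ k * f) := by
    have h1 := le_abs_self (Ff (R + WW n 1 ^ k) z w)
    have h2 := neg_le_abs (Ff R z w)
    have h3 := neg_le_abs (Ff (WW n 1 ^ k) z w)
    rw [hM]
    linarith
  have hUU : 0 ≤ Ff (WW n 1 ^ k) z w := Ff_nonneg (Ps_pow (Ps_WW zero_le_one z w) k)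
  have hP : M * (u ^ k * v ^ k * f) ≤ N * (f * (ev R z * ev R w)) := by
    have h1 : a * u ^ k * (a * v ^ k) ≤ ev R z * ev R w :=
      mul_le_mul hRlz hRlw (by positivity) hRz0
    calc M * (u ^ k * v ^ k * f) = N * (f * (a * u ^ k * (a * v ^ k))) := by
          rw [hN]
          field_simp
      _ ≤ N * (f * (ev R z * ev R w)) :=
          mul_le_mul_of_nonneg_left (mul_le_mul_of_nonneg_left h1 hf0) hN0
  have hfin : 0 ≤ Ff (R - C t * WW n 1 ^ k) z w := by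
    rw [Ff_quad]
    have h1 : t * (Ff (R + WW n 1 ^ k) z w - Ff R z w - Ff (WW n 1 ^ k) z w) ≤
        t * (N * (f * (ev R z * ev R w))) := mul_le_mul_of_nonneg_left (hT.trans hP) ht0.le
    have h2 : t * (N * (f * (ev R z * ev R w))) ≤ 1 / 2 * (f * (ev R z * ev R w)) := by
      rw [← mul_assoc]
      exact mul_le_mul_of_nonneg_right htN (by positivity)
    have h3 : 0 ≤ t ^ 2 * Ff (WW n 1 ^ k) z w := by positivity
    linarith
  refine ⟨?_, ?_, ?_⟩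
  · rw [hdz, ← hRz]
    have h1 : t * u ^ k ≤ a * u ^ k := mul_le_mul_of_nonneg_right hta (by positivity)
    linarith
  · rw [hdz, ← hRz]
    have h1 : t * v ^ k ≤ a * v ^ k := mul_le_mul_of_nonneg_right hta (by positivity)
    linarith
  · unfold Ff at hfin
    linarith

end Pool.Agent.Work.MP_49847a_an
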