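import Pool.Agent.Work.MP_49847a_an.Sg.Dom

/-!
# Module Lag: the determinants `Ff F` are `O((1+‖z‖²)^(k-1) (1+‖w‖²)^(k-1) fu)`

Proof.
(lag_two) Let `p`, `q` have degree `≤ k`, `ev N = |p|² + |q|²`.  By `dom_one` (twice) `Ps (C M * WW n 1 ^ k - N)`
for some `M` and all `z w`, so by `Ff_mono` `Ff N ≤ Ff (C M * WW n 1 ^ k) = M² Ff (WW n 1 ^ k) ≤
M² k (…) ` (`Ff_WW_pow_le`), and `Ff N z w = |p(z) q(w) - q(z) p(w)|²` (Lagrange identity, `pol_nrm`).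
(lag) `ev F = nrm a - nrm b`.  Let `p` be the family `a, b` with the signs `σ = ±1`
(`x_s = p_s(z)`, `y_s = p_s(w)`).  Then
`Ff F z w = (∑ σ_s |x_s|²)(∑ σ_t |y_t|²) - |∑ σ_s x_s conj y_s|² = 1/2 ∑_{s,t} σ_s σ_t |x_s y_t - x_t y_s|²`,
so `|Ff F z w| ≤ 1/2 ∑_{s,t} |p_s(z) p_t(w) - p_t(z) p_s(w)|²` and `lag_two` applies to every pair.
(pol_bd) `‖pol F z w‖² = ev F z * ev F w - Ff F z w`, or directly Cauchy-Schwarz and `Dg_bound` for
`nrm a`, `nrm b`.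
-/

namespace Pool.Agent.Work.MP_49847a_an

open MvPolynomial

variable {n : ℕ}

private theorem lagr {I : Type} [Fintype I] (σ : I → ℝ) (x y : I → ℂ) :
    (∑ s, σ s * ‖x s‖ ^ 2) * (∑ t, σ t * ‖y t‖ ^ 2) -
      ‖∑ s, (σ s : ℂ) * (x s * (starRingEnd ℂ) (y s))‖ ^ 2 =
      1 / 2 * ∑ s, ∑ t, σ s * σ t * ‖x s * y t - x t * y s‖ ^ 2 := by
  have h1 : ‖∑ s, (σ s : ℂ) * (x s * (starRingEnd ℂ) (y s))‖ ^ 2 =
      ∑ s, ∑ t, σ s * σ t * ((x s * (starRingEnd ℂ) (y s)) *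
        (starRingEnd ℂ) (x t * (starRingEnd ℂ) (y t))).re := by
    rw [← Complex.normSq_eq_norm_sq]
    have h2 : (Complex.normSq (∑ s, (σ s : ℂ) * (x s * (starRingEnd ℂ) (y s))) : ℝ) =
        ((∑ s, (σ s : ℂ) * (x s * (starRingEnd ℂ) (y s))) *
          (starRingEnd ℂ) (∑ s, (σ s : ℂ) * (x s * (starRingEnd ℂ) (y s)))).re := by
      rw [Complex.mul_conj, Complex.ofReal_re]
    rw [h2, map_sum, Finset.sum_mul_sum, Complex.re_sum]
    refine Finset.sum_congr rfl fun s _ => ?_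
    rw [Complex.re_sum]
    refine Finset.sum_congr rfl fun t _ => ?_
    rw [map_mul (starRingEnd ℂ) (σ t : ℂ), Complex.conj_ofReal]
    have h3 : (σ s : ℂ) * (x s * (starRingEnd ℂ) (y s)) *
        ((σ t : ℂ) * (starRingEnd ℂ) (x t * (starRingEnd ℂ) (y t))) =
        ((σ s * σ t : ℝ) : ℂ) * ((x s * (starRingEnd ℂ) (y s)) *
          (starRingEnd ℂ) (x t * (starRingEnd ℂ) (y t))) := by
      push_cast
      ring
    rw [h3, Complex.re_ofReal_mul]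
  have h4 : ∑ s, ∑ t, σ s * σ t * (‖x t‖ ^ 2 * ‖y s‖ ^ 2) =
      ∑ s, ∑ t, σ s * σ t * (‖x s‖ ^ 2 * ‖y t‖ ^ 2) := by
    rw [Finset.sum_comm]
    refine Finset.sum_congr rfl fun s _ => Finset.sum_congr rfl fun t _ => ?_
    ring
  have h5 : (∑ s, σ s * ‖x s‖ ^ 2) * (∑ t, σ t * ‖y t‖ ^ 2) =
      ∑ s, ∑ t, σ s * σ t * (‖x s‖ ^ 2 * ‖y t‖ ^ 2) := by
    rw [Finset.sum_mul_sum]
    refine Finset.sum_congr rfl fun s _ => Finset.sum_congr rfl fun t _ => ?_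
    ring
  have h6 : ∑ s, ∑ t, σ s * σ t * ‖x s * y t - x t * y s‖ ^ 2 =
      ∑ s, ∑ t, σ s * σ t * (‖x s‖ ^ 2 * ‖y t‖ ^ 2) +
      ∑ s, ∑ t, σ s * σ t * (‖x t‖ ^ 2 * ‖y s‖ ^ 2) -
      2 * ∑ s, ∑ t, σ s * σ t * ((x s * (starRingEnd ℂ) (y s)) *
        (starRingEnd ℂ) (x t * (starRingEnd ℂ) (y t))).re := by
    rw [Finset.mul_sum, ← Finset.sum_add_distrib, ← Finset.sum_sub_distrib]
    refine Finset.sum_congr rfl fun s _ => ?_
    rw [Finset.mul_sum, ← Finset.sum_add_distrib, ← Finset.sum_sub_distrib]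
    refine Finset.sum_congr rfl fun t _ => ?_
    simp only [← Complex.normSq_eq_norm_sq, Complex.normSq_apply, Complex.mul_re, Complex.mul_im,
      Complex.sub_re, Complex.sub_im, Complex.conj_re, Complex.conj_im]
    ring
  rw [h1, h6, h4, h5]
  ring

private theorem Ff_C_mul {c : ℝ} (hc : 0 ≤ c) (F : MvPolynomial (Fin n ⊕ Fin n) ℝ)
    (z w : Fin n → ℂ) : Ff (C c * F) z w = c ^ 2 * Ff F z w := by
  unfold Ff
  rw [ev_mul, ev_mul, ev_C, ev_C, pol_mul, pol_C, norm_mul, Complex.norm_real,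
    Real.norm_of_nonneg hc]
  ring

private theorem lag_two {k : ℕ} (hk : 0 < k) {p q : MvPolynomial (Fin n) ℂ}
    (hp : p.totalDegree ≤ k) (hq : q.totalDegree ≤ k) :
    ∃ M : ℝ, 0 ≤ M ∧ ∀ z w, ‖eval z p * eval w q - eval z q * eval w p‖ ^ 2 ≤
      M * ((1 + nn z) ^ (k - 1) * (1 + nn w) ^ (k - 1) * fu z w) := by
  obtain ⟨M₁, hM₁, h₁⟩ := dom_one p hp
  obtain ⟨M₂, hM₂, h₂⟩ := dom_one q hq
  obtain ⟨A, hA⟩ := exists_norm_sq p
  obtain ⟨B, hB⟩ := exists_norm_sq q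
  have hA1 : ∀ z, ev A z = nrm (fun _ : Fin 1 => p) z := fun z => by rw [nrm_one, hA]
  have hB1 : ∀ z, ev B z = nrm (fun _ : Fin 1 => q) z := fun z => by rw [nrm_one, hB]
  refine ⟨(M₁ + M₂) ^ 2 * k, by positivity, fun z w => ?_⟩
  have e1 : C (M₁ + M₂) * WW n 1 ^ k - (A + B) =
      (C M₁ * WW n 1 ^ k - A) + (C M₂ * WW n 1 ^ k - B) := by
    rw [C_add]
    ring
  have h3 : Ps (C (M₁ + M₂) * WW n 1 ^ k - (A + B)) z w := by
    rw [e1]
    exact Ps_add (h₁ A hA z w) (h₂ B hB z w)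
  have h4 : Ps (A + B) z w := Ps_add (Ps_nrm hA1 z w) (Ps_nrm hB1 z w)
  have h5 := Ff_mono h3 h4
  rw [Ff_C_mul (add_nonneg hM₁ hM₂)] at h5
  have h6 := Ff_WW_pow_le hk z w
  have h7 : Ff (A + B) z w = ‖eval z p * eval w q - eval z q * eval w p‖ ^ 2 := by
    unfold Ff
    rw [ev_add, ev_add, pol_add, pol_nrm hA1, pol_nrm hB1, hA, hA, hB, hB,
      Fin.sum_univ_one, Fin.sum_univ_one]
    simp only [← Complex.normSq_eq_norm_sq, Complex.normSq_apply, Complex.mul_re, Complex.mul_im,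
      Complex.sub_re, Complex.sub_im, Complex.add_re, Complex.add_im, Complex.conj_re,
      Complex.conj_im]
    ring
  rw [h7] at h5
  calc ‖eval z p * eval w q - eval z q * eval w p‖ ^ 2 ≤
        (M₁ + M₂) ^ 2 * Ff (WW n 1 ^ k) z w := h5
    _ ≤ (M₁ + M₂) ^ 2 * (k * ((1 + nn z) ^ (k - 1) * (1 + nn w) ^ (k - 1) * fu z w)) :=
        mul_le_mul_of_nonneg_left h6 (by positivity)
    _ = _ := by ring

theorem lag {k : ℕ} (hk : 0 < k) {F : MvPolynomial (Fin n ⊕ Fin n) ℝ} (h : Dg k F) :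
    ∃ M : ℝ, 0 ≤ M ∧ ∀ z w, |Ff F z w| ≤
      M * ((1 + nn z) ^ (k - 1) * (1 + nn w) ^ (k - 1) * fu z w) := by
  classical
  obtain ⟨K, a, L, b, ha, hb, hF⟩ := h
  let fam : Fin K ⊕ Fin L → MvPolynomial (Fin n) ℂ := Sum.elim a b
  let σ : Fin K ⊕ Fin L → ℝ := Sum.elim (fun _ => 1) (fun _ => -1)
  have hdeg : ∀ s, (fam s).totalDegree ≤ k := by
    rintro (j | j)
    · exact ha j
    · exact hb j
  have hσ : ∀ s, |σ s| = 1 := by
    rintro (j | j)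
    · exact abs_one
    · show |(-1 : ℝ)| = 1
      rw [abs_neg, abs_one]
  choose M hM hMb using fun s t => lag_two hk (hdeg s) (hdeg t)
  refine ⟨1 / 2 * ∑ s, ∑ t, M s t, mul_nonneg (by norm_num)
    (Finset.sum_nonneg fun s _ => Finset.sum_nonneg fun t _ => hM s t), fun z w => ?_⟩
  have hev : ∀ u, ev F u = ∑ s, σ s * ‖eval u (fam s)‖ ^ 2 := by
    intro u
    rw [hF u, Fintype.sum_sum_type]
    unfold nrm
    rw [sub_eq_add_neg, ← Finset.sum_neg_distrib]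
    congr 1
    · refine Finset.sum_congr rfl fun j _ => ?_
      show _ = 1 * ‖eval u (a j)‖ ^ 2
      rw [one_mul]
    · refine Finset.sum_congr rfl fun j _ => ?_
      show _ = -1 * ‖eval u (b j)‖ ^ 2
      ring
  have hpol : pol F z w = ∑ s, (σ s : ℂ) * (eval z (fam s) * (starRingEnd ℂ) (eval w (fam s))) := by
    have hr : ∀ u, ev F u = r2 a b u := hF
    rw [pol_r2 hr, R2, Fintype.sum_sum_type, sub_eq_add_neg, ← Finset.sum_neg_distrib]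
    congr 1
    · refine Finset.sum_congr rfl fun j _ => ?_
      show _ = ((1 : ℝ) : ℂ) * (eval z (a j) * (starRingEnd ℂ) (eval w (a j)))
      rw [Complex.ofReal_one, one_mul]
    · refine Finset.sum_congr rfl fun j _ => ?_
      show _ = ((-1 : ℝ) : ℂ) * (eval z (b j) * (starRingEnd ℂ) (eval w (b j)))
      push_cast
      ring
  have hFf : Ff F z w = 1 / 2 * ∑ s, ∑ t, σ s * σ t *
      ‖eval z (fam s) * eval w (fam t) - eval z (fam t) * eval w (fam s)‖ ^ 2 := by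
    unfold Ff
    rw [hev z, hev w, hpol, lagr]
  rw [hFf, abs_mul, abs_of_nonneg (by norm_num : (0 : ℝ) ≤ 1 / 2), mul_assoc]
  refine mul_le_mul_of_nonneg_left ?_ (by norm_num)
  refine (Finset.abs_sum_le_sum_abs _ _).trans ?_
  rw [Finset.sum_mul]
  refine Finset.sum_le_sum fun s _ => ?_
  refine (Finset.abs_sum_le_sum_abs _ _).trans ?_
  rw [Finset.sum_mul]
  refine Finset.sum_le_sum fun t _ => ?_
  rw [abs_mul, abs_mul, hσ, hσ, one_mul, one_mul, abs_of_nonneg (by positivity)]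
  exact hMb s t z w

theorem pol_bd {k : ℕ} {F : MvPolynomial (Fin n ⊕ Fin n) ℝ} (h : Dg k F) :
    ∃ M : ℝ, 0 ≤ M ∧ ∀ z w, ‖pol F z w‖ ^ 2 ≤ M * ((1 + nn z) ^ k * (1 + nn w) ^ k) := by
  obtain ⟨M, hM, hP⟩ := dom h
  refine ⟨4 * M ^ 2, by positivity, fun z w => ?_⟩
  obtain ⟨h1, h2⟩ := hP z w
  obtain ⟨a1, a2, a3⟩ := h1
  obtain ⟨b1, b2, b3⟩ := h2
  rw [ev_sub, ev_mul, ev_C, ev_pow, ev_WW] at a1 a2
  rw [ev_add, ev_mul, ev_C, ev_pow, ev_WW] at b1 b2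
  rw [ev_sub, ev_sub, ev_mul, ev_mul, ev_C, ev_C, ev_pow, ev_pow, ev_WW, ev_WW] at a3
  rw [ev_add, ev_add, ev_mul, ev_mul, ev_C, ev_C, ev_pow, ev_pow, ev_WW, ev_WW] at b3
  have e : 2 * pol F z w = pol (C M * WW n 1 ^ k + F) z w - pol (C M * WW n 1 ^ k - F) z w := by
    rw [pol_add, pol_sub]
    ring
  have h3 : ‖2 * pol F z w‖ ≤ ‖pol (C M * WW n 1 ^ k + F) z w‖ +
      ‖pol (C M * WW n 1 ^ k - F) z w‖ := by
    rw [e]
    exact norm_sub_le _ _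
  rw [norm_mul, Complex.norm_two] at h3
  have hz : 0 ≤ M * (1 + nn z) ^ k := by
    have := nn_nonneg z
    positivity
  have hw : 0 ≤ M * (1 + nn w) ^ k := by
    have := nn_nonneg w
    positivity
  set x := ‖pol (C M * WW n 1 ^ k + F) z w‖
  set y := ‖pol (C M * WW n 1 ^ k - F) z w‖
  have h4 : x ^ 2 ≤ (2 * (M * (1 + nn z) ^ k)) * (2 * (M * (1 + nn w) ^ k)) :=
    b3.trans (mul_le_mul (by linarith) (by linarith) b2 (by linarith))
  have h5 : y ^ 2 ≤ (2 * (M * (1 + nn z) ^ k)) * (2 * (M * (1 + nn w) ^ k)) :=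
    a3.trans (mul_le_mul (by linarith) (by linarith) a2 (by linarith))
  have h6 : (2 * ‖pol F z w‖) ^ 2 ≤ (x + y) ^ 2 :=
    pow_le_pow_left₀ (by positivity) h3 2
  nlinarith [sq_nonneg (x - y)]

end Pool.Agent.Work.MP_49847a_an
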