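import Pool.Agent.Work.MP_49847a_an.Sg.BigL
import Pool.Agent.Work.MP_49847a_an.Sg.Lag

/-!
# Module ELemA: two Cauchy-Schwarz estimates

Write `u = 1 + nn`, `f = fu z w / (u z u w) ∈ [0, 1]` (`fu_le`, `nn_le_fu`, `nn_nonneg`).
(elem_r) `|Ff ρ| ≤ M u^(d-1) u^(d-1) fu` (`lag`), `|ρ(z,w)|² = ρ(z) ρ(w) - Ff ρ`, and
`u^(d-1) u^(d-1) fu = u^d u^d f ≤ ρ(z) ρ(w) f / r₁²`; `C₂ = M/r₁²`.
(elem_w) by `Ff_mono` (`Big_Ps_sub`)
`Ff W ≥ Ff (C ε * WW n 1 ^ e) = ε² Ff (WW n 1 ^ e) ≥ ε² u^(e-1) u^(e-1) fu = ε² u^e u^e f` (`Ff_WW_pow_ge`, `e > 0`) and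
`W(z) W(w) ≤ M² u^e u^e` (`Big_upper`); `c₃ = ε²/(M² + ε²)`.
-/

namespace Pool.Agent.Work.MP_49847a_an

open MvPolynomial

variable {n m e : ℕ} {ε : ℝ} {h : Fin m → MvPolynomial (Fin n) ℂ}
  {W : MvPolynomial (Fin n ⊕ Fin n) ℝ}

theorem elem_r {d : ℕ} (hd : 0 < d) {ρ : MvPolynomial (Fin n ⊕ Fin n) ℝ} (hρ : Dg d ρ)
    {r₁ : ℝ} (hr : 0 < r₁) : ∃ C₂ : ℝ, 0 ≤ C₂ ∧ ∀ z w, r₁ * (1 + nn z) ^ d ≤ ev ρ z →
      r₁ * (1 + nn w) ^ d ≤ ev ρ w → ‖pol ρ z w‖ ^ 2 ≤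
        ev ρ z * ev ρ w * (1 + C₂ * (fu z w / ((1 + nn z) * (1 + nn w)))) := by
  obtain ⟨M, hM, h⟩ := lag hd hρ
  refine ⟨M / r₁ ^ 2, by positivity, fun z w hz hw => ?_⟩
  have hu : 0 < 1 + nn z := by linarith [nn_nonneg z]
  have hv : 0 < 1 + nn w := by linarith [nn_nonneg w]
  have hf : 0 ≤ fu z w := (nn_nonneg _).trans (nn_le_fu z w)
  have h1 : ‖pol ρ z w‖ ^ 2 = ev ρ z * ev ρ w - Ff ρ z w := by
    unfold Ff
    ring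
  have h2 := (neg_le_abs (Ff ρ z w)).trans (h z w)
  set u := 1 + nn z
  set v := 1 + nn w
  obtain ⟨k, rfl⟩ : ∃ k, d = k + 1 := ⟨d - 1, by omega⟩
  have h3 : u ^ (k + 1 - 1) * v ^ (k + 1 - 1) * fu z w =
      u ^ (k + 1) * v ^ (k + 1) * (fu z w / (u * v)) := by
    rw [Nat.add_sub_cancel, pow_succ, pow_succ]
    field_simp
  rw [h3] at h2
  set f := fu z w / (u * v) with hfd
  have hf0 : 0 ≤ f := by positivity
  have h4 : r₁ * u ^ (k + 1) * (r₁ * v ^ (k + 1)) ≤ ev ρ z * ev ρ w :=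
    mul_le_mul hz hw (by positivity) (le_trans (by positivity) hz)
  have h5 : M * (u ^ (k + 1) * v ^ (k + 1) * f) ≤ ev ρ z * ev ρ w * (M / r₁ ^ 2 * f) := by
    have h6 : M * (u ^ (k + 1) * v ^ (k + 1) * f) =
        (r₁ * u ^ (k + 1) * (r₁ * v ^ (k + 1))) * (M / r₁ ^ 2 * f) := by
      field_simp
    rw [h6]
    exact mul_le_mul_of_nonneg_right h4 (by positivity)
  rw [h1]
  nlinarith

private theorem Ff_C_mul (c : ℝ) (F : MvPolynomial (Fin n ⊕ Fin n) ℝ) (z w : Fin n → ℂ) :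
    Ff (C c * F) z w = c ^ 2 * Ff F z w := by
  unfold Ff
  rw [ev_mul, ev_mul, ev_C, ev_C, pol_mul, pol_C, norm_mul, Complex.norm_real, mul_pow,
    Real.norm_eq_abs, sq_abs]
  ring

theorem elem_w (hW : Big e ε h W) : ∃ c₃ : ℝ, 0 < c₃ ∧ c₃ ≤ 1 ∧ ∀ z w, ‖pol W z w‖ ^ 2 ≤
    ev W z * ev W w * (1 - c₃ * (fu z w / ((1 + nn z) * (1 + nn w)))) := by
  obtain ⟨M, hM, hup⟩ := Big_upper hW
  have he : 0 < e := hW.1
  have hε : 0 < ε := hW.2.1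
  have hden : 0 < M ^ 2 + ε ^ 2 := by positivity
  refine ⟨ε ^ 2 / (M ^ 2 + ε ^ 2), by positivity, ?_, fun z w => ?_⟩
  · rw [div_le_one hden]
    nlinarith [sq_nonneg M]
  have hu : 0 < 1 + nn z := by linarith [nn_nonneg z]
  have hv : 0 < 1 + nn w := by linarith [nn_nonneg w]
  have hf : 0 ≤ fu z w := (nn_nonneg _).trans (nn_le_fu z w)
  have h1 : ‖pol W z w‖ ^ 2 = ev W z * ev W w - Ff W z w := by
    unfold Ff
    ring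
  have hG : Ps (C ε * WW n 1 ^ e) z w := Ps_mul (Ps_C hε.le z w) (Ps_pow (Ps_WW zero_le_one z w) e)
  have h2 := Ff_mono (Big_Ps_sub hW z w) hG
  rw [Ff_C_mul] at h2
  have h3 := Ff_WW_pow_ge he z w
  have hz0 := Big_lower hW z
  have hzu := hup z
  have hwu := hup w
  have hw0 := Big_lower hW w
  set u := 1 + nn z
  set v := 1 + nn w
  obtain ⟨k, rfl⟩ : ∃ k, e = k + 1 := ⟨e - 1, by omega⟩
  have h4 : u ^ (k + 1 - 1) * v ^ (k + 1 - 1) * fu z w =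
      u ^ (k + 1) * v ^ (k + 1) * (fu z w / (u * v)) := by
    rw [Nat.add_sub_cancel, pow_succ, pow_succ]
    field_simp
  rw [h4] at h3
  set f := fu z w / (u * v) with hfd
  have hf0 : 0 ≤ f := by positivity
  have hW0 : 0 ≤ ev W w := le_trans (by positivity) hw0
  have h5 : ev W z * ev W w ≤ M * u ^ (k + 1) * (M * v ^ (k + 1)) :=
    mul_le_mul hzu hwu hW0 (by positivity)
  have h6 : ε ^ 2 / (M ^ 2 + ε ^ 2) * (M * u ^ (k + 1) * (M * v ^ (k + 1)) * f) ≤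
      ε ^ 2 * (u ^ (k + 1) * v ^ (k + 1) * f) := by
    have h7 : ε ^ 2 / (M ^ 2 + ε ^ 2) * (M * u ^ (k + 1) * (M * v ^ (k + 1)) * f) =
        M ^ 2 / (M ^ 2 + ε ^ 2) * (ε ^ 2 * (u ^ (k + 1) * v ^ (k + 1) * f)) := by
      field_simp
    rw [h7]
    refine mul_le_of_le_one_left (by positivity) ?_
    rw [div_le_one hden]
    nlinarith [sq_nonneg ε]
  have h8 : ε ^ 2 / (M ^ 2 + ε ^ 2) * (ev W z * ev W w * f) ≤
      ε ^ 2 / (M ^ 2 + ε ^ 2) * (M * u ^ (k + 1) * (M * v ^ (k + 1)) * f) :=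
    mul_le_mul_of_nonneg_left (mul_le_mul_of_nonneg_right h5 hf0) (by positivity)
  have h9 : ε ^ 2 * (u ^ (k + 1) * v ^ (k + 1) * f) ≤ ε ^ 2 * Ff (WW n 1 ^ (k + 1)) z w :=
    mul_le_mul_of_nonneg_left h3 (by positivity)
  rw [h1]
  linarith

end Pool.Agent.Work.MP_49847a_an
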