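import Pool.Agent.Work.MP_49847a_an.Sg.Kc

/-!
# Module Schw: second differences of bounded holomorphic kernels

Proof.
(schw2) For fixed `a`, `‖a‖ < T`, the function `b ↦ g a b - g a 0` is holomorphic on the ball of radius
`T`, vanishes at `0` and is bounded by `2 M`, so by the Schwarz lemma (`Complex.dist_le_div_mul_dist_of_mapsTo_ball`
with radius `2 M + δ`, `δ → 0`) `‖g a 1 - g a 0‖ ≤ 2 M / T`.  Then `a ↦ g a 1 - g a 0` is holomorphic and
bounded by `2 M / T`, so `‖(g 1 1 - g 1 0) - (g 0 1 - g 0 0)‖ ≤ 2 (2 M / T) / T`.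
(schD) `Dk e z w = Re (e z z + e w w - e z w - e w z)` by `hc`.  If `s ≤ nn (z - w)`:
`|Dk| ≤ 4 M ≤ 4 M / s * nn (z - w)` (`z ∈ L` by `hz`).  If `z = w`, `Dk = 0`.  Otherwise let `y = w - z`,
`T = √(s / nn y) > 1` and `g a b = e (z + a • y) (z + conj b • y)`; for `‖a‖ < T`, `nn (a • y) < s`, so
`z + a • y ∈ L`.  `g` is holomorphic in `a` by `h1`; in `b`: `g a b = conj (e (z + conj b • y) (z + a • y))` by
`hc`, and `b ↦ conj (f (conj b))` is holomorphic for `f` holomorphic (`DifferentiableAt.conj_conj` or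
`HasDerivAt.conj_conj`); apply `schw2`: `g 0 0 = e z z`, `g 1 1 = e w w`, `g 1 0 = e w z`, `g 0 1 = e z w`.
(schP) `schD` for `e = pol F`, which is a polynomial in `z` (`pol F (z + a • y) w` is a polynomial in `a`:
`MvPolynomial` evaluation of differentiable functions), `pol_conj`, `Dk (pol F) = Df F` (`pol_self`).
-/

namespace Pool.Agent.Work.MP_49847a_an

open MvPolynomial

variable {n : ℕ}

private theorem schw1 {f : ℂ → ℂ} {T M : ℝ} (hT : 1 < T)
    (hf : DifferentiableOn ℂ f (Metric.ball 0 T)) (hM : ∀ a, ‖a‖ < T → ‖f a‖ ≤ M) :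
    ‖f 1 - f 0‖ ≤ 2 * M / T := by
  have hT0 : 0 < T := zero_lt_one.trans hT
  have h0 : ‖f 0‖ ≤ M := hM 0 (by rwa [norm_zero])
  have h1 : (1 : ℂ) ∈ Metric.ball (0 : ℂ) T := by
    rw [mem_ball_zero_iff, norm_one]
    exact hT
  have h2 : Set.MapsTo f (Metric.ball 0 T) (Metric.closedBall (f 0) (2 * M)) := by
    intro a ha
    rw [mem_ball_zero_iff] at ha
    rw [Metric.mem_closedBall, dist_eq_norm]
    refine (norm_sub_le _ _).trans ?_
    linarith [hM a ha]
  have h3 := Complex.dist_le_div_mul_dist_of_mapsTo_ball hf h2 h1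
  rwa [dist_eq_norm, dist_zero_right, norm_one, mul_one] at h3

theorem schw2 {g : ℂ → ℂ → ℂ} {T M : ℝ} (hT : 1 < T)
    (h1 : ∀ b, ‖b‖ < T → DifferentiableOn ℂ (fun a => g a b) (Metric.ball 0 T))
    (h2 : ∀ a, ‖a‖ < T → DifferentiableOn ℂ (fun b => g a b) (Metric.ball 0 T))
    (h3 : ∀ a b, ‖a‖ < T → ‖b‖ < T → ‖g a b‖ ≤ M) :
    ‖g 1 1 + g 0 0 - g 1 0 - g 0 1‖ ≤ 4 * M / T ^ 2 := by
  have hT0 : 0 < T := zero_lt_one.trans hT
  have n1 : ‖(1 : ℂ)‖ < T := by rwa [norm_one]
  have n0 : ‖(0 : ℂ)‖ < T := by rwa [norm_zero]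
  have k1 : ∀ a, ‖a‖ < T → ‖g a 1 - g a 0‖ ≤ 2 * M / T := fun a ha =>
    schw1 hT (h2 a ha) fun b hb => h3 a b ha hb
  have k2 := schw1 (f := fun a => g a 1 - g a 0) hT ((h1 1 n1).sub (h1 0 n0)) k1
  have e1 : g 1 1 + g 0 0 - g 1 0 - g 0 1 = (g 1 1 - g 1 0) - (g 0 1 - g 0 0) := by ring
  have e2 : 2 * (2 * M / T) / T = 4 * M / T ^ 2 := by
    field_simp
    ring
  rw [e1, ← e2]
  exact k2

theorem schD {e : (Fin n → ℂ) → (Fin n → ℂ) → ℂ} {L : Set (Fin n → ℂ)} {s M : ℝ} (hs : 0 < s)
    (hc : ∀ z w, (starRingEnd ℂ) (e z w) = e w z)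
    (h1 : ∀ w ∈ L, ∀ z y : Fin n → ℂ,
      DifferentiableOn ℂ (fun a : ℂ => e (z + a • y) w) {a : ℂ | z + a • y ∈ L})
    (h3 : ∀ z ∈ L, ∀ w ∈ L, ‖e z w‖ ≤ M) {z w : Fin n → ℂ} (hz : ∀ x, nn (x - z) < s → x ∈ L)
    (hw : w ∈ L) : |Dk e z w| ≤ 4 * M / s * nn (z - w) := by
  have hzL : z ∈ L := hz z (by
    rw [sub_self, nn_eq_zero.2 rfl]
    exact hs)
  have hM : 0 ≤ M := (norm_nonneg _).trans (h3 z hzL z hzL)
  have hD : Dk e z w = (e w w + e z z - e w z - e z w).re := by
    unfold Dk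
    have h1 : (e w z).re = (e z w).re := by rw [← hc z w, Complex.conj_re]
    rw [Complex.sub_re, Complex.sub_re, Complex.add_re, h1]
    ring
  have hle : |Dk e z w| ≤ ‖e w w + e z z - e w z - e z w‖ := by
    rw [hD]
    exact Complex.abs_re_le_norm _
  refine hle.trans ?_
  rcases le_or_gt s (nn (z - w)) with hsn | hsn
  · have h4 : ‖e w w + e z z - e w z - e z w‖ ≤ 4 * M := by
      have a1 := norm_sub_le (e w w + e z z - e w z) (e z w)
      have a2 := norm_sub_le (e w w + e z z) (e w z)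
      have a3 := norm_add_le (e w w) (e z z)
      have b1 := h3 w hw w hw
      have b2 := h3 z hzL z hzL
      have b3 := h3 w hw z hzL
      have b4 := h3 z hzL w hw
      linarith
    refine h4.trans ?_
    rw [div_mul_eq_mul_div, le_div_iff₀ hs]
    exact mul_le_mul_of_nonneg_left hsn (by positivity)
  · by_cases hzw : z = w
    · subst hzw
      rw [sub_self, nn_eq_zero.2 rfl, mul_zero]
      have : e z z + e z z - e z z - e z z = 0 := by ring
      rw [this, norm_zero]
    · have hy : 0 < nn (w - z) := by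
        refine lt_of_le_of_ne (nn_nonneg _) fun h => hzw ?_
        have := nn_eq_zero.1 h.symm
        exact (sub_eq_zero.1 this).symm
      rw [nn_sub_comm] at hsn ⊢
      set y := w - z with hyd
      set T := Real.sqrt (s / nn y) with hTd
      have hT1 : 1 < T := by
        rw [hTd, Real.lt_sqrt zero_le_one, one_pow, one_lt_div hy]
        exact hsn
      have hT0 : 0 < T := zero_lt_one.trans hT1
      have hT2 : T ^ 2 = s / nn y := Real.sq_sqrt (by positivity)
      have hin : ∀ a : ℂ, ‖a‖ < T → z + a • y ∈ L := by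
        intro a ha
        apply hz
        rw [add_sub_cancel_left, nn_smul]
        have h5 : ‖a‖ ^ 2 < T ^ 2 := pow_lt_pow_left₀ ha (norm_nonneg a) two_ne_zero
        rw [hT2, lt_div_iff₀ hy] at h5
        exact h5
      have hcn : ∀ b : ℂ, ‖(starRingEnd ℂ) b‖ = ‖b‖ := fun b => RCLike.norm_conj b
      have key := schw2 (g := fun a b => e (z + a • y) (z + (starRingEnd ℂ) b • y)) (M := M) hT1
        (fun b hb => (h1 _ (hin _ (by rwa [hcn])) z y).mono fun a ha =>
          hin a (by rwa [mem_ball_zero_iff] at ha))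
        (fun a ha => by
          intro b hb
          rw [mem_ball_zero_iff] at hb
          have h6 : (fun b => e (z + a • y) (z + (starRingEnd ℂ) b • y)) =
              ⇑(starRingEnd ℂ) ∘ (fun c : ℂ => e (z + c • y) (z + a • y)) ∘ ⇑(starRingEnd ℂ) := by
            funext b
            exact (hc _ _).symm
          have h7 : DifferentiableAt ℂ (fun c : ℂ => e (z + c • y) (z + a • y))
              ((starRingEnd ℂ) b) := by
            have h8 : DifferentiableOn ℂ (fun c : ℂ => e (z + c • y) (z + a • y))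
                (Metric.ball 0 T) := (h1 _ (hin a ha) z y).mono fun c hcc =>
              hin c (by rwa [mem_ball_zero_iff] at hcc)
            refine h8.differentiableAt (Metric.isOpen_ball.mem_nhds ?_)
            rw [mem_ball_zero_iff, hcn]
            exact hb
          have h9 := h7.conj_conj
          rw [Complex.conj_conj] at h9
          show DifferentiableWithinAt ℂ (fun b => e (z + a • y) (z + (starRingEnd ℂ) b • y)) _ b
          rw [h6]
          exact h9.differentiableWithinAt)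
        (fun a b ha hb => h3 _ (hin a ha) _ (hin _ (by rwa [hcn])))
      have ew : z + y = w := by
        rw [hyd]
        exact add_sub_cancel z w
      simp only [map_one, map_zero, one_smul, zero_smul, add_zero, ew] at key
      refine key.trans (le_of_eq ?_)
      rw [hT2]
      field_simp

private theorem diff_eval {σ : Type*} (p : MvPolynomial σ ℂ) (v : ℂ → σ → ℂ)
    (hv : ∀ i, Differentiable ℂ fun a => v a i) : Differentiable ℂ fun a => eval (v a) p := by
  induction p using MvPolynomial.induction_on with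
  | C c =>
    simp only [eval_C]
    exact differentiable_const c
  | add p q hp hq =>
    simp only [eval_add]
    exact hp.add hq
  | mul_X p i hp =>
    simp only [eval_mul, eval_X]
    exact hp.mul (hv i)

theorem schP {F : MvPolynomial (Fin n ⊕ Fin n) ℝ} {L : Set (Fin n → ℂ)} {s M : ℝ} (hs : 0 < s)
    (h3 : ∀ z ∈ L, ∀ w ∈ L, ‖pol F z w‖ ≤ M) {z w : Fin n → ℂ}
    (hz : ∀ x, nn (x - z) < s → x ∈ L) (hw : w ∈ L) : |Df F z w| ≤ 4 * M / s * nn (z - w) := by
  have h1 : ∀ w ∈ L, ∀ z y : Fin n → ℂ,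
      DifferentiableOn ℂ (fun a : ℂ => pol F (z + a • y) w) {a : ℂ | z + a • y ∈ L} := by
    intro w _ z y
    refine Differentiable.differentiableOn ?_
    unfold pol
    refine diff_eval _ _ fun i => ?_
    rcases i with i | i
    · simp only [Sum.elim_inl, Pi.add_apply, Pi.smul_apply, smul_eq_mul]
      fun_prop
    · simp only [Sum.elim_inr, Pi.add_apply, Pi.smul_apply, smul_eq_mul]
      fun_prop
  have h := schD (e := pol F) hs (pol_conj F) h1 h3 hz hw
  have e1 : Dk (pol F) z w = Df F z w := by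
    unfold Dk Df
    rw [pol_self, pol_self, Complex.ofReal_re, Complex.ofReal_re]
  rwa [e1] at h

end Pool.Agent.Work.MP_49847a_an
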