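import Pool.Agent.Work.MP_49847a_an.Sg.BigL
import Pool.Agent.Work.MP_49847a_an.Sg.Schw

/-!
# Module Inn: second differences of `ρ W^κ` where `W ≤ 1/2`, and of any `F` on bounded sets

Proof.
(inner_est) `Big_nbhd` with `a = 1/2`, `b = 3/4` gives `s`; `L = {ev W < 3/4}`.  On `L × L`,
`‖pol W z w‖ ≤ √(ev W z) √(ev W w) ≤ 3/4` (`Ps_norm`, `Big_Ps`) and `‖pol ρ z w‖ ≤ M` (`L` is contained in the
compact set `{ev W ≤ 3/4}`, `pol_continuous`), so `‖pol (ρ W^κ) z w‖ ≤ M (3/4)^κ` (`pol_mul`, `pol_pow`) and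
`schP` gives `|Df| ≤ 4 M (3/4)^κ / s * nn (z - w)`; the constant tends to zero.
(Df_bdd) `schP` with `L = {nn < R'}`, `R' = 2 R + 2` and `s = 1` (`nn_add_le`: `nn x ≤ 2 nn (x - z) + 2 nn z`),
`M` a bound of `‖pol F‖` on the compact set `{nn ≤ R'}²` (`nn_cpt`).
-/

namespace Pool.Agent.Work.MP_49847a_an

open MvPolynomial

variable {n m e : ℕ} {ε : ℝ} {h : Fin m → MvPolynomial (Fin n) ℂ}
  {W : MvPolynomial (Fin n ⊕ Fin n) ℝ}

theorem inner_est (hW : Big e ε h W) (ρ : MvPolynomial (Fin n ⊕ Fin n) ℝ) {c : ℝ} (hc : 0 < c) :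
    ∃ κ₀ : ℕ, ∀ κ, κ₀ ≤ κ → ∀ z w, ev W z ≤ 1 / 2 → ev W w ≤ 1 / 2 →
      |Df (ρ * W ^ κ) z w| ≤ c * nn (z - w) := by
  obtain ⟨s, hs, hnb⟩ := Big_nbhd hW (a := 1 / 2) (b := 3 / 4) (by norm_num)
  have hK := Big_cpt hW (3 / 4)
  obtain ⟨M, hM⟩ := (hK.prod hK).exists_bound_of_continuousOn (pol_continuous ρ).continuousOn
  have hM1 : 0 < |M| + 1 := by positivity
  obtain ⟨κ₀, hκ₀⟩ := exists_pow_lt_of_lt_one (y := (3 / 4 : ℝ))
    (show 0 < c * s / (4 * (|M| + 1)) by positivity) (by norm_num)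
  refine ⟨κ₀, fun κ hκ z w hz hw => ?_⟩
  have hq : (3 / 4 : ℝ) ^ κ ≤ c * s / (4 * (|M| + 1)) :=
    (pow_le_pow_of_le_one (by norm_num) (by norm_num) hκ).trans hκ₀.le
  have h3 : ∀ z ∈ {z | ev W z < 3 / 4}, ∀ w ∈ {z | ev W z < 3 / 4},
      ‖pol (ρ * W ^ κ) z w‖ ≤ (|M| + 1) * (3 / 4) ^ κ := by
    intro z hz w hw
    have hz' : ev W z < 3 / 4 := hz
    have hw' : ev W w < 3 / 4 := hw
    rw [pol_mul, pol_pow, norm_mul, norm_pow]
    have h4 : ‖pol ρ z w‖ ≤ |M| + 1 := by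
      have := hM (z, w) ⟨hz'.le, hw'.le⟩
      have h5 := le_abs_self M
      simp only at this
      linarith
    have h5 : ‖pol W z w‖ ≤ 3 / 4 := by
      refine (Ps_norm (Big_Ps hW z w)).trans ?_
      calc Real.sqrt (ev W z) * Real.sqrt (ev W w) ≤ Real.sqrt (3 / 4) * Real.sqrt (3 / 4) :=
            mul_le_mul (Real.sqrt_le_sqrt hz'.le) (Real.sqrt_le_sqrt hw'.le)
              (Real.sqrt_nonneg _) (Real.sqrt_nonneg _)
        _ = 3 / 4 := Real.mul_self_sqrt (by norm_num)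
    exact mul_le_mul h4 (pow_le_pow_left₀ (norm_nonneg _) h5 κ) (by positivity) hM1.le
  have h6 := schP hs h3 (z := z) (w := w) (fun x hx => hnb z x hz hx)
    (show ev W w < 3 / 4 by linarith)
  refine h6.trans (mul_le_mul_of_nonneg_right ?_ (nn_nonneg _))
  rw [div_le_iff₀ hs]
  have h7 := mul_le_mul_of_nonneg_left hq (show 0 ≤ 4 * (|M| + 1) by positivity)
  have h8 : 4 * (|M| + 1) * (c * s / (4 * (|M| + 1))) = c * s := by
    field_simp
  rw [h8] at h7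
  linarith

theorem Df_bdd (F : MvPolynomial (Fin n ⊕ Fin n) ℝ) (R : ℝ) :
    ∃ M : ℝ, 0 ≤ M ∧ ∀ z w, nn z ≤ R → nn w ≤ R → |Df F z w| ≤ M * nn (z - w) := by
  have hK := nn_cpt (n := n) (2 * R + 2)
  obtain ⟨M, hM⟩ := (hK.prod hK).exists_bound_of_continuousOn (pol_continuous F).continuousOn
  refine ⟨4 * |M| / 1, by positivity, fun z w hz hw => ?_⟩
  have hw0 := nn_nonneg w
  refine schP (L := {x | nn x < 2 * R + 2}) one_pos ?_ ?_ (show nn w < 2 * R + 2 by linarith)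
  · intro x hx y hy
    have hx' : nn x < 2 * R + 2 := hx
    have hy' : nn y < 2 * R + 2 := hy
    exact (hM (x, y) ⟨hx'.le, hy'.le⟩).trans (le_abs_self M)
  · intro x hx
    have h1 := nn_add_le (x - z) z
    rw [sub_add_cancel] at h1
    show nn x < 2 * R + 2
    linarith

end Pool.Agent.Work.MP_49847a_an
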