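import Pool.Agent.Work.MP_49847a_an.Sg.DfMul

/-!
# Module Pow2: large powers of a kernel with large diagonal dominate constants

Proof.  Write `W₁ = ev W z`, `W₂ = ev W w`, `μ = max W₁ W₂`, `D_κ = Df (W^κ) z w`, `F_κ = Ff (W^κ) z w`.
`Ps W z w` (sum of `W - ε` and `ε`).  By `Df_mul_le` `D_(κ+1) ≤ 2 W₁^κ D_1 + 2 W₂ D_κ`, so by induction
`D_κ ≤ (2^(κ+1) - 2) μ^(κ-1) D_1` for `κ ≥ 1`.  `F_κ ≥ (W₁ W₂)^(κ-1) F_1` (`A^κ - B^κ ≥ (A - B) A^(κ-1)` for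
`A = W₁ W₂ ≥ B = |W(z,w)|² ≥ 0`), and `F_1 ≥ ε D_1`, since the determinant of the matrix of `W - ε` is `F_1 - ε D_1`.
For `Ps (W^κ - C Λ)`: the diagonal entries are `≥ 4^κ - Λ ≥ 0`, and the determinant is
`F_κ - Λ D_κ ≥ D_1 ((W₁ W₂)^(κ-1) ε - Λ 2^(κ+1) μ^(κ-1)) = D_1 μ^(κ-1) (min^(κ-1) ε - Λ 2^(κ+1)) ≥ 0` as soon as
`ε 4^(κ-1) ≥ Λ 2^(κ+1)`, `Λ ≥ 0` (for `Λ < 0` use `Λ = 0` and `Ps_C`).
(the determinant of the difference: `‖pol (W^κ - C Λ) z w‖² ≤ …` is `0 ≤ F_κ - Λ D_κ` after expansion.)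
-/

namespace Pool.Agent.Work.MP_49847a_an

open MvPolynomial

variable {n : ℕ}

private theorem Ps_of_sub {ε : ℝ} (hε : 0 ≤ ε) {W : MvPolynomial (Fin n ⊕ Fin n) ℝ}
    {z w : Fin n → ℂ} (h : Ps (W - C ε) z w) : Ps W z w := by
  have h1 := Ps_add h (Ps_C hε z w)
  rwa [sub_add_cancel] at h1

private theorem det_sub (c : ℝ) (F : MvPolynomial (Fin n ⊕ Fin n) ℝ) (z w : Fin n → ℂ) :
    ev (F - C c) z * ev (F - C c) w - ‖pol (F - C c) z w‖ ^ 2 = Ff F z w - c * Df F z w := by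
  unfold Ff Df
  rw [ev_sub, ev_sub, ev_C, ev_C, pol_sub, pol_C, ← Complex.normSq_eq_norm_sq,
    ← Complex.normSq_eq_norm_sq, Complex.normSq_apply, Complex.normSq_apply, Complex.sub_re,
    Complex.sub_im, Complex.ofReal_re, Complex.ofReal_im]
  ring

private theorem Df_nonneg_of_Ps {F : MvPolynomial (Fin n ⊕ Fin n) ℝ} {z w : Fin n → ℂ}
    (h : Ps F z w) : 0 ≤ Df F z w := by
  obtain ⟨h1, h2, h3⟩ := h
  unfold Df
  have h4 : (pol F z w).re ^ 2 ≤ ev F z * ev F w := by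
    refine le_trans ?_ h3
    rw [← sq_abs]
    exact pow_le_pow_left₀ (abs_nonneg _) (Complex.abs_re_le_norm _) 2
  by_contra hc
  push Not at hc
  have h5 : (ev F z + ev F w) ^ 2 < (2 * (pol F z w).re) ^ 2 :=
    pow_lt_pow_left₀ (by linarith) (by linarith) (by norm_num)
  nlinarith [sq_nonneg (ev F z - ev F w)]

private theorem Df_pow_le {W : MvPolynomial (Fin n ⊕ Fin n) ℝ} {z w : Fin n → ℂ} (h : Ps W z w)
    {μ : ℝ} (h1 : ev W z ≤ μ) (h2 : ev W w ≤ μ) (k : ℕ) :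
    Df (W ^ (k + 1)) z w ≤ (2 ^ (k + 2) - 2) * (μ ^ k * Df W z w) := by
  have hμ : 0 ≤ μ := h.1.trans h1
  have hD := Df_nonneg_of_Ps h
  induction k with
  | zero =>
    rw [zero_add, pow_one, pow_zero]
    norm_num
    linarith
  | succ k ih =>
    have e1 := Df_mul_le (Ps_pow h (k + 1)) h
    rw [← pow_succ, ev_pow] at e1
    have e2 : ev W z ^ (k + 1) ≤ μ ^ (k + 1) := pow_le_pow_left₀ h.1 h1 _
    have e3 : 2 * ev W z ^ (k + 1) * Df W z w ≤ 2 * μ ^ (k + 1) * Df W z w :=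
      mul_le_mul_of_nonneg_right (by linarith) hD
    have e4 : 2 * ev W w * Df (W ^ (k + 1)) z w ≤
        2 * μ * ((2 ^ (k + 2) - 2) * (μ ^ k * Df W z w)) := by
      refine mul_le_mul (by linarith) ih (Df_nonneg_of_Ps (Ps_pow h _)) (by linarith)
    refine e1.trans ((add_le_add e3 e4).trans (le_of_eq ?_))
    ring

private theorem Ff_pow_ge {W : MvPolynomial (Fin n ⊕ Fin n) ℝ} {z w : Fin n → ℂ} (h : Ps W z w)
    (k : ℕ) : (ev W z * ev W w) ^ k * Ff W z w ≤ Ff (W ^ (k + 1)) z w := by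
  unfold Ff
  rw [ev_pow, ev_pow, pol_pow, norm_pow, ← pow_mul, mul_comm (k + 1) 2, pow_mul, ← mul_pow]
  have hA : 0 ≤ ev W z * ev W w := mul_nonneg h.1 h.2.1
  have hB : 0 ≤ ‖pol W z w‖ ^ 2 := by positivity
  have e1 : (‖pol W z w‖ ^ 2) ^ k ≤ (ev W z * ev W w) ^ k := pow_le_pow_left₀ hB h.2.2 k
  have e2 := mul_le_mul_of_nonneg_right e1 hB
  rw [pow_succ (ev W z * ev W w) k, pow_succ (‖pol W z w‖ ^ 2) k, mul_sub]
  linarith

private theorem pow2_nonneg {ε : ℝ} (hε : 0 < ε) {Λ : ℝ} (hΛ : 0 ≤ Λ) : ∃ κ₀ : ℕ, ∀ κ, κ₀ ≤ κ →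
    ∀ (W : MvPolynomial (Fin n ⊕ Fin n) ℝ) (z w : Fin n → ℂ), Ps (W - C ε) z w → 4 ≤ ev W z →
      4 ≤ ev W w → Ps (W ^ κ - C Λ) z w := by
  obtain ⟨N1, hN1⟩ := pow_unbounded_of_one_lt (4 * Λ / ε) (one_lt_two : (1 : ℝ) < 2)
  obtain ⟨N2, hN2⟩ := pow_unbounded_of_one_lt Λ (by norm_num : (1 : ℝ) < 4)
  refine ⟨max N1 N2 + 1, fun κ hκ W z w hW hz hw => ?_⟩
  obtain ⟨k, rfl⟩ : ∃ k, κ = k + 1 := ⟨κ - 1, by omega⟩
  have hk1 : N1 ≤ k := by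
    have := le_max_left N1 N2
    omega
  have hk2 : N2 ≤ k + 1 := by
    have := le_max_right N1 N2
    omega
  have hP : Ps W z w := Ps_of_sub hε.le hW
  have hD := Df_nonneg_of_Ps hP
  have f1 : 4 * Λ ≤ ε * 2 ^ k := by
    have h1 : 4 * Λ / ε ≤ 2 ^ k := hN1.le.trans (pow_le_pow_right₀ (by norm_num) hk1)
    rw [div_le_iff₀ hε] at h1
    linarith
  have f2 : Λ ≤ 4 ^ (k + 1) := hN2.le.trans (pow_le_pow_right₀ (by norm_num) hk2)
  have g1 : (4 : ℝ) ^ (k + 1) ≤ ev W z ^ (k + 1) := pow_le_pow_left₀ (by norm_num) hz _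
  have g2 : (4 : ℝ) ^ (k + 1) ≤ ev W w ^ (k + 1) := pow_le_pow_left₀ (by norm_num) hw _
  have d1 := det_sub ε W z w
  have d2 := det_sub Λ (W ^ (k + 1)) z w
  have d3 : ε * Df W z w ≤ Ff W z w := by
    have := hW.2.2
    linarith
  refine ⟨?_, ?_, ?_⟩
  · rw [ev_sub, ev_C, ev_pow]
    linarith
  · rw [ev_sub, ev_C, ev_pow]
    linarith
  · suffices h : Λ * Df (W ^ (k + 1)) z w ≤ Ff (W ^ (k + 1)) z w by linarith
    have hμ4 : (4 : ℝ) ≤ max (ev W z) (ev W w) := hz.trans (le_max_left _ _)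
    have e1 := Df_pow_le hP (le_max_left (ev W z) (ev W w)) (le_max_right _ _) k
    have e2 := Ff_pow_ge hP k
    have hpr : ev W z * ev W w = max (ev W z) (ev W w) * min (ev W z) (ev W w) :=
      (max_mul_min _ _).symm
    have hm : (4 : ℝ) ≤ min (ev W z) (ev W w) := le_min hz hw
    generalize max (ev W z) (ev W w) = μ at hμ4 e1 hpr
    generalize min (ev W z) (ev W w) = m at hm hpr
    have hμk : 0 ≤ μ ^ k := pow_nonneg (by linarith) _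
    have hmk : (4 : ℝ) ^ k ≤ m ^ k := pow_le_pow_left₀ (by norm_num) hm _
    have s1 : Λ * Df (W ^ (k + 1)) z w ≤ Λ * ((2 ^ (k + 2) - 2) * (μ ^ k * Df W z w)) :=
      mul_le_mul_of_nonneg_left e1 hΛ
    have s2 : (ev W z * ev W w) ^ k * (ε * Df W z w) ≤ Ff (W ^ (k + 1)) z w := by
      refine le_trans (mul_le_mul_of_nonneg_left d3 ?_) e2
      exact pow_nonneg (mul_nonneg hP.1 hP.2.1) _
    refine s1.trans (le_trans ?_ s2)
    rw [hpr, mul_pow]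
    have s3 : Λ * (2 ^ (k + 2) - 2) ≤ m ^ k * ε := by
      have t1 : (4 : ℝ) ^ k = 2 ^ k * 2 ^ k := by
        rw [← mul_pow]
        norm_num
      have t2 : (0 : ℝ) < 2 ^ k := by positivity
      have t3 : 4 * Λ * 2 ^ k ≤ ε * 2 ^ k * 2 ^ k := mul_le_mul_of_nonneg_right f1 t2.le
      have t4 : 4 ^ k * ε ≤ m ^ k * ε := mul_le_mul_of_nonneg_right hmk hε.le
      have t5 : (2 : ℝ) ^ (k + 2) = 4 * 2 ^ k := by ring
      rw [t5]
      rw [t1] at t4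
      nlinarith
    have s4 := mul_le_mul_of_nonneg_right s3 (mul_nonneg hμk hD)
    nlinarith

theorem pow2 {ε : ℝ} (hε : 0 < ε) (Λ : ℝ) : ∃ κ₀ : ℕ, ∀ κ, κ₀ ≤ κ →
    ∀ (W : MvPolynomial (Fin n ⊕ Fin n) ℝ) (z w : Fin n → ℂ), Ps (W - C ε) z w → 4 ≤ ev W z →
      4 ≤ ev W w → Ps (W ^ κ - C Λ) z w := by
  obtain ⟨κ₀, h⟩ := pow2_nonneg (n := n) hε (le_max_right Λ 0)
  refine ⟨κ₀, fun κ hκ W z w hW hz hw => ?_⟩
  have h1 := h κ hκ W z w hW hz hw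
  have h2 := Ps_add h1 (Ps_C (sub_nonneg.mpr (le_max_left Λ 0)) z w)
  have h3 : W ^ κ - C (max Λ 0) + C (max Λ 0 - Λ) = W ^ κ - C Λ := by
    rw [C_sub]
    ring
  rwa [h3] at h2

end Pool.Agent.Work.MP_49847a_an
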