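import Pool.Agent.Work.MP_49847a_an.Sg.Mix
import Pool.Agent.Work.MP_49847a_an.Sg.Inn
import Pool.Agent.Work.MP_49847a_an.Sg.Pow2

/-!
# Module F1b: the second difference of `ρ (G + W^κ)` on balls, one point with `W > 5`

Proof.  `Df (ρ (G + W^κ)) = Df (ρ G) + Df (ρ W^κ)` (`mul_add`, `Df_add`).  `ρ(w) ≥ r₀` (`sub`, `W(w) > 5`),
`Df (ρ G) ≥ -M₁ nn (z - w)` (`Df_bdd`), and it is enough that `Df (ρ W^κ) ≥ (M₁ + 1) nn (z - w)` for `κ` large: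
- `ρ(z) ≥ r₀`, `W(z) ≥ 4`: by `ee` and `Df_mono`, `Df_C_mul`, `Df (ρ W^κ) ≥ ε₂ Df (u^k₀ W^κ')`, `κ' = κ - κ₂`, and by
  `pow2` (with `Big_Ps_eps`) `Ps (W^κ' - C Λ)`, so `Df (u^k₀ W^κ') ≥ Λ Df (u^k₀) ≥ Λ nn (z - w)`
  (`Ps_mul`, `nn_le_Df_WW_pow`, `k₀ = d + e κ₂ > 0`); `Λ = (M₁ + 1)/ε₂`;
- `ρ(z) ≥ r₀`, `W(z) < 4`: `Df (u^k₀ W^κ') ≥ Df (W^κ')` (`Ps ((u^k₀ - u^0) W^κ')`) and by `Df_sqrt`
  `Df (W^κ') ≥ (√(W(w)^κ') - √(W(z)^κ'))² ≥ (√5^κ' - 2^κ')²`, which tends to infinity; `nn (z - w) ≤ 4 R`;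
- `ρ(z) < r₀`: `mix`: `Df (ρ W^κ) ≥ (1/2) r₀ 5^κ - M`.
-/

namespace Pool.Agent.Work.MP_49847a_an

open MvPolynomial

variable {n m d e : ℕ} {ε r₀ r₁ c : ℝ} {h : Fin m → MvPolynomial (Fin n) ℂ}
  {ρ W G : MvPolynomial (Fin n ⊕ Fin n) ℝ}

private theorem f1b_sqrt (k : ℕ) : (k : ℝ) / 10 ≤ Real.sqrt (5 ^ k) - 2 ^ k := by
  have h1 : ((11 : ℝ) / 5) ^ k ≤ Real.sqrt (5 ^ k) := by
    apply Real.le_sqrt_of_sq_le
    rw [← pow_mul, mul_comm k 2, pow_mul]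
    exact pow_le_pow_left₀ (by norm_num) (by norm_num) k
  have h2 : ((11 : ℝ) / 5) ^ k = 2 ^ k * (11 / 10) ^ k := by
    rw [← mul_pow]
    norm_num
  have h3 : 1 + (k : ℝ) * (1 / 10) ≤ (11 / 10) ^ k := by
    have := one_add_mul_le_pow (a := (1 / 10 : ℝ)) (by norm_num) k
    calc 1 + (k : ℝ) * (1 / 10) ≤ (1 + 1 / 10) ^ k := this
      _ = (11 / 10) ^ k := by norm_num
  have h4 : (1 : ℝ) ≤ 2 ^ k := one_le_pow₀ (by norm_num)
  have h5 : (0 : ℝ) ≤ k := Nat.cast_nonneg k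
  nlinarith

private theorem f1b_nn {R : ℝ} {z w : Fin n → ℂ} (hz : nn z ≤ R) (hw : nn w ≤ R) :
    nn (z - w) ≤ 4 * R := by
  have h1 := nn_add_le z (-w)
  have h2 : nn (-w) = nn w := by
    have := nn_sub_comm (0 : Fin n → ℂ) w
    rwa [zero_sub, sub_zero] at this
  rw [← sub_eq_add_neg, h2] at h1
  linarith

theorem f1b (hA : Adm d e ε r₀ r₁ c h ρ W G) (R : ℝ) : ∃ κ₀ : ℕ, ∀ κ, κ₀ ≤ κ → ∀ z w,
    nn z ≤ R → nn w ≤ R → 5 < ev W w → nn (z - w) ≤ Df (ρ * (G + W ^ κ)) z w := by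
  obtain ⟨M₁, hM₁, hbd⟩ := Df_bdd (ρ * G) R
  obtain ⟨κ₂, ε₂, hε₂, hee⟩ := ee hA
  obtain ⟨M, hM, hmix⟩ := mix hA
  have hε : 0 < ε := hA.hW.2.1
  have hk₀ : 0 < d + e * κ₂ := Nat.add_pos_left hA.hd _
  set Λ : ℝ := (M₁ + 1) / ε₂ with hΛ
  have hΛ0 : 0 ≤ Λ := by positivity
  obtain ⟨κ₁, hκ₁⟩ := pow2 (n := n) hε Λ
  -- large numbers
  obtain ⟨N₁, hN₁⟩ := exists_nat_ge (10 * (1 + Λ * (4 * |R|)))
  obtain ⟨N₂, hN₂⟩ := exists_nat_ge (2 * (M + (M₁ + 1) * (4 * |R|)) / r₀)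
  refine ⟨κ₂ + κ₁ + N₁ + N₂, fun κ hκ z w hz hw hW5 => ?_⟩
  have hρw : r₀ ≤ ev ρ w := by
    by_contra hcon
    have := hA.sub w (not_le.mp hcon)
    linarith
  have hnn := f1b_nn hz hw
  have hnn0 := nn_nonneg (z - w)
  have hR : R ≤ |R| := le_abs_self R
  have hb := (abs_le.mp (hbd z w hz hw)).1
  rw [mul_add, Df_add]
  suffices hs : (M₁ + 1) * nn (z - w) ≤ Df (ρ * W ^ κ) z w by linarith
  by_cases hρz : r₀ ≤ ev ρ z
  · -- both large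
    have he := Df_mono (hee κ (by omega) z w hρz hρw)
    rw [mul_assoc, Df_C_mul] at he
    refine le_trans ?_ he
    have key : Λ * nn (z - w) ≤ Df (WW n 1 ^ (d + e * κ₂) * W ^ (κ - κ₂)) z w := by
      by_cases hW4 : 4 ≤ ev W z
      · have h1 : Ps (W ^ (κ - κ₂) - C Λ) z w :=
          hκ₁ (κ - κ₂) (by omega) W z w (Big_Ps_eps hA.hW z w) hW4 (by linarith)
        have h2 := Ps_mul (Ps_pow (Ps_WW (n := n) zero_le_one z w) (d + e * κ₂)) h1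
        rw [mul_sub, mul_comm (WW n 1 ^ (d + e * κ₂)) (C Λ)] at h2
        have h3 := Df_mono h2
        rw [Df_C_mul] at h3
        have h4 := nn_le_Df_WW_pow hk₀ z w
        have h5 := mul_le_mul_of_nonneg_left h4 hΛ0
        linarith
      · have hPW := Big_Ps hA.hW z w
        have h1 : Ps ((WW n 1 ^ (d + e * κ₂) - WW n 1 ^ 0) * W ^ (κ - κ₂)) z w :=
          Ps_mul (Ps_WW_pow_sub (Nat.zero_le _) z w) (Ps_pow hPW _)
        rw [pow_zero, sub_mul, one_mul] at h1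
        refine le_trans ?_ (Df_mono h1)
        refine le_trans ?_ (Df_sqrt (Ps_pow hPW _))
        rw [ev_pow, ev_pow]
        have hWz0 : 0 ≤ ev W z := hPW.1
        have h5 : Real.sqrt (5 ^ (κ - κ₂)) ≤ Real.sqrt (ev W w ^ (κ - κ₂)) :=
          Real.sqrt_le_sqrt (pow_le_pow_left₀ (by norm_num) hW5.le _)
        have h6 : Real.sqrt (ev W z ^ (κ - κ₂)) ≤ 2 ^ (κ - κ₂) := by
          rw [show (2 : ℝ) ^ (κ - κ₂) = Real.sqrt ((2 ^ (κ - κ₂)) ^ 2) from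
            (Real.sqrt_sq (by positivity)).symm]
          apply Real.sqrt_le_sqrt
          rw [← pow_mul, mul_comm (κ - κ₂) 2, pow_mul]
          exact pow_le_pow_left₀ hWz0 (by rw [not_le] at hW4; linarith) _
        have h7 := f1b_sqrt (κ - κ₂)
        have h8 : (N₁ : ℝ) ≤ ((κ - κ₂ : ℕ) : ℝ) := by
          exact_mod_cast (show N₁ ≤ κ - κ₂ by omega)
        have hX : 0 ≤ Λ * (4 * |R|) := by positivity
        have h9 : 1 + Λ * (4 * |R|) ≤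
            Real.sqrt (ev W w ^ (κ - κ₂)) - Real.sqrt (ev W z ^ (κ - κ₂)) := by linarith
        have h10 : Λ * nn (z - w) ≤ Λ * (4 * |R|) :=
          mul_le_mul_of_nonneg_left (by linarith) hΛ0
        nlinarith
    have h11 := mul_le_mul_of_nonneg_left key hε₂.le
    have h12 : ε₂ * (Λ * nn (z - w)) = (M₁ + 1) * nn (z - w) := by
      rw [hΛ]
      field_simp
    linarith
  · have h1 := hmix κ z w (not_le.mp hρz) hρw
    refine le_trans ?_ h1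
    have h2 : (5 : ℝ) ^ κ ≤ ev W w ^ κ := pow_le_pow_left₀ (by norm_num) hW5.le _
    have h3 : 1 + (κ : ℝ) * 4 ≤ 5 ^ κ := by
      have := one_add_mul_le_pow (a := (4 : ℝ)) (by norm_num) κ
      calc 1 + (κ : ℝ) * 4 ≤ (1 + 4) ^ κ := this
        _ = 5 ^ κ := by norm_num
    have h4 : ((1 : ℝ) / 4) ^ κ ≤ 1 := pow_le_one₀ (by norm_num) (by norm_num)
    have h5 : (N₂ : ℝ) ≤ (κ : ℝ) := by
      exact_mod_cast (show N₂ ≤ κ by omega)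
    have h6 : 2 * (M + (M₁ + 1) * (4 * |R|)) ≤ r₀ * κ := by
      have := hN₂.trans h5
      rw [div_le_iff₀ hA.hr₀] at this
      linarith
    have h7 : r₀ * κ ≤ ev ρ w * ev W w ^ κ := by
      have hk : (0 : ℝ) ≤ κ := Nat.cast_nonneg κ
      have h8 : (κ : ℝ) ≤ ev W w ^ κ := by linarith
      exact mul_le_mul hρw h8 hk (hA.hr₀.le.trans hρw)
    have h9 : M * (1 / 4) ^ κ ≤ M := by
      calc M * (1 / 4) ^ κ ≤ M * 1 := mul_le_mul_of_nonneg_left h4 hM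
        _ = M := mul_one M
    have h10 : (M₁ + 1) * nn (z - w) ≤ (M₁ + 1) * (4 * |R|) :=
      mul_le_mul_of_nonneg_left (by linarith) (by linarith)
    linarith

end Pool.Agent.Work.MP_49847a_an
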