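import Pool.Agent.Work.MP_49847a_an.Sg.Mix
import Pool.Agent.Work.MP_49847a_an.Sg.Lag

/-!
# Module F2: the second difference of `ρ (G + W^κ)` for one point in a ball and one point far away

Hypothesis (hR): for `nn z ≤ R` and `R₂ ≤ nn w`: `2 W(z) ≤ W(w)` and `5 ≤ W(w)`.

Proof.  Let `Dg M ρ G` (`Dg_exists`), `u = 1 + nn`.  For `nn z ≤ R`, `Df (ρ G) z w ≥ -M₈ u(w)^M`
(`Dg_bound`, `pol_bd`: `|F(z)| ≤ M' (1+R)^M`, `|F(w)| ≤ M' u(w)^M`, `2 |F(z,w)| ≤ 1 + |F(z,w)|²`, all `≤ const u(w)^M`).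
Let `κ₃ = M` (so `e κ₃ ≥ M`); `W(w) ≥ ε u(w)^e` (`Big_lower`), so for `κ' ≥ κ₃`,
`W(w)^κ' = W(w)^κ₃ W(w)^(κ'-κ₃) ≥ ε^κ₃ u(w)^M 5^(κ'-κ₃)` (*).
`ρ(w) ≥ r₀` since `W(w) ≥ 5` (`sub`).
- `ρ(z) ≥ r₀`: as in module `F1`, `Df (ρ W^κ) ≥ ε₂ Df (W^κ') ≥ ε₂ (√(W(w)^κ') - √(W(z)^κ'))²`, `κ' = κ - κ₂ ≥ 1`, and
  `W(z)^κ' ≤ W(w)^κ'/2`, so this is `≥ ε₂ W(w)^κ' (1 - 1/√2)² ≥ (ε₂/16) W(w)^κ'`; (*).
- `ρ(z) < r₀`: `mix`: `≥ (1/2) r₀ W(w)^κ - M'`; (*).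
So for `κ` large `Df (ρ W^κ) > M₈ u(w)^M`.
-/

namespace Pool.Agent.Work.MP_49847a_an

open MvPolynomial

variable {n m d e : ℕ} {ε r₀ r₁ c : ℝ} {h : Fin m → MvPolynomial (Fin n) ℂ}
  {ρ W G : MvPolynomial (Fin n ⊕ Fin n) ℝ}

private theorem f2_low (F : MvPolynomial (Fin n ⊕ Fin n) ℝ) (R : ℝ) :
    ∃ (M : ℕ) (M₈ : ℝ), 0 ≤ M₈ ∧ ∀ z w, nn z ≤ R → -(M₈ * (1 + nn w) ^ M) ≤ Df F z w := by
  obtain ⟨M, hM⟩ := Dg_exists F
  obtain ⟨A, hA, hAb⟩ := Dg_bound hM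
  obtain ⟨B, hB, hBb⟩ := pol_bd hM
  have hR1 : (0 : ℝ) ≤ (1 + |R|) ^ M := by positivity
  refine ⟨M, A * (1 + |R|) ^ M + A + 1 + B * (1 + |R|) ^ M, by positivity,
    fun z w hz => ?_⟩
  have hz1 : (1 + nn z) ^ M ≤ (1 + |R|) ^ M :=
    pow_le_pow_left₀ (by linarith [nn_nonneg z]) (by linarith [le_abs_self R]) M
  have hw1 : 1 ≤ (1 + nn w) ^ M := one_le_pow₀ (by linarith [nn_nonneg w])
  have hz0 : 0 ≤ (1 + nn z) ^ M := pow_nonneg (by linarith [nn_nonneg z]) M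
  have h1 := (abs_le.mp (hAb z)).1
  have h2 := (abs_le.mp (hAb w)).1
  have h3 := hBb z w
  have h4 : 2 * (pol F z w).re ≤ 1 + ‖pol F z w‖ ^ 2 := by
    have h5 := Complex.re_le_norm (pol F z w)
    nlinarith [sq_nonneg (‖pol F z w‖ - 1)]
  have h6 : A * (1 + nn z) ^ M ≤ A * (1 + |R|) ^ M * (1 + nn w) ^ M := by
    have h7 := mul_le_mul_of_nonneg_left hz1 hA
    have h8 : 0 ≤ A * (1 + |R|) ^ M := mul_nonneg hA hR1
    nlinarith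
  have h9 : B * ((1 + nn z) ^ M * (1 + nn w) ^ M) ≤
      B * (1 + |R|) ^ M * (1 + nn w) ^ M := by
    rw [← mul_assoc]
    exact mul_le_mul_of_nonneg_right (mul_le_mul_of_nonneg_left hz1 hB) (by linarith)
  unfold Df
  nlinarith

private theorem f2_quarter {a b : ℝ} (ha : 0 ≤ a) (hb : 0 ≤ b) (h : 2 * b ^ 2 ≤ a ^ 2) :
    a ^ 2 / 16 ≤ (a - b) ^ 2 := by
  have h1 : b ≤ 3 / 4 * a := by
    by_contra hc
    push Not at hc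
    nlinarith
  nlinarith

theorem f2 (hA : Adm d e ε r₀ r₁ c h ρ W G) {R R₂ : ℝ}
    (hR : ∀ z w, nn z ≤ R → R₂ ≤ nn w → 2 * ev W z ≤ ev W w ∧ 5 ≤ ev W w) :
    ∃ κ₀ : ℕ, ∀ κ, κ₀ ≤ κ → ∀ z w, nn z ≤ R → R₂ ≤ nn w → 0 < Df (ρ * (G + W ^ κ)) z w := by
  obtain ⟨M, M₈, hM₈, hlow⟩ := f2_low (ρ * G) R
  obtain ⟨κ₂, ε₂, hε₂, hee⟩ := ee hA
  obtain ⟨M₉, hM₉, hmix⟩ := mix hA
  have hε : 0 < ε := hA.hW.2.1
  have he : 0 < e := hA.hW.1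
  have hr₀ := hA.hr₀
  obtain ⟨N₁, hN₁⟩ := exists_nat_ge ((M₈ + 1) / (ε₂ / 16 * ε ^ M))
  obtain ⟨N₂, hN₂⟩ := exists_nat_ge ((M₈ + M₉ + 1) / (1 / 2 * r₀ * ε ^ M))
  rw [div_le_iff₀ (by positivity)] at hN₁ hN₂
  refine ⟨κ₂ + M + 1 + N₁ + N₂, fun κ hκ z w hz hw => ?_⟩
  obtain ⟨hW2, hW5⟩ := hR z w hz hw
  have hρw : r₀ ≤ ev ρ w := by
    by_contra hcon
    have := hA.sub w (not_le.mp hcon)
    linarith
  have hPW := Big_Ps hA.hW z w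
  have hu1 : 1 ≤ 1 + nn w := by linarith [nn_nonneg w]
  have huM : 1 ≤ (1 + nn w) ^ M := one_le_pow₀ hu1
  have huM0 : 0 ≤ (1 + nn w) ^ M := by linarith
  -- growth of the powers of `W` at `w`
  have hgrow : ∀ j N : ℕ, M + N ≤ j →
      ε ^ M * (1 + nn w) ^ M * N ≤ ev W w ^ j := by
    intro j N hj
    obtain ⟨i, rfl⟩ : ∃ i, j = M + i := ⟨j - M, by omega⟩
    have g1 : ε ^ M * (1 + nn w) ^ M ≤ ev W w ^ M := by
      rw [← mul_pow]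
      refine pow_le_pow_left₀ (by positivity) ?_ M
      refine le_trans ?_ (Big_lower hA.hW w)
      refine mul_le_mul_of_nonneg_left ?_ hε.le
      exact le_self_pow₀ hu1 he.ne'
    have g2 : (N : ℝ) ≤ ev W w ^ i := by
      have g3 : 1 + (i : ℝ) * 4 ≤ 5 ^ i := by
        have := one_add_mul_le_pow (a := (4 : ℝ)) (by norm_num) i
        calc 1 + (i : ℝ) * 4 ≤ (1 + 4) ^ i := this
          _ = 5 ^ i := by norm_num
      have g4 : (5 : ℝ) ^ i ≤ ev W w ^ i := pow_le_pow_left₀ (by norm_num) hW5 i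
      have g5 : (N : ℝ) ≤ i := by exact_mod_cast (show N ≤ i by omega)
      have g6 : (0 : ℝ) ≤ i := Nat.cast_nonneg i
      linarith
    rw [pow_add]
    exact mul_le_mul g1 g2 (Nat.cast_nonneg N) (pow_nonneg (by linarith) M)
  have hL := hlow z w hz
  rw [mul_add, Df_add]
  suffices hs : M₈ * (1 + nn w) ^ M < Df (ρ * W ^ κ) z w by linarith
  by_cases hρz : r₀ ≤ ev ρ z
  · have h1 := Df_mono (hee κ (by omega) z w hρz hρw)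
    rw [mul_assoc, Df_C_mul] at h1
    have h2 : Ps ((WW n 1 ^ (d + e * κ₂) - WW n 1 ^ 0) * W ^ (κ - κ₂)) z w :=
      Ps_mul (Ps_WW_pow_sub (Nat.zero_le _) z w) (Ps_pow hPW _)
    rw [pow_zero, sub_mul, one_mul] at h2
    have h3 := Df_mono h2
    have h4 := Df_sqrt (Ps_pow hPW (κ - κ₂))
    have ha0 : 0 ≤ ev (W ^ (κ - κ₂)) w := (Ps_pow hPW (κ - κ₂)).2.1
    have hb0 : 0 ≤ ev (W ^ (κ - κ₂)) z := (Ps_pow hPW (κ - κ₂)).1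
    have h5 : ev (W ^ (κ - κ₂)) w / 16 ≤
        (Real.sqrt (ev (W ^ (κ - κ₂)) w) - Real.sqrt (ev (W ^ (κ - κ₂)) z)) ^ 2 := by
      have := f2_quarter (Real.sqrt_nonneg (ev (W ^ (κ - κ₂)) w))
        (Real.sqrt_nonneg (ev (W ^ (κ - κ₂)) z)) (by
          rw [Real.sq_sqrt ha0, Real.sq_sqrt hb0, ev_pow, ev_pow]
          have k1 : (2 * ev W z) ^ (κ - κ₂) ≤ ev W w ^ (κ - κ₂) :=
            pow_le_pow_left₀ (by linarith [hPW.1]) hW2 _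
          rw [mul_pow] at k1
          have k2 : (2 : ℝ) ≤ 2 ^ (κ - κ₂) := le_self_pow₀ (by norm_num) (by omega)
          have k3 : 0 ≤ ev W z ^ (κ - κ₂) := pow_nonneg hPW.1 _
          nlinarith)
      rwa [Real.sq_sqrt ha0] at this
    have h6 := hgrow (κ - κ₂) N₁ (by omega)
    rw [← ev_pow] at h6
    have h7 : ε₂ * (ev (W ^ (κ - κ₂)) w / 16) ≤ Df (ρ * W ^ κ) z w :=
      (mul_le_mul_of_nonneg_left ((h5.trans h4).trans h3) hε₂.le).trans h1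
    have h8 : ε₂ / 16 * (ε ^ M * (1 + nn w) ^ M * N₁) ≤
        ε₂ * (ev (W ^ (κ - κ₂)) w / 16) := by
      have := mul_le_mul_of_nonneg_left h6 (show 0 ≤ ε₂ / 16 by positivity)
      linarith
    have h9 : (M₈ + 1) * (1 + nn w) ^ M ≤ ε₂ / 16 * (ε ^ M * (1 + nn w) ^ M * N₁) := by
      have := mul_le_mul_of_nonneg_right hN₁ huM0
      linarith
    linarith
  · have h1 := hmix κ z w (not_le.mp hρz) hρw
    have h2 := hgrow κ N₂ (by omega)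
    have h3 : r₀ * (ε ^ M * (1 + nn w) ^ M * N₂) ≤ ev ρ w * ev W w ^ κ :=
      mul_le_mul hρw h2 (by positivity) (hr₀.le.trans hρw)
    have h4 : ((1 : ℝ) / 4) ^ κ ≤ 1 := pow_le_one₀ (by norm_num) (by norm_num)
    have h5 : M₉ * (1 / 4) ^ κ ≤ M₉ := by
      calc M₉ * (1 / 4) ^ κ ≤ M₉ * 1 := mul_le_mul_of_nonneg_left h4 hM₉
        _ = M₉ := mul_one M₉
    have h6 : (M₈ + M₉ + 1) * (1 + nn w) ^ M ≤
        1 / 2 * r₀ * (ε ^ M * (1 + nn w) ^ M * N₂) := by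
      have := mul_le_mul_of_nonneg_right hN₂ huM0
      linarith
    nlinarith

end Pool.Agent.Work.MP_49847a_an
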