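import Pool.Agent.Work.MP_49847a_an.Sg.Kc

/-!
# Module Fu: the function `fu` and the powers of `1 + ‖z‖²`

Proof.
(fu_eq) expand: `|1 + <z,w>|² = 1 + 2 Re <z,w> + |<z,w>|²`, `nn_sub`.
(nn_le_fu) `ip_cs`.  (fu_le) obvious.  (fu_symm) `ip_conj`.
(fu_le_nn) With `x = w - z`: `nn z nn w - |<z,w>|² = nn z nn x - |<z,x>|² ≤ nn z nn x` (expand, or take it
from `ip z w = nn z + ip z x`, `nn w = nn z + nn x + 2 Re ip z x`), so `fu ≤ nn x + nn z nn x`.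
(Ff_WW_pow) `ev (WW n 1 ^ k) z = (1 + nn z)^k`, `|pol (WW n 1 ^ k) z w|² = (|1 + ip z w|²)^k`; with
`A = (1 + nn z)(1 + nn w) ≥ B = |1 + ip z w|² ≥ 0`: `A^k - B^k = (A - B) ∑_{i<k} A^i B^(k-1-i)` lies between
`(A - B) A^(k-1)` and `k (A - B) A^(k-1)` (induction on `k`).
(Ps_WW_pow_sub) induction on `j`: `W^(j+1) - W^i = (W^j - W^i) * W + W^i * (W - 1)` with `W = WW n 1`,
`W - 1 = WW n 0` (`Ps_mul`, `Ps_add`, `Ps_pow`, `Ps_WW`).
(nn_le_Df_WW_pow) `Df_mono` for `WW n 1 ^ k - WW n 1 ^ 1` and `Df_WW`.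
-/

namespace Pool.Agent.Work.MP_49847a_an

open MvPolynomial

variable {n : ℕ}

theorem fu_eq (z w : Fin n → ℂ) :
    fu z w = nn (z - w) + (nn z * nn w - ‖ip z w‖ ^ 2) := by
  unfold fu
  have h : ‖1 + ip z w‖ ^ 2 = 1 + 2 * (ip z w).re + ‖ip z w‖ ^ 2 := by
    rw [← Complex.normSq_eq_norm_sq, ← Complex.normSq_eq_norm_sq, Complex.normSq_apply,
      Complex.normSq_apply, Complex.add_re, Complex.add_im, Complex.one_re, Complex.one_im]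
    ring
  rw [h, nn_sub]
  ring

theorem nn_le_fu (z w : Fin n → ℂ) : nn (z - w) ≤ fu z w := by
  rw [fu_eq]
  linarith [ip_cs z w]

theorem fu_le (z w : Fin n → ℂ) : fu z w ≤ (1 + nn z) * (1 + nn w) := by
  unfold fu
  linarith [sq_nonneg ‖1 + ip z w‖]

theorem fu_symm (z w : Fin n → ℂ) : fu z w = fu w z := by
  rw [fu_eq, fu_eq, nn_sub_comm, ← ip_conj w z, RCLike.norm_conj]
  ring

theorem fu_le_nn (z w : Fin n → ℂ) : fu z w ≤ (1 + nn z) * nn (z - w) := by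
  rw [fu_eq, nn_sub]
  have h1 : (ip z w).re ^ 2 ≤ ‖ip z w‖ ^ 2 := by
    rw [← sq_abs]
    exact pow_le_pow_left₀ (abs_nonneg _) (Complex.abs_re_le_norm _) 2
  nlinarith [sq_nonneg (nn z - (ip z w).re)]

private theorem pow_sub_pow_le_aux {A B : ℝ} (hB : 0 ≤ B) (hAB : B ≤ A) (j : ℕ) :
    A ^ (j + 1) - B ^ (j + 1) ≤ (j + 1) * (A ^ j * (A - B)) := by
  induction j with
  | zero => simp
  | succ j ih =>
    have h1 : B ^ (j + 1) ≤ A ^ (j + 1) := pow_le_pow_left₀ hB hAB _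
    have h2 : A ^ (j + 1 + 1) - B ^ (j + 1 + 1) =
        A * (A ^ (j + 1) - B ^ (j + 1)) + B ^ (j + 1) * (A - B) := by ring
    have h3 : A * (A ^ (j + 1) - B ^ (j + 1)) ≤ A * ((j + 1) * (A ^ j * (A - B))) :=
      mul_le_mul_of_nonneg_left ih (hB.trans hAB)
    have h4 : B ^ (j + 1) * (A - B) ≤ A ^ (j + 1) * (A - B) :=
      mul_le_mul_of_nonneg_right h1 (sub_nonneg.mpr hAB)
    rw [h2]
    push_cast
    calc _ ≤ A * ((j + 1) * (A ^ j * (A - B))) + A ^ (j + 1) * (A - B) := add_le_add h3 h4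
      _ = _ := by ring

private theorem Ff_WW_pow_aux (k : ℕ) (z w : Fin n → ℂ) :
    Ff (WW n 1 ^ k) z w = ((1 + nn z) * (1 + nn w)) ^ k - (‖1 + ip z w‖ ^ 2) ^ k := by
  unfold Ff
  rw [ev_pow, ev_pow, pol_pow, ev_WW, ev_WW, pol_WW, Complex.ofReal_one, norm_pow, mul_pow,
    ← pow_mul, ← pow_mul, mul_comm k 2]

theorem Ff_WW_pow_ge {k : ℕ} (hk : 0 < k) (z w : Fin n → ℂ) :
    (1 + nn z) ^ (k - 1) * (1 + nn w) ^ (k - 1) * fu z w ≤ Ff (WW n 1 ^ k) z w := by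
  rw [Ff_WW_pow_aux]
  obtain ⟨j, rfl⟩ : ∃ j, k = j + 1 := ⟨k - 1, by omega⟩
  rw [Nat.add_sub_cancel, ← mul_pow]
  have hB := sq_nonneg ‖1 + ip z w‖
  have hAB : ‖1 + ip z w‖ ^ 2 ≤ (1 + nn z) * (1 + nn w) := by
    have h1 := nn_le_fu z w
    have h2 := nn_nonneg (z - w)
    unfold fu at h1
    linarith
  unfold fu
  have h3 := pow_le_pow_left₀ hB hAB j
  generalize ‖1 + ip z w‖ ^ 2 = B at *
  generalize (1 + nn z) * (1 + nn w) = A at *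
  have h4 := mul_le_mul_of_nonneg_right h3 hB
  calc A ^ j * (A - B) = A ^ (j + 1) - A ^ j * B := by ring
    _ ≤ A ^ (j + 1) - B ^ j * B := by linarith
    _ = A ^ (j + 1) - B ^ (j + 1) := by ring

theorem Ff_WW_pow_le {k : ℕ} (hk : 0 < k) (z w : Fin n → ℂ) :
    Ff (WW n 1 ^ k) z w ≤ k * ((1 + nn z) ^ (k - 1) * (1 + nn w) ^ (k - 1) * fu z w) := by
  rw [Ff_WW_pow_aux]
  have hB := sq_nonneg ‖1 + ip z w‖
  have hAB : ‖1 + ip z w‖ ^ 2 ≤ (1 + nn z) * (1 + nn w) := by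
    have h1 := nn_le_fu z w
    have h2 := nn_nonneg (z - w)
    unfold fu at h1
    linarith
  obtain ⟨j, rfl⟩ : ∃ j, k = j + 1 := ⟨k - 1, by omega⟩
  rw [Nat.add_sub_cancel, ← mul_pow]
  have key := pow_sub_pow_le_aux hB hAB j
  unfold fu
  push_cast
  exact key

theorem Ps_WW_pow_sub {i j : ℕ} (h : i ≤ j) (z w : Fin n → ℂ) :
    Ps (WW n 1 ^ j - WW n 1 ^ i) z w := by
  obtain ⟨d, rfl⟩ : ∃ d, j = i + d := ⟨j - i, by omega⟩
  clear h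
  have hW : Ps (WW n 1) z w := Ps_WW zero_le_one z w
  have hW1 : (WW n 1 : MvPolynomial (Fin n ⊕ Fin n) ℝ) - 1 = WW n 0 := by
    unfold WW
    rw [C_1, C_0]
    ring
  induction d with
  | zero =>
    rw [add_zero, sub_self, ← C_0]
    exact Ps_C le_rfl z w
  | succ d ih =>
    have h1 : (WW n 1 : MvPolynomial (Fin n ⊕ Fin n) ℝ) ^ (i + (d + 1)) - WW n 1 ^ i =
        (WW n 1 ^ (i + d) - WW n 1 ^ i) * WW n 1 + WW n 1 ^ i * WW n 0 := by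
      rw [← hW1]
      ring
    rw [h1]
    exact Ps_add (Ps_mul ih hW) (Ps_mul (Ps_pow hW i) (Ps_WW le_rfl z w))

theorem nn_le_Df_WW_pow {k : ℕ} (hk : 0 < k) (z w : Fin n → ℂ) :
    nn (z - w) ≤ Df (WW n 1 ^ k) z w := by
  have h1 : Ps (WW n 1 ^ k - WW n 1) z w := by
    have := Ps_WW_pow_sub (n := n) (i := 1) (j := k) hk z w
    rwa [pow_one] at this
  rw [← Df_WW 1 z w]
  exact Df_mono h1

end Pool.Agent.Work.MP_49847a_an
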