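import Pool.Agent.Work.MP_49847a_an.Sg.Hull

/-!
# Module Geo: good neighbourhoods of the hull

Proof.  `K = hull (X2 P Q)` is compact (`hull_compact`), `X = X2 P Q`, `N_s = {z : ∃ a ∈ X, nn (z - a) < s}` is
open.
(1) There is `ε₀ > 0` with `r2 b ≤ 0` for all `b ∈ K ∩ N_ε₀`: cover `X` by the open sets
`{nn (x - a) < ε_a/4}`, `ε_a` from `Inn2`, take a finite subcover and `ε₀` the minimum of the `ε_a/4` (`ε₀ = 1` if
`X` is empty); `nn (b - a_i) ≤ 2 nn (b - a) + 2 nn (a - a_i)` (`nn_add_le`).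
(2) `δ' = min δ ε₀`.  On the compact set `K \ N_δ'` the function `r2` has no zero (`X ⊂ N_δ'`), so
`|r2| ≥ 2 x₁` for some `x₁ > 0`.
(3) For `δ₅ > 0`: on the compact set `{(z,w) ∈ K × K : δ₅ ≤ nn (z - w)}` `R2 ≠ 0` by `Sep2` (`R2 = 0` gives `z = w`,
`nn 0 = 0`), so `‖R2‖ ≥ 2 c₆` (`R2_continuous`).
(4) The set `{(z,w) : nn (z - w) < δ₅ ∨ c₆ < ‖R2 z w‖}` is open and contains `K × K`; by
`generalized_tube_lemma` there are open `U₁, U₂ ⊃ K` with `U₁ × U₂` in it; `U = U₁ ∩ U₂ ∩ V ∩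
{z : (z ∈ N_δ ∧ r2 z < η/2) ∨ x₁ < |r2 z|}`; the last set is open and contains `K` by (1), (2).
-/

namespace Pool.Agent.Work.MP_49847a_an

open MvPolynomial

variable {n k l : ℕ} {P : Fin k → MvPolynomial (Fin n) ℂ} {Q : Fin l → MvPolynomial (Fin n) ℂ}

private theorem geo_eps (hX : IsCompact (X2 P Q)) (hI : Inn2 P Q) : ∃ ε₀ : ℝ, 0 < ε₀ ∧
    ∀ b ∈ hull (X2 P Q), ∀ a ∈ X2 P Q, nn (b - a) < ε₀ → r2 P Q b ≤ 0 := by
  classical
  choose! ε hε0 hε using hI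
  have hopen : ∀ a : Fin n → ℂ, IsOpen {x : Fin n → ℂ | nn (x - a) < ε a / 4} := fun a =>
    isOpen_lt (nn_continuous.comp (continuous_id.sub continuous_const)) continuous_const
  obtain ⟨t, ht, hcov⟩ := hX.elim_nhds_subcover (fun a => {x | nn (x - a) < ε a / 4})
    (fun a ha => by
      refine (hopen a).mem_nhds ?_
      show nn (a - a) < ε a / 4
      rw [sub_self, nn_eq_zero.2 rfl]
      have := hε0 a ha
      linarith)
  have hmin : ∃ ε₀ : ℝ, 0 < ε₀ ∧ ∀ a ∈ t, ε₀ ≤ ε a / 4 := by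
    clear hcov
    induction t using Finset.induction_on with
    | empty => exact ⟨1, one_pos, fun a ha => absurd ha (Finset.notMem_empty a)⟩
    | insert x s hx ih =>
      obtain ⟨e, he, h⟩ := ih (fun a ha => ht a (Finset.mem_insert_of_mem ha))
      have hx0 := hε0 x (ht x (Finset.mem_insert_self x s))
      refine ⟨min e (ε x / 4), lt_min he (by linarith), fun a ha => ?_⟩
      rcases Finset.mem_insert.1 ha with rfl | ha
      · exact min_le_right _ _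
      · exact (min_le_left _ _).trans (h a ha)
  obtain ⟨ε₀, he0, he⟩ := hmin
  refine ⟨ε₀, he0, fun b hb a ha hab => ?_⟩
  have h1 := hcov ha
  simp only [Set.mem_iUnion] at h1
  obtain ⟨x, hxt, hx⟩ := h1
  have hx' : nn (a - x) < ε x / 4 := hx
  refine hε x (ht x hxt) b hb ?_
  have h2 := nn_add_le (b - a) (a - x)
  rw [sub_add_sub_cancel] at h2
  have h3 := he x hxt
  linarith

theorem geo (hX : IsCompact (X2 P Q)) (hS : Sep2 P Q) (hI : Inn2 P Q) {δ : ℝ} (hδ : 0 < δ) :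
    ∃ x₁ : ℝ, 0 < x₁ ∧ ∀ δ₅ : ℝ, 0 < δ₅ → ∃ c₆ : ℝ, 0 < c₆ ∧
      ∀ (η : ℝ) (V : Set (Fin n → ℂ)), 0 < η → IsOpen V → hull (X2 P Q) ⊆ V →
        ∃ U : Set (Fin n → ℂ), IsOpen U ∧ hull (X2 P Q) ⊆ U ∧ U ⊆ V ∧
          (∀ z ∈ U, ((∃ a ∈ X2 P Q, nn (z - a) < δ) ∧ r2 P Q z < η / 2) ∨ x₁ < |r2 P Q z|) ∧
          ∀ z ∈ U, ∀ w ∈ U, δ₅ ≤ nn (z - w) → c₆ < ‖R2 P Q z w‖ := by
  obtain ⟨ε₀, hε0, hε⟩ := geo_eps hX hI
  have hK : IsCompact (hull (X2 P Q)) := hull_compact hX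
  have hrc := r2_continuous P Q
  have hNopen : ∀ s : ℝ, IsOpen {z : Fin n → ℂ | ∃ a ∈ X2 P Q, nn (z - a) < s} := by
    intro s
    have e : {z : Fin n → ℂ | ∃ a ∈ X2 P Q, nn (z - a) < s} =
        ⋃ a ∈ X2 P Q, {z | nn (z - a) < s} := by
      ext z
      simp only [Set.mem_ofPred_eq, Set.mem_iUnion, exists_prop]
    rw [e]
    exact isOpen_biUnion fun a _ =>
      isOpen_lt (nn_continuous.comp (continuous_id.sub continuous_const)) continuous_const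
  set δ' := min δ ε₀ with hδ'
  have hδ'0 : 0 < δ' := lt_min hδ hε0
  have hK1 : IsCompact (hull (X2 P Q) \ {z | ∃ a ∈ X2 P Q, nn (z - a) < δ'}) :=
    hK.diff (hNopen δ')
  obtain ⟨x₁, hx1, hx⟩ : ∃ x₁ : ℝ, 0 < x₁ ∧
      ∀ z ∈ hull (X2 P Q) \ {z | ∃ a ∈ X2 P Q, nn (z - a) < δ'}, 2 * x₁ ≤ |r2 P Q z| := by
    rcases Set.eq_empty_or_nonempty
      (hull (X2 P Q) \ {z | ∃ a ∈ X2 P Q, nn (z - a) < δ'}) with he | hne
    · exact ⟨1, one_pos, fun z hz => by rw [he] at hz; exact absurd hz (Set.notMem_empty z)⟩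
    · obtain ⟨x, hxm, hm⟩ := hK1.exists_isMinOn hne hrc.abs.continuousOn
      have hpos : 0 < |r2 P Q x| := by
        rw [abs_pos]
        intro h0
        apply hxm.2
        refine ⟨x, h0, ?_⟩
        rw [sub_self, nn_eq_zero.2 rfl]
        exact hδ'0
      refine ⟨|r2 P Q x| / 2, by linarith, fun z hz => ?_⟩
      have := hm hz
      have h2 : |r2 P Q x| ≤ |r2 P Q z| := this
      linarith
  refine ⟨x₁, hx1, fun δ₅ hδ5 => ?_⟩
  have hRc : Continuous (fun q : (Fin n → ℂ) × (Fin n → ℂ) => ‖R2 P Q q.1 q.2‖) :=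
    (R2_continuous P Q).norm
  have hdc : Continuous (fun q : (Fin n → ℂ) × (Fin n → ℂ) => nn (q.1 - q.2)) :=
    nn_continuous.comp (continuous_fst.sub continuous_snd)
  have hK2 : IsCompact ((hull (X2 P Q) ×ˢ hull (X2 P Q)) ∩ {q | δ₅ ≤ nn (q.1 - q.2)}) :=
    (hK.prod hK).inter_right (isClosed_le continuous_const hdc)
  obtain ⟨c₆, hc6, hc⟩ : ∃ c₆ : ℝ, 0 < c₆ ∧
      ∀ q ∈ (hull (X2 P Q) ×ˢ hull (X2 P Q)) ∩ {q | δ₅ ≤ nn (q.1 - q.2)},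
        2 * c₆ ≤ ‖R2 P Q q.1 q.2‖ := by
    rcases Set.eq_empty_or_nonempty
      ((hull (X2 P Q) ×ˢ hull (X2 P Q)) ∩ {q | δ₅ ≤ nn (q.1 - q.2)}) with he | hne
    · exact ⟨1, one_pos, fun z hz => by rw [he] at hz; exact absurd hz (Set.notMem_empty z)⟩
    · obtain ⟨x, hxm, hm⟩ := hK2.exists_isMinOn hne hRc.continuousOn
      have hpos : 0 < ‖R2 P Q x.1 x.2‖ := by
        rw [norm_pos_iff]
        intro h0
        have h1 := hS x.1 hxm.1.1 x.2 hxm.1.2 h0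
        have h2 : δ₅ ≤ nn (x.1 - x.2) := hxm.2
        rw [h1, sub_self, nn_eq_zero.2 rfl] at h2
        linarith
      refine ⟨‖R2 P Q x.1 x.2‖ / 2, by linarith, fun z hz => ?_⟩
      have h2 : ‖R2 P Q x.1 x.2‖ ≤ ‖R2 P Q z.1 z.2‖ := hm hz
      linarith
  refine ⟨c₆, hc6, fun η V hη hV hKV => ?_⟩
  have hO : IsOpen ({q : (Fin n → ℂ) × (Fin n → ℂ) | nn (q.1 - q.2) < δ₅} ∪
      {q | c₆ < ‖R2 P Q q.1 q.2‖}) :=
    (isOpen_lt hdc continuous_const).union (isOpen_lt continuous_const hRc)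
  have hsub : hull (X2 P Q) ×ˢ hull (X2 P Q) ⊆
      {q : (Fin n → ℂ) × (Fin n → ℂ) | nn (q.1 - q.2) < δ₅} ∪ {q | c₆ < ‖R2 P Q q.1 q.2‖} := by
    intro q hq
    rcases lt_or_ge (nn (q.1 - q.2)) δ₅ with h1 | h1
    · exact Or.inl h1
    · refine Or.inr ?_
      have := hc q ⟨hq, h1⟩
      show c₆ < ‖R2 P Q q.1 q.2‖
      linarith
  obtain ⟨U₁, U₂, hU1, hU2, hKU1, hKU2, hUU⟩ := generalized_tube_lemma hK hK hO hsub
  have hLo : IsOpen (({z : Fin n → ℂ | ∃ a ∈ X2 P Q, nn (z - a) < δ} ∩ {z | r2 P Q z < η / 2}) ∪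
      {z | x₁ < |r2 P Q z|}) :=
    ((hNopen δ).inter (isOpen_lt hrc continuous_const)).union
      (isOpen_lt continuous_const hrc.abs)
  refine ⟨U₁ ∩ U₂ ∩ V ∩ (({z : Fin n → ℂ | ∃ a ∈ X2 P Q, nn (z - a) < δ} ∩
    {z | r2 P Q z < η / 2}) ∪ {z | x₁ < |r2 P Q z|}), ((hU1.inter hU2).inter hV).inter hLo, ?_,
    fun z hz => hz.1.2, fun z hz => hz.2, ?_⟩
  · intro z hz
    refine ⟨⟨⟨hKU1 hz, hKU2 hz⟩, hKV hz⟩, ?_⟩
    by_cases hzN : ∃ a ∈ X2 P Q, nn (z - a) < δ'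
    · obtain ⟨a, ha, haz⟩ := hzN
      refine Or.inl ⟨⟨a, ha, haz.trans_le (min_le_left _ _)⟩, ?_⟩
      have := hε z hz a ha (haz.trans_le (min_le_right _ _))
      show r2 P Q z < η / 2
      linarith
    · refine Or.inr ?_
      have := hx z ⟨hz, hzN⟩
      show x₁ < |r2 P Q z|
      linarith
  · intro z hz w hw hzw
    have h1 : (z, w) ∈ U₁ ×ˢ U₂ := ⟨hz.1.1.1, hw.1.1.2⟩
    rcases hUU h1 with h2 | h2
    · have h3 : nn (z - w) < δ₅ := h2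
      linarith
    · exact h2

end Pool.Agent.Work.MP_49847a_an
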