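import Pool.Agent.Work.MP_49847a_an.Sg.HullA

/-!
# Module Hull: sublevel sets and the hull

Proof.
(le_hull) for `r2 z = 0`, `z ∈ X2 ⊂ hull`.  For `r2 z < 0` copy `max_hull` (module `Rat/MaxP`): `{r2 < 0}` is open,
bounded, its frontier is in `X2 P Q`; `Complex.norm_le_of_forall_mem_frontier_norm_le`.
(lvl) `K' = {r2 ≤ 1} ∩ {ev W ≥ 1/4}` is compact and `r2 > 0` on it (`le_hull`, `hK`), so `r2 ≥ r₀ > 0` there (if it is
empty `r₀ = 1`; take `r₀ ≤ 1`); if `r2 z < r₀` then `z ∉ K'`, so `ev W z < 1/4`.  For `r₁`: `nn z ≥ max R₀ 1`: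
`r2 ≥ δ nn^d ≥ δ/2^d (1+nn)^d`; otherwise `r2 ≥ r₀ ≥ r₀/(1 + max R₀ 1)^d (1 + nn z)^d`.
-/

namespace Pool.Agent.Work.MP_49847a_an

open MvPolynomial

variable {n k l d : ℕ} {P : Fin k → MvPolynomial (Fin n) ℂ} {Q : Fin l → MvPolynomial (Fin n) ℂ}

private theorem hu_diff (p : MvPolynomial (Fin n) ℂ) :
    Differentiable ℂ (fun z : Fin n → ℂ => eval z p) := by
  induction p using MvPolynomial.induction_on with
  | C a =>
    simp only [eval_C]
    exact differentiable_const a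
  | add p q hp hq =>
    simp only [map_add]
    exact hp.add hq
  | mul_X p i hp =>
    simp only [map_mul, eval_X]
    exact hp.mul (differentiable_apply i)

private theorem hu_cont (P : Fin k → MvPolynomial (Fin n) ℂ) (Q : Fin l → MvPolynomial (Fin n) ℂ) :
    Continuous (r2 P Q) := by
  obtain ⟨F, hF⟩ := exists_nrm P
  obtain ⟨G, hG⟩ := exists_nrm Q
  have : r2 P Q = fun z => ev F z - ev G z := by
    funext z
    rw [hF z, hG z]
    rfl
  rw [this]
  exact (ev_continuous F).sub (ev_continuous G)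

private theorem hu_nn_nonneg (z : Fin n → ℂ) : 0 ≤ nn z :=
  Finset.sum_nonneg fun _ _ => sq_nonneg _

private theorem hu_hull (hn : n ≠ 0) (hd : 0 < d) (hL : Lead2 d P Q) {z : Fin n → ℂ}
    (hz : r2 P Q z ≤ 0) : z ∈ hull (X2 P Q) := by
  have : Nonempty (Fin n) := ⟨⟨0, Nat.pos_of_ne_zero hn⟩⟩
  have hcont := hu_cont P Q
  rcases hz.eq_or_lt with h0 | h0
  · intro p c hp
    exact hp z h0
  · have hopen : IsOpen {z | r2 P Q z < 0} := isOpen_lt hcont continuous_const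
    have hbdd : Bornology.IsBounded {z | r2 P Q z < 0} :=
      (r2_le_compact hd hL 0).isBounded.subset fun z (hz : r2 P Q z < 0) =>
        (show r2 P Q z ≤ 0 from le_of_lt hz)
    have hfr : frontier {z | r2 P Q z < 0} ⊆ X2 P Q := by
      intro x hx
      rw [hopen.frontier_eq] at hx
      have h1 : r2 P Q x ≤ 0 :=
        closure_minimal (fun z (hz : r2 P Q z < 0) => (show r2 P Q z ≤ 0 from le_of_lt hz))
          (isClosed_le hcont continuous_const) hx.1
      have h2 : ¬ r2 P Q x < 0 := hx.2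
      exact le_antisymm h1 (not_lt.1 h2)
    intro p c hp
    exact Complex.norm_le_of_forall_mem_frontier_norm_le hbdd (hu_diff p).diffContOnCl
      (fun w hw => hp w (hfr hw)) (subset_closure h0)

theorem le_hull (hn : n ≠ 0) (hd : 0 < d) (hL : Lead2 d P Q) {z : Fin n → ℂ}
    (hz : r2 P Q z ≤ 0) : z ∈ hull (X2 P Q) := by
  exact hu_hull hn hd hL hz

theorem lvl (hn : n ≠ 0) (hd : 0 < d) (hL : Lead2 d P Q) {W : MvPolynomial (Fin n ⊕ Fin n) ℝ}
    (hK : ∀ z ∈ hull (X2 P Q), ev W z < 1 / 4) : ∃ r₀ r₁ : ℝ, 0 < r₀ ∧ 0 < r₁ ∧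
      (∀ z, r2 P Q z < r₀ → ev W z < 1 / 4) ∧
      ∀ z, r₀ ≤ r2 P Q z → r₁ * (1 + nn z) ^ d ≤ r2 P Q z := by
  have hcont := hu_cont P Q
  have hWc := ev_continuous W
  have hcpt : IsCompact {z | r2 P Q z ≤ 1 ∧ 1 / 4 ≤ ev W z} := by
    have h1 := r2_le_compact hd hL 1
    have h2 : IsClosed {z | 1 / 4 ≤ ev W z} := isClosed_le continuous_const hWc
    exact h1.inter_right h2
  have hpos : ∀ z ∈ {z | r2 P Q z ≤ 1 ∧ 1 / 4 ≤ ev W z}, 0 < r2 P Q z := by
    intro z hz
    by_contra hcon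
    push Not at hcon
    have h1 := hK z (hu_hull hn hd hL hcon)
    have h2 : 1 / 4 ≤ ev W z := hz.2
    linarith
  obtain ⟨r₀, hr0, hr1, hr⟩ : ∃ r₀ : ℝ, 0 < r₀ ∧ r₀ ≤ 1 ∧
      ∀ z ∈ {z | r2 P Q z ≤ 1 ∧ 1 / 4 ≤ ev W z}, r₀ ≤ r2 P Q z := by
    rcases Set.eq_empty_or_nonempty {z | r2 P Q z ≤ 1 ∧ 1 / 4 ≤ ev W z} with he | hne
    · refine ⟨1, one_pos, le_refl _, fun z hz => ?_⟩
      rw [he] at hz
      exact absurd hz (Set.notMem_empty z)
    · obtain ⟨x, hx, hmin⟩ := hcpt.exists_isMinOn hne hcont.continuousOn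
      refine ⟨r2 P Q x, hpos x hx, hx.1, fun z hz => hmin hz⟩
  obtain ⟨hP, hQ, δ, hδ, R₀, hR⟩ := hL
  set M : ℝ := max R₀ 1 with hM
  have hM1 : 1 ≤ M := le_max_right _ _
  refine ⟨r₀, min (δ / 2 ^ d) (r₀ / (1 + M) ^ d), hr0, ?_, ?_, ?_⟩
  · exact lt_min (by positivity) (by positivity)
  · intro z hz
    by_contra hcon
    push Not at hcon
    have := hr z ⟨(hz.le).trans hr1, hcon⟩
    linarith
  · intro z hz
    have hn0 := hu_nn_nonneg z
    rcases le_or_gt M (nn z) with h | h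
    · have h1 := hR z ((le_max_left _ _).trans h)
      have h2 : (1 + nn z) ^ d ≤ (2 * nn z) ^ d := by
        refine pow_le_pow_left₀ (by linarith) ?_ _
        linarith
      calc min (δ / 2 ^ d) (r₀ / (1 + M) ^ d) * (1 + nn z) ^ d
          ≤ δ / 2 ^ d * (1 + nn z) ^ d :=
            mul_le_mul_of_nonneg_right (min_le_left _ _) (by positivity)
        _ ≤ δ / 2 ^ d * (2 * nn z) ^ d := mul_le_mul_of_nonneg_left h2 (by positivity)
        _ = δ * nn z ^ d := by
            rw [mul_pow]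
            field_simp
        _ ≤ r2 P Q z := h1
    · calc min (δ / 2 ^ d) (r₀ / (1 + M) ^ d) * (1 + nn z) ^ d
          ≤ r₀ / (1 + M) ^ d * (1 + nn z) ^ d :=
            mul_le_mul_of_nonneg_right (min_le_right _ _) (by positivity)
        _ ≤ r₀ / (1 + M) ^ d * (1 + M) ^ d := by
            refine mul_le_mul_of_nonneg_left ?_ (by positivity)
            exact pow_le_pow_left₀ (by linarith) (by linarith) _
        _ = r₀ := by
            have : (1 + M) ^ d ≠ 0 := by positivity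
            field_simp
        _ ≤ r2 P Q z := hz

end Pool.Agent.Work.MP_49847a_an
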