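import Pool.Agent.Work.MP_49847a_an.Sg.ADefs
import Pool.Agent.Work.MP_49847a_an.Sg.ELem

/-!
# Module Mix: the kernel `ρ W^κ`

Proof.
(ee) from `elem`: `ρ W^κ - ε₂ u^k₀ W^(κ - κ₂) = (ρ W^κ₂ - ε₂ u^k₀) W^(κ-κ₂)` and `Ps_mul`, `Ps_pow`, `Big_Ps`;
`k₀ = d + e κ₂`.
(mix) `ρ(z) < r₀`, so `W(z) < 1/4` (`sub`), `z` is in the compact set `{ev W ≤ 1/4}` (`Big_cpt`): `nn z < R`,
`|ρ(z)| ≤ M₁`.  `ρ(z) W(z)^κ ≥ -M₁ (1/4)^κ` (`W(z) ≥ 0`).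
`|W(z,w)|² ≤ W(z) W(w)`, so `|W(z,w)|^(2κ) ≤ (1/4)^κ W(w)^κ`, and `|ρ(z,w)|² ≤ M₂ (1+R)^d (1+nn w)^d ≤
(M₂ (1+R)^d / r₁) ρ(w) = M₄ ρ(w)` (`pol_bd`, `lo`).  Hence `2 |ρ(z,w) W(z,w)^κ| ≤ 2 √(M₄ ρ(w) W(w)^κ (1/4)^κ) ≤
(1/2) ρ(w) W(w)^κ + 2 M₄ (1/4)^κ`.  So `Df ≥ (1/2) ρ(w) W(w)^κ - (M₁ + 2 M₄) (1/4)^κ`.
-/

namespace Pool.Agent.Work.MP_49847a_an

open MvPolynomial

variable {n m d e : ℕ} {ε r₀ r₁ c : ℝ} {h : Fin m → MvPolynomial (Fin n) ℂ}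
  {ρ W G : MvPolynomial (Fin n ⊕ Fin n) ℝ}

theorem ee (hA : Adm d e ε r₀ r₁ c h ρ W G) : ∃ (κ₂ : ℕ) (ε₂ : ℝ), 0 < ε₂ ∧ ∀ κ, κ₂ ≤ κ →
    ∀ z w, r₀ ≤ ev ρ z → r₀ ≤ ev ρ w →
      Ps (ρ * W ^ κ - C ε₂ * WW n 1 ^ (d + e * κ₂) * W ^ (κ - κ₂)) z w := by
  obtain ⟨κ₂, ε₂, h1, h2⟩ := elem hA.hd hA.hρ hA.hW hA.hr₁
  refine ⟨κ₂, ε₂, h1, fun κ hκ z w hz hw => ?_⟩
  have h3 := h2 z w (hA.lo z hz) (hA.lo w hw)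
  have h4 : ρ * W ^ κ - C ε₂ * WW n 1 ^ (d + e * κ₂) * W ^ (κ - κ₂) =
      (ρ * W ^ κ₂ - C ε₂ * WW n 1 ^ (d + e * κ₂)) * W ^ (κ - κ₂) := by
    rw [sub_mul, mul_assoc ρ, ← pow_add, Nat.add_sub_cancel' hκ]
  rw [h4]
  exact Ps_mul h3 (Ps_pow (Big_Ps hA.hW z w) _)

theorem mix (hA : Adm d e ε r₀ r₁ c h ρ W G) : ∃ M : ℝ, 0 ≤ M ∧ ∀ κ : ℕ, ∀ z w, ev ρ z < r₀ →
    r₀ ≤ ev ρ w → 1 / 2 * (ev ρ w * ev W w ^ κ) - M * (1 / 4) ^ κ ≤ Df (ρ * W ^ κ) z w := by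
  obtain ⟨R, hR, hRb⟩ := nn_bdd (Big_cpt hA.hW (1 / 4))
  obtain ⟨M₁, hM₁, hb₁⟩ := Dg_bound hA.hρ
  obtain ⟨M₂, hM₂, hb₂⟩ := pol_bd hA.hρ
  have hr₁ := hA.hr₁
  set A := M₁ * (1 + R) ^ d with hAd
  set B := M₂ * (1 + R) ^ d / r₁ with hB
  have hA0 : 0 ≤ A := by positivity
  have hB0 : 0 ≤ B := by positivity
  refine ⟨A + 2 * B, by positivity, fun κ z w hz hw => ?_⟩
  have hWz := hA.sub z hz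
  have hzR := hRb z hWz.le
  have hW2 := Big_Ps hA.hW z w
  have hWz0 : 0 ≤ ev W z := hW2.1
  have hWw0 : 0 ≤ ev W w := hW2.2.1
  have hlo := hA.lo w hw
  have hz0 := nn_nonneg z
  have hw0 := nn_nonneg w
  have hρw : 0 ≤ ev ρ w := le_trans (by positivity) hlo
  have hu : (1 + nn z) ^ d ≤ (1 + R) ^ d := pow_le_pow_left₀ (by positivity) (by linarith) d
  have h1 : |ev ρ z| ≤ A := (hb₁ z).trans (mul_le_mul_of_nonneg_left hu hM₁)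
  have h2 : ‖pol ρ z w‖ ^ 2 ≤ B * ev ρ w := by
    calc ‖pol ρ z w‖ ^ 2 ≤ M₂ * ((1 + nn z) ^ d * (1 + nn w) ^ d) := hb₂ z w
      _ ≤ M₂ * ((1 + R) ^ d * (1 + nn w) ^ d) := mul_le_mul_of_nonneg_left
          (mul_le_mul_of_nonneg_right hu (by positivity)) hM₂
      _ = B * (r₁ * (1 + nn w) ^ d) := by
          rw [hB]
          field_simp
      _ ≤ B * ev ρ w := mul_le_mul_of_nonneg_left hlo hB0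
  have h3 : ev W z ^ κ ≤ (1 / 4) ^ κ := pow_le_pow_left₀ hWz0 hWz.le κ
  have h4 : -(A * (1 / 4) ^ κ) ≤ ev ρ z * ev W z ^ κ := by
    have h5 : |ev ρ z * ev W z ^ κ| ≤ A * (1 / 4) ^ κ := by
      rw [abs_mul, abs_of_nonneg (pow_nonneg hWz0 κ)]
      exact mul_le_mul h1 h3 (pow_nonneg hWz0 κ) hA0
    exact (abs_le.1 h5).1
  have h6 : ‖pol ρ z w‖ ^ 2 * (‖pol W z w‖ ^ 2) ^ κ ≤
      (B * ev ρ w) * ((1 / 4) ^ κ * ev W w ^ κ) := by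
    refine mul_le_mul h2 ?_ (by positivity) (by positivity)
    rw [← mul_pow]
    exact pow_le_pow_left₀ (by positivity)
      (hW2.2.2.trans (mul_le_mul_of_nonneg_right hWz.le hWw0)) κ
  have h7 : ‖pol (ρ * W ^ κ) z w‖ ^ 2 = ‖pol ρ z w‖ ^ 2 * (‖pol W z w‖ ^ 2) ^ κ := by
    rw [pol_mul, pol_pow, norm_mul, norm_pow, mul_pow, ← pow_mul, ← pow_mul, mul_comm κ 2]
  have h8 : (pol (ρ * W ^ κ) z w).re ≤ ‖pol (ρ * W ^ κ) z w‖ := Complex.re_le_norm _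
  have h9 : 2 * ‖pol (ρ * W ^ κ) z w‖ ≤
      1 / 2 * (ev ρ w * ev W w ^ κ) + 2 * B * (1 / 4) ^ κ := by
    have hx : 0 ≤ 1 / 2 * (ev ρ w * ev W w ^ κ) + 2 * B * (1 / 4) ^ κ := by positivity
    refine le_of_sq_le_sq ?_ hx
    rw [mul_pow, h7]
    have h10 := sq_nonneg (1 / 2 * (ev ρ w * ev W w ^ κ) - 2 * B * (1 / 4) ^ κ)
    nlinarith
  have hDf : Df (ρ * W ^ κ) z w = ev ρ z * ev W z ^ κ + ev ρ w * ev W w ^ κ -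
      2 * (pol (ρ * W ^ κ) z w).re := by
    unfold Df
    rw [ev_mul, ev_mul, ev_pow, ev_pow]
  rw [hDf]
  nlinarith

end Pool.Agent.Work.MP_49847a_an
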