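import Pool.Agent.Work.MP_49847a_an.Sg.Lag

/-!
# Module MrgC: adding a large constant

Proof.  `F = C C₀ + q`; `Ff F z w = C₀ Df q z w + Ff q z w` (expand).  `Ff q ≥ -M u^(k-1) u^(k-1) fu` (`lag`), `u = 1 + nn`.
(γ) `nn z, nn w ≥ R`: `Ps q` is the sum of two `Ps`, `Df q ≥ 0`, `Ff q ≥ c₃² Ff (u^k) ≥ c₃² u^(k-1) u^(k-1) fu` (`Ff_mono`,
`Ff_WW_pow_ge`, `Ff (C c₃ * U) = c₃² Ff U`).
(α) `nn z, nn w ≤ R₂`: `fu ≤ (1+R₂) nn (z - w)` (`fu_le_nn`), so `Ff F ≥ (C₀ c₁ - M (1+R₂)^(2k)) nn (z - w) ≥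
nn (z - w) ≥ u^(k-1) u^(k-1) fu / (1+R₂)^(2k)` for `C₀` large.
(β) `nn z ≤ R`, `nn w ≥ R₂` (or the other way round, `Ff_symm`, `fu_symm`): `fu ≤ u(z) u(w)` (`fu_le`), so
`Ff F ≥ (C₀ c₂ - M (1+R)^k) u(w)^k ≥ u(w)^k ≥ u^(k-1) u^(k-1) fu / (1+R)^k` for `C₀` large.
The three cases cover all pairs: if both are `≤ R₂`, (α); if one, say `w`, is `> R₂`: `nn z ≤ R` (β), else (γ)
(`R₂ ≥ R`).
(positivity) `nn z ≥ R`: `F(z) ≥ q(z) ≥ c₃ u^k` (diagonal part of `h3` with `w = z`); `nn z ≤ R`: `F(z) ≥ C₀ - M ≥ 1 ≥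
u^k/(1+R)^k` (`Dg_bound`).
-/

namespace Pool.Agent.Work.MP_49847a_an

open MvPolynomial

variable {n : ℕ}

private theorem Ff_CC (C₀ : ℝ) (q : MvPolynomial (Fin n ⊕ Fin n) ℝ) (z w : Fin n → ℂ) :
    Ff (C C₀ + q) z w = C₀ * Df q z w + Ff q z w := by
  unfold Ff Df
  rw [ev_add, ev_add, ev_C, ev_C, pol_add, pol_C, ← Complex.normSq_eq_norm_sq,
    ← Complex.normSq_eq_norm_sq, Complex.normSq_apply, Complex.normSq_apply, Complex.add_re,
    Complex.add_im, Complex.ofReal_re, Complex.ofReal_im]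
  ring

private theorem Ff_Cmul (c : ℝ) (q : MvPolynomial (Fin n ⊕ Fin n) ℝ) (z w : Fin n → ℂ) :
    Ff (C c * q) z w = c ^ 2 * Ff q z w := by
  unfold Ff
  rw [ev_mul, ev_mul, ev_C, ev_C, pol_mul, pol_C, norm_mul, mul_pow, Complex.norm_real,
    Real.norm_eq_abs, sq_abs]
  ring

private theorem tm_nonneg (k : ℕ) (z w : Fin n → ℂ) :
    0 ≤ (1 + nn z) ^ (k - 1) * (1 + nn w) ^ (k - 1) * fu z w := by
  have h0 := nn_nonneg z
  have h1 := nn_nonneg w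
  have h2 : 0 ≤ fu z w := (nn_nonneg (z - w)).trans (nn_le_fu z w)
  positivity

private theorem tm_alpha (k : ℕ) {R₂ : ℝ} (z w : Fin n → ℂ) (hz : nn z ≤ R₂) (hw : nn w ≤ R₂) :
    (1 + nn z) ^ (k - 1) * (1 + nn w) ^ (k - 1) * fu z w ≤
      (1 + R₂) ^ (k - 1) * (1 + R₂) ^ (k - 1) * (1 + R₂) * nn (z - w) := by
  have h0 := nn_nonneg z
  have h1 := nn_nonneg w
  have h2 : 0 ≤ fu z w := (nn_nonneg (z - w)).trans (nn_le_fu z w)
  have h3 : fu z w ≤ (1 + R₂) * nn (z - w) :=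
    (fu_le_nn z w).trans (mul_le_mul_of_nonneg_right (by linarith) (nn_nonneg _))
  have h4 : (1 + nn z) ^ (k - 1) ≤ (1 + R₂) ^ (k - 1) :=
    pow_le_pow_left₀ (by linarith) (by linarith) _
  have h5 : (1 + nn w) ^ (k - 1) ≤ (1 + R₂) ^ (k - 1) :=
    pow_le_pow_left₀ (by linarith) (by linarith) _
  have h6 : (0 : ℝ) ≤ (1 + R₂) ^ (k - 1) := pow_nonneg (by linarith) _
  calc (1 + nn z) ^ (k - 1) * (1 + nn w) ^ (k - 1) * fu z w
      ≤ ((1 + R₂) ^ (k - 1) * (1 + R₂) ^ (k - 1)) * ((1 + R₂) * nn (z - w)) :=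
        mul_le_mul (mul_le_mul h4 h5 (pow_nonneg (by linarith) _) h6) h3 h2
          (mul_nonneg h6 h6)
    _ = _ := by ring

private theorem tm_beta {k : ℕ} (hk : 0 < k) {R : ℝ} (z w : Fin n → ℂ) (hz : nn z ≤ R) :
    (1 + nn z) ^ (k - 1) * (1 + nn w) ^ (k - 1) * fu z w ≤ (1 + R) ^ k * (1 + nn w) ^ k := by
  have h0 := nn_nonneg z
  have h1 := nn_nonneg w
  have h4 : (1 + nn z) ^ k ≤ (1 + R) ^ k := pow_le_pow_left₀ (by linarith) (by linarith) _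
  obtain ⟨j, rfl⟩ : ∃ j, k = j + 1 := ⟨k - 1, by omega⟩
  rw [Nat.add_sub_cancel]
  have h5 : (0 : ℝ) ≤ (1 + nn z) ^ j * (1 + nn w) ^ j :=
    mul_nonneg (pow_nonneg (by linarith) _) (pow_nonneg (by linarith) _)
  calc (1 + nn z) ^ j * (1 + nn w) ^ j * fu z w
      ≤ (1 + nn z) ^ j * (1 + nn w) ^ j * ((1 + nn z) * (1 + nn w)) :=
        mul_le_mul_of_nonneg_left (fu_le z w) h5
    _ = (1 + nn z) ^ (j + 1) * (1 + nn w) ^ (j + 1) := by ring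
    _ ≤ (1 + R) ^ (j + 1) * (1 + nn w) ^ (j + 1) :=
        mul_le_mul_of_nonneg_right h4 (pow_nonneg (by linarith) _)

private theorem addq_bd {C₀ c₀ M K T N D F c' : ℝ} (hC : M * K + 1 ≤ C₀ * c₀) (hM : 0 ≤ M)
    (hN : 0 ≤ N) (hK : 0 < K) (hTN : T ≤ K * N) (hD : c₀ * N ≤ D) (hC₀ : 0 < C₀)
    (hF : |F| ≤ M * T) (hc : c' ≤ 1 / K) (hT : 0 ≤ T) : c' * T ≤ C₀ * D + F := by
  have h1 : -(M * T) ≤ F := (abs_le.1 hF).1
  have h2 : C₀ * (c₀ * N) ≤ C₀ * D := mul_le_mul_of_nonneg_left hD hC₀.le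
  have h3 : M * T ≤ M * (K * N) := mul_le_mul_of_nonneg_left hTN hM
  have h4 : (M * K + 1) * N ≤ C₀ * c₀ * N := mul_le_mul_of_nonneg_right hC hN
  have h5 : c' * T ≤ 1 / K * T := mul_le_mul_of_nonneg_right hc hT
  have h6 : 1 / K * T ≤ 1 / K * (K * N) :=
    mul_le_mul_of_nonneg_left hTN (by positivity)
  have h7 : 1 / K * (K * N) = N := by
    field_simp
  nlinarith

theorem addq {k : ℕ} (hk : 0 < k) {q : MvPolynomial (Fin n ⊕ Fin n) ℝ} (hq : Dg k q)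
    {R R₂ c₁ c₂ c₃ : ℝ} (hR : 0 < R) (hR₂ : R ≤ R₂) (hc₁ : 0 < c₁) (hc₂ : 0 < c₂) (hc₃ : 0 < c₃)
    (h1 : ∀ z w, nn z ≤ R₂ → nn w ≤ R₂ → c₁ * nn (z - w) ≤ Df q z w)
    (h2 : ∀ z w, nn z ≤ R → R₂ ≤ nn w → c₂ * (1 + nn w) ^ k ≤ Df q z w)
    (h3 : ∀ z w, R ≤ nn z → R ≤ nn w → Ps (q - C c₃ * WW n 1 ^ k) z w) :
    ∃ C₀ c' : ℝ, 0 < C₀ ∧ 0 < c' ∧ (∀ z, c' * (1 + nn z) ^ k ≤ ev (C C₀ + q) z) ∧
      ∀ z w, c' * ((1 + nn z) ^ (k - 1) * (1 + nn w) ^ (k - 1) * fu z w) ≤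
        Ff (C C₀ + q) z w := by
  obtain ⟨M, hM, hlag⟩ := lag hk hq
  obtain ⟨M₀, hM₀, hbd⟩ := Dg_bound hq
  obtain ⟨K, hKdef⟩ : ∃ K : ℝ, K = (1 + R₂) ^ (k - 1) * (1 + R₂) ^ (k - 1) * (1 + R₂) := ⟨_, rfl⟩
  obtain ⟨K', hKdef'⟩ : ∃ K' : ℝ, K' = (1 + R) ^ k := ⟨_, rfl⟩
  have hK : 0 < K := by
    rw [hKdef]
    have : (0 : ℝ) < 1 + R₂ := by linarith
    positivity
  have hK' : 0 < K' := by
    rw [hKdef']
    have : (0 : ℝ) < 1 + R := by linarith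
    positivity
  obtain ⟨C₀, hC₀⟩ : ∃ C₀ : ℝ, C₀ = (M * K + 1) / c₁ + (M * K' + 1) / c₂ + M₀ * K' + 1 :=
    ⟨_, rfl⟩
  have hp1 : 0 ≤ (M * K + 1) / c₁ := by positivity
  have hp2 : 0 ≤ (M * K' + 1) / c₂ := by positivity
  have hp3 : 0 ≤ M₀ * K' := by positivity
  have hC₀pos : 0 < C₀ := by rw [hC₀]; linarith
  have hCa : M * K + 1 ≤ C₀ * c₁ := by
    rw [← div_le_iff₀ hc₁, hC₀]
    linarith
  have hCb : M * K' + 1 ≤ C₀ * c₂ := by
    rw [← div_le_iff₀ hc₂, hC₀]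
    linarith
  have hCp : M₀ * K' + 1 ≤ C₀ := by
    rw [hC₀]
    linarith
  obtain ⟨c', hc'⟩ : ∃ c' : ℝ, c' = min (min (c₃ ^ 2) c₃) (min (1 / K) (1 / K')) := ⟨_, rfl⟩
  have hc'pos : 0 < c' := by
    rw [hc']
    exact lt_min (lt_min (by positivity) hc₃) (lt_min (by positivity) (by positivity))
  have hcs : c' ≤ c₃ ^ 2 := by
    rw [hc']
    exact (min_le_left _ _).trans (min_le_left _ _)
  have hc3 : c' ≤ c₃ := by
    rw [hc']
    exact (min_le_left _ _).trans (min_le_right _ _)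
  have hcK : c' ≤ 1 / K := by
    rw [hc']
    exact (min_le_right _ _).trans (min_le_left _ _)
  have hcK' : c' ≤ 1 / K' := by
    rw [hc']
    exact (min_le_right _ _).trans (min_le_right _ _)
  have hbeta : ∀ z w : Fin n → ℂ, nn z ≤ R → R₂ ≤ nn w →
      c' * ((1 + nn z) ^ (k - 1) * (1 + nn w) ^ (k - 1) * fu z w) ≤
        C₀ * Df q z w + Ff q z w := by
    intro z w hz hw
    have hw0 := nn_nonneg w
    have hT := tm_beta hk z w hz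
    rw [← hKdef'] at hT
    exact addq_bd hCb hM (pow_nonneg (by linarith) k) hK' hT (h2 z w hz hw) hC₀pos (hlag z w)
      hcK' (tm_nonneg k z w)
  refine ⟨C₀, c', hC₀pos, hc'pos, fun z => ?_, fun z w => ?_⟩
  · rw [ev_add, ev_C]
    have hz0 := nn_nonneg z
    have hu : (0 : ℝ) ≤ (1 + nn z) ^ k := pow_nonneg (by linarith) _
    rcases le_total R (nn z) with hz | hz
    · have h4 := (h3 z z hz hz).1
      rw [ev_sub, ev_mul, ev_C, ev_pow, ev_WW] at h4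
      have h5 : c' * (1 + nn z) ^ k ≤ c₃ * (1 + nn z) ^ k := mul_le_mul_of_nonneg_right hc3 hu
      linarith
    · have h4 : (1 + nn z) ^ k ≤ K' := by
        rw [hKdef']
        exact pow_le_pow_left₀ (by linarith) (by linarith) _
      have h5 : -(M₀ * (1 + nn z) ^ k) ≤ ev q z := (abs_le.1 (hbd z)).1
      have h6 : M₀ * (1 + nn z) ^ k ≤ M₀ * K' := mul_le_mul_of_nonneg_left h4 hM₀
      have h7 : c' * (1 + nn z) ^ k ≤ 1 / K' * K' :=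
        mul_le_mul hcK' h4 hu (by positivity)
      have h8 : 1 / K' * K' = 1 := by field_simp
      linarith
  · rw [Ff_CC]
    have hT0 := tm_nonneg k z w
    by_cases ha : nn z ≤ R₂ ∧ nn w ≤ R₂
    · have hT := tm_alpha k z w ha.1 ha.2
      rw [← hKdef] at hT
      exact addq_bd hCa hM (nn_nonneg _) hK hT (h1 z w ha.1 ha.2) hC₀pos (hlag z w) hcK hT0
    · by_cases hb : nn z ≤ R ∧ R₂ ≤ nn w
      · exact hbeta z w hb.1 hb.2
      · by_cases hb' : nn w ≤ R ∧ R₂ ≤ nn z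
        · have h4 := hbeta w z hb'.1 hb'.2
          rw [Df_symm q w z, Ff_symm q w z, fu_symm w z] at h4
          have h5 : (1 + nn w) ^ (k - 1) * (1 + nn z) ^ (k - 1) * fu z w =
              (1 + nn z) ^ (k - 1) * (1 + nn w) ^ (k - 1) * fu z w := by ring
          rw [h5] at h4
          exact h4
        · have hz : R ≤ nn z := by
            by_contra hcon
            rw [not_le] at hcon
            have h4 : nn z ≤ R₂ := hcon.le.trans hR₂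
            have h5 : ¬ nn w ≤ R₂ := fun h => ha ⟨h4, h⟩
            exact hb ⟨hcon.le, (not_le.1 h5).le⟩
          have hw : R ≤ nn w := by
            by_contra hcon
            rw [not_le] at hcon
            have h4 : nn w ≤ R₂ := hcon.le.trans hR₂
            have h5 : ¬ nn z ≤ R₂ := fun h => ha ⟨h, h4⟩
            exact hb' ⟨hcon.le, (not_le.1 h5).le⟩
          have h4 := h3 z w hz hw
          have hP : Ps (C c₃ * WW n 1 ^ k) z w :=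
            Ps_mul (Ps_C hc₃.le z w) (Ps_pow (Ps_WW zero_le_one z w) k)
          have h5 : 0 ≤ Df q z w := (Df_nonneg hP).trans (Df_mono h4)
          have h6 := Ff_mono h4 hP
          rw [Ff_Cmul] at h6
          have h7 := Ff_WW_pow_ge hk z w
          have h8 : c₃ ^ 2 * ((1 + nn z) ^ (k - 1) * (1 + nn w) ^ (k - 1) * fu z w) ≤
              c₃ ^ 2 * Ff (WW n 1 ^ k) z w := mul_le_mul_of_nonneg_left h7 (sq_nonneg _)
          have h9 : c' * ((1 + nn z) ^ (k - 1) * (1 + nn w) ^ (k - 1) * fu z w) ≤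
              c₃ ^ 2 * ((1 + nn z) ^ (k - 1) * (1 + nn w) ^ (k - 1) * fu z w) :=
            mul_le_mul_of_nonneg_right hcs hT0
          have h10 : 0 ≤ C₀ * Df q z w := mul_nonneg hC₀pos.le h5
          linarith

end Pool.Agent.Work.MP_49847a_an
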