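import Pool.Agent.Work.MP_49847a_an.Sg.Lag
import Pool.Agent.Work.MP_49847a_an.Sg.BigL

/-!
# Module MrgF: uniform positivity of the second difference for one point in a ball and one point far away

Proof.  For `nn z ≤ R`: `|q(z)| ≤ M` and `|q(z,w)| ≤ M √(u(w)^k)` (`pol_bd`; `pol_self`), `u = 1 + nn`, so
`Df q z w ≥ c₃ u(w)^k - M - 2 M √(u(w)^k) ≥ (c₃/2) u(w)^k` for `nn w ≥ R₃` (`k > 0`).  On the compact set `nn z ≤ R`,
`R₂ ≤ nn w ≤ R₃` (`nn_cpt`) the continuous function `Df q` (`ev_continuous`, `pol_continuous`) is positive, so `≥ c > 0`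
(or the set is empty), and `u(w)^k ≤ (1 + R₃)^k` there.
-/

namespace Pool.Agent.Work.MP_49847a_an

open MvPolynomial

variable {n : ℕ}

private theorem farq_cpt {k : ℕ} {q : MvPolynomial (Fin n ⊕ Fin n) ℝ}
    {R R₂ : ℝ} (h2 : ∀ z w, nn z ≤ R → R₂ ≤ nn w → 0 < Df q z w) (R₃ : ℝ) (h0 : 0 ≤ R₃) :
    ∃ m : ℝ, 0 < m ∧ ∀ z w, nn z ≤ R → R₂ ≤ nn w → nn w ≤ R₃ → m * (1 + nn w) ^ k ≤ Df q z w := by
  have hK : IsCompact ({z : Fin n → ℂ | nn z ≤ R} ×ˢ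
      ({w : Fin n → ℂ | nn w ≤ R₃} ∩ {w : Fin n → ℂ | R₂ ≤ nn w})) := by
    refine (nn_cpt R).prod ((nn_cpt R₃).inter_right ?_)
    exact isClosed_le continuous_const nn_continuous
  have hcont : Continuous (fun p : (Fin n → ℂ) × (Fin n → ℂ) => Df q p.1 p.2) := by
    unfold Df
    have h1 := (ev_continuous q).comp (continuous_fst (X := Fin n → ℂ) (Y := Fin n → ℂ))
    have h1' := (ev_continuous q).comp (continuous_snd (X := Fin n → ℂ) (Y := Fin n → ℂ))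
    have h3 := Complex.continuous_re.comp (pol_continuous q)
    exact (h1.add h1').sub (continuous_const.mul h3)
  have hpow : 0 < (1 + R₃) ^ k := by positivity
  rcases Set.eq_empty_or_nonempty ({z : Fin n → ℂ | nn z ≤ R} ×ˢ
      ({w : Fin n → ℂ | nn w ≤ R₃} ∩ {w : Fin n → ℂ | R₂ ≤ nn w})) with he | hne
  · refine ⟨1, one_pos, fun z w hz hw hw3 => ?_⟩
    exfalso
    have : (z, w) ∈ ({z : Fin n → ℂ | nn z ≤ R} ×ˢ
      ({w : Fin n → ℂ | nn w ≤ R₃} ∩ {w : Fin n → ℂ | R₂ ≤ nn w})) := ⟨hz, hw3, hw⟩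
    rw [he] at this
    exact this
  · obtain ⟨p, hp, hmin⟩ := hK.exists_isMinOn hne hcont.continuousOn
    have hpos : 0 < Df q p.1 p.2 := h2 p.1 p.2 hp.1 hp.2.2
    refine ⟨Df q p.1 p.2 / (1 + R₃) ^ k, div_pos hpos hpow, fun z w hz hw hw3 => ?_⟩
    have hmem : (z, w) ∈ ({z : Fin n → ℂ | nn z ≤ R} ×ˢ
      ({w : Fin n → ℂ | nn w ≤ R₃} ∩ {w : Fin n → ℂ | R₂ ≤ nn w})) := ⟨hz, hw3, hw⟩
    have h1 : Df q p.1 p.2 ≤ Df q z w := isMinOn_iff.mp hmin (z, w) hmem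
    refine le_trans ?_ h1
    rw [div_mul_eq_mul_div, div_le_iff₀ hpow]
    refine mul_le_mul_of_nonneg_left ?_ hpos.le
    exact pow_le_pow_left₀ (by have := nn_nonneg w; linarith) (by linarith) k

theorem farq {k : ℕ} (hk : 0 < k) {q : MvPolynomial (Fin n ⊕ Fin n) ℝ} (hq : Dg k q)
    {R R₂ c₃ : ℝ} (hc : 0 < c₃) (h3 : ∀ w, R₂ ≤ nn w → c₃ * (1 + nn w) ^ k ≤ ev q w)
    (h2 : ∀ z w, nn z ≤ R → R₂ ≤ nn w → 0 < Df q z w) :
    ∃ c₂ : ℝ, 0 < c₂ ∧ ∀ z w, nn z ≤ R → R₂ ≤ nn w → c₂ * (1 + nn w) ^ k ≤ Df q z w := by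
  obtain ⟨M₁, hM₁, hb₁⟩ := Dg_bound hq
  obtain ⟨M₂, hM₂, hb₂⟩ := pol_bd hq
  obtain ⟨A, hA⟩ : ∃ A : ℝ, A = (1 + max R 0) ^ k := ⟨_, rfl⟩
  have hA0 : 0 < A := by rw [hA]; have := le_max_right R 0; positivity
  obtain ⟨T, hT⟩ : ∃ T : ℝ, T = 4 * M₂ * A / c₃ + 1 := ⟨_, rfl⟩
  have hT0 : 0 < T := by rw [hT]; positivity
  have hT1 : M₂ * A / T ≤ c₃ / 4 := by
    rw [div_le_iff₀ hT0, hT]
    have : c₃ / 4 * (4 * M₂ * A / c₃ + 1) = M₂ * A + c₃ / 4 := by field_simp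
    rw [this]
    linarith
  obtain ⟨R₃, hR₃⟩ : ∃ R₃ : ℝ, R₃ = 4 * (M₁ * A + T) / c₃ := ⟨_, rfl⟩
  have hR₃0 : 0 ≤ R₃ := by rw [hR₃]; positivity
  obtain ⟨m, hm, hmb⟩ := farq_cpt (k := k) h2 R₃ hR₃0
  refine ⟨min (c₃ / 2) m, lt_min (half_pos hc) hm, fun z w hz hw => ?_⟩
  have hw0 := nn_nonneg w
  have hz0 := nn_nonneg z
  have hu0 : 0 < (1 + nn w) ^ k := by positivity
  rcases le_or_gt (nn w) R₃ with hw3 | hw3
  · exact (mul_le_mul_of_nonneg_right (min_le_right _ _) hu0.le).trans (hmb z w hz hw hw3)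
  · refine (mul_le_mul_of_nonneg_right (min_le_left _ _) hu0.le).trans ?_
    have hzA : (1 + nn z) ^ k ≤ A := by
      rw [hA]
      exact pow_le_pow_left₀ (by linarith) (by have := le_max_left R 0; linarith) k
    have hu1 : 1 + nn w ≤ (1 + nn w) ^ k := by
      calc 1 + nn w = (1 + nn w) ^ 1 := (pow_one _).symm
        _ ≤ (1 + nn w) ^ k := pow_le_pow_right₀ (by linarith) hk
    have e1 : -(M₁ * A) ≤ ev q z := by
      have h1 := neg_abs_le (ev q z)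
      have h2 := hb₁ z
      have h3 : M₁ * (1 + nn z) ^ k ≤ M₁ * A := mul_le_mul_of_nonneg_left hzA hM₁
      linarith
    have e2 := h3 w hw
    have e3 : 2 * (pol q z w).re ≤ c₃ / 4 * (1 + nn w) ^ k + T := by
      have g1 : (pol q z w).re ≤ ‖pol q z w‖ := (le_abs_self _).trans (Complex.abs_re_le_norm _)
      have g2 : 2 * ‖pol q z w‖ ≤ ‖pol q z w‖ ^ 2 / T + T := by
        have : 0 ≤ (‖pol q z w‖ - T) ^ 2 / T := by positivity
        have h4 : (‖pol q z w‖ - T) ^ 2 / T = ‖pol q z w‖ ^ 2 / T + T - 2 * ‖pol q z w‖ := by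
          field_simp
          ring
        linarith
      have g3 : ‖pol q z w‖ ^ 2 / T ≤ c₃ / 4 * (1 + nn w) ^ k := by
        have h4 : ‖pol q z w‖ ^ 2 ≤ M₂ * A * (1 + nn w) ^ k := by
          refine (hb₂ z w).trans ?_
          rw [← mul_assoc]
          exact mul_le_mul_of_nonneg_right (mul_le_mul_of_nonneg_left hzA hM₂) hu0.le
        calc ‖pol q z w‖ ^ 2 / T ≤ M₂ * A * (1 + nn w) ^ k / T :=
              div_le_div_of_nonneg_right h4 hT0.le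
          _ = M₂ * A / T * (1 + nn w) ^ k := by ring
          _ ≤ c₃ / 4 * (1 + nn w) ^ k := mul_le_mul_of_nonneg_right hT1 hu0.le
      linarith
    have e4 : M₁ * A + T ≤ c₃ / 4 * (1 + nn w) ^ k := by
      have h4 : M₁ * A + T = c₃ / 4 * R₃ := by rw [hR₃]; field_simp
      rw [h4]
      refine mul_le_mul_of_nonneg_left ?_ (by positivity)
      linarith
    unfold Df
    nlinarith [e1, e2, e3, e4]

end Pool.Agent.Work.MP_49847a_an
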