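import Pool.Agent.Work.MP_49847a_an.Sg.BigL

/-!
# Module MrgR: two radii

Proof.  `R > 0` with `5 ≤ W(z)` for `R ≤ nn z`: `Big_lower`, `ε (1 + nn z) ≤ ε (1 + nn z)^e ≤ W(z)` (`e > 0`), or `Big_cpt`,
`nn_bdd`.  `W ≤ B` on `{nn z ≤ R}` (`Big_upper`), then `R₂ ≥ R` with `ε (1 + R₂) ≥ 2 B`, `R₂ ≥ R`.
-/

namespace Pool.Agent.Work.MP_49847a_an

open MvPolynomial

variable {n m e : ℕ} {ε : ℝ} {h : Fin m → MvPolynomial (Fin n) ℂ}
  {W : MvPolynomial (Fin n ⊕ Fin n) ℝ}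

theorem radii (hW : Big e ε h W) : ∃ R R₂ : ℝ, 0 < R ∧ R ≤ R₂ ∧ (∀ z, R ≤ nn z → 5 ≤ ev W z) ∧
    ∀ z w, nn z ≤ R → R₂ ≤ nn w → 2 * ev W z ≤ ev W w ∧ 5 ≤ ev W w := by
  have he : 0 < e := hW.1
  have hε : 0 < ε := hW.2.1
  have hnn : ∀ z : Fin n → ℂ, 0 ≤ nn z := fun z => by
    unfold nn
    positivity
  have hlow : ∀ z, ε * nn z ≤ ev W z := by
    intro z
    refine le_trans ?_ (Big_lower hW z)
    refine mul_le_mul_of_nonneg_left ?_ hε.le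
    have h1 : 1 ≤ 1 + nn z := by linarith [hnn z]
    have h2 : 1 + nn z ≤ (1 + nn z) ^ e := le_self_pow₀ h1 he.ne'
    linarith
  obtain ⟨M, hM, hup⟩ := Big_upper hW
  have hR : ∀ z, max 1 (5 / ε) ≤ nn z → 5 ≤ ev W z := by
    intro z hz
    have h1 : 5 / ε ≤ nn z := (le_max_right _ _).trans hz
    rw [div_le_iff₀ hε] at h1
    linarith [hlow z]
  refine ⟨max 1 (5 / ε), max (max 1 (5 / ε)) (2 * (M * (1 + max 1 (5 / ε)) ^ e) / ε),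
    lt_of_lt_of_le one_pos (le_max_left _ _), le_max_left _ _, hR, ?_⟩
  intro z w hz hw
  have h1 : 2 * (M * (1 + max 1 (5 / ε)) ^ e) / ε ≤ nn w := (le_max_right _ _).trans hw
  rw [div_le_iff₀ hε] at h1
  have h2 : ev W z ≤ M * (1 + max 1 (5 / ε)) ^ e := by
    refine (hup z).trans (mul_le_mul_of_nonneg_left ?_ hM.le)
    exact pow_le_pow_left₀ (by linarith [hnn z]) (by linarith) e
  refine ⟨?_, hR w ((le_max_left _ _).trans hw)⟩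
  linarith [hlow w]

end Pool.Agent.Work.MP_49847a_an
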