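import Pool.Agent.Work.MP_49847a_an.Sg.Tay

/-!
# Module NecH: necessity, the basic data

Proof.
(nec_sep) `hull_core` as in `hull_twoQ` (module `Rat/HullT`): `R2 P Q a b = 0` gives `a = b` (`X2 P Q` compact).
(nec_data) `X2 P Q` is compact, so `c > nn z` on it (`nn_bdd`); `R = C c - WW n 0` is positive on `X2 P Q`, `Quillen2`
gives `c - nn z = nrm p z + r2 z ev H z` for all `z`.
(1) On `X2`: `nn z + nrm p z = c`.  `nn = nrm` of the family of the coordinates; `nrm_append`, `nrm_hull`: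
`nn z + nrm p z ≤ c` on the hull, that is `0 ≤ r2 z ev H z`.
(2) Let `a ∈ X2`, `dr2 a v = 0`, `w = a + t v`, `t > 0` real.  Second differences (`Df` of the real polynomials, `ev_ext`,
`Df_add`, `Df_sub`, `Df_C`, `Df_WW`, `Ps_nrm`, `Df_nonneg`): `-nn (a - w) = Df(nrm p) + Df(ρ H) ≥ Df (ρ H) a w`.
`Df (ρ H) a w = r2 w H(w) - 2 Re (R2 a w pol H a w)` (`r2 a = 0`) `= D2 a w H(w) + 2 Re (R2 a w (H(w) - pol H a w))`
(`r2 w = 2 Re R2 a w + D2 a w`).  By `tay2`: `|R2 a w| = |R2 w a| ≤ M t² nn v` (since `dr2 a (t v) = 0`),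
`|D2 a w - t² lev2 a v| ≤ M t³ (nn v)^(3/2)`, and `|H(w) - pol H a w| → 0`, `H(w) → H(a)` (continuity).  Divide by `t²`
and let `t → 0`: `lev2 a v H(a) ≤ - nn v`.
-/

namespace Pool.Agent.Work.MP_49847a_an

open MvPolynomial

variable {n k l : ℕ} {P : Fin k → MvPolynomial (Fin n) ℂ} {Q : Fin l → MvPolynomial (Fin n) ℂ}

theorem nec_sep (hX : IsCompact (X2 P Q)) (hQ : Quillen2 P Q) : Sep2 P Q := by
  intro a ha b hb hab
  refine hull_core hX ha hb fun R hR => ?_
  obtain ⟨m, p, H, hp⟩ := hQ R hR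
  refine ⟨m, p, fun z hz => by rw [hp z, show r2 P Q z = 0 from hz, zero_mul, add_zero], ?_⟩
  obtain ⟨σ, hσ⟩ := exists_nrm p
  obtain ⟨F, hF⟩ := exists_r2 P Q
  have hR' : R = σ + F * H := by
    apply ev_ext
    intro z
    rw [ev_add, ev_mul, hσ, hF, hp z]
  rw [hR', pol_add, pol_mul, pol_nrm hσ, pol_r2 hF, hab]
  ring

private theorem dd_smul {m : ℕ} (p : Fin m → MvPolynomial (Fin n) ℂ) (a v : Fin n → ℂ) (t : ℂ)
    (j : Fin m) : dd p a (t • v) j = t * dd p a v j := by
  unfold dd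
  rw [Finset.mul_sum]
  refine Finset.sum_congr rfl fun i _ => ?_
  rw [Pi.smul_apply, smul_eq_mul]
  ring

private theorem dr2_smul (a v : Fin n → ℂ) (t : ℂ) : dr2 P Q a (t • v) = t * dr2 P Q a v := by
  unfold dr2
  rw [mul_sub, Finset.mul_sum, Finset.mul_sum]
  congr 1
  · refine Finset.sum_congr rfl fun j _ => ?_
    rw [dd_smul]
    ring
  · refine Finset.sum_congr rfl fun j _ => ?_
    rw [dd_smul]
    ring

private theorem lev2_smul (a v : Fin n → ℂ) (t : ℂ) :
    lev2 P Q a (t • v) = ‖t‖ ^ 2 * lev2 P Q a v := by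
  unfold lev2
  rw [mul_sub, Finset.mul_sum, Finset.mul_sum]
  congr 1
  · refine Finset.sum_congr rfl fun j _ => ?_
    rw [dd_smul, norm_mul, mul_pow]
  · refine Finset.sum_congr rfl fun j _ => ?_
    rw [dd_smul, norm_mul, mul_pow]

/-- the second difference of `ρ H` at a zero `a` of `ρ` -/
private theorem Df_mul_zero {F H : MvPolynomial (Fin n ⊕ Fin n) ℝ} (hF : ∀ z, ev F z = r2 P Q z)
    {a w : Fin n → ℂ} (ha : r2 P Q a = 0) : Df (F * H) a w =
      D2 P Q a w * ev H w + 2 * (R2 P Q a w * ((ev H w : ℝ) - pol H a w)).re := by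
  unfold Df D2
  rw [ev_mul, ev_mul, pol_mul, pol_r2 hF, hF, hF, ha]
  simp only [Complex.mul_re, Complex.sub_re, Complex.sub_im, Complex.ofReal_re, Complex.ofReal_im]
  ring

private theorem pol_line (H : MvPolynomial (Fin n ⊕ Fin n) ℝ) (a v : Fin n → ℂ) :
    Continuous fun t : ℝ => pol H a (a + (t : ℂ) • v) := by
  have h := pol_continuous H
  have hcq : Continuous fun t : ℝ => (a, a + (t : ℂ) • v) := by fun_prop
  have h2 := h.comp hcq
  simp only [Function.comp_def] at h2
  exact h2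

theorem nec_data (hX : IsCompact (X2 P Q)) (hQ : Quillen2 P Q) :
    ∃ H : MvPolynomial (Fin n ⊕ Fin n) ℝ, (∀ z ∈ hull (X2 P Q), 0 ≤ r2 P Q z * ev H z) ∧
      ∀ a ∈ X2 P Q, ∀ v, dr2 P Q a v = 0 → lev2 P Q a v * ev H a ≤ -nn v := by
  obtain ⟨c, hc0, hc⟩ := nn_bdd hX
  obtain ⟨m, p, H, hp⟩ := hQ (C c - WW n 0) (fun z hz => by
    rw [ev_sub, ev_C, ev_WW]
    linarith [hc z hz])
  obtain ⟨σ, hσ⟩ := exists_nrm p
  obtain ⟨F, hF⟩ := exists_r2 P Q
  have hp' : ∀ z, c - nn z = nrm p z + r2 P Q z * ev H z := by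
    intro z
    rw [← hp z, ev_sub, ev_C, ev_WW]
    ring
  refine ⟨H, fun z hz => ?_, fun a ha v hv => ?_⟩
  · -- on the hull
    obtain ⟨m', x, -, hx⟩ := exists_nrm_WW (n := n) (le_refl (0 : ℝ))
    obtain ⟨s, hs⟩ := nrm_append x p
    have h1 : nrm s z ≤ c := by
      refine nrm_hull hc0.le (fun y hy => ?_) hz
      rw [hs, hx, zero_add]
      have h2 := hp' y
      rw [show r2 P Q y = 0 from hy, zero_mul] at h2
      linarith
    rw [hs, hx, zero_add] at h1
    linarith [hp' z]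
  · have ha0 : r2 P Q a = 0 := ha
    have hpoly : C c - WW n 0 = σ + F * H := by
      apply ev_ext
      intro z
      rw [ev_add, ev_mul, hσ, hF, hp z]
    -- the inequality between second differences
    have hdf : ∀ w, Df (F * H) a w ≤ -nn (a - w) := by
      intro w
      have h1 : Df (C c - WW n 0) a w = Df σ a w + Df (F * H) a w := by
        rw [hpoly, Df_add]
      rw [Df_sub, Df_C, Df_WW] at h1
      have h2 := Df_nonneg (Ps_nrm hσ a w)
      linarith
    obtain ⟨M, hM, htay⟩ := tay2 P Q (2 * nn a + 2 * nn v)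
    have hnnv := nn_nonneg v
    have hnna := nn_nonneg a
    -- the function of `t`
    set φ : ℝ → ℝ := fun t => lev2 P Q a v * ev H (a + (t : ℂ) • v) -
      M * t * (nn v * Real.sqrt (nn v)) * |ev H (a + (t : ℂ) • v)| -
      2 * (M * nn v) * ‖((ev H (a + (t : ℂ) • v) : ℝ) : ℂ) - pol H a (a + (t : ℂ) • v)‖ with hφ
    have hcont : Continuous fun t : ℝ => a + (t : ℂ) • v := by fun_prop
    have hcH : Continuous fun t : ℝ => ev H (a + (t : ℂ) • v) := (ev_continuous H).comp hcont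
    have hcp : Continuous fun t : ℝ => pol H a (a + (t : ℂ) • v) := pol_line H a v
    have hφc : Continuous φ := by
      have h1 : Continuous fun t : ℝ => ((ev H (a + (t : ℂ) • v) : ℝ) : ℂ) :=
        Complex.continuous_ofReal.comp hcH
      have h2 : Continuous fun t : ℝ => lev2 P Q a v * ev H (a + (t : ℂ) • v) :=
        continuous_const.mul hcH
      have h3 : Continuous fun t : ℝ => M * t * (nn v * Real.sqrt (nn v)) :=
        (continuous_const.mul continuous_id).mul continuous_const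
      have h4 : Continuous fun t : ℝ => M * t * (nn v * Real.sqrt (nn v)) *
          |ev H (a + (t : ℂ) • v)| := h3.mul hcH.abs
      have h5 : Continuous fun t : ℝ => ((ev H (a + (t : ℂ) • v) : ℝ) : ℂ) -
          pol H a (a + (t : ℂ) • v) := h1.sub hcp
      have h6 : Continuous fun t : ℝ => 2 * (M * nn v) *
          ‖((ev H (a + (t : ℂ) • v) : ℝ) : ℂ) - pol H a (a + (t : ℂ) • v)‖ :=
        continuous_const.mul h5.norm
      exact (h2.sub h4).sub h6
    have hφ0 : φ 0 = lev2 P Q a v * ev H a := by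
      simp only [hφ, Complex.ofReal_zero, zero_smul, add_zero, pol_self, sub_self, norm_zero,
        mul_zero, zero_mul, sub_zero]
    have hle : ∀ t : ℝ, 0 < t → t ≤ 1 → φ t ≤ -nn v := by
      intro t ht ht1
      set w := a + (t : ℂ) • v with hw
      have hwa : w - a = (t : ℂ) • v := by rw [hw]; abel
      have hnt : ‖(t : ℂ)‖ = t := by rw [Complex.norm_real, Real.norm_of_nonneg ht.le]
      have hnwa : nn (w - a) = t ^ 2 * nn v := by rw [hwa, nn_smul, hnt]
      have hnw : nn w ≤ 2 * nn a + 2 * nn v := by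
        have h1 := nn_add_le a ((t : ℂ) • v)
        rw [nn_smul, hnt] at h1
        have h2 : t ^ 2 ≤ 1 := pow_le_one₀ ht.le ht1
        nlinarith
      obtain ⟨t1, -, t3, -, -, -, -⟩ := htay a w (by linarith) hnw
      rw [hwa, dr2_smul, hv, ha0] at t1
      rw [← hwa, hnwa] at t1
      rw [hwa, lev2_smul, hnt] at t3
      rw [← hwa, hnwa] at t3
      have hR : ‖R2 P Q a w‖ ≤ M * (t ^ 2 * nn v) := by
        rw [← R2_conj, RCLike.norm_conj]
        simpa using t1
      have hsq : Real.sqrt (t ^ 2 * nn v) = t * Real.sqrt (nn v) := by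
        rw [Real.sqrt_mul (sq_nonneg t), Real.sqrt_sq ht.le]
      rw [hsq] at t3
      have h1 := hdf w
      rw [Df_mul_zero hF ha0, nn_sub_comm, hnwa] at h1
      -- the two error terms
      have e1 : t ^ 2 * lev2 P Q a v * ev H w -
          M * (t ^ 2 * nn v * (t * Real.sqrt (nn v))) * |ev H w| ≤ D2 P Q a w * ev H w := by
        have h2 : |(D2 P Q a w - t ^ 2 * lev2 P Q a v) * ev H w| ≤
            M * (t ^ 2 * nn v * (t * Real.sqrt (nn v))) * |ev H w| := by
          rw [abs_mul]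
          exact mul_le_mul_of_nonneg_right t3 (abs_nonneg _)
        have h3 := (abs_le.1 h2).1
        linarith
      have e2 : -(M * (t ^ 2 * nn v) * ‖((ev H w : ℝ) : ℂ) - pol H a w‖) ≤
          (R2 P Q a w * ((ev H w : ℝ) - pol H a w)).re := by
        have h2 : ‖R2 P Q a w * ((ev H w : ℝ) - pol H a w)‖ ≤
            M * (t ^ 2 * nn v) * ‖((ev H w : ℝ) : ℂ) - pol H a w‖ := by
          rw [norm_mul]
          exact mul_le_mul_of_nonneg_right hR (norm_nonneg _)
        have h3 := (abs_le.1 ((Complex.abs_re_le_norm _).trans h2)).1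
        exact h3
      have h4 : t ^ 2 * φ t ≤ t ^ 2 * -nn v := by
        simp only [hφ]
        rw [← hw]
        linarith
      exact le_of_mul_le_mul_left h4 (by positivity)
    have hlim : Filter.Tendsto φ (nhdsWithin 0 (Set.Ioi 0)) (nhds (φ 0)) :=
      (hφc.tendsto 0).mono_left nhdsWithin_le_nhds
    rw [← hφ0]
    refine le_of_tendsto hlim ?_
    filter_upwards [Ioc_mem_nhdsGT (show (0 : ℝ) < 1 by norm_num)] with t ht
    exact hle t ht.1 ht.2

end Pool.Agent.Work.MP_49847a_an
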