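import Mathlib

/-!
# Module Root: a root near zero of a polynomial with small constant term

Proof.  `f` is not constant (`h1`).  If all roots `s_i` of `f` (there are at most `D`, with multiplicity, and there is at
least one) satisfy `‖s_i‖ > D ‖f(0)‖/‖f'(0)‖`, then, since `f'(0)/f(0) = -∑ 1/s_i` (logarithmic derivative of the product
`f = c ∏ (X - s_i)`; `Polynomial.eval_derivative_div_eval_of_ne_zero_of_splits`), `‖f'(0)‖/‖f(0)‖ ≤ ∑ 1/‖s_i‖ <
D ‖f'(0)‖/(D ‖f(0)‖)`: contradiction.
-/

namespace Pool.Agent.Work.MP_49847a_an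

/-- a root near zero of a polynomial with small constant term -/
theorem small_root {f : Polynomial ℂ} {D : ℕ} (hD : f.natDegree ≤ D) (h0 : f.eval 0 ≠ 0)
    (h1 : f.derivative.eval 0 ≠ 0) :
    ∃ s : ℂ, f.eval s = 0 ∧ ‖s‖ * ‖f.derivative.eval 0‖ ≤ D * ‖f.eval 0‖ := by
  by_contra hcon
  push Not at hcon
  have hf0 : f ≠ 0 := by
    rintro rfl
    simp at h0
  have key := (IsAlgClosed.splits f).eval_derivative_div_eval_of_ne_zero h0
  have ha : 0 < ‖f.eval 0‖ := norm_pos_iff.mpr h0
  have hb : 0 < ‖f.derivative.eval 0‖ := norm_pos_iff.mpr h1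
  set a := ‖f.eval 0‖ with hadef
  set b := ‖f.derivative.eval 0‖ with hbdef
  -- each root satisfies D*a < ‖s‖*b
  have hroot : ∀ z ∈ f.roots, (D : ℝ) * a < ‖z‖ * b := by
    intro z hz
    have := (Polynomial.mem_roots hf0).mp hz
    exact hcon z this
  -- the roots are nonempty
  have hne : f.roots ≠ 0 := by
    intro h
    rw [h] at key
    simp only [Multiset.map_zero, Multiset.sum_zero] at key
    have := (div_eq_zero_iff.mp key)
    rcases this with h' | h'
    · exact h1 h'
    · exact h0 h'
  have hcard : f.roots.card ≤ D := (f.card_roots').trans hD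
  have hDpos : 0 < D := lt_of_lt_of_le (Multiset.card_pos.mpr hne) hcard
  have hDa : 0 < (D : ℝ) * a := by positivity
  have hbound : ∀ z ∈ f.roots, ‖(1 : ℂ) / (0 - z)‖ < b / (D * a) := by
    intro z hz
    have h2 := hroot z hz
    have hzpos : 0 < ‖z‖ := by
      by_contra h3
      have h4 : ‖z‖ = 0 := le_antisymm (not_lt.mp h3) (norm_nonneg _)
      rw [h4, zero_mul] at h2
      linarith
    rw [norm_div, norm_one, zero_sub, norm_neg, div_lt_div_iff₀ hzpos hDa]
    linarith
  have hsum : ‖(f.roots.map fun z => (1 : ℂ) / (0 - z)).sum‖ < D * (b / (D * a)) := by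
    have h5 : ‖(f.roots.map fun z => (1 : ℂ) / (0 - z)).sum‖ ≤
        ((f.roots.map fun z => (1 : ℂ) / (0 - z)).map fun x => ‖x‖).sum :=
      norm_multiset_sum_le _
    rw [Multiset.map_map] at h5
    have h6 : (f.roots.map ((fun x => ‖x‖) ∘ fun z => (1 : ℂ) / (0 - z))).sum <
        (f.roots.map fun _ => b / (D * a)).sum := by
      apply Multiset.sum_lt_sum_of_nonempty hne
      intro z hz
      exact hbound z hz
    rw [Multiset.map_const', Multiset.sum_replicate, nsmul_eq_mul] at h6
    have h7 : (f.roots.card : ℝ) * (b / (D * a)) ≤ D * (b / (D * a)) := by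
      have : (f.roots.card : ℝ) ≤ D := by exact_mod_cast hcard
      have h8 : 0 ≤ b / (D * a) := by positivity
      exact mul_le_mul_of_nonneg_right this h8
    linarith
  rw [← key, norm_div] at hsum
  have h9 : (D : ℝ) * (b / (D * a)) = b / a := by
    field_simp
  rw [h9] at hsum
  exact lt_irrefl _ hsum

end Pool.Agent.Work.MP_49847a_an
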