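import Pool.Agent.Work.MP_49847a_an.Sg.Hull
import Pool.Agent.Work.MP_49847a_an.Sg.Tay
import Pool.Agent.Work.MP_49847a_an.Sg.Root

/-!
# Module Pen: near a smooth point of `X2 P Q` the hull is contained in `{r2 ≤ 0}`

Proof.  Let `α = dr2 P Q a v ≠ 0` (replace `v` by a multiple so that `nn v ≤ 1`).  Suppose the claim is false: there
are `b` in the hull arbitrarily near `a` with `ρ_b = r2 b > 0`; then `ρ_b → 0`.  `f_b(s) = R2 P Q (b + s v) b` is a
polynomial in `s ∈ ℂ` of degree at most `D` (`D` a bound of the degrees), `f_b(0) = ρ_b`, `f_b'(0) = dr2 P Q b v = α_b`,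
`|α_b| ≥ |α|/2` for `b` near `a`.
(root) by `small_root` `f_b` has a root `s₁` with `|s₁| ≤ D ρ_b/|α_b|`.
(sign) `z = b + s₁ v`.  `tay2` (on a fixed ball): `0 = R2 z b = ρ_b + s₁ α_b + O(|s₁|²)`, and
`r2 z = 2 Re R2 z b - r2 b + D2 b z` (definition of `D2`, `R2_conj`), `|D2 b z| ≤ M nn (z - b) = O(|s₁|²)`, so
`r2 z = - ρ_b + O(ρ_b²) < 0` for `b` near `a`.
So `z ∈ hull (X2 P Q)` (`le_hull`), `b ∈ hull`, `R2 z b = 0`, and `Sep2` gives `z = b`, but `r2 z < 0 < r2 b`.
-/

namespace Pool.Agent.Work.MP_49847a_an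

open MvPolynomial

variable {n k l d : ℕ} {P : Fin k → MvPolynomial (Fin n) ℂ} {Q : Fin l → MvPolynomial (Fin n) ℂ}

/-- the restriction of a polynomial to the line `b + s v` -/
private noncomputable def ln (b v : Fin n → ℂ) (p : MvPolynomial (Fin n) ℂ) : Polynomial ℂ :=
  aeval (fun i => Polynomial.C (b i) + Polynomial.C (v i) * Polynomial.X) p

private theorem ln_eval (b v : Fin n → ℂ) (p : MvPolynomial (Fin n) ℂ) (s : ℂ) :
    (ln b v p).eval s = eval (b + s • v) p := by
  unfold ln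
  induction p using MvPolynomial.induction_on with
  | C a => simp
  | add p q hp hq => rw [map_add, Polynomial.eval_add, hp, hq, map_add]
  | mul_X p i hp =>
    rw [map_mul, Polynomial.eval_mul, hp, map_mul, aeval_X, eval_X]
    simp only [Polynomial.eval_add, Polynomial.eval_mul, Polynomial.eval_C, Polynomial.eval_X,
      Pi.add_apply, Pi.smul_apply, smul_eq_mul]
    ring

private theorem ln_deriv (b v : Fin n → ℂ) (p : MvPolynomial (Fin n) ℂ) :
    (ln b v p).derivative.eval 0 = ∑ i, eval b (pderiv i p) * v i := by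
  induction p using MvPolynomial.induction_on with
  | C a =>
    unfold ln
    simp
  | add p q hp hq =>
    unfold ln at hp hq ⊢
    rw [map_add, Polynomial.derivative_add, Polynomial.eval_add, hp, hq, ← Finset.sum_add_distrib]
    refine Finset.sum_congr rfl fun i _ => ?_
    rw [map_add, map_add]
    ring
  | mul_X p i hp =>
    have h0 := ln_eval b v p 0
    rw [zero_smul, add_zero] at h0
    unfold ln at hp h0 ⊢
    rw [map_mul, Polynomial.derivative_mul, Polynomial.eval_add, Polynomial.eval_mul,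
      Polynomial.eval_mul, hp, h0, aeval_X]
    simp only [Polynomial.derivative_add, Polynomial.derivative_C, Polynomial.derivative_mul,
      Polynomial.derivative_X, Polynomial.eval_add, Polynomial.eval_mul, Polynomial.eval_C,
      Polynomial.eval_X, Polynomial.eval_zero, Polynomial.eval_one, mul_zero, mul_one, zero_mul,
      add_zero, zero_add, Derivation.leibniz, smul_eq_mul, pderiv_X, map_add, map_mul, eval_X]
    rw [Finset.sum_mul]
    have h1 : ∀ j, (eval b p * eval b (Pi.single (M := fun _ => MvPolynomial (Fin n) ℂ) j 1 i) +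
        b i * eval b (pderiv j p)) * v j =
        eval b (pderiv j p) * v j * b i + (if j = i then eval b p * v i else 0) := by
      intro j
      rcases eq_or_ne j i with rfl | hij
      · simp
        ring
      · rw [Pi.single_eq_of_ne hij.symm, map_zero, if_neg hij]
        ring
    rw [Finset.sum_congr rfl fun j _ => h1 j, Finset.sum_add_distrib]
    simp

private theorem ln_deg (b v : Fin n → ℂ) {p : MvPolynomial (Fin n) ℂ} {D : ℕ}
    (hp : p.totalDegree ≤ D) : (ln b v p).natDegree ≤ D := by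
  unfold ln
  refine (aeval_natDegree_le (m := D) p hp _ fun i => ?_).trans (by rw [mul_one])
  refine (Polynomial.natDegree_add_le _ _).trans (max_le ?_ ?_)
  · rw [Polynomial.natDegree_C]
    exact Nat.zero_le _
  · refine (Polynomial.natDegree_C_mul_le _ _).trans ?_
    exact Polynomial.natDegree_X_le

/-- `R2 P Q (b + s v) b` as a polynomial in `s` -/
private noncomputable def fp (P : Fin k → MvPolynomial (Fin n) ℂ)
    (Q : Fin l → MvPolynomial (Fin n) ℂ) (b v : Fin n → ℂ) : Polynomial ℂ :=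
  ∑ j, Polynomial.C ((starRingEnd ℂ) (eval b (P j))) * ln b v (P j) -
    ∑ j, Polynomial.C ((starRingEnd ℂ) (eval b (Q j))) * ln b v (Q j)

private theorem fp_eval (b v : Fin n → ℂ) (s : ℂ) :
    (fp P Q b v).eval s = R2 P Q (b + s • v) b := by
  unfold fp R2
  rw [Polynomial.eval_sub, Polynomial.eval_finsetSum, Polynomial.eval_finsetSum]
  congr 1
  · refine Finset.sum_congr rfl fun j _ => ?_
    rw [Polynomial.eval_mul, Polynomial.eval_C, ln_eval, mul_comm]
  · refine Finset.sum_congr rfl fun j _ => ?_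
    rw [Polynomial.eval_mul, Polynomial.eval_C, ln_eval, mul_comm]

private theorem fp_deriv (b v : Fin n → ℂ) :
    (fp P Q b v).derivative.eval 0 = dr2 P Q b v := by
  unfold fp dr2
  rw [Polynomial.derivative_sub, Polynomial.eval_sub, Polynomial.derivative_sum,
    Polynomial.derivative_sum, Polynomial.eval_finsetSum, Polynomial.eval_finsetSum]
  congr 1
  · refine Finset.sum_congr rfl fun j _ => ?_
    rw [Polynomial.derivative_C_mul, Polynomial.eval_mul, Polynomial.eval_C, ln_deriv, mul_comm]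
    rfl
  · refine Finset.sum_congr rfl fun j _ => ?_
    rw [Polynomial.derivative_C_mul, Polynomial.eval_mul, Polynomial.eval_C, ln_deriv, mul_comm]
    rfl

private theorem fp_deg (hP : ∀ j, (P j).totalDegree ≤ d) (hQ : ∀ j, (Q j).totalDegree ≤ d)
    (b v : Fin n → ℂ) : (fp P Q b v).natDegree ≤ d := by
  unfold fp
  refine (Polynomial.natDegree_sub_le _ _).trans (max_le ?_ ?_)
  · refine Polynomial.natDegree_sum_le_of_forall_le _ _ fun j _ => ?_
    exact (Polynomial.natDegree_C_mul_le _ _).trans (ln_deg b v (hP j))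
  · refine Polynomial.natDegree_sum_le_of_forall_le _ _ fun j _ => ?_
    exact (Polynomial.natDegree_C_mul_le _ _).trans (ln_deg b v (hQ j))

private theorem eval_cont (p : MvPolynomial (Fin n) ℂ) : Continuous fun z => eval z p :=
  MvPolynomial.continuous_eval p

private theorem dr2_cont (v : Fin n → ℂ) : Continuous fun b => dr2 P Q b v := by
  unfold dr2 dd
  refine Continuous.sub ?_ ?_
  · refine continuous_finsetSum _ fun j _ => ?_
    refine Continuous.mul ?_ (Complex.continuous_conj.comp (eval_cont (P j)))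
    refine continuous_finsetSum _ fun i _ => ?_
    exact (eval_cont _).mul continuous_const
  · refine continuous_finsetSum _ fun j _ => ?_
    refine Continuous.mul ?_ (Complex.continuous_conj.comp (eval_cont (Q j)))
    refine continuous_finsetSum _ fun i _ => ?_
    exact (eval_cont _).mul continuous_const

private theorem nn_nhds {a : Fin n → ℂ} {U : Set (Fin n → ℂ)} (hU : U ∈ nhds a) :
    ∃ ε : ℝ, 0 < ε ∧ ∀ b, nn (b - a) < ε → b ∈ U := by
  obtain ⟨δ, hδ, hb⟩ := Metric.mem_nhds_iff.1 hU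
  refine ⟨δ ^ 2, by positivity, fun b h => hb ?_⟩
  rw [Metric.mem_ball, dist_eq_norm, pi_norm_lt_iff hδ]
  intro i
  have h1 : ‖(b - a) i‖ ^ 2 ≤ nn (b - a) :=
    Finset.single_le_sum (f := fun i => ‖(b - a) i‖ ^ 2) (fun _ _ => sq_nonneg _)
      (Finset.mem_univ i)
  exact lt_of_pow_lt_pow_left₀ 2 hδ.le (h1.trans_lt h)

theorem pen (hn : n ≠ 0) (hd : 0 < d) (hL : Lead2 d P Q) (hS : Sep2 P Q) {a v : Fin n → ℂ}
    (ha : a ∈ X2 P Q) (hv : dr2 P Q a v ≠ 0) :
    ∃ ε : ℝ, 0 < ε ∧ ∀ b ∈ hull (X2 P Q), nn (b - a) < ε → r2 P Q b ≤ 0 := by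
  have ha0 : r2 P Q a = 0 := ha
  have hnv := nn_nonneg v
  have hna := nn_nonneg a
  set κ : ℝ := ‖dr2 P Q a v‖ / 2 with hκ
  have hκ0 : 0 < κ := by
    rw [hκ]
    exact half_pos (norm_pos_iff.2 hv)
  obtain ⟨M, hM, htay⟩ := tay2 P Q (2 * (2 * nn a + 2) + 2 * ((d / κ) ^ 2 * nn v))
  set η : ℝ := 1 / (1 + M * (d / κ) ^ 2 * nn v) with hη
  have hden : 0 < 1 + M * (d / κ) ^ 2 * nn v := by positivity
  have hη0 : 0 < η := by rw [hη]; positivity
  have hη1 : η ≤ 1 := by
    rw [hη, div_le_one hden]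
    have : 0 ≤ M * (d / κ) ^ 2 * nn v := by positivity
    linarith
  have hU : {b | κ < ‖dr2 P Q b v‖ ∧ r2 P Q b < η ∧ nn (b - a) < 1} ∈ nhds a := by
    refine Filter.inter_mem ?_ (Filter.inter_mem ?_ ?_)
    · refine (isOpen_lt continuous_const (dr2_cont v).norm).mem_nhds ?_
      show κ < ‖dr2 P Q a v‖
      rw [hκ]
      have := norm_pos_iff.2 hv
      linarith
    · refine (isOpen_lt (r2_continuous P Q) continuous_const).mem_nhds ?_
      show r2 P Q a < η
      rw [ha0]
      exact hη0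
    · refine (isOpen_lt (nn_continuous.comp (continuous_id.sub continuous_const))
        continuous_const).mem_nhds ?_
      show nn (a - a) < 1
      rw [sub_self, nn_eq_zero.2 rfl]
      exact one_pos
  obtain ⟨ε, hε, hb⟩ := nn_nhds hU
  refine ⟨ε, hε, fun b hbh hbε => ?_⟩
  obtain ⟨hb1, hb2, hb3⟩ := hb b hbε
  by_contra hcon
  push Not at hcon
  have hf0 : (fp P Q b v).eval 0 = ((r2 P Q b : ℝ) : ℂ) := by
    rw [fp_eval, zero_smul, add_zero, R2_self]
  have hf1 := fp_deriv (P := P) (Q := Q) b v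
  obtain ⟨s, hs, hs'⟩ := small_root (fp_deg hL.1 hL.2.1 b v)
    (by rw [hf0, Complex.ofReal_ne_zero]; exact hcon.ne')
    (by rw [hf1, ← norm_pos_iff]; exact hκ0.trans hb1)
  rw [hf0, hf1, Complex.norm_real, Real.norm_of_nonneg hcon.le] at hs'
  rw [fp_eval] at hs
  set z := b + s • v with hz
  -- the size of the root
  have hs1 : ‖s‖ ≤ d / κ * r2 P Q b := by
    rw [div_mul_eq_mul_div, le_div_iff₀ hκ0]
    exact (mul_le_mul_of_nonneg_left hb1.le (norm_nonneg s)).trans hs'
  have hdk : 0 ≤ (d : ℝ) / κ := by positivity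
  have hs2 : ‖s‖ ^ 2 ≤ (d / κ) ^ 2 * r2 P Q b ^ 2 := by
    rw [← mul_pow]
    exact pow_le_pow_left₀ (norm_nonneg s) hs1 2
  have hzb : nn (z - b) = ‖s‖ ^ 2 * nn v := by
    rw [hz, add_sub_cancel_left, nn_smul]
  have hr1 : r2 P Q b ^ 2 ≤ 1 := pow_le_one₀ hcon.le (hb2.le.trans hη1)
  have hs3 : ‖s‖ ^ 2 * nn v ≤ (d / κ) ^ 2 * nn v := by
    have h1 : (d / κ) ^ 2 * r2 P Q b ^ 2 ≤ (d / κ) ^ 2 * 1 :=
      mul_le_mul_of_nonneg_left hr1 (sq_nonneg _)
    have h2 := hs2.trans h1
    rw [mul_one] at h2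
    exact mul_le_mul_of_nonneg_right h2 hnv
  have hnb : nn b ≤ 2 * nn a + 2 := by
    have h1 := nn_add_le (b - a) a
    rw [sub_add_cancel] at h1
    linarith
  have hpos : 0 ≤ (d / κ) ^ 2 * nn v := by positivity
  have hnb' : nn b ≤ 2 * (2 * nn a + 2) + 2 * ((d / κ) ^ 2 * nn v) := by
    have := nn_nonneg b
    linarith
  have hnz : nn z ≤ 2 * (2 * nn a + 2) + 2 * ((d / κ) ^ 2 * nn v) := by
    have h1 := nn_add_le b (s • v)
    rw [nn_smul, ← hz] at h1
    linarith
  obtain ⟨-, -, -, t4, -, -, -⟩ := htay b z hnb' hnz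
  rw [hzb] at t4
  -- the sign of `r2 z`
  have hR : (R2 P Q b z).re = 0 := by
    rw [← R2_conj, hs, map_zero, Complex.zero_re]
  have hD : D2 P Q b z = r2 P Q b + r2 P Q z := by
    unfold D2
    rw [hR]
    ring
  have hlt : r2 P Q z < 0 := by
    have h1 : D2 P Q b z ≤ M * ((d / κ) ^ 2 * r2 P Q b ^ 2 * nn v) :=
      (le_abs_self _).trans (t4.trans (mul_le_mul_of_nonneg_left
        (mul_le_mul_of_nonneg_right hs2 hnv) hM.le))
    have h2 : M * ((d / κ) ^ 2 * r2 P Q b ^ 2 * nn v) < r2 P Q b := by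
      have h3 : r2 P Q b * (1 + M * (d / κ) ^ 2 * nn v) < 1 := by
        rw [hη, lt_div_iff₀ hden] at hb2
        exact hb2
      have h4 : r2 P Q b * (M * (d / κ) ^ 2 * nn v) < 1 := by nlinarith
      have h5 := mul_lt_mul_of_pos_left h4 hcon
      nlinarith
    rw [hD] at h1
    linarith
  have hzh : z ∈ hull (X2 P Q) := le_hull hn hd hL hlt.le
  have hzeq := hS z hzh b hbh hs
  rw [hzeq] at hlt
  exact absurd hlt (not_lt.2 hcon.le)

end Pool.Agent.Work.MP_49847a_an
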