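import Pool.Agent.Work.MP_49847a_an.Sg.NecH
import Pool.Agent.Work.MP_49847a_an.Sg.Pen

/-!
# Module NecL: necessity

Proof.
(nec_neg) `lev2 a v ev H a ≤ -nn v < 0` (`nn v > 0`, `nn_eq_zero`), so `ev H a ≠ 0`.  Suppose `ev H a > 0`; then
`lev2 a v < 0`.  The polynomial `s ↦ R2 P Q (a + s v) a` of one complex variable vanishes at `0` (`r2 a = 0`), so by the
maximum principle for `exp (- R2 P Q (a + s v) a)` on the disc of radius `t` there is `s` with `‖s‖ = t` and
`Re R2 P Q (a + s v) a ≤ 0`.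
For `w = a + s v`: `r2 w = 2 Re R2 w a + D2 a w ≤ t² lev2 a v + O(t³)` (`tay2`;
`lev2 a (s v) = t² lev2 a v`), negative for small `t`; then `w ∈ hull (X2 P Q)` (`le_hull`) and `ev H w > 0` for small `t`
(continuity), so `r2 w ev H w < 0`, contradiction to `nec_data`.  So `ev H a < 0` and `lev2 a v > 0`.
(nec_all) `nec_sep`; `Levi2` from `nec_neg`; `Inn2` at `a`: if `dr2 a v ≠ 0` for some `v`, `pen`; otherwise take any
`v ≠ 0` (`n ≠ 0`), `ev H a < 0`, so `ev H < 0` in a neighbourhood of `a` (continuity; `nn (b - a) < ε` controls the sup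
norm), and `0 ≤ r2 b ev H b` on the hull gives `r2 b ≤ 0`.
-/

namespace Pool.Agent.Work.MP_49847a_an

open MvPolynomial

variable {n k l d : ℕ} {P : Fin k → MvPolynomial (Fin n) ℂ} {Q : Fin l → MvPolynomial (Fin n) ℂ}

private theorem dd_sm {k : ℕ} (P : Fin k → MvPolynomial (Fin n) ℂ) (a v : Fin n → ℂ) (s : ℂ)
    (j : Fin k) : dd P a (s • v) j = s * dd P a v j := by
  unfold dd
  rw [Finset.mul_sum]
  refine Finset.sum_congr rfl fun i _ => ?_
  rw [Pi.smul_apply, smul_eq_mul]
  ring

private theorem lev2_sm (P : Fin k → MvPolynomial (Fin n) ℂ) (Q : Fin l → MvPolynomial (Fin n) ℂ)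
    (a v : Fin n → ℂ) (s : ℂ) : lev2 P Q a (s • v) = ‖s‖ ^ 2 * lev2 P Q a v := by
  unfold lev2
  rw [mul_sub, Finset.mul_sum, Finset.mul_sum]
  congr 1 <;>
  · refine Finset.sum_congr rfl fun j _ => ?_
    rw [dd_sm, norm_mul, mul_pow]

/-- a polynomial with value `0` at the centre has nonpositive real part at some point of a circle -/
private theorem exists_circle {f : ℂ → ℂ} (hf : Differentiable ℂ f) (h0 : f 0 = 0) {t : ℝ}
    (ht : 0 < t) : ∃ s : ℂ, ‖s‖ = t ∧ (f s).re ≤ 0 := by
  by_contra hcon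
  push Not at hcon
  have hS : IsCompact (Metric.sphere (0 : ℂ) t) := isCompact_sphere _ _
  have hne : (Metric.sphere (0 : ℂ) t).Nonempty := NormedSpace.sphere_nonempty.2 ht.le
  obtain ⟨s₀, hs₀, hmin⟩ := hS.exists_isMinOn hne
    (Complex.continuous_re.comp hf.continuous).continuousOn
  have hpos : 0 < (f s₀).re := hcon s₀ (by simpa using hs₀)
  have hg : Differentiable ℂ (fun s => Complex.exp (-f s)) := hf.neg.cexp
  have hb := Complex.norm_le_of_forall_mem_frontier_norm_le (U := Metric.ball (0 : ℂ) t)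
    (C := Real.exp (-(f s₀).re)) (z := 0) Metric.isBounded_ball hg.diffContOnCl
    (fun z hz => by
      rw [frontier_ball (0 : ℂ) ht.ne'] at hz
      rw [Complex.norm_exp, Complex.neg_re]
      exact Real.exp_le_exp.2 (neg_le_neg (hmin hz)))
    (subset_closure (Metric.mem_ball_self ht))
  rw [h0, neg_zero, Complex.exp_zero, norm_one] at hb
  have : Real.exp (-(f s₀).re) < 1 := Real.exp_lt_one_iff.2 (by linarith)
  linarith

private theorem R2_diff (P : Fin k → MvPolynomial (Fin n) ℂ) (Q : Fin l → MvPolynomial (Fin n) ℂ)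
    (a v b : Fin n → ℂ) : Differentiable ℂ (fun s : ℂ => R2 P Q (a + s • v) b) := by
  have key : ∀ p : MvPolynomial (Fin n) ℂ, Differentiable ℂ (fun s : ℂ => eval (a + s • v) p) := by
    intro p
    induction p using MvPolynomial.induction_on with
    | C c => simp
    | add p q hp hq =>
      simp only [map_add]
      exact hp.add hq
    | mul_X p i hp =>
      simp only [map_mul, eval_X, Pi.add_apply, Pi.smul_apply, smul_eq_mul]
      exact hp.mul ((differentiable_const _).add (differentiable_id.mul_const _))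
  unfold R2
  refine Differentiable.sub ?_ ?_
  · exact Differentiable.fun_sum fun j _ => (key (P j)).mul_const _
  · exact Differentiable.fun_sum fun j _ => (key (Q j)).mul_const _

theorem nec_neg (hn : n ≠ 0) (hd : 0 < d) (hL : Lead2 d P Q)
    {H : MvPolynomial (Fin n ⊕ Fin n) ℝ} (h1 : ∀ z ∈ hull (X2 P Q), 0 ≤ r2 P Q z * ev H z)
    (h2 : ∀ a ∈ X2 P Q, ∀ v, dr2 P Q a v = 0 → lev2 P Q a v * ev H a ≤ -nn v)
    {a v : Fin n → ℂ} (ha : a ∈ X2 P Q) (hv : v ≠ 0) (hdr : dr2 P Q a v = 0) :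
    ev H a < 0 ∧ 0 < lev2 P Q a v := by
  have hnv : 0 < nn v := lt_of_le_of_ne (nn_nonneg v) (fun h => hv (nn_eq_zero.1 h.symm))
  have hprod : lev2 P Q a v * ev H a < 0 := lt_of_le_of_lt (h2 a ha v hdr) (by linarith)
  rcases lt_trichotomy (ev H a) 0 with hH | hH | hH
  · refine ⟨hH, ?_⟩
    by_contra hcon
    push Not at hcon
    have := mul_nonneg_of_nonpos_of_nonpos hcon hH.le
    linarith
  · rw [hH, mul_zero] at hprod
    exact absurd hprod (lt_irrefl _)
  · exfalso
    have hlev : lev2 P Q a v < 0 := by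
      by_contra hcon
      push Not at hcon
      have := mul_nonneg hcon hH.le
      linarith
    have har : r2 P Q a = 0 := ha
    obtain ⟨M, hM, hT⟩ := tay2 P Q (2 * nn a + 2 * nn v)
    -- continuity of `ev H`
    have hop : IsOpen {w | 0 < ev H w} := isOpen_lt continuous_const (ev_continuous H)
    obtain ⟨δ, hδ, hball⟩ := Metric.isOpen_iff.1 hop a hH
    have hvn : 0 < ‖v‖ := norm_pos_iff.2 hv
    -- choose `t`
    set c : ℝ := M * (nn v * Real.sqrt (nn v)) with hc
    have hc0 : 0 < c := mul_pos hM (mul_pos hnv (Real.sqrt_pos.2 hnv))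
    obtain ⟨t, ht0, ht1, ht2, ht3⟩ : ∃ t : ℝ, 0 < t ∧ t ≤ 1 ∧ t * ‖v‖ < δ ∧
        t * c < -lev2 P Q a v := by
      refine ⟨min 1 (min (δ / (2 * ‖v‖)) (-lev2 P Q a v / (2 * c))), ?_, min_le_left _ _, ?_, ?_⟩
      · refine lt_min one_pos (lt_min ?_ ?_)
        · positivity
        · exact div_pos (by linarith) (by linarith)
      · have h3 : min 1 (min (δ / (2 * ‖v‖)) (-lev2 P Q a v / (2 * c))) ≤ δ / (2 * ‖v‖) :=
          (min_le_right _ _).trans (min_le_left _ _)
        calc _ ≤ δ / (2 * ‖v‖) * ‖v‖ := mul_le_mul_of_nonneg_right h3 hvn.le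
          _ = δ / 2 := by field_simp
          _ < δ := by linarith
      · have h3 : min 1 (min (δ / (2 * ‖v‖)) (-lev2 P Q a v / (2 * c))) ≤
            -lev2 P Q a v / (2 * c) := (min_le_right _ _).trans (min_le_right _ _)
        calc _ ≤ -lev2 P Q a v / (2 * c) * c := mul_le_mul_of_nonneg_right h3 hc0.le
          _ = -lev2 P Q a v / 2 := by field_simp
          _ < -lev2 P Q a v := by linarith
    -- choose `s`
    obtain ⟨s, hs, hre⟩ := exists_circle (R2_diff P Q a v a)
      (by simp only [zero_smul, add_zero]; rw [R2_self, har, Complex.ofReal_zero]) ht0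
    have hsw : a + s • v - a = s • v := add_sub_cancel_left _ _
    have hnsv : nn (s • v) = t ^ 2 * nn v := by rw [nn_smul, hs]
    have ht2' : t ^ 2 ≤ 1 := pow_le_one₀ ht0.le ht1
    have hna : nn a ≤ 2 * nn a + 2 * nn v := by
      have := nn_nonneg a
      linarith
    have hnw : nn (a + s • v) ≤ 2 * nn a + 2 * nn v := by
      refine (nn_add_le _ _).trans ?_
      rw [hnsv]
      nlinarith
    obtain ⟨-, -, hD, -, -, -, -⟩ := hT a (a + s • v) hna hnw
    rw [hsw, lev2_sm, hs, hnsv] at hD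
    have hsq : Real.sqrt (t ^ 2 * nn v) = t * Real.sqrt (nn v) := by
      rw [Real.sqrt_mul (sq_nonneg t), Real.sqrt_sq ht0.le]
    rw [hsq] at hD
    have hD' := (abs_le.1 hD).2
    have hD2 : D2 P Q a (a + s • v) = r2 P Q (a + s • v) - 2 * (R2 P Q (a + s • v) a).re := by
      have h3 : (R2 P Q a (a + s • v)).re = (R2 P Q (a + s • v) a).re := by
        rw [← R2_conj, Complex.conj_re]
      unfold D2
      rw [har, h3]
      ring
    have hrw : r2 P Q (a + s • v) < 0 := by
      have h4 : M * (t ^ 2 * nn v * (t * Real.sqrt (nn v))) = t ^ 2 * (t * c) := by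
        rw [hc]
        ring
      rw [h4] at hD'
      have h5 : t ^ 2 * (t * c) < t ^ 2 * (-lev2 P Q a v) :=
        mul_lt_mul_of_pos_left ht3 (by positivity)
      have h6 : (R2 P Q (a + s • v) a).re ≤ 0 := hre
      linarith
    have hHw : 0 < ev H (a + s • v) := by
      refine hball ?_
      rw [Metric.mem_ball, dist_eq_norm, hsw, norm_smul, hs]
      exact ht2
    have h7 := h1 _ (le_hull hn hd hL hrw.le)
    have h8 := mul_neg_of_neg_of_pos hrw hHw
    linarith

theorem nec_all (hn : n ≠ 0) (hd : 0 < d) (hL : Lead2 d P Q) (hQ : Quillen2 P Q) :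
    Sep2 P Q ∧ Levi2 P Q ∧ Inn2 P Q := by
  have hX := X2_compact hd hL
  have hS := nec_sep hX hQ
  obtain ⟨H, h1, h2⟩ := nec_data hX hQ
  refine ⟨hS, fun a ha v hv hdr => (nec_neg hn hd hL h1 h2 ha hv hdr).2, fun a ha => ?_⟩
  by_cases h : ∃ v, dr2 P Q a v ≠ 0
  · obtain ⟨v, hv⟩ := h
    exact pen hn hd hL hS ha hv
  · push Not at h
    have hv : (fun _ => 1 : Fin n → ℂ) ≠ 0 := by
      intro h0
      have := congrFun h0 ⟨0, Nat.pos_of_ne_zero hn⟩
      simp at this
    have hH := (nec_neg hn hd hL h1 h2 ha hv (h _)).1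
    have hop : IsOpen {w | ev H w < 0} := isOpen_lt (ev_continuous H) continuous_const
    obtain ⟨δ, hδ, hball⟩ := Metric.isOpen_iff.1 hop a hH
    refine ⟨δ ^ 2, by positivity, fun b hb hba => ?_⟩
    have hbn : ‖b - a‖ < δ := by
      refine (pi_norm_lt_iff hδ).2 fun i => ?_
      have h3 : ‖(b - a) i‖ ^ 2 ≤ nn (b - a) := by
        unfold nn
        exact Finset.single_le_sum (f := fun i => ‖(b - a) i‖ ^ 2) (fun _ _ => by positivity)
          (Finset.mem_univ i)
      exact lt_of_pow_lt_pow_left₀ 2 hδ.le (h3.trans_lt hba)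
    have hHb : ev H b < 0 := hball (by rw [Metric.mem_ball, dist_eq_norm]; exact hbn)
    by_contra hcon
    push Not at hcon
    have h4 := h1 b hb
    have h5 := mul_neg_of_pos_of_neg hcon hHb
    linarith

end Pool.Agent.Work.MP_49847a_an
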