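import Pool.Agent.Work.MP_49847a_an.Sg.Suf2
import Pool.Agent.Work.MP_49847a_an.Sg.NecL

/-!
# Assembly

-/

namespace Pool.Agent.Work.MP_49847a_an

open MvPolynomial

variable {n k l d : ℕ} {P : Fin k → MvPolynomial (Fin n) ℂ} {Q : Fin l → MvPolynomial (Fin n) ℂ}

theorem quillen2_iff (hL : Lead2 d P Q) : Quillen2 P Q ↔ Sep2 P Q ∧ Levi2 P Q ∧ Inn2 P Q := by
  by_cases hn : n = 0
  · obtain ⟨h1, h2, h3, h4⟩ := dim_zero (P := P) (Q := Q) hn
    exact ⟨fun _ => ⟨h2, h3, h4⟩, fun _ => h1⟩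
  constructor
  · intro hQ
    rcases Nat.eq_zero_or_pos d with rfl | hd
    · have hX := (suf2_zero hn hL).2
      refine ⟨nec_sep (by rw [hX]; exact isCompact_empty) hQ, ?_, ?_⟩
      · intro a ha
        rw [hX] at ha
        exact ha.elim
      · intro a ha
        rw [hX] at ha
        exact ha.elim
    · exact nec_all hn hd hL hQ
  · rintro ⟨h1, h2, h3⟩
    exact suf2 hn hL h1 h2 h3

theorem quillen2_smooth (hL : Lead2 d P Q) (hs : Smooth2 P Q) :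
    Quillen2 P Q ↔ Sep2 P Q ∧ Levi2 P Q := by
  rw [quillen2_iff hL]
  constructor
  · rintro ⟨h1, h2, _⟩
    exact ⟨h1, h2⟩
  · rintro ⟨h1, h2⟩
    refine ⟨h1, h2, fun a ha => ?_⟩
    by_cases hn : n = 0
    · exact (dim_zero (P := P) (Q := Q) hn).2.2.2 a ha
    rcases Nat.eq_zero_or_pos d with rfl | hd
    · rw [(suf2_zero hn hL).2] at ha
      exact ha.elim
    · obtain ⟨v, hv⟩ := hs a ha
      exact pen hn hd hL h1 ha hv

theorem sums_iff (hG : Generates2 P Q) : SumsOn (X2 P Q) ↔ Quillen2 P Q := by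
  constructor
  · intro hS R hR
    obtain ⟨m, p, hp⟩ := hS R hR
    obtain ⟨F, hF⟩ := exists_nrm p
    obtain ⟨H, hH⟩ := hG (R - F) (fun z hz => by rw [ev_sub, hF, hp z hz, sub_self])
    refine ⟨m, p, H, fun z => ?_⟩
    have := hH z
    rw [ev_sub, hF] at this
    linarith
  · intro hQ R hR
    obtain ⟨m, p, H, h⟩ := hQ R hR
    refine ⟨m, p, fun z hz => ?_⟩
    rw [h z, show r2 P Q z = 0 from hz]
    ring

theorem main2 (hL : Lead2 d P Q) :
    (Quillen2 P Q ↔ Sep2 P Q ∧ Levi2 P Q ∧ Inn2 P Q) ∧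
    (Smooth2 P Q → (Quillen2 P Q ↔ Sep2 P Q ∧ Levi2 P Q)) ∧
    (Generates2 P Q → (SumsOn (X2 P Q) ↔ Quillen2 P Q)) :=
  ⟨quillen2_iff hL, quillen2_smooth hL, sums_iff⟩

end Pool.Agent.Work.MP_49847a_an
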