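import Pool.Agent.Work.MP_49847a_an.Sg.SDefs

/-!
# Module SuZ: degree zero

Proof.  `n ≠ 0`, `d = 0`: `P_j`, `Q_j` are constants (`totalDegree = 0`), `r2` is a constant, which is
`≥ δ > 0` (`Lead2` at a point with `nn z ≥ R₀`, it exists since `n ≠ 0`).  So `X2 P Q` is empty and for every `R`:
`H = C c₀⁻¹ * R`, the empty family (`m = 0`).
(dim_zero) `n = 0`: `ℂ⁰` is a point `z₀`.  `Sep2`, `Levi2`, `Inn2`: two points are equal, `v ≠ 0` is impossible, and
`b = a` with `r2 a = 0`.  `Quillen2`: if `r2 z₀ = 0`, `R(z₀) > 0` is `|√R|²` (`nrm_const`); if not, `H = C (ev R z₀/r2 z₀)`,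
empty family.
-/

namespace Pool.Agent.Work.MP_49847a_an

open MvPolynomial

variable {n k l d : ℕ} {P : Fin k → MvPolynomial (Fin n) ℂ} {Q : Fin l → MvPolynomial (Fin n) ℂ}

private theorem ev_zero_deg {f : MvPolynomial (Fin n) ℂ} (hf : f.totalDegree ≤ 0)
    (z w : Fin n → ℂ) : eval z f = eval w f := by
  have h : f.totalDegree = 0 := Nat.le_zero.mp hf
  rw [totalDegree_eq_zero_iff_eq_C] at h
  rw [h]
  simp

theorem suf2_zero (hn : n ≠ 0) (hL : Lead2 0 P Q) : Quillen2 P Q ∧ X2 P Q = ∅ := by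
  obtain ⟨hP, hQ, δ, hδ, R₀, hR⟩ := hL
  have hc : ∀ z w : Fin n → ℂ, r2 P Q z = r2 P Q w := by
    intro z w
    unfold r2 nrm
    congr 1
    · exact Finset.sum_congr rfl fun j _ => by rw [ev_zero_deg (hP j) z w]
    · exact Finset.sum_congr rfl fun j _ => by rw [ev_zero_deg (hQ j) z w]
  have hpos : 0 < r2 P Q 0 := by
    obtain ⟨i⟩ : Nonempty (Fin n) := ⟨⟨0, Nat.pos_of_ne_zero hn⟩⟩
    have h1 : R₀ ≤ nn (Pi.single i (((|R₀| + 1 : ℝ)) : ℂ) : Fin n → ℂ) := by
      unfold nn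
      have h2 := Finset.single_le_sum
        (f := fun j => ‖(Pi.single i (((|R₀| + 1 : ℝ)) : ℂ) : Fin n → ℂ) j‖ ^ 2)
        (fun j _ => by positivity) (Finset.mem_univ i)
      refine le_trans ?_ h2
      simp only [Pi.single_eq_same, Complex.norm_real, Real.norm_eq_abs]
      rw [sq_abs]
      nlinarith [abs_nonneg R₀, le_abs_self R₀]
    have h2 := hR _ h1
    rw [pow_zero, mul_one, hc _ 0] at h2
    linarith
  have hX : X2 P Q = ∅ := by
    ext z
    simp only [X2, Set.mem_ofPred_eq, Set.mem_empty_iff_false, iff_false]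
    rw [hc z 0]
    exact hpos.ne'
  refine ⟨fun R _ => ⟨0, fun j => j.elim0, C (r2 P Q 0)⁻¹ * R, fun z => ?_⟩, hX⟩
  rw [ev_mul, ev_C, hc z 0]
  have : nrm (fun j : Fin 0 => (j.elim0 : MvPolynomial (Fin n) ℂ)) z = 0 := by
    simp [nrm]
  rw [this]
  field_simp
  ring

theorem dim_zero (hn : n = 0) : Quillen2 P Q ∧ Sep2 P Q ∧ Levi2 P Q ∧ Inn2 P Q := by
  subst hn
  refine ⟨fun R hR => ?_, fun a _ b _ _ => Subsingleton.elim _ _, fun a _ v hv _ => ?_,
    fun a ha => ⟨1, one_pos, fun b _ _ => ?_⟩⟩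
  · have hz : ∀ z : Fin 0 → ℂ, z = 0 := fun z => Subsingleton.elim _ _
    by_cases h : r2 P Q 0 = 0
    · have h1 : 0 < ev R 0 := hR 0 h
      obtain ⟨s, hs⟩ := nrm_const (n := 0) h1.le
      refine ⟨1, s, 0, fun z => ?_⟩
      rw [hs z, hz z, h, zero_mul, add_zero]
    · refine ⟨0, fun j => j.elim0, C (ev R 0 / r2 P Q 0), fun z => ?_⟩
      rw [ev_C, hz z]
      have : nrm (fun j : Fin 0 => (j.elim0 : MvPolynomial (Fin 0) ℂ)) 0 = 0 := by
        simp [nrm]
      rw [this]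
      field_simp
      ring
  · exact absurd (Subsingleton.elim v 0) hv
  · have : b = a := Subsingleton.elim _ _
    rw [this]
    exact le_of_eq ha

end Pool.Agent.Work.MP_49847a_an
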