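import Pool.Agent.Work.MP_49847a_an.Sg.BlkA
import Pool.Agent.Work.MP_49847a_an.Sg.Mrg
import Pool.Agent.Work.MP_49847a_an.Sg.CAff
import Pool.Agent.Work.MP_49847a_an.Sg.SuA
import Pool.Agent.Work.MP_49847a_an.Sg.SuK
import Pool.Agent.Work.MP_49847a_an.Sg.SuZ

/-!
# Sufficiency (assembly)
-/

namespace Pool.Agent.Work.MP_49847a_an

open MvPolynomial

variable {n k l d : ℕ} {P : Fin k → MvPolynomial (Fin n) ℂ} {Q : Fin l → MvPolynomial (Fin n) ℂ}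

theorem suf2 (hn : n ≠ 0) (hL : Lead2 d P Q) (hS : Sep2 P Q) (hl : Levi2 P Q) (hI : Inn2 P Q) :
    Quillen2 P Q := by
  rcases Nat.eq_zero_or_pos d with rfl | hd
  · exact (suf2_zero hn hL).1
  obtain ⟨ρ, hρ⟩ := exists_r2 P Q
  obtain ⟨m, e, ε, r₀, r₁, c, h, W, G, hA⟩ := blkA hn hd hL hS hl hI hρ
  obtain ⟨κ, K, C₀, c', hK, _, hc', hDg, h1, h2⟩ := merge hA
  obtain ⟨N, ε', m', g, hN, hε', hg⟩ := cd hK hDg hc' h1 h2
  intro R hR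
  obtain ⟨m'', p, G', hG', hp⟩ := sj_kd (sj_arch hε' (Nat.mul_pos hK hN) hg)
    (R := R) (fun z hz => hR z (by rw [hρ] at hz; exact hz))
  obtain ⟨H, hH⟩ := Ideal.mem_span_singleton'.1 hG'
  refine ⟨m'', p, H, fun z => ?_⟩
  rw [hp z, ← hH, ev_mul, hρ]
  ring

end Pool.Agent.Work.MP_49847a_an
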